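import Pool.Agent.CAL.Stmts

/-!
Squad CAL, module CAL: Part III, the conclusion.
-/

set_option autoImplicit false

namespace Pool.Agent.CAL

open MeasureTheory Set Metric Filter Topology
open scoped ENNReal
open Pool.Agent.COB

theorem cal_proof (hMIN : Stmt_MIN) (hPAI : Stmt_PAI) (hSPL : Stmt_SPL) (hSNG : Stmt_SNG)
    (hHTV : Stmt_HTV) : Stmt_CAL := by
  intro d n A f v C Z hCl hD hZB hZ hz1 hz2
  refine ⟨(hSPL d).1, ?_, (hPAI d n A f v C hD).2.1, (hPAI d n A f v C hD).2.2,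
    hMIN d n A f v C hCl hD, ?_⟩
  · intro p _
    refine ⟨univ, isOpen_univ, mem_univ _, fun x => f (hz x), ?_, fun x _ => rfl⟩
    refine ContDiff.contDiffOn (hD.c3.comp ?_)
    refine contDiff_pi.2 fun j => ?_
    unfold hz
    fun_prop
  · refine lt_of_lt_of_le hZ (le_trans (measure_mono ?_) (hHTV d _))
    intro x hx
    refine ⟨mk x 0, hSNG d n v x (hZB hx) (hz1 x hx) (hz2 x hx), ?_⟩
    funext j
    simp [hz, mk, Fin.snoc_castSucc]

end Pool.Agent.CAL
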