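import Pool.Agent.CAL.Stmts

/-!
Squad CAL, module CLM: skew Clifford matrices exist.
-/

set_option autoImplicit false

namespace Pool.Agent.CAL

open MeasureTheory Set Metric Filter Topology
open scoped ENNReal
open Pool.Agent.COB

namespace CLM_

noncomputable section

/-- Clifford structure on an inner product space -/
structure Cg {d : ℕ} {V : Type} [NormedAddCommGroup V] [InnerProductSpace ℝ V]
    (A : Fin d → (V →ₗ[ℝ] V)) : Prop where
  skew : ∀ j x y, inner ℝ (A j x) y = -inner ℝ x (A j y)
  sq : ∀ j x, A j (A j x) = -x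
  anti : ∀ i j, i ≠ j → ∀ x, A i (A j x) = -A j (A i x)

/-- transport -/
theorem transport {d N : ℕ} {V : Type} [NormedAddCommGroup V] [InnerProductSpace ℝ V]
    (L : V ≃ₗᵢ[ℝ] E N) (A : Fin d → (V →ₗ[ℝ] V)) (hA : Cg A) :
    ∃ B : Fin d → (E N →L[ℝ] E N), Cl B := by
  refine ⟨fun j => LinearMap.toContinuousLinearMap
    (L.toLinearEquiv.toLinearMap.comp ((A j).comp L.symm.toLinearEquiv.toLinearMap)), ?_, ?_, ?_⟩
  · intro j x y
    have h := hA.skew j (L.symm x) (L.symm y)
    have e1 : inner ℝ (L (A j (L.symm x))) y = inner ℝ (A j (L.symm x)) (L.symm y) := by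
      rw [← L.inner_map_map (A j (L.symm x)) (L.symm y), L.apply_symm_apply]
    have e2 : inner ℝ x (L (A j (L.symm y))) = inner ℝ (L.symm x) (A j (L.symm y)) := by
      rw [← L.inner_map_map (L.symm x) (A j (L.symm y)), L.apply_symm_apply]
    show inner ℝ (L (A j (L.symm x))) y = -inner ℝ x (L (A j (L.symm y)))
    rw [e1, e2, h]
  · intro j x
    show L (A j (L.symm (L (A j (L.symm x))))) = -x
    rw [L.symm_apply_apply, hA.sq, map_neg, L.apply_symm_apply]
  · intro i j hij x
    show L (A i (L.symm (L (A j (L.symm x))))) = -L (A j (L.symm (L (A i (L.symm x)))))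
    rw [L.symm_apply_apply, L.symm_apply_apply, hA.anti i j hij, map_neg]

/-- the diagonal operator `diag(T, -T)` -/
def dg {V : Type} [NormedAddCommGroup V] [InnerProductSpace ℝ V] (T : V →ₗ[ℝ] V) :
    WithLp 2 (V × V) →ₗ[ℝ] WithLp 2 (V × V) where
  toFun x := WithLp.toLp 2 (T x.fst, -T x.snd)
  map_add' x y := by
    apply (WithLp.equiv 2 (V × V)).injective
    ext <;> simp [add_comm]
  map_smul' c x := by
    apply (WithLp.equiv 2 (V × V)).injective
    ext <;> simp

/-- the operator `(x, y) ↦ (-y, x)` -/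
def rt (V : Type) [NormedAddCommGroup V] [InnerProductSpace ℝ V] :
    WithLp 2 (V × V) →ₗ[ℝ] WithLp 2 (V × V) where
  toFun x := WithLp.toLp 2 (-x.snd, x.fst)
  map_add' x y := by
    apply (WithLp.equiv 2 (V × V)).injective
    ext <;> simp [add_comm]
  map_smul' c x := by
    apply (WithLp.equiv 2 (V × V)).injective
    ext <;> simp

theorem step {d : ℕ} {V : Type} [NormedAddCommGroup V] [InnerProductSpace ℝ V]
    (A : Fin d → (V →ₗ[ℝ] V)) (hA : Cg A) :
    Cg (V := WithLp 2 (V × V)) (Fin.snoc (α := fun _ => WithLp 2 (V × V) →ₗ[ℝ] WithLp 2 (V × V))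
      (fun j => dg (A j)) (rt V)) := by
  refine ⟨?_, ?_, ?_⟩
  · intro j
    refine Fin.lastCases ?_ (fun j => ?_) j
    · intro x y
      rw [Fin.snoc_last, WithLp.prod_inner_apply, WithLp.prod_inner_apply]
      show inner ℝ (-x.snd) y.fst + inner ℝ x.fst y.snd =
        -(inner ℝ x.fst (-y.snd) + inner ℝ x.snd y.fst)
      rw [inner_neg_left, inner_neg_right]
      ring
    · intro x y
      rw [Fin.snoc_castSucc, WithLp.prod_inner_apply, WithLp.prod_inner_apply]
      show inner ℝ (A j x.fst) y.fst + inner ℝ (-A j x.snd) y.snd =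
        -(inner ℝ x.fst (A j y.fst) + inner ℝ x.snd (-A j y.snd))
      rw [inner_neg_left, inner_neg_right, hA.skew, hA.skew]
      ring
  · intro j
    refine Fin.lastCases ?_ (fun j => ?_) j
    · intro x
      rw [Fin.snoc_last]
      apply (WithLp.equiv 2 (V × V)).injective
      ext <;> simp [rt]
    · intro x
      rw [Fin.snoc_castSucc]
      apply (WithLp.equiv 2 (V × V)).injective
      ext <;> simp [dg, hA.sq]
  · intro i j
    refine Fin.lastCases ?_ (fun i => ?_) i
    · refine Fin.lastCases ?_ (fun j => ?_) j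
      · intro h; exact absurd rfl h
      · intro _ x
        rw [Fin.snoc_castSucc, Fin.snoc_last]
        apply (WithLp.equiv 2 (V × V)).injective
        ext <;> simp [dg, rt]
    · refine Fin.lastCases ?_ (fun j => ?_) j
      · intro _ x
        rw [Fin.snoc_castSucc, Fin.snoc_last]
        apply (WithLp.equiv 2 (V × V)).injective
        ext <;> simp [dg, rt]
      · intro h x
        have hij : i ≠ j := fun e => h (by rw [e])
        rw [Fin.snoc_castSucc, Fin.snoc_castSucc]
        apply (WithLp.equiv 2 (V × V)).injective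
        ext
        · simp [dg, hA.anti i j hij]
        · simp [dg, hA.anti i j hij]

theorem iso (N : ℕ) : Nonempty (WithLp 2 (E N × E N) ≃ₗᵢ[ℝ] E (N * 2)) := by
  have h : Module.finrank ℝ (WithLp 2 (E N × E N)) = N * 2 := by
    rw [(WithLp.linearEquiv 2 ℝ (E N × E N)).finrank_eq]
    simp [Module.finrank_prod]
    ring
  exact ⟨((stdOrthonormalBasis ℝ (WithLp 2 (E N × E N))).reindex (finCongr h)).repr⟩

end

end CLM_

open CLM_ in
theorem clm_proof : Stmt_CLM := by
  intro d
  induction d with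
  | zero =>
    exact ⟨fun j => j.elim0, fun j => j.elim0, fun j => j.elim0, fun j => j.elim0⟩
  | succ d ih =>
    obtain ⟨A, hA⟩ := ih
    obtain ⟨L⟩ := iso (2 ^ d)
    have h1 : Cg (fun j => ((A j : E (2 ^ d) →L[ℝ] E (2 ^ d)) : E (2 ^ d) →ₗ[ℝ] E (2 ^ d))) :=
      ⟨hA.skew, hA.sq, hA.anti⟩
    exact transport L _ (step _ h1)

end Pool.Agent.CAL
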