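import Pool.Agent.CAL.Stmts

set_option autoImplicit false

namespace Pool.Agent.CAL

open MeasureTheory Set Metric Filter Topology
open scoped ENNReal
open Pool.Agent.COB

namespace CPG_

variable {d n : ℕ}

lemma GG_le {n Q : ℕ} (a b : Fin Q → E n) :
    GG (tup a) (tup b) ≤ Real.sqrt (∑ i, ‖a i - b i‖ ^ 2) := by
  apply csInf_le
  · exact ⟨0, by rintro r ⟨a, b, -, -, rfl⟩; exact Real.sqrt_nonneg _⟩
  · exact ⟨a, b, rfl, rfl, rfl⟩

lemma GG_le2 {n : ℕ} (p q p' q' : E n) :
    GG (tup ![p, q]) (tup ![p', q']) ≤ ‖p - p'‖ + ‖q - q'‖ := by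
  refine (GG_le _ _).trans ?_
  rw [Fin.sum_univ_two]
  simp only [Matrix.cons_val_zero, Matrix.cons_val_one]
  apply Real.sqrt_le_iff.2
  constructor
  · positivity
  · nlinarith [norm_nonneg (p - p'), norm_nonneg (q - q')]

lemma cns {n : ℕ} (u w : E n) : (u ::ₛ tup ![w] : Sym (E n) 2) = tup ![w, u] := by
  apply Subtype.ext
  show (u ::ₘ (Multiset.map ![w] Finset.univ.val)) = Multiset.map ![w, u] Finset.univ.val
  simp only [Fin.univ_val_map, List.ofFn_succ, List.ofFn_zero, Matrix.cons_val_zero,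
    Matrix.cons_val_succ]
  exact Multiset.cons_swap u w 0

lemma lst_spec {Q : ℕ} (T : Sym (E n) Q) : tup (lst T) = T :=
  Classical.choose_spec (exists_tup T)

lemma lst_one (T : Sym (E n) 1) : tup ![lst T 0] = T := by
  have h := lst_spec T
  have h2 : lst T = ![lst T 0] := by
    funext i
    fin_cases i
    rfl
  rw [h2] at h
  exact h

lemma one_eq (hF : Stmt_GGF) (S T : Sym (E n) 1) : ‖lst S 0 - lst T 0‖ = GG S T := by
  obtain ⟨σ, hσ⟩ := (hF 1 n ![lst S 0] ![lst T 0]).2
  rw [lst_one, lst_one] at hσ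
  rw [hσ]
  simp [Real.sqrt_sq]

lemma io_le (hM : Stmt_GGM) (hI : Stmt_IOT) (S T : Sym (E n) 2) (c : Ix n) :
    |io S c - io T c| ≤ GG S T := by
  have h1 := hI n S T
  have h2 : (io S c - io T c) ^ 2 ≤ ∑ c, (io S c - io T c) ^ 2 :=
    Finset.single_le_sum (f := fun c => (io S c - io T c) ^ 2) (fun _ _ => sq_nonneg _)
      (Finset.mem_univ c)
  exact abs_le_of_sq_le_sq (h2.trans h1) (hM 2 n S T T).1

lemma hz_cont : Continuous (hz : E (d + 1) → (Fin d → ℝ)) := by
  unfold hz
  fun_prop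

lemma yy_cont : Continuous (yy : E (d + 1) → ℝ) := by
  unfold yy
  fun_prop

lemma om_open : IsOpen (Om d) := by
  have h1 : IsOpen (Bx d) := by
    have : Bx d = Set.pi univ (fun _ => Ioo (0 : ℝ) 1) := by
      ext x; simp [Bx]
    rw [this]
    exact isOpen_set_pi finite_univ fun _ _ => isOpen_Ioo
  exact (h1.preimage hz_cont).inter (isOpen_Ioo.preimage yy_cont)

lemma op_open : IsOpen (Op d) := om_open.inter (isOpen_lt continuous_const yy_cont)

lemma omi_open : IsOpen (Omi d) := om_open.inter (isOpen_lt yy_cont continuous_const)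

lemma ga_meas : MeasurableSet (ga d) :=
  om_open.measurableSet.inter (measurableSet_eq_fun yy_cont.measurable measurable_const)

lemma om_vol : volume (Om d) < ⊤ := by
  refine Bornology.IsBounded.measure_lt_top ?_
  refine (isBounded_closedBall (x := (0 : E (d + 1))) (r := ∑ _j : Fin (d + 1), (1 : ℝ))).subset ?_
  intro x hx
  rw [mem_closedBall, dist_zero_right]
  have h : x = ∑ a, x a • (bs a : E (d + 1)) := by
    ext i
    simp [Pi.single_apply]
  calc ‖x‖ = ‖∑ a, x a • (bs a : E (d + 1))‖ := by rw [← h]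
    _ ≤ ∑ a, ‖x a • (bs a : E (d + 1))‖ := norm_sum_le _ _
    _ = ∑ a, |x a| := by
        refine Finset.sum_congr rfl fun a _ => ?_
        rw [norm_smul]
        simp [bs]
    _ ≤ ∑ _j : Fin (d + 1), (1 : ℝ) := by
        refine Finset.sum_le_sum fun a _ => ?_
        refine Fin.lastCases ?_ (fun j => ?_) a
        · have := hx.2
          exact abs_le.2 ⟨this.1.le, this.2.le⟩
        · have := hx.1 j
          exact abs_le.2 ⟨by linarith [this.1, show x j.castSucc = hz x j from rfl], this.2.le⟩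

lemma vv_ga {f : (Fin d → ℝ) → E n} {v : (Fin d → ℝ) × ℝ → E n} (h0 : ∀ x, v (x, 0) = f x)
    {p : E (d + 1)} (hp : p ∈ ga d) : VV v p = f (hz p) := by
  unfold VV
  rw [hp.2, max_self, h0]

/-- averages of a function bounded by `K r` on balls -/
lemma trace_tendsto {K : ℝ} (U : Set (E (d + 1))) (p : E (d + 1)) (F : E (d + 1) → ℝ)
    (hF : ∀ x, F x ≤ K * ‖x - p‖) (hK : 0 ≤ K) :
    Tendsto (fun r : ℝ => (∫⁻ x in ball p r ∩ U, ENNReal.ofReal (F x)) /
      ENNReal.ofReal (r ^ (d + 1))) (𝓝[>] 0) (𝓝 0) := by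
  set c := (volume : Measure (E (d + 1))) (ball 0 1) with hc
  have hc' : c ≠ ⊤ := measure_ball_lt_top.ne
  have hlim : Tendsto (fun r : ℝ => ENNReal.ofReal (K * r) * c) (𝓝[>] 0) (𝓝 0) := by
    have h1 : Tendsto (fun r : ℝ => ENNReal.ofReal (K * r)) (𝓝[>] 0) (𝓝 (ENNReal.ofReal (K * 0))) :=
      (ENNReal.continuous_ofReal.comp (continuous_const.mul continuous_id)).continuousAt.tendsto.mono_left
        nhdsWithin_le_nhds
    have h2 := ENNReal.Tendsto.mul_const h1 (Or.inr hc')
    simpa using h2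
  refine tendsto_of_tendsto_of_tendsto_of_le_of_le' tendsto_const_nhds hlim
    (Eventually.of_forall fun _ => zero_le) ?_
  filter_upwards [self_mem_nhdsWithin] with r hr
  have hr : 0 < r := hr
  have hrp : 0 < r ^ (d + 1) := pow_pos hr _
  rw [ENNReal.div_le_iff (by simpa using hrp) ENNReal.ofReal_ne_top]
  calc ∫⁻ x in ball p r ∩ U, ENNReal.ofReal (F x)
      ≤ ∫⁻ x in ball p r, ENNReal.ofReal (F x) := lintegral_mono_set inter_subset_left
    _ ≤ ∫⁻ _ in ball p r, ENNReal.ofReal (K * r) := by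
        refine setLIntegral_mono' measurableSet_ball fun x hx => ?_
        refine ENNReal.ofReal_le_ofReal ((hF x).trans ?_)
        rw [mem_ball, dist_eq_norm] at hx
        exact mul_le_mul_of_nonneg_left hx.le hK
    _ = ENNReal.ofReal (K * r) * (ENNReal.ofReal (r ^ (d + 1)) * c) := by
        rw [setLIntegral_const, Measure.addHaar_ball _ _ hr.le]
        simp [hc]
    _ = ENNReal.ofReal (K * r) * c * ENNReal.ofReal (r ^ (d + 1)) := by ring

lemma congr {m : ℕ} {U : Set (E m)} {f f' : E m → ℝ} {g g' : Fin m → E m → ℝ}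
    (hU : IsOpen U) (h : W12 U f g) (hf : ∀ x ∈ U, f x = f' x)
    (hg : ∀ j, ∀ x ∈ U, g j x = g' j x) : W12 U f' g' := by
  refine ⟨h.f2.ae_eq ?_, fun j => (h.g2 j).ae_eq ?_, ?_⟩
  · exact (ae_restrict_mem hU.measurableSet).mono fun x hx => hf x hx
  · exact (ae_restrict_mem hU.measurableSet).mono fun x hx => hg j x hx
  · intro ζ hζ j
    have h1 : ∀ x, x ∉ U → ζ x = 0 := fun x hx =>
      image_eq_zero_of_notMem_tsupport (fun h => hx (hζ.2.2 h))
    have h2 : ∀ x, x ∉ U → fderiv ℝ ζ x = 0 := fun x hx => by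
      by_contra hne
      exact hx (hζ.2.2 (support_fderiv_subset ℝ hne))
    have e1 : ∫ x, f' x * fderiv ℝ ζ x (bs j) = ∫ x, f x * fderiv ℝ ζ x (bs j) := by
      refine integral_congr_ae (Eventually.of_forall fun x => ?_)
      by_cases hx : x ∈ U
      · simp only [hf x hx]
      · simp [h2 x hx]
    have e2 : ∫ x, g' j x * ζ x = ∫ x, g j x * ζ x := by
      refine integral_congr_ae (Eventually.of_forall fun x => ?_)
      by_cases hx : x ∈ U
      · simp only [hg j x hx]
      · simp [h1 x hx]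
    rw [e1, e2]
    exact h.ibp ζ hζ j

lemma restr {m : ℕ} {U U' : Set (E m)} {f : E m → ℝ} {g : Fin m → E m → ℝ}
    (h : W12 U f g) (hU : U' ⊆ U) : W12 U' f g :=
  ⟨h.f2.mono_measure (Measure.restrict_mono hU le_rfl),
    fun j => (h.g2 j).mono_measure (Measure.restrict_mono hU le_rfl),
    fun ζ hζ j => h.ibp ζ ⟨hζ.1, hζ.2.1, hζ.2.2.trans hU⟩ j⟩

end CPG_

open CPG_ in
theorem cpg_proof (hTWO : Stmt_TWO) (hVVW : Stmt_VVW) (hIOT : Stmt_IOT) (_hIOV : Stmt_IOV)
    (hGGF : Stmt_GGF) (hGGM : Stmt_GGM) (hGLU : Stmt_GLU) : Stmt_CPG := by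
  intro d n A f v C hp hm hD hpair G1 P hG1 hP
  obtain ⟨⟨K, hK⟩, R, hR, -, -⟩ := hVVW d n A f v C hD
  have hK' : ∀ x y : E (d + 1), ‖VV v x - VV v y‖ ≤ |K| * ‖x - y‖ := fun x y =>
    (hK x y).trans (mul_le_mul_of_nonneg_right (le_abs_self _) (norm_nonneg _))
  have hsub : Omi d ⊆ Om d := fun x hx => hx.1
  obtain ⟨G2, hG2⟩ := hTWO (d + 1) n (Omi d) (fun x => lst (hm x) 0) (VV v) P R omi_open
    (lt_of_le_of_lt (measure_mono hsub) om_vol) hP (fun a => restr (hR a) hsub)
  obtain ⟨τ, hτ1, hτ2⟩ := hpair.bd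
  refine ⟨fun c j x => if 0 < yy x then G1 c j x else G2 c j x, fun c => ?_, fun c => ?_,
    fun c j => ?_⟩
  · refine hGLU d _ (G1 c) (G2 c) (fun p => io (f (hz p) ::ₛ τ p : Sym (E n) 2) c) ?_ ?_ ?_
    · refine congr op_open (hG1 c) (fun x hx => ?_) (fun j x hx => rfl)
      rw [if_pos hx.2]
    · refine congr omi_open (hG2 c) (fun x hx => ?_) (fun j x hx => rfl)
      rw [if_neg (not_lt.2 (le_of_lt hx.2))]
    · filter_upwards [hτ1, hτ2, ae_restrict_mem ga_meas] with p h1 h2 hpg
      constructor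
      · refine tendsto_of_tendsto_of_tendsto_of_le_of_le tendsto_const_nhds h2
          (fun _ => zero_le) (fun r => ?_)
        refine ENNReal.div_le_div_right ?_ _
        refine setLIntegral_mono' (measurableSet_ball.inter op_open.measurableSet) fun x hx => ?_
        refine ENNReal.ofReal_le_ofReal ?_
        rw [if_pos hx.2.2]
        exact io_le hGGM hIOT _ _ c
      · have h3 := trace_tendsto (K := |K|) (Omi d) p (fun x => |K| * ‖x - p‖)
          (fun x => le_rfl) (abs_nonneg _)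
        have h4 := h1.add h3
        rw [add_zero] at h4
        refine tendsto_of_tendsto_of_tendsto_of_le_of_le tendsto_const_nhds h4
          (fun _ => zero_le) (fun r => ?_)
        rw [← ENNReal.add_div]
        refine ENNReal.div_le_div_right ?_ _
        rw [← lintegral_add_right _ (by fun_prop)]
        refine setLIntegral_mono' (measurableSet_ball.inter omi_open.measurableSet) fun x hx => ?_
        rw [← ENNReal.ofReal_add (hGGM _ _ _ _ (hm x)).1 (by positivity)]
        refine ENNReal.ofReal_le_ofReal ?_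
        rw [if_neg (not_lt.2 (le_of_lt hx.2.2))]
        refine (io_le hGGM hIOT _ _ c).trans ?_
        have h5 : (f (hz p) ::ₛ τ p : Sym (E n) 2) = tup ![lst (τ p) 0, VV v p] := by
          rw [← cns, lst_one, vv_ga hD.v0 hpg]
        rw [h5]
        refine (GG_le2 _ _ _ _).trans ?_
        rw [one_eq hGGF]
        exact add_le_add le_rfl (hK' x p)
  · refine congr omi_open (hG2 c) (fun x hx => rfl) (fun j x hx => ?_)
    exact (if_neg (not_lt.2 (le_of_lt hx.2))).symm
  · refine Eventually.of_forall fun x hx => ?_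
    exact if_pos hx.2

end Pool.Agent.CAL
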