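import Pool.Agent.CAL.Stmts

set_option autoImplicit false

namespace Pool.Agent.CAL

open MeasureTheory Set Metric Filter Topology
open scoped ENNReal ContDiff
open Pool.Agent.COB

namespace CST_

noncomputable section

variable {d : ℕ}

theorem hz_mk (x : Fin d → ℝ) (t : ℝ) : hz (mk x t) = x := by
  funext j; simp [hz, mk]

theorem yy_mk (x : Fin d → ℝ) (t : ℝ) : yy (mk x t) = t := by
  simp [yy, mk]

theorem mk_eta (x : E (d + 1)) : mk (hz x) (yy x) = x := by
  ext j
  refine Fin.lastCases ?_ (fun i => ?_) j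
  · simp [yy, mk]
  · simp [hz, mk]

theorem hz_cont : Continuous (hz : E (d + 1) → (Fin d → ℝ)) := by
  unfold hz; fun_prop

theorem yy_cont : Continuous (yy : E (d + 1) → ℝ) := by
  unfold yy; fun_prop

theorem mk_cont : Continuous (fun p : (Fin d → ℝ) × ℝ => mk p.1 p.2) := by
  unfold mk
  refine (PiLp.continuous_toLp 2 _).comp ?_
  refine continuous_pi fun j => ?_
  refine Fin.lastCases ?_ (fun i => ?_) j
  · simp only [Fin.snoc_last]; fun_prop
  · simp only [Fin.snoc_castSucc]; fun_prop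

/-- the product structure -/
def Ph (d : ℕ) : E (d + 1) ≃ₜ (Fin d → ℝ) × ℝ where
  toFun x := (hz x, yy x)
  invFun p := mk p.1 p.2
  left_inv x := mk_eta x
  right_inv p := by
    show (hz (mk p.1 p.2), yy (mk p.1 p.2)) = p
    rw [hz_mk, yy_mk]
  continuous_toFun := hz_cont.prodMk yy_cont
  continuous_invFun := mk_cont

theorem mp (d : ℕ) : MeasurePreserving (Ph d) volume (volume.prod volume) := by
  have h1 : MeasurePreserving (WithLp.ofLp : E (d + 1) → (Fin (d + 1) → ℝ)) volume volume :=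
    PiLp.volume_preserving_ofLp (ι := Fin (d + 1))
  have h2 := volume_preserving_piFinSuccAbove (fun _ : Fin (d + 1) => ℝ) (Fin.last d)
  have h3 : MeasurePreserving (Prod.swap : ℝ × (Fin d → ℝ) → (Fin d → ℝ) × ℝ)
      (volume.prod volume) (volume.prod volume) := Measure.measurePreserving_swap
  have h4 := h3.comp (h2.comp h1)
  have h5 : (Ph d : E (d + 1) → (Fin d → ℝ) × ℝ) = Prod.swap ∘
      (MeasurableEquiv.piFinSuccAbove (fun _ : Fin (d + 1) => ℝ) (Fin.last d)) ∘
      (WithLp.ofLp : E (d + 1) → (Fin (d + 1) → ℝ)) := by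
    funext x
    apply Prod.ext
    · funext j
      simp [Ph, hz, MeasurableEquiv.piFinSuccAbove, Fin.init, Fin.insertNthEquiv]
    · simp [Ph, yy, MeasurableEquiv.piFinSuccAbove, Fin.insertNthEquiv]
  rw [h5]
  exact h4

theorem me (d : ℕ) : MeasurableEmbedding (Ph d) := (Ph d).measurableEmbedding


/-! ### test functions -/

theorem tsup_prod (η : (Fin d → ℝ) → ℝ) (Ψ : ℝ → ℝ) :
    tsupport (fun p : (Fin d → ℝ) × ℝ => η p.1 * Ψ p.2) ⊆ tsupport η ×ˢ tsupport Ψ := by
  refine closure_minimal ?_ ((isClosed_tsupport _).prod (isClosed_tsupport _))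
  intro p hp
  rw [Function.mem_support] at hp
  exact ⟨subset_tsupport _ (Function.mem_support.2 (left_ne_zero_of_mul hp)),
    subset_tsupport _ (Function.mem_support.2 (right_ne_zero_of_mul hp))⟩

theorem hcs_prod (η : (Fin d → ℝ) → ℝ) (Ψ : ℝ → ℝ) (h1 : HasCompactSupport η)
    (h2 : HasCompactSupport Ψ) :
    HasCompactSupport (fun p : (Fin d → ℝ) × ℝ => η p.1 * Ψ p.2) :=
  (IsCompact.prod h1 h2).of_isClosed_subset (isClosed_tsupport _) (tsup_prod η Ψ)

theorem tf_prod (η : (Fin d → ℝ) → ℝ) (Ψ : ℝ → ℝ) (hη : ContDiff ℝ ∞ η)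
    (hηc : HasCompactSupport η) (hηs : tsupport η ⊆ Bx d) (hΨ : ContDiff ℝ ∞ Ψ)
    (hΨc : HasCompactSupport Ψ) (hΨs : tsupport Ψ ⊆ Ioo 0 1) :
    TF (Op d) (fun x => η (hz x) * Ψ (yy x)) := by
  have e : (fun x : E (d + 1) => η (hz x) * Ψ (yy x)) =
      (fun p : (Fin d → ℝ) × ℝ => η p.1 * Ψ p.2) ∘ Ph d := rfl
  refine ⟨?_, ?_, ?_⟩
  · refine (hη.comp ?_).mul (hΨ.comp ?_)
    · unfold hz; fun_prop
    · unfold yy; fun_prop
  · rw [e]
    exact (hcs_prod η Ψ hηc hΨc).comp_homeomorph (Ph d)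
  · rw [e, tsupport_comp_eq_preimage]
    intro x hx
    have h := tsup_prod η Ψ hx
    have h1 : hz x ∈ Bx d := hηs h.1
    have h2 : yy x ∈ Ioo (0 : ℝ) 1 := hΨs h.2
    exact ⟨⟨h1, by linarith [h2.1], h2.2⟩, h2.1⟩

theorem fd (η : (Fin d → ℝ) → ℝ) (Ψ : ℝ → ℝ) (hη : ContDiff ℝ ∞ η) (hΨ : ContDiff ℝ ∞ Ψ)
    (x : E (d + 1)) :
    fderiv ℝ (fun x : E (d + 1) => η (hz x) * Ψ (yy x)) x (bs (Fin.last d)) =
      η (hz x) * deriv Ψ (yy x) := by
  have hd : Differentiable ℝ (fun x : E (d + 1) => η (hz x) * Ψ (yy x)) := by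
    refine ContDiff.differentiable (n := ∞) ((hη.comp ?_).mul (hΨ.comp ?_)) (by simp)
    · unfold hz; fun_prop
    · unfold yy; fun_prop
  rw [← (hd x).lineDeriv_eq_fderiv]
  unfold lineDeriv
  have e : (fun t : ℝ => η (hz (x + t • (bs (Fin.last d) : E (d + 1)))) *
      Ψ (yy (x + t • (bs (Fin.last d) : E (d + 1))))) = fun t => η (hz x) * Ψ (yy x + t) := by
    funext t
    have h1 : hz (x + t • (bs (Fin.last d) : E (d + 1))) = hz x := by
      funext j
      simp [hz, bs, (Fin.castSucc_lt_last j).ne]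
    have h2 : yy (x + t • (bs (Fin.last d) : E (d + 1))) = yy x + t := by
      simp [yy, bs]
    rw [h1, h2]
  rw [e]
  have h3 : HasDerivAt (fun t : ℝ => η (hz x) * Ψ (yy x + t)) (η (hz x) * deriv Ψ (yy x)) 0 := by
    have h4 : HasDerivAt Ψ (deriv Ψ (yy x)) (yy x + 0) := by
      rw [add_zero]
      exact ((hΨ.differentiable (by simp)) _).hasDerivAt
    have h5 := (h4.comp_const_add (yy x) 0)
    exact h5.const_mul _
  exact h3.deriv

/-! ### one dimensional facts -/

theorem prim (φ : ℝ → ℝ) (hφ : ContDiff ℝ ∞ φ) (hc : HasCompactSupport φ)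
    (hs : tsupport φ ⊆ Ioo 0 1) (h0 : ∫ y, φ y = 0) :
    ∃ Ψ : ℝ → ℝ, ContDiff ℝ ∞ Ψ ∧ HasCompactSupport Ψ ∧ tsupport Ψ ⊆ Ioo 0 1 ∧ deriv Ψ = φ := by
  have hcont : Continuous φ := hφ.continuous
  have hder : deriv (fun u => ∫ t in (0 : ℝ)..u, φ t) = φ := by
    funext y
    exact hcont.deriv_integral φ 0 y
  obtain ⟨a, b, ha, hb, hab⟩ : ∃ a b : ℝ, 0 < a ∧ b < 1 ∧ tsupport φ ⊆ Icc a b := by
    rcases (tsupport φ).eq_empty_or_nonempty with he | hne
    · exact ⟨1 / 2, 1 / 2, by norm_num, by norm_num, by rw [he]; exact empty_subset _⟩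
    · have hK : IsCompact (tsupport φ) := hc
      refine ⟨sInf (tsupport φ), sSup (tsupport φ), (hs (hK.sInf_mem hne)).1,
        (hs (hK.sSup_mem hne)).2, fun x hx => ⟨csInf_le hK.bddBelow hx, le_csSup hK.bddAbove hx⟩⟩
  have hz : ∀ t, t ∉ Icc a b → φ t = 0 := fun t ht => by
    by_contra h
    exact ht (hab (subset_tsupport _ (Function.mem_support.2 h)))
  have hsupp : Function.support (fun u => ∫ t in (0 : ℝ)..u, φ t) ⊆ Icc a b := by
    intro y hy
    by_contra hn
    apply hy
    show ∫ t in (0 : ℝ)..y, φ t = 0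
    rw [mem_Icc, not_and_or, not_le, not_le] at hn
    rcases hn with hn | hn
    · have h1 : ∫ t in (0 : ℝ)..y, φ t = ∫ t in (0 : ℝ)..y, (0 : ℝ) := by
        refine intervalIntegral.integral_congr fun t ht => ?_
        apply hz
        rw [mem_Icc, not_and_or]
        left
        rw [not_le]
        rw [mem_uIcc] at ht
        rcases ht with ht | ht <;> linarith [ht.1, ht.2]
      rw [h1]; simp
    · by_cases hab' : a ≤ b
      · rw [intervalIntegral.integral_of_le (by linarith)]
        rw [setIntegral_eq_integral_of_forall_compl_eq_zero, h0]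
        intro t ht
        apply hz
        intro h
        exact ht ⟨by linarith [h.1], by linarith [h.2]⟩
      · have h1 : ∫ t in (0 : ℝ)..y, φ t = ∫ t in (0 : ℝ)..y, (0 : ℝ) := by
          refine intervalIntegral.integral_congr fun t _ => ?_
          apply hz
          intro h
          exact hab' (h.1.trans h.2)
        rw [h1]; simp
  have hts : tsupport (fun u => ∫ t in (0 : ℝ)..u, φ t) ⊆ Icc a b :=
    closure_minimal hsupp isClosed_Icc
  refine ⟨fun u => ∫ t in (0 : ℝ)..u, φ t, ?_, ?_, ?_, hder⟩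
  · rw [contDiff_infty_iff_deriv]
    refine ⟨intervalIntegral.differentiable_integral_of_continuous hcont, ?_⟩
    rw [hder]; exact hφ
  · exact isCompact_Icc.of_isClosed_subset (isClosed_tsupport _) hts
  · exact hts.trans fun x hx => ⟨by linarith [hx.1], by linarith [hx.2]⟩

theorem bump : ∃ ψ : ℝ → ℝ, ContDiff ℝ ∞ ψ ∧ HasCompactSupport ψ ∧ tsupport ψ ⊆ Ioo 0 1 ∧
    ∫ y, ψ y = 1 := by
  let f : ContDiffBump (1 / 2 : ℝ) := ⟨1 / 8, 1 / 4, by norm_num, by norm_num⟩
  refine ⟨f.normed volume, f.contDiff_normed, f.hasCompactSupport_normed, ?_, f.integral_normed⟩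
  rw [f.tsupport_normed_eq]
  intro x hx
  rw [mem_closedBall, Real.dist_eq, abs_le] at hx
  have : f.rOut = 1 / 4 := rfl
  rw [this] at hx
  constructor <;> linarith [hx.1, hx.2]


/-! ### the product space -/

/-- integrable times compactly supported smooth -/
theorem itc (F : (Fin d → ℝ) × ℝ → ℝ) (hF : Integrable F (volume.prod volume))
    (g : (Fin d → ℝ) × ℝ → ℝ) (hg : Continuous g) (hgc : HasCompactSupport g) :
    Integrable (fun p => F p * g p) (volume.prod volume) := by
  obtain ⟨C, hC⟩ := hgc.exists_bound_of_continuous hg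
  have h := hF.bdd_mul (c := C) hg.aestronglyMeasurable (Eventually.of_forall hC)
  refine h.congr (Eventually.of_forall fun p => ?_)
  exact mul_comm _ _

theorem rect (G : (Fin d → ℝ) × ℝ → ℝ) (hG : Integrable G (volume.prod volume))
    (h : ∀ (A : Set (Fin d → ℝ)) (T : Set ℝ), MeasurableSet A → MeasurableSet T →
      ∫ p in A ×ˢ T, G p ∂(volume.prod volume) = 0) :
    G =ᵐ[volume.prod volume] 0 := by
  have hall : ∀ s : Set ((Fin d → ℝ) × ℝ), MeasurableSet s →
      ∫ p in s, G p ∂(volume.prod volume) = 0 := by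
    intro s hs
    induction s, hs using MeasurableSpace.induction_on_inter generateFrom_prod.symm isPiSystem_prod
      with
    | empty => simp
    | basic s hs =>
      obtain ⟨A, hA, T, hT, rfl⟩ := hs
      exact h A T hA hT
    | compl s hs ih =>
      have h1 := integral_add_compl hs hG
      have h2 : ∫ p, G p ∂(volume.prod volume) = 0 := by
        have := h univ univ MeasurableSet.univ MeasurableSet.univ
        rwa [univ_prod_univ, Measure.restrict_univ] at this
      rw [ih, h2, zero_add] at h1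
      exact h1
    | iUnion f hd hm ih =>
      rw [integral_iUnion hm hd hG.integrableOn]
      simp [ih]
  exact Integrable.ae_eq_zero_of_forall_setIntegral_eq_zero hG fun s hs _ => hall s hs

theorem main (F : (Fin d → ℝ) × ℝ → ℝ) (hF : Integrable F (volume.prod volume))
    (B : Set (Fin d → ℝ)) (hB : IsOpen B) (h0 : ∀ p : (Fin d → ℝ) × ℝ, p.1 ∉ B → F p = 0)
    (h1 : ∀ p : (Fin d → ℝ) × ℝ, p.2 ∉ Ioo (0 : ℝ) 1 → F p = 0)
    (hw : ∀ (η : (Fin d → ℝ) → ℝ) (Ψ : ℝ → ℝ), ContDiff ℝ ∞ η → HasCompactSupport η →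
      tsupport η ⊆ B → ContDiff ℝ ∞ Ψ → HasCompactSupport Ψ → tsupport Ψ ⊆ Ioo 0 1 →
      ∫ p, F p * (η p.1 * deriv Ψ p.2) ∂(volume.prod volume) = 0) :
    ∃ u : (Fin d → ℝ) → ℝ, Integrable u ∧
      ∀ᵐ p ∂(volume.prod volume : Measure ((Fin d → ℝ) × ℝ)),
        F p = u p.1 * (Ioo (0 : ℝ) 1).indicator (fun _ => (1 : ℝ)) p.2 := by
  obtain ⟨ψ₀, hψ₀, hψ₀c, hψ₀s, hψ₀i⟩ := bump
  have hint : ∀ (η : (Fin d → ℝ) → ℝ) (ψ : ℝ → ℝ), ContDiff ℝ ∞ η → HasCompactSupport η →
      ContDiff ℝ ∞ ψ → HasCompactSupport ψ →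
      Integrable (fun p => F p * (η p.1 * ψ p.2)) (volume.prod volume) := by
    intro η ψ hη hηc hψ hψc
    refine itc F hF _ ?_ (hcs_prod η ψ hηc hψc)
    exact (hη.continuous.comp continuous_fst).mul (hψ.continuous.comp continuous_snd)
  -- step 3
  have h3 : ∀ (η : (Fin d → ℝ) → ℝ) (ψ : ℝ → ℝ), ContDiff ℝ ∞ η → HasCompactSupport η →
      tsupport η ⊆ B → ContDiff ℝ ∞ ψ → HasCompactSupport ψ → tsupport ψ ⊆ Ioo 0 1 →
      ∫ p, F p * (η p.1 * ψ p.2) ∂(volume.prod volume) =
        (∫ y, ψ y) * ∫ p, F p * (η p.1 * ψ₀ p.2) ∂(volume.prod volume) := by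
    intro η ψ hη hηc hηs hψ hψc hψs
    set m := ∫ y, ψ y with hm
    have hφ : ContDiff ℝ ∞ (fun y => ψ y - m * ψ₀ y) := hψ.sub (contDiff_const.mul hψ₀)
    have hsub : tsupport (fun y => ψ y - m * ψ₀ y) ⊆ tsupport ψ ∪ tsupport ψ₀ := by
      refine closure_minimal ?_ ((isClosed_tsupport _).union (isClosed_tsupport _))
      intro y hy
      by_contra hn
      rw [mem_union, not_or] at hn
      apply hy
      show ψ y - m * ψ₀ y = 0
      rw [image_eq_zero_of_notMem_tsupport hn.1, image_eq_zero_of_notMem_tsupport hn.2]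
      ring
    have hφc : HasCompactSupport (fun y => ψ y - m * ψ₀ y) :=
      (IsCompact.union hψc hψ₀c).of_isClosed_subset (isClosed_tsupport _) hsub
    have hφs : tsupport (fun y => ψ y - m * ψ₀ y) ⊆ Ioo 0 1 :=
      hsub.trans (union_subset hψs hψ₀s)
    have hφ0 : ∫ y, (ψ y - m * ψ₀ y) = 0 := by
      rw [integral_sub (hψ.continuous.integrable_of_hasCompactSupport hψc)
        ((hψ₀.continuous.integrable_of_hasCompactSupport hψ₀c).const_mul m),
        integral_const_mul, hψ₀i, mul_one, ← hm, sub_self]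
    obtain ⟨Ψ, hΨ, hΨc, hΨs, hΨd⟩ := prim _ hφ hφc hφs hφ0
    have h := hw η Ψ hη hηc hηs hΨ hΨc hΨs
    rw [hΨd] at h
    have e : (fun p : (Fin d → ℝ) × ℝ => F p * (η p.1 * (ψ p.2 - m * ψ₀ p.2))) =
        fun p => F p * (η p.1 * ψ p.2) - m * (F p * (η p.1 * ψ₀ p.2)) := by
      funext p; ring
    rw [e, integral_sub (hint η ψ hη hηc hψ hψc) ((hint η ψ₀ hη hηc hψ₀ hψ₀c).const_mul m),
      integral_const_mul] at h
    linarith
  -- step 4
  have hFψ : Integrable (fun p : (Fin d → ℝ) × ℝ => F p * ψ₀ p.2) (volume.prod volume) := by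
    obtain ⟨C, hC⟩ := hψ₀c.exists_bound_of_continuous hψ₀.continuous
    have h := hF.bdd_mul (c := C) (f := fun p : (Fin d → ℝ) × ℝ => ψ₀ p.2)
      (hψ₀.continuous.comp continuous_snd).aestronglyMeasurable
      (Eventually.of_forall fun p => hC p.2)
    exact h.congr (Eventually.of_forall fun p => mul_comm _ _)
  set u : (Fin d → ℝ) → ℝ := fun x => ∫ s, F (x, s) * ψ₀ s with hu
  have hui : Integrable u := hFψ.integral_prod_left
  have hu0 : ∀ x, x ∉ B → u x = 0 := by
    intro x hx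
    rw [hu]
    show ∫ s, F (x, s) * ψ₀ s = 0
    have : (fun s => F (x, s) * ψ₀ s) = fun _ => (0 : ℝ) := by
      funext s; rw [h0 (x, s) hx, zero_mul]
    rw [this]; simp
  set χ : ℝ → ℝ := (Ioo (0 : ℝ) 1).indicator (fun _ => (1 : ℝ)) with hχ
  have hχi : Integrable χ := by
    rw [hχ, integrable_indicator_iff measurableSet_Ioo]
    exact integrableOn_const (by simp) (by simp)
  set G : (Fin d → ℝ) × ℝ → ℝ := fun p => F p - u p.1 * χ p.2 with hG
  have hGi : Integrable G (volume.prod volume) := hF.sub (hui.mul_prod hχi)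
  have hG0 : ∀ p : (Fin d → ℝ) × ℝ, p.1 ∉ B → G p = 0 := by
    intro p hp
    show F p - u p.1 * χ p.2 = 0
    rw [h0 p hp, hu0 p.1 hp]; ring
  have hG1 : ∀ p : (Fin d → ℝ) × ℝ, p.2 ∉ Ioo (0 : ℝ) 1 → G p = 0 := by
    intro p hp
    show F p - u p.1 * χ p.2 = 0
    rw [h1 p hp, hχ, indicator_of_notMem hp]; ring
  have h4 : ∀ (η : (Fin d → ℝ) → ℝ) (ψ : ℝ → ℝ), ContDiff ℝ ∞ η → HasCompactSupport η →
      tsupport η ⊆ B → ContDiff ℝ ∞ ψ → HasCompactSupport ψ → tsupport ψ ⊆ Ioo 0 1 →
      ∫ p, G p * (η p.1 * ψ p.2) ∂(volume.prod volume) = 0 := by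
    intro η ψ hη hηc hηs hψ hψc hψs
    have e : (fun p : (Fin d → ℝ) × ℝ => G p * (η p.1 * ψ p.2)) =
        fun p => F p * (η p.1 * ψ p.2) - (u p.1 * η p.1) * ψ p.2 := by
      funext p
      show (F p - u p.1 * χ p.2) * (η p.1 * ψ p.2) = _
      by_cases hp : p.2 ∈ Ioo (0 : ℝ) 1
      · rw [hχ, indicator_of_mem hp]; ring
      · have : ψ p.2 = 0 := image_eq_zero_of_notMem_tsupport fun h => hp (hψs h)
        rw [this]; ring
    have huη : Integrable (fun x => u x * η x) := by
      obtain ⟨C, hC⟩ := hηc.exists_bound_of_continuous hη.continuous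
      have h := hui.bdd_mul (c := C) hη.continuous.aestronglyMeasurable (Eventually.of_forall hC)
      exact h.congr (Eventually.of_forall fun p => mul_comm _ _)
    have hψi := hψ.continuous.integrable_of_hasCompactSupport (μ := volume) hψc
    rw [e, integral_sub (hint η ψ hη hηc hψ hψc) (huη.mul_prod hψi),
      integral_prod_mul (fun x => u x * η x) ψ, h3 η ψ hη hηc hηs hψ hψc hψs]
    have h5 : ∫ p, F p * (η p.1 * ψ₀ p.2) ∂(volume.prod volume) = ∫ x, u x * η x := by
      rw [integral_prod _ (hint η ψ₀ hη hηc hψ₀ hψ₀c)]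
      refine integral_congr_ae (Eventually.of_forall fun x => ?_)
      show ∫ y, F (x, y) * (η x * ψ₀ y) = (∫ s, F (x, s) * ψ₀ s) * η x
      rw [← integral_mul_const]
      refine integral_congr_ae (Eventually.of_forall fun y => ?_)
      show F (x, y) * (η x * ψ₀ y) = F (x, y) * ψ₀ y * η x
      ring
    rw [h5]; ring
  -- step 5
  have hGη : ∀ (η : (Fin d → ℝ) → ℝ), ContDiff ℝ ∞ η → HasCompactSupport η →
      Integrable (fun p : (Fin d → ℝ) × ℝ => G p * η p.1) (volume.prod volume) := by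
    intro η hη hηc
    obtain ⟨C, hC⟩ := hηc.exists_bound_of_continuous hη.continuous
    have h := hGi.bdd_mul (c := C) (f := fun p : (Fin d → ℝ) × ℝ => η p.1)
      (hη.continuous.comp continuous_fst).aestronglyMeasurable
      (Eventually.of_forall fun p => hC p.1)
    exact h.congr (Eventually.of_forall fun p => mul_comm _ _)
  have h5 : ∀ (η : (Fin d → ℝ) → ℝ), ContDiff ℝ ∞ η → HasCompactSupport η → tsupport η ⊆ B →
      ∀ᵐ y : ℝ, ∫ x, G (x, y) * η x = 0 := by
    intro η hη hηc hηs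
    have hi : Integrable (fun y : ℝ => ∫ x, G (x, y) * η x) := (hGη η hη hηc).integral_prod_right
    have h6 := isOpen_Ioo.ae_eq_zero_of_integral_contDiff_smul_eq_zero (μ := volume)
      (U := Ioo (0 : ℝ) 1) (f := fun y : ℝ => ∫ x, G (x, y) * η x)
      (hi.locallyIntegrable.locallyIntegrableOn _) ?_
    · filter_upwards [h6] with y hy
      by_cases hyI : y ∈ Ioo (0 : ℝ) 1
      · exact hy hyI
      · have : (fun x => G (x, y) * η x) = fun _ => (0 : ℝ) := by
          funext x; rw [hG1 (x, y) hyI, zero_mul]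
        rw [this]; simp
    · intro ψ hψ hψc hψs
      have h7 := h4 η ψ hη hηc hηs hψ hψc hψs
      have h8 : Integrable (fun p : (Fin d → ℝ) × ℝ => G p * (η p.1 * ψ p.2))
          (volume.prod volume) := by
        refine itc G hGi _ ?_ (hcs_prod η ψ hηc hψc)
        exact (hη.continuous.comp continuous_fst).mul (hψ.continuous.comp continuous_snd)
      rw [integral_prod_symm _ h8] at h7
      rw [← h7]
      refine integral_congr_ae (Eventually.of_forall fun y => ?_)
      show ψ y • (∫ x, G (x, y) * η x) = ∫ x, G (x, y) * (η x * ψ y)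
      rw [smul_eq_mul, ← integral_const_mul]
      refine integral_congr_ae (Eventually.of_forall fun x => ?_)
      show ψ y * (G (x, y) * η x) = G (x, y) * (η x * ψ y)
      ring
  -- step 6
  have h6 : ∀ T : Set ℝ, MeasurableSet T → ∀ᵐ x : Fin d → ℝ, ∫ y in T, G (x, y) = 0 := by
    intro T hT
    have hGT : Integrable G (volume.prod (volume.restrict T)) := by
      have h7 : Integrable G ((volume.prod volume).restrict (univ ×ˢ T)) := hGi.restrict
      rwa [← Measure.prod_restrict, Measure.restrict_univ] at h7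
    have hi : Integrable (fun x : Fin d → ℝ => ∫ y in T, G (x, y)) := hGT.integral_prod_left
    have h7 := hB.ae_eq_zero_of_integral_contDiff_smul_eq_zero (μ := volume)
      (f := fun x : Fin d → ℝ => ∫ y in T, G (x, y))
      (hi.locallyIntegrable.locallyIntegrableOn _) ?_
    · filter_upwards [h7] with x hx
      by_cases hxB : x ∈ B
      · exact hx hxB
      · have : (fun y => G (x, y)) = fun _ => (0 : ℝ) := by
          funext y; exact hG0 (x, y) hxB
        rw [this]; simp
    · intro η hη hηc hηs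
      have h8 : Integrable (fun p : (Fin d → ℝ) × ℝ => G p * η p.1)
          (volume.prod (volume.restrict T)) := by
        have h9 : Integrable (fun p : (Fin d → ℝ) × ℝ => G p * η p.1)
          ((volume.prod volume).restrict (univ ×ˢ T)) := (hGη η hη hηc).restrict
        rwa [← Measure.prod_restrict, Measure.restrict_univ] at h9
      have h10 : ∫ x, η x • ∫ y in T, G (x, y) = ∫ x, ∫ y in T, G (x, y) * η x := by
        refine integral_congr_ae (Eventually.of_forall fun x => ?_)
        show η x • (∫ y in T, G (x, y)) = ∫ y in T, G (x, y) * η x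
        rw [smul_eq_mul, ← integral_const_mul]
        refine integral_congr_ae (Eventually.of_forall fun y => ?_)
        show η x * G (x, y) = G (x, y) * η x
        ring
      rw [h10, ← integral_prod (fun p : (Fin d → ℝ) × ℝ => G p * η p.1) h8,
        integral_prod_symm _ h8]
      have h11 : (fun y : ℝ => ∫ x, G (x, y) * η x) =ᵐ[volume.restrict T] fun _ => (0 : ℝ) :=
        ae_restrict_of_ae (h5 η hη hηc hηs)
      rw [integral_congr_ae h11]
      simp
  -- step 7
  have h7 : G =ᵐ[volume.prod volume] 0 := by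
    refine rect G hGi fun A T hA hT => ?_
    have h8 : Integrable G ((volume.restrict A).prod (volume.restrict T)) := by
      rw [Measure.prod_restrict]; exact hGi.restrict
    rw [← Measure.prod_restrict, integral_prod _ h8]
    have h9 : (fun x : Fin d → ℝ => ∫ y in T, G (x, y)) =ᵐ[volume.restrict A] fun _ => (0 : ℝ) :=
      ae_restrict_of_ae (h6 T hT)
    rw [integral_congr_ae h9]
    simp
  refine ⟨u, hui, ?_⟩
  filter_upwards [h7] with p hp
  have : F p - u p.1 * χ p.2 = 0 := hp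
  linarith

end

end CST_

open CST_ in
theorem cst_proof : Stmt_CST := by
  intro d f hf hw
  have hBx : IsOpen (Bx d) := by
    have : Bx d = Set.pi univ (fun _ => Ioo (0 : ℝ) 1) := by
      ext x; simp [Bx]
    rw [this]
    exact isOpen_set_pi finite_univ fun _ _ => isOpen_Ioo
  set F : (Fin d → ℝ) × ℝ → ℝ :=
    (Bx d ×ˢ Ioo (0 : ℝ) 1).indicator (fun p => f (mk p.1 p.2)) with hFdef
  have hOp : Op d = Ph d ⁻¹' (Bx d ×ˢ Ioo (0 : ℝ) 1) := by
    ext x
    constructor
    · rintro ⟨⟨h1, h2⟩, h3⟩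
      exact ⟨h1, h3, h2.2⟩
    · rintro ⟨h1, h2⟩
      have h3 : yy x ∈ Ioo (0 : ℝ) 1 := h2
      exact ⟨⟨h1, by linarith [h3.1], h3.2⟩, h3.1⟩
  have hOpen : IsOpen (Op d) := by
    rw [hOp]
    exact (hBx.prod isOpen_Ioo).preimage (Ph d).continuous
  have hFin : ∀ x, x ∈ Op d → F (Ph d x) = f x := by
    intro x hx
    rw [hOp] at hx
    have hx' : Ph d x ∈ Bx d ×ˢ Ioo (0 : ℝ) 1 := hx
    rw [hFdef, indicator_of_mem hx']
    exact congrArg f (mk_eta x)
  have hFout : ∀ x, x ∉ Op d → F (Ph d x) = 0 := by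
    intro x hx
    rw [hOp] at hx
    have hx' : Ph d x ∉ Bx d ×ˢ Ioo (0 : ℝ) 1 := hx
    rw [hFdef, indicator_of_notMem hx']
  have hFi : Integrable F (volume.prod volume) := by
    rw [← (mp d).integrable_comp_emb (me d)]
    have h1 : Integrable ((Op d).indicator f) :=
      (integrable_indicator_iff hOpen.measurableSet).2 hf
    refine h1.congr (Eventually.of_forall fun x => ?_)
    by_cases hx : x ∈ Op d
    · rw [indicator_of_mem hx]; exact (hFin x hx).symm
    · rw [indicator_of_notMem hx]; exact (hFout x hx).symm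
  obtain ⟨u, hu, hae⟩ := main F hFi (Bx d) hBx
    (fun p hp => indicator_of_notMem (fun h => hp h.1) _)
    (fun p hp => indicator_of_notMem (fun h => hp h.2) _)
    (by
      intro η Ψ hη hηc hηs hΨ hΨc hΨs
      rw [← (mp d).integral_comp (me d)]
      have h1 := hw _ (tf_prod η Ψ hη hηc hηs hΨ hΨc hΨs)
      rw [← h1]
      refine integral_congr_ae (Eventually.of_forall fun x => ?_)
      show F (Ph d x) * (η (hz x) * deriv Ψ (yy x)) = _
      simp only
      rw [fd η Ψ hη hΨ x]
      by_cases hx : x ∈ Op d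
      · rw [hFin x hx]
      · rw [hFout x hx]
        have h2 : η (hz x) * deriv Ψ (yy x) = 0 := by
          by_contra hne
          apply hx
          have h3 : hz x ∈ Bx d :=
            hηs (subset_tsupport _ (Function.mem_support.2 (left_ne_zero_of_mul hne)))
          have h4 : yy x ∈ Ioo (0 : ℝ) 1 :=
            hΨs (support_deriv_subset (Function.mem_support.2 (right_ne_zero_of_mul hne)))
          exact ⟨⟨h3, by linarith [h4.1], h4.2⟩, h4.1⟩
        rw [h2]; ring)
  refine ⟨u, hu.integrableOn, ?_⟩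
  have h5 := (mp d).quasiMeasurePreserving.ae hae
  filter_upwards [h5] with x hx hxO
  rw [← hFin x hxO, hx]
  rw [hOp] at hxO
  rw [indicator_of_mem hxO.2, mul_one]
  rfl

end Pool.Agent.CAL
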