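import Pool.Agent.CAL.WDX

/-!
Squad CAL, module DQA: a bound on the distributional derivative bounds differences.
-/

set_option autoImplicit false

namespace Pool.Agent.CAL

open MeasureTheory Set Metric Filter Topology
open scoped ENNReal
open Pool.Agent.COB

namespace DQA_

noncomputable section

variable {m : ℕ}

lemma open_seg {U : Set (E m)} (hU : IsOpen U) (j : Fin m) (t : ℝ) :
    IsOpen {x : E m | Seg U j t x} := by
  rw [isOpen_iff_mem_nhds]
  intro x hx
  refine isCompact_Icc.eventually_forall_of_forall_eventually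
    (P := fun (y : E m) (s : ℝ) => y + s • (bs j : E m) ∈ U) ?_
  intro s hs
  have hc : Continuous fun p : E m × ℝ => p.1 + p.2 • (bs j : E m) := by fun_prop
  exact hc.continuousAt.eventually (hU.mem_nhds (hx s hs))

/-- primitive of a test function -/
def pr (j : Fin m) (t : ℝ) (ψ : E m → ℝ) (x : E m) : ℝ :=
  ∫ s in Ioc (0 : ℝ) t, ψ (x - s • (bs j : E m))

lemma pr_smooth (j : Fin m) (t : ℝ) {ψ : E m → ℝ} (h : ContDiff ℝ (⊤ : ℕ∞) ψ)
    (hc : HasCompactSupport ψ) : ContDiff ℝ (⊤ : ℕ∞) (pr j t ψ) := by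
  set T : ℝ → E m := fun s => s • (bs j : E m) with hT
  have hTm : Measurable T := by
    have : Continuous T := by rw [hT]; fun_prop
    exact this.measurable
  have hfin : IsFiniteMeasure (Measure.map T (volume.restrict (Ioc (0 : ℝ) t))) := inferInstance
  have h1 : ContDiff ℝ (⊤ : ℕ∞) (convolution (fun _ => (1 : ℝ)) ψ
      (ContinuousLinearMap.lsmul ℝ ℝ) (Measure.map T (volume.restrict (Ioc (0 : ℝ) t)))) :=
    hc.contDiff_convolution_right _ (locallyIntegrable_const (1 : ℝ)) h
  have h2 : convolution (fun _ => (1 : ℝ)) ψ (ContinuousLinearMap.lsmul ℝ ℝ)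
      (Measure.map T (volume.restrict (Ioc (0 : ℝ) t))) = pr j t ψ := by
    funext x
    rw [convolution_def, integral_map hTm.aemeasurable]
    · simp [pr, hT]
    · have : Continuous fun y : E m => (ContinuousLinearMap.lsmul ℝ ℝ) (1 : ℝ) (ψ (x - y)) := by
        have := h.continuous
        fun_prop
      exact this.aestronglyMeasurable
  rwa [h2] at h1

lemma pr_fd (j : Fin m) {t : ℝ} (ht : 0 < t) {ψ : E m → ℝ} (h : ContDiff ℝ (⊤ : ℕ∞) ψ)
    (hc : HasCompactSupport ψ) (x : E m) :
    fderiv ℝ (pr j t ψ) x (bs j) = ψ x - ψ (x - t • (bs j : E m)) := by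
  have hd : DifferentiableAt ℝ (pr j t ψ) x := (pr_smooth j t h hc).differentiable (by simp) x
  rw [← hd.lineDeriv_eq_fderiv]
  set φ : ℝ → ℝ := fun u => ψ (x + u • (bs j : E m)) with hφ
  have hψc := h.continuous
  have hφc : Continuous φ := by rw [hφ]; fun_prop
  have e : (fun r : ℝ => pr j t ψ (x + r • (bs j : E m))) = fun r => ∫ u in (r - t)..r, φ u := by
    funext r
    unfold pr
    rw [← intervalIntegral.integral_of_le ht.le]
    have : ∀ s : ℝ, ψ (x + r • (bs j : E m) - s • (bs j : E m)) = φ (r - s) := by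
      intro s
      rw [hφ]
      simp only
      rw [sub_smul, add_sub_assoc]
    simp_rw [this]
    rw [intervalIntegral.integral_comp_sub_left (fun u => φ u) r, sub_zero]
  unfold lineDeriv
  rw [e]
  have e2 : (fun r => ∫ u in (r - t)..r, φ u) =
      fun r => (∫ u in (0 : ℝ)..r, φ u) - ∫ u in (0 : ℝ)..(r - t), φ u := by
    funext r
    rw [intervalIntegral.integral_interval_sub_left (hφc.intervalIntegrable _ _)
      (hφc.intervalIntegrable _ _)]
  have d1 : HasDerivAt (fun r => ∫ u in (0 : ℝ)..r, φ u) (φ 0) 0 :=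
    (hφc.integral_hasStrictDerivAt 0 0).hasDerivAt
  have d2 : HasDerivAt (fun r => ∫ u in (0 : ℝ)..(r - t), φ u) (φ (0 - t)) 0 :=
    HasDerivAt.comp_sub_const 0 t ((hφc.integral_hasStrictDerivAt 0 (0 - t)).hasDerivAt)
  rw [e2, (d1.fun_sub d2).deriv]
  simp [hφ, sub_eq_add_neg]

lemma key {U : Set (E m)} (j : Fin m) {f : E m → ℝ} {h : E m → ℝ≥0∞}
    (hU : IsOpen U)
    (hf : MemLp (U.indicator f) 2 volume) (hh : Measurable h) (hd : DerivBound U (bs j) f h)
    {t : ℝ} (ht : 0 < t) {ψ : E m → ℝ} (hψ : ContDiff ℝ (⊤ : ℕ∞) ψ)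
    (hψc : HasCompactSupport ψ) (hψs : tsupport ψ ⊆ {x | Seg U j t x}) :
    ENNReal.ofReal |∫ x, (U.indicator f (x + t • (bs j : E m)) - U.indicator f x) * ψ x| ≤
      ∫⁻ x, (∫⁻ s in Ioc (0 : ℝ) t, U.indicator h (x + s • (bs j : E m))) *
        ENNReal.ofReal |ψ x| := by
  set f' : E m → ℝ := U.indicator f with hf'
  set h' : E m → ℝ≥0∞ := U.indicator h with hh'
  have hh'm : Measurable h' := hh.indicator hU.measurableSet
  have hcont : Continuous fun p : E m × ℝ => p.1 + p.2 • (bs j : E m) := by fun_prop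
  set C : Set (E m) := (fun p : E m × ℝ => p.1 + p.2 • (bs j : E m)) ''
    (tsupport ψ ×ˢ Icc (0 : ℝ) t) with hC
  have hψk : IsCompact (tsupport ψ) := hψc
  have hCc : IsCompact C := (hψk.prod isCompact_Icc).image hcont
  have hCU : C ⊆ U := by
    rintro _ ⟨⟨x, s⟩, ⟨hx, hs⟩, rfl⟩
    exact hψs hx s hs
  have hz : ∀ x, x ∉ C → pr j t ψ x = 0 := by
    intro x hx
    refine setIntegral_eq_zero_of_forall_eq_zero fun s hs => ?_
    by_contra hne
    refine hx ⟨(x - s • (bs j : E m), s), ⟨subset_tsupport _ hne, hs.1.le, hs.2⟩, ?_⟩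
    simp
  have hts : tsupport (pr j t ψ) ⊆ C := by
    refine closure_minimal (fun x hx => ?_) hCc.isClosed
    by_contra hne
    exact hx (hz x hne)
  have hζc : HasCompactSupport (pr j t ψ) := HasCompactSupport.intro hCc hz
  have h0 := hd (pr j t ψ) (pr_smooth j t hψ hψc) hζc (hts.trans hCU)
  have hψcont := hψ.continuous
  have hψ2 : MemLp ψ 2 (volume : Measure (E m)) := hψcont.memLp_of_hasCompactSupport hψc
  have i1 : Integrable fun x => f' x * ψ x := hf.integrable_mul (q := 2) hψ2
  have hf3 : MemLp (fun x => f' (x + t • (bs j : E m))) 2 volume :=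
    hf.comp_measurePreserving (measurePreserving_add_right volume (t • (bs j : E m)))
  have i3 : Integrable fun x => f' (x + t • (bs j : E m)) * ψ x :=
    hf3.integrable_mul (q := 2) hψ2
  have i2 : Integrable fun x => f' x * ψ (x - t • (bs j : E m)) := by
    have := i3.comp_sub_right (t • (bs j : E m))
    refine this.congr (Eventually.of_forall fun x => ?_)
    simp
  have e1 : ∫ x, f x * fderiv ℝ (pr j t ψ) x (bs j) =
      -∫ x, (f' (x + t • (bs j : E m)) - f' x) * ψ x := by
    calc ∫ x, f x * fderiv ℝ (pr j t ψ) x (bs j)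
        = ∫ x, (f' x * ψ x - f' x * ψ (x - t • (bs j : E m))) := by
          refine integral_congr_ae (Eventually.of_forall fun x => ?_)
          simp only
          rw [← mul_sub, ← pr_fd j ht hψ hψc x]
          by_cases hx : x ∈ U
          · rw [hf', indicator_of_mem hx]
          · rw [WDX_.fd_zero (fun hc => hx (hCU (hts hc)))]
            simp
      _ = (∫ x, f' x * ψ x) - ∫ x, f' (x + t • (bs j : E m)) * ψ x := by
          rw [integral_sub i1 i2]
          congr 1
          rw [← integral_add_right_eq_self (fun x => f' x * ψ (x - t • (bs j : E m)))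
            (t • (bs j : E m))]
          simp
      _ = -∫ x, (f' (x + t • (bs j : E m)) - f' x) * ψ x := by
          rw [← neg_sub, ← integral_sub i3 i1]
          congr 1
          refine integral_congr_ae (Eventually.of_forall fun x => ?_)
          simp only
          ring
  rw [e1, abs_neg] at h0
  refine h0.trans ?_
  have hψm : Measurable fun x => ENNReal.ofReal |ψ x| := by
    have := hψcont.measurable
    fun_prop
  have m1 : Measurable fun p : E m × ℝ => ENNReal.ofReal |ψ (p.1 - p.2 • (bs j : E m))| := by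
    refine hψm.comp ?_
    have : Continuous fun p : E m × ℝ => p.1 - p.2 • (bs j : E m) := by fun_prop
    exact this.measurable
  have m2 : Measurable fun p : E m × ℝ => h' (p.1 + p.2 • (bs j : E m)) :=
    hh'm.comp hcont.measurable
  calc ∫⁻ x, h x * ENNReal.ofReal |pr j t ψ x|
      ≤ ∫⁻ x, h' x * ∫⁻ s in Ioc (0 : ℝ) t, ENNReal.ofReal |ψ (x - s • (bs j : E m))| := by
        refine lintegral_mono fun x => ?_
        simp only
        by_cases hx : x ∈ U
        · rw [hh', indicator_of_mem hx]
          gcongr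
          rw [← Real.enorm_eq_ofReal_abs]
          refine (enorm_integral_le_lintegral_enorm _).trans (le_of_eq ?_)
          refine lintegral_congr fun s => ?_
          rw [Real.enorm_eq_ofReal_abs]
        · rw [hz x (fun hc => hx (hCU hc))]
          simp
    _ = ∫⁻ x, ∫⁻ s in Ioc (0 : ℝ) t, h' x * ENNReal.ofReal |ψ (x - s • (bs j : E m))| := by
        refine lintegral_congr fun x => ?_
        rw [lintegral_const_mul]
        exact m1.comp (measurable_const.prodMk measurable_id)
    _ = ∫⁻ s in Ioc (0 : ℝ) t, ∫⁻ x, h' x * ENNReal.ofReal |ψ (x - s • (bs j : E m))| := by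
        rw [lintegral_lintegral_swap]
        refine Measurable.aemeasurable ?_
        exact (hh'm.comp measurable_fst).mul m1
    _ = ∫⁻ s in Ioc (0 : ℝ) t, ∫⁻ x, h' (x + s • (bs j : E m)) * ENNReal.ofReal |ψ x| := by
        refine lintegral_congr fun s => ?_
        rw [← lintegral_add_right_eq_self
          (fun x => h' x * ENNReal.ofReal |ψ (x - s • (bs j : E m))|) (s • (bs j : E m))]
        refine lintegral_congr fun x => ?_
        rw [add_sub_cancel_right]
    _ = ∫⁻ x, ∫⁻ s in Ioc (0 : ℝ) t, h' (x + s • (bs j : E m)) * ENNReal.ofReal |ψ x| := by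
        rw [← lintegral_lintegral_swap]
        refine Measurable.aemeasurable ?_
        exact m2.mul (hψm.comp measurable_fst)
    _ = ∫⁻ x, (∫⁻ s in Ioc (0 : ℝ) t, h' (x + s • (bs j : E m))) *
        ENNReal.ofReal |ψ x| := by
        refine lintegral_congr fun x => ?_
        rw [lintegral_mul_const]
        exact m2.comp (measurable_const.prodMk measurable_id)

lemma loc {h : E m → ℝ≥0∞} (hh : Measurable h) (h2 : ∫⁻ x, h x ^ 2 < ⊤) (j : Fin m) (t : ℝ)
    {K : Set (E m)} (hK : IsCompact K) :
    ∫⁻ x in K, ∫⁻ s in Ioc (0 : ℝ) t, h (x + s • (bs j : E m)) < ⊤ := by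
  have hcont : Continuous fun p : E m × ℝ => p.1 + p.2 • (bs j : E m) := by fun_prop
  have m2 : Measurable fun p : E m × ℝ => h (p.1 + p.2 • (bs j : E m)) :=
    hh.comp hcont.measurable
  rw [lintegral_lintegral_swap m2.aemeasurable]
  calc ∫⁻ s in Ioc (0 : ℝ) t, ∫⁻ x in K, h (x + s • (bs j : E m))
      ≤ ∫⁻ _ in Ioc (0 : ℝ) t, (volume K + ∫⁻ x, h x ^ 2) := by
        refine lintegral_mono fun s => ?_
        calc ∫⁻ x in K, h (x + s • (bs j : E m))
            ≤ ∫⁻ x in K, (1 + h (x + s • (bs j : E m)) ^ 2) := by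
              refine lintegral_mono fun x => ?_
              simp only
              rcases le_total (h (x + s • (bs j : E m))) 1 with h1 | h1
              · exact h1.trans le_self_add
              · calc h (x + s • (bs j : E m)) = h (x + s • (bs j : E m)) * 1 := (mul_one _).symm
                  _ ≤ h (x + s • (bs j : E m)) * h (x + s • (bs j : E m)) := by gcongr
                  _ = h (x + s • (bs j : E m)) ^ 2 := (sq _).symm
                  _ ≤ 1 + h (x + s • (bs j : E m)) ^ 2 := le_add_self
          _ = (∫⁻ _ in K, (1 : ℝ≥0∞)) + ∫⁻ x in K, h (x + s • (bs j : E m)) ^ 2 :=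
              lintegral_add_left measurable_const _
          _ ≤ volume K + ∫⁻ x, h (x + s • (bs j : E m)) ^ 2 := by
              rw [setLIntegral_const, one_mul]
              gcongr
              exact Measure.restrict_le_self
          _ = volume K + ∫⁻ x, h x ^ 2 := by
              rw [lintegral_add_right_eq_self (fun x => h x ^ 2) (s • (bs j : E m))]
    _ < ⊤ := by
        rw [setLIntegral_const]
        refine ENNReal.mul_lt_top (ENNReal.add_lt_top.2 ⟨hK.measure_lt_top, h2⟩) ?_
        simp

end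

end DQA_

open DQA_

theorem dqa_proof : Stmt_DQA := by
  intro m U j f h hU hf hh hh2 hd t ht
  set f' : E m → ℝ := U.indicator f with hf'
  set h' : E m → ℝ≥0∞ := U.indicator h with hh'
  have hf2 : MemLp f' 2 volume := (memLp_indicator_iff_restrict hU.measurableSet).2 hf
  have hh'm : Measurable h' := hh.indicator hU.measurableSet
  have hh'2 : ∫⁻ x, h' x ^ 2 < ⊤ := by
    refine lt_of_le_of_lt (le_of_eq ?_) hh2
    rw [← lintegral_indicator hU.measurableSet]
    refine lintegral_congr fun x => ?_
    by_cases hx : x ∈ U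
    · simp [hh', hx]
    · simp [hh', hx]
  set F : E m → ℝ := fun x => f' (x + t • (bs j : E m)) - f' x with hF
  set H : E m → ℝ≥0∞ := fun x => ∫⁻ s in Ioc (0 : ℝ) t, h' (x + s • (bs j : E m)) with hH
  have hf3 : MemLp (fun x => f' (x + t • (bs j : E m))) 2 volume :=
    hf2.comp_measurePreserving (measurePreserving_add_right volume (t • (bs j : E m)))
  have hF2 : MemLp F 2 volume := hf3.sub hf2
  have hcont : Continuous fun p : E m × ℝ => p.1 + p.2 • (bs j : E m) := by fun_prop
  have hHm : Measurable H := by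
    have m2 : Measurable fun p : E m × ℝ => h' (p.1 + p.2 • (bs j : E m)) :=
      hh'm.comp hcont.measurable
    exact m2.lintegral_prod_right'
  have hHK : ∀ K : Set (E m), IsCompact K → ∫⁻ x in K, H x < ⊤ := fun K hK =>
    loc hh'm hh'2 j t hK
  set S : Set (E m) := {x | Seg U j t x} with hS
  have hSo : IsOpen S := open_seg hU j t
  have hFK : ∀ K : Set (E m), IsCompact K → IntegrableOn F K := by
    intro K hK
    have : IsFiniteMeasure (volume.restrict K) := ⟨by
      rw [Measure.restrict_apply_univ]; exact hK.measure_lt_top⟩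
    exact (hF2.mono_measure Measure.restrict_le_self).integrable one_le_two
  have hHKi : ∀ K : Set (E m), IsCompact K → IntegrableOn (fun x => (H x).toReal) K :=
    fun K hK => integrable_toReal_of_lintegral_ne_top hHm.aemeasurable (hHK K hK).ne
  have hmain : ∀ ψ : E m → ℝ, ContDiff ℝ (⊤ : ℕ∞) ψ → HasCompactSupport ψ → tsupport ψ ⊆ S →
      (∀ x, 0 ≤ ψ x) → Integrable (fun x => F x * ψ x) ∧
        Integrable (fun x => (H x).toReal * ψ x) ∧
        |∫ x, F x * ψ x| ≤ ∫ x, (H x).toReal * ψ x := by
    intro ψ h1 h2 h3 h4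
    have hψcont := h1.continuous
    have hψ2 : MemLp ψ 2 (volume : Measure (E m)) := hψcont.memLp_of_hasCompactSupport h2
    have hk := key j hU hf2 hh hd ht h1 h2 h3
    have hψm : Measurable fun x => ENNReal.ofReal |ψ x| := by
      have := hψcont.measurable
      fun_prop
    obtain ⟨M, hM⟩ := h2.exists_bound_of_continuous hψcont
    have hKc : IsCompact (tsupport ψ) := h2
    have hfin : ∫⁻ x, H x * ENNReal.ofReal |ψ x| ≠ ⊤ := by
      refine ne_of_lt ?_
      calc ∫⁻ x, H x * ENNReal.ofReal |ψ x|
          ≤ ∫⁻ x, (tsupport ψ).indicator (fun x => H x * ENNReal.ofReal M) x := by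
            refine lintegral_mono fun x => ?_
            by_cases hx : x ∈ tsupport ψ
            · simp only [indicator_of_mem hx]
              gcongr
              exact hM x
            · simp [image_eq_zero_of_notMem_tsupport hx]
        _ = (∫⁻ x in tsupport ψ, H x) * ENNReal.ofReal M := by
            rw [lintegral_indicator (isClosed_tsupport ψ).measurableSet, lintegral_mul_const _ hHm]
        _ < ⊤ := ENNReal.mul_lt_top (hHK _ hKc) ENNReal.ofReal_lt_top
    have hmm : Measurable fun x => H x * ENNReal.ofReal |ψ x| := hHm.mul hψm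
    have ha := ae_lt_top hmm hfin
    have e1 : ∀ x, (H x * ENNReal.ofReal |ψ x|).toReal = (H x).toReal * ψ x := by
      intro x
      rw [ENNReal.toReal_mul, ENNReal.toReal_ofReal (abs_nonneg _), abs_of_nonneg (h4 x)]
    have e2 : ∫ x, (H x).toReal * ψ x = (∫⁻ x, H x * ENNReal.ofReal |ψ x|).toReal := by
      rw [← integral_toReal hmm.aemeasurable ha]
      exact integral_congr_ae (Eventually.of_forall fun x => (e1 x).symm)
    refine ⟨hF2.integrable_mul (q := 2) hψ2, ?_, ?_⟩
    · exact (integrable_toReal_of_lintegral_ne_top hmm.aemeasurable hfin).congr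
        (Eventually.of_forall e1)
    · rw [e2]
      exact (ENNReal.ofReal_le_iff_le_toReal hfin).1 hk
  have hres : ∀ (D ψ : E m → ℝ), tsupport ψ ⊆ S → ∫ x in S, D x * ψ x = ∫ x, D x * ψ x := by
    intro D ψ hs
    refine setIntegral_eq_integral_of_forall_compl_eq_zero fun x hx => ?_
    rw [image_eq_zero_of_notMem_tsupport (fun hc => hx (hs hc)), mul_zero]
  have hA : ∀ᵐ x : E m, x ∈ S → F x - (H x).toReal ≤ 0 := by
    refine WDX_.ae_le_of_test hSo (D := fun x => F x - (H x).toReal)
      (fun K _ hK => (hFK K hK).sub (hHKi K hK))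
      (hF2.1.restrict.sub hHm.ennreal_toReal.aestronglyMeasurable) ?_
    intro ψ h1 h2 h3 h4
    obtain ⟨a1, a2, a3⟩ := hmain ψ h1 h2 h3 h4
    rw [hres _ ψ h3]
    have e : ∫ x, (F x - (H x).toReal) * ψ x =
        (∫ x, F x * ψ x) - ∫ x, (H x).toReal * ψ x := by
      rw [← integral_sub a1 a2]
      refine integral_congr_ae (Eventually.of_forall fun x => ?_)
      simp only
      ring
    rw [e]
    linarith [(abs_le.1 a3).2]
  have hB : ∀ᵐ x : E m, x ∈ S → -F x - (H x).toReal ≤ 0 := by
    refine WDX_.ae_le_of_test hSo (D := fun x => -F x - (H x).toReal)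
      (fun K _ hK => (hFK K hK).neg.sub (hHKi K hK))
      (hF2.1.restrict.neg.sub hHm.ennreal_toReal.aestronglyMeasurable) ?_
    intro ψ h1 h2 h3 h4
    obtain ⟨a1, a2, a3⟩ := hmain ψ h1 h2 h3 h4
    rw [hres _ ψ h3]
    have e : ∫ x, (-F x - (H x).toReal) * ψ x =
        -(∫ x, F x * ψ x) - ∫ x, (H x).toReal * ψ x := by
      have a1' : Integrable (fun x => -(F x * ψ x)) := a1.neg
      rw [← integral_neg, ← integral_sub a1' a2]
      refine integral_congr_ae (Eventually.of_forall fun x => ?_)
      simp only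
      ring
    rw [e]
    linarith [(abs_le.1 a3).1]
  filter_upwards [hA, hB] with x h1 h2 hx
  have hxS : x ∈ S := hx
  have h3 : |F x| ≤ (H x).toReal := abs_le.2 ⟨by linarith [h2 hxS], by linarith [h1 hxS]⟩
  have h4 : F x = f (x + t • (bs j : E m)) - f x := by
    have a1 : x + t • (bs j : E m) ∈ U := hx t ⟨ht.le, le_rfl⟩
    have a2 : x ∈ U := by simpa using hx 0 ⟨le_rfl, ht.le⟩
    simp only [hF, hf']
    rw [indicator_of_mem a1, indicator_of_mem a2]
  have h5 : H x = ∫⁻ s in Ioc (0 : ℝ) t, h (x + s • (bs j : E m)) := by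
    refine setLIntegral_congr_fun measurableSet_Ioc fun s hs => ?_
    have a1 : x + s • (bs j : E m) ∈ U := hx s ⟨hs.1.le, hs.2⟩
    simp only [hh']
    rw [indicator_of_mem a1]
  rw [← h4, ← h5]
  exact (ENNReal.ofReal_le_ofReal h3).trans ENNReal.ofReal_toReal_le

end Pool.Agent.CAL
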