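import Pool.Agent.CAL.Stmts

/-!
Squad CAL, module DQB: a bound on differences gives a bound on the distributional derivative.
-/

set_option autoImplicit false

namespace Pool.Agent.CAL

open MeasureTheory Set Metric Filter Topology
open scoped ENNReal
open Pool.Agent.COB

namespace DQB_

variable {m : ℕ}

lemma norm_bs (j : Fin m) : ‖(bs j : E m)‖ = 1 := by
  simp [bs]

/-- the main inequality for fixed small `t` -/
lemma ineq {U K K' : Set (E m)} (j : Fin m) (f ζ G : E m → ℝ) (h : E m → ℝ≥0∞) (L δ : ℝ)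
    (hL : 0 ≤ L) (hh : Measurable h) (hζ : Continuous ζ)
    (hLip : ∀ x y, |ζ x - ζ y| ≤ L * dist x y) (hζK : ∀ x, x ∉ K → ζ x = 0)
    (hKm : MeasurableSet K')
    (hKK : ∀ x ∈ K, ∀ y, dist y x ≤ δ → y ∈ K') (hKU : K' ⊆ U)
    (hG : ∀ x ∈ K', G x = f x)
    (hd : ∀ t > 0, ∀ᵐ x, Seg U j t x → ENNReal.ofReal |f (x + t • (bs j : E m)) - f x| ≤
      ∫⁻ s in Ioc (0 : ℝ) t, h (x + s • (bs j : E m)))
    {t : ℝ} (ht : 0 < t) (htδ : t ≤ δ) :
    ∫⁻ x, ENNReal.ofReal |ζ x| * ENNReal.ofReal |G (x + t • (bs j : E m)) - G x| ≤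
      ENNReal.ofReal t * ((∫⁻ x, h x * ENNReal.ofReal |ζ x|) +
        ENNReal.ofReal (L * t) * ∫⁻ x in K', h x) := by
  have dst : ∀ (x : E m) (s : ℝ), 0 ≤ s → dist (x + s • (bs j : E m)) x = s := by
    intro x s hs
    rw [dist_eq_norm, add_sub_cancel_left, norm_smul, norm_bs, mul_one, Real.norm_of_nonneg hs]
  have hζm : Measurable fun x => ENNReal.ofReal |ζ x| := by
    have := hζ.measurable
    fun_prop
  have mj : Measurable fun p : E m × ℝ => h (p.1 + p.2 • (bs j : E m)) := by
    refine hh.comp ?_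
    have : Continuous fun p : E m × ℝ => p.1 + p.2 • (bs j : E m) := by fun_prop
    exact this.measurable
  calc ∫⁻ x, ENNReal.ofReal |ζ x| * ENNReal.ofReal |G (x + t • (bs j : E m)) - G x|
      ≤ ∫⁻ x, ENNReal.ofReal |ζ x| * ∫⁻ s in Ioc (0 : ℝ) t, h (x + s • (bs j : E m)) := by
        refine lintegral_mono_ae ?_
        filter_upwards [hd t ht] with x hx
        by_cases hxK : x ∈ K
        · have h1 : ∀ s ∈ Icc (0 : ℝ) t, x + s • (bs j : E m) ∈ K' := by
            intro s hs
            refine hKK x hxK _ ?_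
            rw [dst x s hs.1]
            exact hs.2.trans htδ
          have h2 := h1 t ⟨ht.le, le_rfl⟩
          have h3 : x ∈ K' := by simpa using h1 0 ⟨le_rfl, ht.le⟩
          rw [hG _ h2, hG _ h3]
          gcongr
          exact hx fun s hs => hKU (h1 s hs)
        · rw [hζK x hxK]
          simp
    _ = ∫⁻ x, ∫⁻ s in Ioc (0 : ℝ) t, ENNReal.ofReal |ζ x| * h (x + s • (bs j : E m)) := by
        refine lintegral_congr fun x => ?_
        rw [lintegral_const_mul]
        exact mj.comp (measurable_const.prodMk measurable_id)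
    _ = ∫⁻ s in Ioc (0 : ℝ) t, ∫⁻ x, ENNReal.ofReal |ζ x| * h (x + s • (bs j : E m)) := by
        rw [lintegral_lintegral_swap]
        refine Measurable.aemeasurable ?_
        exact (hζm.comp measurable_fst).mul mj
    _ ≤ ∫⁻ _ in Ioc (0 : ℝ) t, ((∫⁻ x, h x * ENNReal.ofReal |ζ x|) +
        ENNReal.ofReal (L * t) * ∫⁻ x in K', h x) := by
        refine setLIntegral_mono' measurableSet_Ioc fun s hs => ?_
        have e1 : ∫⁻ x, ENNReal.ofReal |ζ x| * h (x + s • (bs j : E m)) =
            ∫⁻ y, ENNReal.ofReal |ζ (y - s • (bs j : E m))| * h y := by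
          rw [← lintegral_add_right_eq_self
            (fun y => ENNReal.ofReal |ζ (y - s • (bs j : E m))| * h y) (s • (bs j : E m))]
          refine lintegral_congr fun x => ?_
          rw [add_sub_cancel_right]
        rw [e1]
        have e2 : ENNReal.ofReal (L * t) * ∫⁻ x in K', h x =
            ∫⁻ x, ENNReal.ofReal (L * t) * K'.indicator h x := by
          rw [lintegral_const_mul _ (hh.indicator hKm), lintegral_indicator hKm]
        rw [e2, ← lintegral_add_left (f := fun x => h x * ENNReal.ofReal |ζ x|) (hh.mul hζm)]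
        refine lintegral_mono fun y => ?_
        by_cases hy : y ∈ K'
        · simp only [indicator_of_mem hy]
          have h1 : |ζ (y - s • (bs j : E m))| ≤ |ζ y| + L * t := by
            have h2 := hLip (y - s • (bs j : E m)) y
            have h3 : dist (y - s • (bs j : E m)) y = s := by
              rw [dist_eq_norm, sub_sub_cancel_left, norm_neg, norm_smul, norm_bs, mul_one,
                Real.norm_of_nonneg hs.1.le]
            rw [h3] at h2
            have h4 : L * s ≤ L * t := mul_le_mul_of_nonneg_left hs.2 hL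
            have h5 := abs_sub_abs_le_abs_sub (ζ (y - s • (bs j : E m))) (ζ y)
            linarith
          calc ENNReal.ofReal |ζ (y - s • (bs j : E m))| * h y
              ≤ ENNReal.ofReal (|ζ y| + L * t) * h y := by gcongr
            _ = h y * ENNReal.ofReal |ζ y| + ENNReal.ofReal (L * t) * h y := by
                rw [ENNReal.ofReal_add (abs_nonneg _) (mul_nonneg hL ht.le)]
                ring
        · have h1 : y - s • (bs j : E m) ∉ K := by
            intro hc
            refine hy (hKK _ hc y ?_)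
            rw [dist_comm, dist_eq_norm, sub_sub_cancel_left, norm_neg, norm_smul, norm_bs,
              mul_one, Real.norm_of_nonneg hs.1.le]
            exact hs.2.trans htδ
          rw [hζK _ h1]
          simp
    _ = ENNReal.ofReal t * ((∫⁻ x, h x * ENNReal.ofReal |ζ x|) +
        ENNReal.ofReal (L * t) * ∫⁻ x in K', h x) := by
        rw [setLIntegral_const, Real.volume_Ioc, sub_zero, mul_comm]

end DQB_

open DQB_

theorem dqb_proof : Stmt_DQB := by
  intro m U j f h hU hf hh hh2 hd ζ hζ hζc hζU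
  classical
  set K : Set (E m) := tsupport ζ with hK
  have hKc : IsCompact K := hζc
  obtain ⟨δ, hδ, hδU⟩ := hKc.exists_cthickening_subset_open hU hζU
  set K' : Set (E m) := cthickening δ K with hK'
  have hK'c : IsCompact K' := hKc.cthickening
  have hK'm : MeasurableSet K' := hK'c.isClosed.measurableSet
  have hKK : ∀ x ∈ K, ∀ y, dist y x ≤ δ → y ∈ K' := fun x hx y hy =>
    mem_cthickening_of_dist_le y x δ K hx hy
  have hζK : ∀ x, x ∉ K → ζ x = 0 := fun x hx => image_eq_zero_of_notMem_tsupport hx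
  obtain ⟨L, hL⟩ := (hζ.of_le (by simp) : ContDiff ℝ 1 ζ).lipschitzWith_of_hasCompactSupport hζc
    (by norm_num)
  have hLip : ∀ x y, |ζ x - ζ y| ≤ (L : ℝ) * dist x y := by
    intro x y
    have := hL.dist_le_mul x y
    rwa [Real.dist_eq] at this
  set G : E m → ℝ := K'.indicator f with hG
  have : IsFiniteMeasure (volume.restrict K') := ⟨by
    rw [Measure.restrict_apply_univ]; exact hK'c.measure_lt_top⟩
  have hGi : Integrable G := by
    rw [hG, integrable_indicator_iff hK'm]
    exact (hf.mono_measure (Measure.restrict_mono hδU le_rfl)).integrable one_le_two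
  have hGe : ∀ x ∈ K', G x = f x := fun x hx => indicator_of_mem hx f
  -- the limit
  have lim := hL.integral_inv_smul_sub_mul_tendsto_integral_lineDeriv_mul
    (μ := (volume : Measure (E m))) hGi (-(bs j : E m))
  have elim : ∫ x, lineDeriv ℝ ζ x (-(bs j : E m)) * G x = -∫ x, f x * fderiv ℝ ζ x (bs j) := by
    rw [← integral_neg]
    refine integral_congr_ae (Eventually.of_forall fun x => ?_)
    have hdf : DifferentiableAt ℝ ζ x := (hζ.differentiable (by simp)) x
    simp only
    rw [hdf.lineDeriv_eq_fderiv, map_neg]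
    by_cases hx : x ∈ K
    · have : x ∈ K' := self_subset_cthickening K hx
      rw [hGe x this]
      ring
    · have : fderiv ℝ ζ x = 0 := by
        have h1 : x ∉ tsupport (fderiv ℝ ζ) := fun hc => hx (tsupport_fderiv_subset ℝ hc)
        exact image_eq_zero_of_notMem_tsupport h1
      rw [this]
      simp
  rw [elim] at lim
  have lim2 : Tendsto (fun t : ℝ => ENNReal.ofReal |∫ x, (t⁻¹ • (ζ (x + t • (-(bs j : E m))) -
      ζ x)) * G x|) (𝓝[>] 0) (𝓝 (ENNReal.ofReal |∫ x, f x * fderiv ℝ ζ x (bs j)|)) := by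
    rw [← abs_neg (∫ x, f x * fderiv ℝ ζ x (bs j))]
    exact (ENNReal.continuous_ofReal.tendsto _).comp lim.abs
  set B : ℝ≥0∞ := ∫⁻ x in K', h x with hB
  have hBt : B ≠ ⊤ := by
    refine ne_of_lt ?_
    calc B ≤ ∫⁻ x in K', (1 + h x ^ 2) := by
          refine lintegral_mono fun x => ?_
          rcases le_total (h x) 1 with h1 | h1
          · exact h1.trans le_self_add
          · calc h x = h x * 1 := (mul_one _).symm
              _ ≤ h x * h x := by gcongr
              _ = h x ^ 2 := (sq _).symm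
              _ ≤ 1 + h x ^ 2 := le_add_self
      _ = (∫⁻ _ in K', (1 : ℝ≥0∞)) + ∫⁻ x in K', h x ^ 2 :=
          lintegral_add_left measurable_const _
      _ < ⊤ := by
          refine ENNReal.add_lt_top.2 ⟨?_, ?_⟩
          · rw [setLIntegral_const, one_mul]
            exact hK'c.measure_lt_top
          · exact (lintegral_mono_set hδU).trans_lt hh2
  have lim3 : Tendsto (fun t : ℝ => (∫⁻ x, h x * ENNReal.ofReal |ζ x|) +
      ENNReal.ofReal ((L : ℝ) * t) * B) (𝓝[>] 0) (𝓝 (∫⁻ x, h x * ENNReal.ofReal |ζ x|)) := by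
    have h1 : Tendsto (fun t : ℝ => ENNReal.ofReal ((L : ℝ) * t)) (𝓝[>] 0) (𝓝 0) := by
      have h2 : Tendsto (fun t : ℝ => ENNReal.ofReal ((L : ℝ) * t)) (𝓝 0)
          (𝓝 (ENNReal.ofReal ((L : ℝ) * 0))) :=
        (ENNReal.continuous_ofReal.comp (continuous_const.mul continuous_id)).tendsto 0
      rw [mul_zero, ENNReal.ofReal_zero] at h2
      exact h2.mono_left nhdsWithin_le_nhds
    have h3 := ENNReal.Tendsto.mul_const h1 (Or.inr hBt)
    rw [zero_mul] at h3
    have h4 := (tendsto_const_nhds (x := ∫⁻ x, h x * ENNReal.ofReal |ζ x|)).add h3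
    rwa [add_zero] at h4
  refine le_of_tendsto_of_tendsto lim2 lim3 ?_
  filter_upwards [self_mem_nhdsWithin, mem_nhdsWithin_of_mem_nhds (Iic_mem_nhds hδ)] with t ht htδ
  have ht : 0 < t := ht
  have htδ : t ≤ δ := htδ
  -- rewrite the difference quotient
  have hζcont : Continuous ζ := hζ.continuous
  obtain ⟨M, hM⟩ := hζc.exists_bound_of_continuous hζcont
  have i1 : Integrable fun x => ζ x * G x := hGi.bdd_mul hζcont.aestronglyMeasurable
    (Eventually.of_forall hM)
  have i2 : Integrable fun x => ζ (x + t • (-(bs j : E m))) * G x :=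
    hGi.bdd_mul (hζcont.comp (by fun_prop)).aestronglyMeasurable
      (Eventually.of_forall fun x => hM _)
  have i3 : Integrable fun x => ζ x * G (x + t • (bs j : E m)) := by
    have := i2.comp_add_right (t • (bs j : E m))
    refine this.congr (Eventually.of_forall fun x => ?_)
    simp
  have e1 : ∫ x, (t⁻¹ • (ζ (x + t • (-(bs j : E m))) - ζ x)) * G x =
      t⁻¹ * ∫ x, ζ x * (G (x + t • (bs j : E m)) - G x) := by
    have e2 : ∫ x, ζ (x + t • (-(bs j : E m))) * G x = ∫ x, ζ x * G (x + t • (bs j : E m)) := by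
      rw [← integral_add_right_eq_self (fun x => ζ (x + t • (-(bs j : E m))) * G x)
        (t • (bs j : E m))]
      refine integral_congr_ae (Eventually.of_forall fun x => ?_)
      simp
    have e3 : ∀ x, (t⁻¹ • (ζ (x + t • (-(bs j : E m))) - ζ x)) * G x =
        t⁻¹ * (ζ (x + t • (-(bs j : E m))) * G x - ζ x * G x) := by
      intro x
      rw [smul_eq_mul]
      ring
    rw [integral_congr_ae (Eventually.of_forall e3), integral_const_mul, integral_sub i2 i1, e2,
      ← integral_sub i3 i1]
    congr 1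
    refine integral_congr_ae (Eventually.of_forall fun x => ?_)
    simp only
    ring
  rw [e1, abs_mul, abs_of_pos (inv_pos.2 ht), ENNReal.ofReal_mul (inv_pos.2 ht).le]
  have e4 : ENNReal.ofReal |∫ x, ζ x * (G (x + t • (bs j : E m)) - G x)| ≤
      ∫⁻ x, ENNReal.ofReal |ζ x| * ENNReal.ofReal |G (x + t • (bs j : E m)) - G x| := by
    rw [← Real.enorm_eq_ofReal_abs]
    refine (enorm_integral_le_lintegral_enorm _).trans (le_of_eq ?_)
    refine lintegral_congr fun x => ?_
    rw [Real.enorm_eq_ofReal_abs, abs_mul, ENNReal.ofReal_mul (abs_nonneg _)]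
  have e5 := e4.trans (ineq (U := U) (K := K) (K' := K') j f ζ G h L δ L.2 hh hζcont hLip hζK
    hK'm hKK hδU hGe hd ht htδ)
  calc ENNReal.ofReal t⁻¹ * ENNReal.ofReal |∫ x, ζ x * (G (x + t • (bs j : E m)) - G x)|
      ≤ ENNReal.ofReal t⁻¹ * (ENNReal.ofReal t * ((∫⁻ x, h x * ENNReal.ofReal |ζ x|) +
        ENNReal.ofReal (L * t) * ∫⁻ x in K', h x)) := by gcongr
    _ = (∫⁻ x, h x * ENNReal.ofReal |ζ x|) + ENNReal.ofReal (L * t) * B := by
        rw [← mul_assoc, ← ENNReal.ofReal_mul (inv_pos.2 ht).le, inv_mul_cancel₀ ht.ne',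
          ENNReal.ofReal_one, one_mul]

end Pool.Agent.CAL
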