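import Pool.Agent.CAL.Thm

/-!
Squad CAL (Part III of the disproof of Q1 of MP_71cfa6_an): internal definitions.
-/

set_option autoImplicit false

namespace Pool.Agent.CAL

open MeasureTheory Set Metric Filter Topology
open scoped ENNReal
open Pool.Agent.COB

noncomputable section

variable {m d Q k n : ℕ}

/-! ### weak gradients -/

/-- test functions on `U` -/
def TF (U : Set (E m)) (ζ : E m → ℝ) : Prop :=
  ContDiff ℝ (⊤ : ℕ∞) ζ ∧ HasCompactSupport ζ ∧ tsupport ζ ⊆ U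

/-- `f ∈ W^{1,2}(U)` with weak gradient `g` -/
structure W12 (U : Set (E m)) (f : E m → ℝ) (g : Fin m → E m → ℝ) : Prop where
  f2 : MemLp f 2 (volume.restrict U)
  g2 : ∀ j, MemLp (g j) 2 (volume.restrict U)
  ibp : ∀ ζ, TF U ζ → ∀ j, ∫ x, f x * fderiv ℝ ζ x (bs j) = -∫ x, g j x * ζ x

/-- the segment from `x` to `x + t e_j` lies in `U` -/
def Seg (U : Set (E m)) (j : Fin m) (t : ℝ) (x : E m) : Prop :=
  ∀ s ∈ Icc (0 : ℝ) t, x + s • (bs j : E m) ∈ U

/-! ### the flat box -/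

/-- last coordinate -/
def yy (x : E (d + 1)) : ℝ := x (Fin.last d)

/-- first `d` coordinates -/
def hz (x : E (d + 1)) : Fin d → ℝ := fun j => x j.castSucc

/-- the point with horizontal part `x` and height `t` -/
def mk (x : Fin d → ℝ) (t : ℝ) : E (d + 1) :=
  WithLp.toLp 2 (Fin.snoc (α := fun _ => ℝ) x t)

/-- the open unit cube -/
def Bx (d : ℕ) : Set (Fin d → ℝ) := {x | ∀ j, x j ∈ Ioo (0 : ℝ) 1}

/-- the box `(0,1)^d × (-1,1)` -/
def Om (d : ℕ) : Set (E (d + 1)) := {x | hz x ∈ Bx d ∧ yy x ∈ Ioo (-1 : ℝ) 1}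
def Op (d : ℕ) : Set (E (d + 1)) := {x | x ∈ Om d ∧ 0 < yy x}
def Omi (d : ℕ) : Set (E (d + 1)) := {x | x ∈ Om d ∧ yy x < 0}
def ga (d : ℕ) : Set (E (d + 1)) := {x | x ∈ Om d ∧ yy x = 0}

/-! ### Clifford structure, the null Lagrangian -/

/-- skew Clifford matrices on `ℝⁿ` -/
structure Cl (A : Fin d → (E n →L[ℝ] E n)) : Prop where
  skew : ∀ j x y, inner ℝ (A j x) y = -inner ℝ x (A j y)
  sq : ∀ j x, A j (A j x) = -x
  anti : ∀ i j, i ≠ j → ∀ x, A i (A j x) = -A j (A i x)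

/-- Dirac part of the matrix `q` (`q j` is the `j`-th partial derivative) -/
def dir (A : Fin d → (E n →L[ℝ] E n)) (q : Fin (d + 1) → E n) : E n :=
  q (Fin.last d) + ∑ j : Fin d, A j (q j.castSucc)

/-- the null Lagrangian `|q|² - |q_y + ∑ A_j q_j|²` -/
def NN (A : Fin d → (E n →L[ℝ] E n)) (q : Fin (d + 1) → E n) : ℝ :=
  ∑ j, ‖q j‖ ^ 2 - ‖dir A q‖ ^ 2

/-! ### the map `ι` on `𝒜₂(ℝⁿ)` -/

/-- every unordered tuple can be listed -/
theorem exists_tup {V : Type*} (T : Sym V Q) : ∃ a : Fin Q → V,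
    (⟨Multiset.map a Finset.univ.val, by simp⟩ : Sym V Q) = T := by
  obtain ⟨s, hs⟩ := T
  induction s using Quotient.inductionOn with
  | _ l =>
    have hl : l.length = Q := by simpa using hs
    subst hl
    refine ⟨fun i => l.get i, ?_⟩
    apply Subtype.ext
    show Multiset.map (fun i => l.get i) Finset.univ.val = (l : Multiset V)
    rw [Fin.univ_val_map]
    simp

/-- a listing of an unordered tuple -/
def lst {V : Type*} (T : Sym V Q) : Fin Q → V := Classical.choose (exists_tup T)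

/-- half sum -/
def av (T : Sym (E n) 2) : E n := (1 / 2 : ℝ) • (lst T 0 + lst T 1)

/-- half difference (up to sign) -/
def hd (T : Sym (E n) 2) : E n := (1 / 2 : ℝ) • (lst T 0 - lst T 1)

/-- index type of the components of `ι` -/
abbrev Ix (n : ℕ) := Fin n ⊕ ((Fin n × Fin n) ⊕ Unit)

/-- the map `ι`: `√2 a`, `b ⊗ b / |b|`, `|b|` -/
def io (T : Sym (E n) 2) : Ix n → ℝ
  | Sum.inl a => Real.sqrt 2 * av T a
  | Sum.inr (Sum.inl (a, c)) => hd T a * hd T c / ‖hd T‖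
  | Sum.inr (Sum.inr _) => ‖hd T‖

/-- derivative of the half sum read off from the gradient `G` of `ι ∘ w` -/
def aG (G : Ix n → Fin m → E m → ℝ) (x : E m) (j : Fin m) : E n :=
  WithLp.toLp 2 (fun a => G (Sum.inl a) j x / Real.sqrt 2)

/-- the `c`-th column of the derivative of `b ⊗ b / |b|` -/
def bG (G : Ix n → Fin m → E m → ℝ) (c : Fin n) (x : E m) (j : Fin m) : E n :=
  WithLp.toLp 2 (fun a => G (Sum.inr (Sum.inl (a, c))) j x)

/-- the calibration density of a two valued map, in terms of the gradient `G` of `ι ∘ w` -/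
def TN (A : Fin d → (E n →L[ℝ] E n)) (G : Ix n → Fin (d + 1) → E (d + 1) → ℝ)
    (x : E (d + 1)) : ℝ :=
  2 * NN A (aG G x) + 2 * ∑ c, NN A (bG G c x)

/-- gradient of an `ℝⁿ`-valued map from the gradients of its components -/
def vG (P : Fin n → Fin m → E m → ℝ) (x : E m) (j : Fin m) : E n :=
  WithLp.toLp 2 (fun a => P a j x)

/-! ### the datum -/

/-- `v` is a bounded, Lipschitz Dirac function on the upper half space with `C³` boundary values
`f` -/
structure Dat (A : Fin d → (E n →L[ℝ] E n)) (f : (Fin d → ℝ) → E n)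
    (v : (Fin d → ℝ) × ℝ → E n) (C : ℝ) : Prop where
  c3 : ContDiff ℝ 3 f
  fb : ∀ x, ‖fderiv ℝ f x‖ ≤ C
  v0 : ∀ x, v (x, 0) = f x
  bd : ∀ p : (Fin d → ℝ) × ℝ, 0 ≤ p.2 → ‖v p‖ ≤ C
  cont : ContinuousOn v {p | 0 ≤ p.2}
  dif : ContDiffOn ℝ 1 v {p | 0 < p.2}
  lip : ∀ p : (Fin d → ℝ) × ℝ, 0 < p.2 → ‖fderiv ℝ v p‖ ≤ C
  eq : ∀ p : (Fin d → ℝ) × ℝ, 0 < p.2 →
    fderiv ℝ v p (0, 1) + ∑ j, A j (fderiv ℝ v p (Pi.single j 1, 0)) = 0

/-- `v` above, `f` (constant in `y`) below -/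
def VV (v : (Fin d → ℝ) × ℝ → E n) (x : E (d + 1)) : E n := v (hz x, max (yy x) 0)

/-- the upper part of the pair: `⟦0⟧ + ⟦v⟧` -/
def gp (v : (Fin d → ℝ) × ℝ → E n) (x : E (d + 1)) : Sym (E n) 2 := tup ![0, VV v x]

/-- the lower part of the pair: `⟦0⟧` -/
def gm (d n : ℕ) (_ : E (d + 1)) : Sym (E n) 1 := tup ![0]

end

end Pool.Agent.CAL
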