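import Pool.Agent.CAL.Stmts

/-!
# EQN: the calibration density of `⟦p⟧ + ⟦q⟧`
-/

set_option autoImplicit false

namespace Pool.Agent.CAL

open MeasureTheory Set Metric Filter Topology
open scoped ENNReal
open Pool.Agent.COB

namespace EQN_

variable {m n d : ℕ}

theorem int_mul {U : Set (E m)} {f φ : E m → ℝ} (hf : LocallyIntegrableOn f U)
    (hφ : Continuous φ) (hc : HasCompactSupport φ) (hs : tsupport φ ⊆ U) :
    Integrable (fun x => f x * φ x) := by
  have h1 : IntegrableOn f (tsupport φ) := hf.integrableOn_compact_subset hs hc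
  have h2 : IntegrableOn (fun x => f x * φ x) (tsupport φ) :=
    h1.mul_continuousOn hφ.continuousOn hc
  refine (integrableOn_iff_integrable_of_support_subset ?_).1 h2
  intro x hx
  refine subset_tsupport φ ?_
  rw [Function.mem_support] at hx ⊢
  exact right_ne_zero_of_mul hx

theorem loc {U : Set (E m)} {f : E m → ℝ} (hf : MemLp f 2 (volume.restrict U)) :
    LocallyIntegrableOn f U :=
  locallyIntegrableOn_of_locallyIntegrable_restrict (hf.locallyIntegrable (by norm_num))

theorem loc1 {U : Set (E m)} {f : E m → ℝ} (hf : Integrable f (volume.restrict U)) :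
    LocallyIntegrableOn f U :=
  locallyIntegrableOn_of_locallyIntegrable_restrict hf.locallyIntegrable

theorem tf_fd {U : Set (E m)} {ζ : E m → ℝ} (h : TF U ζ) (v : E m) :
    Continuous (fun x => fderiv ℝ ζ x v) ∧ HasCompactSupport (fun x => fderiv ℝ ζ x v) ∧
      tsupport (fun x => fderiv ℝ ζ x v) ⊆ U := by
  have h1 : Continuous (fderiv ℝ ζ) := h.1.continuous_fderiv (by simp)
  have h2 : tsupport (fun x => fderiv ℝ ζ x v) ⊆ tsupport ζ := by
    refine (closure_mono ?_).trans (tsupport_fderiv_subset ℝ (f := ζ))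
    intro x hx
    rw [Function.mem_support] at hx ⊢
    intro h0
    exact hx (by simp [h0])
  exact ⟨h1.clm_apply continuous_const, h.2.1.of_isClosed_subset (isClosed_tsupport _) h2,
    h2.trans h.2.2⟩

/-- uniqueness -/
theorem uniq (hU : Stmt_UNQ) {U : Set (E m)} (hUo : IsOpen U) {g g' : E m → ℝ}
    (hg : LocallyIntegrableOn g U) (hg' : LocallyIntegrableOn g' U)
    (h : ∀ ζ, TF U ζ → ∫ x, g x * ζ x = ∫ x, g' x * ζ x) :
    ∀ᵐ x ∂(volume.restrict U), g x = g' x := by
  have h1 := hU m U (fun x => g x - g' x) hUo (hg.sub hg') (by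
    intro ζ hζ
    have i1 := int_mul hg hζ.1.continuous hζ.2.1 hζ.2.2
    have i2 := int_mul hg' hζ.1.continuous hζ.2.1 hζ.2.2
    have h2 := integral_sub i1 i2
    rw [h ζ hζ, sub_self] at h2
    rw [← h2]
    refine integral_congr_ae (ae_of_all _ fun x => ?_)
    simp only
    ring)
  filter_upwards [h1] with x hx
  linarith

/-- linear combinations -/
theorem lin {U : Set (E m)} {f f' : E m → ℝ} {g g' : Fin m → E m → ℝ} (hf : W12 U f g)
    (hf' : W12 U f' g') (a b : ℝ) :
    W12 U (fun x => a * f x + b * f' x) (fun j x => a * g j x + b * g' j x) := by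
  refine ⟨(hf.f2.const_mul a).add (hf'.f2.const_mul b),
    fun j => ((hf.g2 j).const_mul a).add ((hf'.g2 j).const_mul b), fun ζ hζ j => ?_⟩
  obtain ⟨c1, c2, c3⟩ := tf_fd hζ (bs j)
  have i1 := (int_mul (loc hf.f2) c1 c2 c3).const_mul a
  have i2 := (int_mul (loc hf'.f2) c1 c2 c3).const_mul b
  have i3 := (int_mul (loc (hf.g2 j)) hζ.1.continuous hζ.2.1 hζ.2.2).const_mul a
  have i4 := (int_mul (loc (hf'.g2 j)) hζ.1.continuous hζ.2.1 hζ.2.2).const_mul b
  have e1 : ∫ x, (a * f x + b * f' x) * fderiv ℝ ζ x (bs j) =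
      a * (∫ x, f x * fderiv ℝ ζ x (bs j)) + b * (∫ x, f' x * fderiv ℝ ζ x (bs j)) := by
    rw [← integral_const_mul, ← integral_const_mul, ← integral_add i1 i2]
    refine integral_congr_ae (ae_of_all _ fun x => ?_)
    simp only
    ring
  have e2 : ∫ x, (a * g j x + b * g' j x) * ζ x =
      a * (∫ x, g j x * ζ x) + b * (∫ x, g' j x * ζ x) := by
    rw [← integral_const_mul, ← integral_const_mul, ← integral_add i3 i4]
    refine integral_congr_ae (ae_of_all _ fun x => ?_)
    simp only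
    ring
  rw [e1, e2, hf.ibp ζ hζ j, hf'.ibp ζ hζ j]
  ring

theorem w12_uniq (hUN : Stmt_UNQ) {U : Set (E m)} (hUo : IsOpen U) {f f' : E m → ℝ}
    {g g' : Fin m → E m → ℝ} (hf : W12 U f g) (hf' : W12 U f' g') (hff : ∀ x, f x = f' x)
    (j : Fin m) : ∀ᵐ x ∂(volume.restrict U), g j x = g' j x := by
  refine uniq hUN hUo (loc (hf.g2 j)) (loc (hf'.g2 j)) fun ζ hζ => ?_
  have h1 := hf.ibp ζ hζ j
  have h2 := hf'.ibp ζ hζ j
  have h3 : f = f' := funext hff
  rw [h3, h2] at h1
  linarith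

/-- product rule and uniqueness -/
theorem prod_uniq (hUN : Stmt_UNQ) (hP : Stmt_PRD) {U : Set (E m)} (hUo : IsOpen U)
    {u w u' w' : E m → ℝ} {gu gw gu' gw' : Fin m → E m → ℝ} (hu : W12 U u gu) (hw : W12 U w gw)
    (hu' : W12 U u' gu') (hw' : W12 U w' gw') (h : ∀ x, u x * w x = u' x * w' x) (j : Fin m) :
    ∀ᵐ x ∂(volume.restrict U), u x * gw j x + gu j x * w x =
      u' x * gw' j x + gu' j x * w' x := by
  have hi : ∀ {a b c e : E m → ℝ}, MemLp a 2 (volume.restrict U) → MemLp b 2 (volume.restrict U) →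
      MemLp c 2 (volume.restrict U) → MemLp e 2 (volume.restrict U) →
      LocallyIntegrableOn (fun x => a x * b x + c x * e x) U := by
    intro a b c e ha hb hc he
    exact loc1 ((ha.integrable_mul hb).add (hc.integrable_mul he))
  refine uniq hUN hUo (hi hu.f2 (hw.g2 j) (hu.g2 j) hw.f2)
    (hi hu'.f2 (hw'.g2 j) (hu'.g2 j) hw'.f2) fun ζ hζ => ?_
  have h1 := hP m U u w gu gw hUo hu hw ζ hζ j
  have h2 := hP m U u' w' gu' gw' hUo hu' hw' ζ hζ j
  have h3 : ∫ x, (u x * w x) * fderiv ℝ ζ x (bs j) = ∫ x, (u' x * w' x) * fderiv ℝ ζ x (bs j) :=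
    integral_congr_ae (ae_of_all _ fun x => by simp only [h])
  rw [h1, h2] at h3
  linarith

/-- the null Lagrangian is quadratic -/
theorem dir_add (A : Fin d → (E n →L[ℝ] E n)) (x y : Fin (d + 1) → E n) (a b : ℝ) :
    dir A (fun j => a • x j + b • y j) = a • dir A x + b • dir A y := by
  unfold dir
  simp only [map_add, map_smul, smul_add, Finset.smul_sum, Finset.sum_add_distrib]
  abel

theorem nn_par (A : Fin d → (E n →L[ℝ] E n)) (x y : Fin (d + 1) → E n) :
    2 * NN A (fun j => (1 / 2 : ℝ) • x j + (1 / 2 : ℝ) • y j) +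
      2 * NN A (fun j => (1 / 2 : ℝ) • x j + (-(1 / 2) : ℝ) • y j) = NN A x + NN A y := by
  have key : ∀ u v : E n, 2 * ‖(1 / 2 : ℝ) • u + (1 / 2 : ℝ) • v‖ ^ 2 +
      2 * ‖(1 / 2 : ℝ) • u + (-(1 / 2) : ℝ) • v‖ ^ 2 = ‖u‖ ^ 2 + ‖v‖ ^ 2 := by
    intro u v
    have h1 : (1 / 2 : ℝ) • u + (1 / 2 : ℝ) • v = (1 / 2 : ℝ) • (u + v) := by rw [smul_add]
    have h2 : (1 / 2 : ℝ) • u + (-(1 / 2) : ℝ) • v = (1 / 2 : ℝ) • (u - v) := by
      rw [smul_sub, neg_smul, sub_eq_add_neg]
    rw [h1, h2, norm_smul, norm_smul]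
    have h3 := parallelogram_law_with_norm ℝ u v
    have h4 : ‖(1 / 2 : ℝ)‖ = 1 / 2 := by norm_num
    rw [h4]
    nlinarith
  unfold NN
  rw [dir_add, dir_add]
  have h1 := key (dir A x) (dir A y)
  have h2 : 2 * ∑ j, ‖(1 / 2 : ℝ) • x j + (1 / 2 : ℝ) • y j‖ ^ 2 +
      2 * ∑ j, ‖(1 / 2 : ℝ) • x j + (-(1 / 2) : ℝ) • y j‖ ^ 2 =
      ∑ j, ‖x j‖ ^ 2 + ∑ j, ‖y j‖ ^ 2 := by
    rw [Finset.mul_sum, Finset.mul_sum, ← Finset.sum_add_distrib, ← Finset.sum_add_distrib]
    exact Finset.sum_congr rfl fun j _ => key _ _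
  linarith

theorem nn_zero (A : Fin d → (E n →L[ℝ] E n)) : NN A (fun _ => (0 : E n)) = 0 := by
  unfold NN dir
  simp

theorem nn_smul (A : Fin d → (E n →L[ℝ] E n)) (ε : ℝ) (hε : ε * ε = 1)
    (x y : Fin (d + 1) → E n) (h : ∀ j, x j = ε • y j) : NN A x = NN A y := by
  have h1 : dir A x = ε • dir A y := by
    unfold dir
    simp only [h, map_smul, smul_add, Finset.smul_sum]
  have h2 : ∀ u : E n, ‖ε • u‖ ^ 2 = ‖u‖ ^ 2 := by
    intro u
    rw [norm_smul, mul_pow, Real.norm_eq_abs, sq_abs, pow_two ε, hε, one_mul]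
  unfold NN
  rw [h1, h2]
  congr 1
  exact Finset.sum_congr rfl fun j _ => by rw [h j, h2]

/-- uniqueness of the symmetric product -/
theorem sym_inj (ν s t : E n) (hν : ‖ν‖ = 1)
    (h : ∀ a b, ν a * s b + s a * ν b = ν a * t b + t a * ν b) : s = t := by
  have hν2 : ∑ a, ν a * ν a = 1 := by
    have h1 := EuclideanSpace.real_norm_sq_eq ν
    rw [hν] at h1
    have h2 : ∑ a, ν a * ν a = ∑ a, ν a ^ 2 := Finset.sum_congr rfl fun a _ => by ring
    rw [h2, ← h1]
    norm_num
  have h1 : ∀ b, (s b - t b) + (∑ a, ν a * (s a - t a)) * ν b = 0 := by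
    intro b
    have h2 : ∑ a, ν a * (ν a * (s b - t b) + (s a - t a) * ν b) = 0 := by
      refine Finset.sum_eq_zero fun a _ => ?_
      have := h a b
      have h3 : ν a * (s b - t b) + (s a - t a) * ν b = 0 := by linarith
      rw [h3, mul_zero]
    have h4 : ∑ a, ν a * (ν a * (s b - t b) + (s a - t a) * ν b) =
        (∑ a, ν a * ν a) * (s b - t b) + (∑ a, ν a * (s a - t a)) * ν b := by
      rw [Finset.sum_mul, Finset.sum_mul, ← Finset.sum_add_distrib]
      exact Finset.sum_congr rfl fun a _ => by ring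
    rw [h4, hν2, one_mul] at h2
    exact h2
  set σ : ℝ := ∑ a, ν a * (s a - t a) with hσ
  have h5 : σ = 0 := by
    have h6 : ∑ b, ν b * ((s b - t b) + σ * ν b) = 0 :=
      Finset.sum_eq_zero fun b _ => by rw [h1 b, mul_zero]
    have h7 : ∑ b, ν b * ((s b - t b) + σ * ν b) = σ + σ * ∑ b, ν b * ν b := by
      rw [hσ, Finset.mul_sum, ← Finset.sum_add_distrib]
      exact Finset.sum_congr rfl fun a _ => by ring
    rw [h7, hν2] at h6
    linarith
  ext b
  have h8 := h1 b
  rw [h5, zero_mul, add_zero] at h8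
  linarith

end EQN_

open EQN_

theorem eqn_proof (hIOV : Stmt_IOV) (hUNQ : Stmt_UNQ) (hPRD : Stmt_PRD) (hZER : Stmt_ZER)
    (_hNLF : Stmt_NLF) (hPTA : Stmt_PTA) (hTAN : Stmt_TAN) : Stmt_EQN := by
  intro d n A U p q P R G hA hU hp hq hG
  have hav : ∀ x, av (tup ![p x, q x]) = (1 / 2 : ℝ) • (p x + q x) := fun x =>
    (hIOV n (p x) (q x)).1
  -- half difference
  set b : Fin n → E (d + 1) → ℝ := fun a x => (1 / 2) * p x a + (-(1 / 2)) * q x a with hb
  set db : Fin n → Fin (d + 1) → E (d + 1) → ℝ :=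
    fun a j x => (1 / 2) * P a j x + (-(1 / 2)) * R a j x with hdb
  have hbW : ∀ a, W12 U (b a) (db a) := fun a => lin (hp a) (hq a) (1 / 2) (-(1 / 2))
  have hbb : ∀ x a c, hd (tup ![p x, q x]) a * hd (tup ![p x, q x]) c = b a x * b c x := by
    intro x a c
    rcases (hIOV n (p x) (q x)).2 with h | h
    · rw [h]
      simp only [PiLp.smul_apply, PiLp.sub_apply, smul_eq_mul, hb]
      ring
    · rw [h]
      simp only [PiLp.neg_apply, PiLp.smul_apply, PiLp.sub_apply, smul_eq_mul, hb]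
      ring
  have hsq : Real.sqrt 2 * Real.sqrt 2 = 2 := Real.mul_self_sqrt (by norm_num)
  have hs0 : Real.sqrt 2 ≠ 0 := by positivity
  -- first relation
  have e1 : ∀ᵐ x ∂(volume.restrict U), ∀ j a, G (Sum.inl a) j x =
      Real.sqrt 2 / 2 * P a j x + Real.sqrt 2 / 2 * R a j x := by
    rw [ae_all_iff]
    intro j
    rw [ae_all_iff]
    intro a
    refine w12_uniq hUNQ hU (hG (Sum.inl a)) (lin (hp a) (hq a) (Real.sqrt 2 / 2)
      (Real.sqrt 2 / 2)) (fun x => ?_) j
    show Real.sqrt 2 * av (tup ![p x, q x]) a = _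
    rw [hav]
    simp only [PiLp.smul_apply, PiLp.add_apply, smul_eq_mul]
    ring
  -- product relation
  have e2 : ∀ᵐ x ∂(volume.restrict U), ∀ j a c,
      ‖hd (tup ![p x, q x])‖ * G (Sum.inr (Sum.inl (a, c))) j x +
        G (Sum.inr (Sum.inr ())) j x *
          (hd (tup ![p x, q x]) a * hd (tup ![p x, q x]) c / ‖hd (tup ![p x, q x])‖) =
      b a x * db c j x + db a j x * b c x := by
    rw [ae_all_iff]
    intro j
    rw [ae_all_iff]
    intro a
    rw [ae_all_iff]
    intro c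
    refine prod_uniq hUNQ hPRD hU (hG (Sum.inr (Sum.inr ()))) (hG (Sum.inr (Sum.inl (a, c))))
      (hbW a) (hbW c) (fun x => ?_) j
    show ‖hd (tup ![p x, q x])‖ *
      (hd (tup ![p x, q x]) a * hd (tup ![p x, q x]) c / ‖hd (tup ![p x, q x])‖) = b a x * b c x
    rw [← hbb x a c]
    by_cases h0 : ‖hd (tup ![p x, q x])‖ = 0
    · have h1 : hd (tup ![p x, q x]) = 0 := norm_eq_zero.1 h0
      rw [h0, h1]
      simp
    · field_simp
  have e3 : ∀ᵐ x ∂(volume.restrict U), ∀ a j, b a x = 0 → db a j x = 0 := by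
    rw [ae_all_iff]
    intro a
    rw [ae_all_iff]
    intro j
    exact hZER (d + 1) U (b a) (db a) hU (hbW a) j
  have e4 := hTAN (d + 1) n U (fun x => tup ![p x, q x]) G hU hG
  filter_upwards [e1, e2, e3, e4] with x h1 h2 h3 h4
  -- average part
  have ha : aG G x = fun j => (1 / 2 : ℝ) • vG P x j + (1 / 2 : ℝ) • vG R x j := by
    funext j
    ext a
    simp only [aG, vG, PiLp.add_apply, PiLp.smul_apply, smul_eq_mul]
    rw [h1 j a]
    field_simp
  -- difference part
  have hbG : ∑ c, NN A (bG G c x) =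
      NN A (fun j => (1 / 2 : ℝ) • vG P x j + (-(1 / 2) : ℝ) • vG R x j) := by
    set h := hd (tup ![p x, q x]) with hh
    by_cases h0 : h = 0
    · have hb0 : ∀ a, b a x = 0 := by
        intro a
        have h5 := hbb x a a
        rw [← hh, h0] at h5
        simp only [PiLp.zero_apply, mul_zero] at h5
        exact mul_self_eq_zero.1 h5.symm
      have e5 : ∀ c, bG G c x = fun _ => 0 := by
        intro c
        funext j
        ext a
        exact ((h4 j).2.2.2 h0).1 a c
      have e6 : (fun j => (1 / 2 : ℝ) • vG P x j + (-(1 / 2) : ℝ) • vG R x j) =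
          fun _ => (0 : E n) := by
        funext j
        ext a
        simp only [vG, PiLp.add_apply, PiLp.smul_apply, smul_eq_mul, PiLp.zero_apply]
        exact h3 a j (hb0 a)
      rw [e6, nn_zero]
      refine Finset.sum_eq_zero fun c _ => ?_
      rw [e5, nn_zero]
    · have hr : ‖h‖ ≠ 0 := norm_ne_zero_iff.2 h0
      set ν : E n := (‖h‖)⁻¹ • h with hν
      have hν1 : ‖ν‖ = 1 := by
        rw [hν, norm_smul, norm_inv, norm_norm, inv_mul_cancel₀ hr]
      have hνa : ∀ a, h a = ‖h‖ * ν a := by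
        intro a
        rw [hν]
        simp only [PiLp.smul_apply, smul_eq_mul]
        field_simp
      have hνν : ∀ a c, h a * h c / ‖h‖ = ‖h‖ * ν a * ν c := by
        intro a c
        rw [hνa a, hνa c]
        field_simp
      obtain ⟨s, s1, s2, s3, s4⟩ := hPTA d n A ν ‖h‖
        (fun j a c => G (Sum.inr (Sum.inl (a, c))) j x) (fun j => G (Sum.inr (Sum.inr ())) j x)
        hA hν1 hr (fun j a c => (h4 j).1 a c) (fun j a c => by
          have h5 := (h4 j).2.1 a c
          simp only [hνν] at h5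
          exact h5) (fun j => (h4 j).2.2.1)
      have e5 : ∑ c, NN A (bG G c x) = NN A s := s4
      rw [e5]
      -- sign
      obtain ⟨ε, hε, hbε⟩ : ∃ ε : ℝ, ε * ε = 1 ∧ ∀ a, b a x = ε * h a := by
        rcases (hIOV n (p x) (q x)).2 with h6 | h6
        · refine ⟨1, by norm_num, fun a => ?_⟩
          rw [hh, h6]
          simp only [PiLp.smul_apply, PiLp.sub_apply, smul_eq_mul, hb]
          ring
        · refine ⟨-1, by norm_num, fun a => ?_⟩
          rw [hh, h6]
          simp only [PiLp.neg_apply, PiLp.smul_apply, PiLp.sub_apply, smul_eq_mul, hb]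
          ring
      refine nn_smul A ε hε _ _ fun j => ?_
      refine sym_inj ν _ _ hν1 fun a c => ?_
      have h7 := h2 j a c
      have h8 := s1 j a c
      simp only at h8
      rw [hνν, hbε a, hbε c, hνa a, hνa c, h8] at h7
      have h9 : ∀ a, (ε • ((1 / 2 : ℝ) • vG P x j + (-(1 / 2) : ℝ) • vG R x j)) a =
          ε * db a j x := by
        intro a
        simp only [vG, PiLp.add_apply, PiLp.smul_apply, smul_eq_mul, hdb]
      rw [h9, h9]
      refine mul_left_cancel₀ hr ?_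
      linarith
  unfold TN
  rw [ha, hbG, nn_par]

end Pool.Agent.CAL
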