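import Pool.Agent.CAL.Main
import Pool.Agent.HBW.Main
import Pool.Agent.HBZ.Main

/-!
Assembly of the disproof of Q1 of MP_71cfa6_an: Parts I (HBW), II (HBZ) and III (CAL).
-/

set_option autoImplicit false

namespace Pool.Agent.CAL

open MeasureTheory Set Metric Filter Topology
open scoped ENNReal
open Pool.Agent.COB

/-- the counterexample -/
theorem main : ∃ (d n : ℕ) (Om Op Omi ga : Set (E (d + 1))) (φ : E (d + 1) → E n)
    (gp : E (d + 1) → Sym (E n) 2) (gm : E (d + 1) → Sym (E n) 1),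
    IsSplit Om Op Omi ga ∧ IsConnected Om ∧ IsC3On ga φ ∧
    ContQ (Op ∪ ga) gp ∧ ContQ (Omi ∪ ga) gm ∧ DirMin Om Op Omi ga φ gp gm ∧
    0 < Measure.hausdorffMeasure (d : ℝ) {p | p ∈ ga ∧ ¬ RegPt Op Omi gp gm p} := by
  obtain ⟨d, -, h⟩ := Pool.Agent.HBZ.hbz_main Pool.Agent.HBW.T_FIN
  obtain ⟨A, hA⟩ := T_CLM d
  obtain ⟨f, v, C, Z, hD, hZ, hZ0, hz0, hnz⟩ := h (2 ^ d) Nat.one_le_two_pow A hA
  obtain ⟨h1, h2, h3, h4, h5, h6⟩ := T_CAL d (2 ^ d) A f v C Z hA hD hZ hZ0 hz0 hnz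
  exact ⟨d, 2 ^ d, Om d, Op d, Omi d, ga d, fun x => f (Pool.Agent.CAL.hz x), gp v, gm d (2 ^ d), h1,
    (T_SPL d).2.1, h2, h3, h4, h5, h6⟩

end Pool.Agent.CAL
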