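import Pool.Agent.CAL.Stmts

set_option autoImplicit false

namespace Pool.Agent.CAL

open MeasureTheory Set Metric Filter Topology
open scoped ENNReal
open Pool.Agent.COB

namespace GGF_

open Classical in
theorem same_of_ms {Q n : ℕ} {a b : Fin Q → E n} (h : tup a = tup b) :
    ∃ σ : Equiv.Perm (Fin Q), a = b ∘ σ := by
  have h0 : Multiset.map a Finset.univ.val = Multiset.map b Finset.univ.val :=
    congrArg Subtype.val h
  have hc : ∀ v : E n, Fintype.card {i // a i = v} = Fintype.card {i // b i = v} := by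
    intro v
    have h1 := congrArg (Multiset.count v) h0
    rw [Multiset.count_map, Multiset.count_map] at h1
    rw [Fintype.card_subtype, Fintype.card_subtype, Finset.card_def, Finset.card_def,
      Finset.filter_val, Finset.filter_val]
    simpa only [eq_comm] using h1
  let e : ∀ v : E n, {i // a i = v} ≃ {i // b i = v} := fun v => Fintype.equivOfCardEq (hc v)
  refine ⟨Equiv.ofFiberEquiv e, ?_⟩
  funext i
  exact (Equiv.ofFiberEquiv_map e i).symm

theorem tup_comp {Q n : ℕ} (b : Fin Q → E n) (σ : Equiv.Perm (Fin Q)) :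
    tup (b ∘ σ) = tup b := by
  apply Subtype.ext
  show Multiset.map (b ∘ σ) Finset.univ.val = Multiset.map b Finset.univ.val
  have h := Multiset.map_univ_val_equiv σ
  rw [← Multiset.map_map, h]

theorem set_eq {Q n : ℕ} (a b : Fin Q → E n) :
    {r : ℝ | ∃ a' b' : Fin Q → E n, tup a' = tup a ∧ tup b' = tup b ∧
      r = Real.sqrt (∑ i, ‖a' i - b' i‖ ^ 2)} =
      Set.range (fun σ : Equiv.Perm (Fin Q) => Real.sqrt (∑ i, ‖a i - b (σ i)‖ ^ 2)) := by
  ext r
  constructor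
  · rintro ⟨a', b', ha, hb, rfl⟩
    obtain ⟨s, rfl⟩ := same_of_ms ha
    obtain ⟨t, rfl⟩ := same_of_ms hb
    refine ⟨s.symm.trans t, ?_⟩
    show Real.sqrt (∑ i, ‖a i - b ((s.symm.trans t) i)‖ ^ 2) =
      Real.sqrt (∑ i, ‖(a ∘ s) i - (b ∘ t) i‖ ^ 2)
    congr 1
    rw [← Equiv.sum_comp s (fun i => ‖a i - b ((s.symm.trans t) i)‖ ^ 2)]
    refine Finset.sum_congr rfl fun i _ => ?_
    simp
  · rintro ⟨σ, rfl⟩
    exact ⟨a, b ∘ σ, rfl, tup_comp b σ, rfl⟩

end GGF_

theorem ggf_proof : Stmt_GGF := by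
  intro Q n a b
  have hfin : (Set.range (fun σ : Equiv.Perm (Fin Q) =>
      Real.sqrt (∑ i, ‖a i - b (σ i)‖ ^ 2))).Finite := Set.finite_range _
  have hne : (Set.range (fun σ : Equiv.Perm (Fin Q) =>
      Real.sqrt (∑ i, ‖a i - b (σ i)‖ ^ 2))).Nonempty := Set.range_nonempty _
  have hG : GG (tup a) (tup b) = sInf (Set.range (fun σ : Equiv.Perm (Fin Q) =>
      Real.sqrt (∑ i, ‖a i - b (σ i)‖ ^ 2))) := by
    unfold GG
    rw [GGF_.set_eq]
  rw [hG]
  constructor
  · intro σ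
    exact csInf_le hfin.bddBelow ⟨σ, rfl⟩
  · obtain ⟨σ, hσ⟩ := hne.csInf_mem hfin
    exact ⟨σ, hσ.symm⟩

end Pool.Agent.CAL
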