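import Pool.Agent.CAL.Stmts

set_option autoImplicit false

namespace Pool.Agent.CAL

open MeasureTheory Set Metric Filter Topology
open scoped ENNReal
open Pool.Agent.COB

namespace GGM_

theorem ex {Q n : ℕ} (S : Sym (E n) Q) : ∃ a : Fin Q → E n, tup a = S := exists_tup S

theorem mink {Q n : ℕ} (x y : Fin Q → E n) :
    Real.sqrt (∑ i, ‖x i + y i‖ ^ 2) ≤
      Real.sqrt (∑ i, ‖x i‖ ^ 2) + Real.sqrt (∑ i, ‖y i‖ ^ 2) := by
  have h := norm_add_le (WithLp.toLp 2 x) (WithLp.toLp 2 y)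
  rw [PiLp.norm_eq_of_L2, PiLp.norm_eq_of_L2, PiLp.norm_eq_of_L2] at h
  simpa using h

theorem nonneg (hG : Stmt_GGF) {Q n : ℕ} (a b : Fin Q → E n) : 0 ≤ GG (tup a) (tup b) := by
  obtain ⟨σ, hσ⟩ := (hG Q n a b).2
  rw [hσ]
  exact Real.sqrt_nonneg _

theorem symm_le (hG : Stmt_GGF) {Q n : ℕ} (a b : Fin Q → E n) :
    GG (tup b) (tup a) ≤ GG (tup a) (tup b) := by
  obtain ⟨σ, hσ⟩ := (hG Q n a b).2
  rw [hσ]
  refine ((hG Q n b a).1 σ.symm).trans (le_of_eq ?_)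
  congr 1
  rw [← Equiv.sum_comp σ (fun i => ‖b i - a (σ.symm i)‖ ^ 2)]
  refine Finset.sum_congr rfl fun i _ => ?_
  rw [Equiv.symm_apply_apply, norm_sub_rev]

end GGM_

theorem ggm_proof (hGGF : Stmt_GGF) : Stmt_GGM := by
  intro Q n S T R
  obtain ⟨a, rfl⟩ := GGM_.ex S
  obtain ⟨b, rfl⟩ := GGM_.ex T
  obtain ⟨c, rfl⟩ := GGM_.ex R
  refine ⟨GGM_.nonneg hGGF a b, ?_, ?_, ?_⟩
  · apply le_antisymm _ (GGM_.nonneg hGGF a a)
    refine ((hGGF Q n a a).1 (Equiv.refl _)).trans (le_of_eq ?_)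
    simp
  · exact le_antisymm (GGM_.symm_le hGGF b a) (GGM_.symm_le hGGF a b)
  · obtain ⟨σ, hσ⟩ := (hGGF Q n a c).2
    obtain ⟨τ, hτ⟩ := (hGGF Q n c b).2
    rw [hσ, hτ]
    refine ((hGGF Q n a b).1 (σ.trans τ)).trans ?_
    have h1 : (∑ i, ‖c i - b (τ i)‖ ^ 2) = ∑ i, ‖c (σ i) - b (τ (σ i))‖ ^ 2 :=
      (Equiv.sum_comp σ (fun i => ‖c i - b (τ i)‖ ^ 2)).symm
    rw [h1]
    refine le_trans (le_of_eq ?_) (GGM_.mink (fun i => a i - c (σ i))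
      (fun i => c (σ i) - b (τ (σ i))))
    congr 1
    refine Finset.sum_congr rfl fun i _ => ?_
    congr 2
    show a i - b (τ (σ i)) = _
    abel

end Pool.Agent.CAL
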