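import Pool.Agent.CAL.Stmts

set_option autoImplicit false

namespace Pool.Agent.CAL

open MeasureTheory Set Metric Filter Topology
open scoped ENNReal
open Pool.Agent.COB

theorem ggs_proof (hGGF : Stmt_GGF) : Stmt_GGS := by
  intro Q n
  refine ⟨fun i => tup (TopologicalSpace.denseSeq (Fin Q → E n) i), ?_⟩
  intro S ε hε
  obtain ⟨a, ha⟩ := exists_tup S
  have hS : tup a = S := ha
  have hcont : Continuous (fun b : Fin Q → E n => Real.sqrt (∑ i, ‖a i - b i‖ ^ 2)) := by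
    fun_prop
  have hopen : IsOpen {b : Fin Q → E n | Real.sqrt (∑ i, ‖a i - b i‖ ^ 2) < ε} :=
    isOpen_lt hcont continuous_const
  have hne : {b : Fin Q → E n | Real.sqrt (∑ i, ‖a i - b i‖ ^ 2) < ε}.Nonempty := by
    refine ⟨a, ?_⟩
    show Real.sqrt (∑ i, ‖a i - a i‖ ^ 2) < ε
    simpa using hε
  obtain ⟨i, hi⟩ := (TopologicalSpace.denseRange_denseSeq (Fin Q → E n)).exists_mem_open hopen hne
  refine ⟨i, ?_⟩
  rw [← hS]
  exact lt_of_le_of_lt ((hGGF Q n a _).1 (Equiv.refl _)) hi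

end Pool.Agent.CAL
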