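import Pool.Agent.CAL.Stmts

/-!
# Squad CAL: module GLU (gluing across the interface)
-/

set_option autoImplicit false

namespace Pool.Agent.CAL

open MeasureTheory Set Metric Filter Topology
open scoped ENNReal
open Pool.Agent.COB

namespace GLU_

variable {d : ℕ}

/-! ### coordinates -/

lemma hz_mk (x : Fin d → ℝ) (t : ℝ) : hz (mk x t) = x := by
  funext j
  simp [hz, mk]

lemma yy_mk (x : Fin d → ℝ) (t : ℝ) : yy (mk x t) = t := by
  simp [yy, mk]

lemma ext_hy {x y : E (d + 1)} (h1 : hz x = hz y) (h2 : yy x = yy y) : x = y := by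
  ext i
  refine Fin.lastCases h2 (fun j => ?_) i
  exact congrFun h1 j

lemma yy_cont : Continuous (yy : E (d + 1) → ℝ) := by
  unfold yy
  fun_prop

lemma hz_cont : Continuous (hz : E (d + 1) → (Fin d → ℝ)) := by
  unfold hz
  fun_prop

lemma open_Bx : IsOpen (Bx d) := by
  have : Bx d = Set.pi univ fun _ => Ioo (0 : ℝ) 1 := by
    ext x
    simp [Bx]
  rw [this]
  exact isOpen_set_pi finite_univ fun _ _ => isOpen_Ioo

lemma open_Om : IsOpen (Om d) :=
  (open_Bx.preimage hz_cont).inter (isOpen_Ioo.preimage yy_cont)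

lemma open_Op : IsOpen (Op d) := open_Om.inter (isOpen_lt continuous_const yy_cont)

lemma open_Omi : IsOpen (Omi d) := open_Om.inter (isOpen_lt yy_cont continuous_const)

lemma meas_ga : MeasurableSet (ga d) :=
  open_Om.measurableSet.inter (isClosed_eq yy_cont continuous_const).measurableSet

/-- the interface is a null set -/
lemma null_ga : volume (ga d) = 0 := by
  have h1 : volume ((LinearMap.ker (EuclideanSpace.proj (𝕜 := ℝ) (Fin.last d) :
      E (d + 1) →L[ℝ] ℝ).toLinearMap : Submodule ℝ (E (d + 1))) : Set (E (d + 1))) = 0 := by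
    refine Measure.addHaar_submodule volume _ ?_
    intro h
    have h2 : (bs (Fin.last d) : E (d + 1)) ∈ (⊤ : Submodule ℝ (E (d + 1))) := trivial
    rw [← h] at h2
    simp at h2
  refine measure_mono_null ?_ h1
  intro x hx
  have h2 := hx.2
  simpa [yy] using h2

/-! ### the reflection -/

/-- the reflection in the last coordinate -/
noncomputable def sg (d : ℕ) : E (d + 1) ≃ₗᵢ[ℝ] E (d + 1) :=
  LinearIsometryEquiv.piLpCongrRight 2 fun i =>
    if i = Fin.last d then LinearIsometryEquiv.neg ℝ else LinearIsometryEquiv.refl ℝ ℝ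

lemma sg_apply (x : E (d + 1)) (i : Fin (d + 1)) :
    sg d x i = if i = Fin.last d then -x i else x i := by
  unfold sg
  rw [LinearIsometryEquiv.piLpCongrRight_apply]
  simp only
  split_ifs with h <;> simp

lemma yy_sg (x : E (d + 1)) : yy (sg d x) = -yy x := by
  unfold yy
  rw [sg_apply, if_pos rfl]

lemma hz_sg (x : E (d + 1)) : hz (sg d x) = hz x := by
  funext j
  unfold hz
  rw [sg_apply, if_neg (Fin.castSucc_lt_last j).ne]

lemma sg_mk (x : Fin d → ℝ) : sg d (mk x 0) = mk x 0 := by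
  refine ext_hy (hz_sg _) ?_
  rw [yy_sg, yy_mk, neg_zero]

lemma sg_Om (x : E (d + 1)) : sg d x ∈ Om d ↔ x ∈ Om d := by
  unfold Om
  simp only [mem_ofPred_eq, hz_sg, yy_sg, mem_Ioo]
  constructor
  · rintro ⟨h1, h2, h3⟩
    exact ⟨h1, by linarith, by linarith⟩
  · rintro ⟨h1, h2, h3⟩
    exact ⟨h1, by linarith, by linarith⟩

lemma sg_Op (x : E (d + 1)) : sg d x ∈ Omi d ↔ x ∈ Op d := by
  unfold Op Omi
  simp only [mem_ofPred_eq, sg_Om, yy_sg, Left.neg_neg_iff]

lemma sg_Omi (x : E (d + 1)) : sg d x ∈ Op d ↔ x ∈ Omi d := by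
  unfold Op Omi
  simp only [mem_ofPred_eq, sg_Om, yy_sg, Left.neg_pos_iff]

/-- sign of the direction -/
noncomputable def sgn (d : ℕ) (j : Fin (d + 1)) : ℝ := if j = Fin.last d then -1 else 1

lemma sg_bs (j : Fin (d + 1)) : sg d (bs j) = sgn d j • bs j := by
  ext i
  rw [sg_apply]
  simp only [sgn, PiLp.smul_apply, PiLp.single_apply, smul_eq_mul]
  split_ifs <;> simp_all

lemma sgn_sq (j : Fin (d + 1)) : sgn d j * sgn d j = 1 := by
  unfold sgn
  split_ifs <;> norm_num

lemma sg_mp : MeasurePreserving (sg d) (volume : Measure (E (d + 1))) volume :=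
  (sg d).measurePreserving

lemma sg_emb : MeasurableEmbedding (sg d) := (sg d).toHomeomorph.measurableEmbedding

lemma sg_sg (x : E (d + 1)) : sg d (sg d x) = x := by
  refine ext_hy ?_ ?_
  · rw [hz_sg, hz_sg]
  · rw [yy_sg, yy_sg, neg_neg]

lemma fderiv_sg {ζ : E (d + 1) → ℝ} (hζ : ContDiff ℝ (⊤ : ℕ∞) ζ) (x : E (d + 1))
    (j : Fin (d + 1)) : fderiv ℝ (fun y => ζ (sg d y)) x (bs j) =
      sgn d j * fderiv ℝ ζ (sg d x) (bs j) := by
  have h1 : HasFDerivAt ζ (fderiv ℝ ζ (sg d x)) (sg d x) :=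
    ((hζ.differentiable (by simp)) _).hasFDerivAt
  have h2 : HasFDerivAt (fun y => ζ (sg d y))
      ((fderiv ℝ ζ (sg d x)).comp ((sg d : E (d + 1) ≃L[ℝ] E (d + 1)) :
        E (d + 1) →L[ℝ] E (d + 1))) x :=
    h1.comp x ((sg d : E (d + 1) ≃L[ℝ] E (d + 1)) : E (d + 1) →L[ℝ] E (d + 1)).hasFDerivAt
  rw [h2.fderiv]
  have h3 : ((fderiv ℝ ζ (sg d x)).comp ((sg d : E (d + 1) ≃L[ℝ] E (d + 1)) :
        E (d + 1) →L[ℝ] E (d + 1))) (bs j) = fderiv ℝ ζ (sg d x) (sg d (bs j)) := rfl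
  rw [h3, sg_bs, map_smul, smul_eq_mul]

lemma TF_sg {U V : Set (E (d + 1))} (hUV : ∀ x, sg d x ∈ U → x ∈ V) {ζ : E (d + 1) → ℝ}
    (hζ : TF U ζ) : TF V (fun y => ζ (sg d y)) := by
  have hts : tsupport (fun y => ζ (sg d y)) = (sg d).toHomeomorph ⁻¹' tsupport ζ :=
    tsupport_comp_eq_preimage ζ (sg d).toHomeomorph
  refine ⟨hζ.1.comp (sg d).contDiff, ?_, ?_⟩
  · exact hζ.2.1.comp_homeomorph (sg d).toHomeomorph
  · rw [hts]
    intro x hx
    exact hUV x (hζ.2.2 hx)

lemma TF_zero {U : Set (E (d + 1))} {ζ : E (d + 1) → ℝ} (h : TF U ζ) {x : E (d + 1)}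
    (hx : x ∉ U) : ζ x = 0 :=
  image_eq_zero_of_notMem_tsupport fun hh => hx (h.2.2 hh)

lemma TF_dzero {U : Set (E (d + 1))} {ζ : E (d + 1) → ℝ} (h : TF U ζ) (v : E (d + 1))
    {x : E (d + 1)} (hx : x ∉ U) : fderiv ℝ ζ x v = 0 := by
  have h1 : x ∉ tsupport ζ := fun hh => hx (h.2.2 hh)
  have h2 := notMem_tsupport_iff_eventuallyEq.1 h1
  rw [h2.fderiv_eq]
  simp

lemma mp_Op : MeasurePreserving (sg d) (volume.restrict (Op d)) (volume.restrict (Omi d)) := by
  have h := sg_mp.restrict_preimage (open_Omi (d := d)).measurableSet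
  have e : (sg d) ⁻¹' (Omi d) = Op d := by
    ext x
    exact sg_Op x
  rwa [e] at h

/-- reflection of a Sobolev function -/
lemma W12_sg {f : E (d + 1) → ℝ} {g : Fin (d + 1) → E (d + 1) → ℝ} (h : W12 (Omi d) f g) :
    W12 (Op d) (fun x => f (sg d x)) (fun j x => sgn d j * g j (sg d x)) := by
  refine ⟨h.f2.comp_measurePreserving mp_Op, fun j =>
    ((h.g2 j).comp_measurePreserving mp_Op).const_mul _, ?_⟩
  intro ζ hζ j
  have hζ' : TF (Omi d) (fun y => ζ (sg d y)) := TF_sg (fun x hx => (sg_Omi x).1 hx) hζ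
  have h1 := h.ibp _ hζ' j
  have e1 : ∫ x, f (sg d x) * fderiv ℝ ζ x (bs j) =
      ∫ y, f y * fderiv ℝ ζ (sg d y) (bs j) := by
    rw [← sg_mp.integral_comp sg_emb (fun y => f y * fderiv ℝ ζ (sg d y) (bs j))]
    simp only [sg_sg]
  have e2 : ∫ x, sgn d j * g j (sg d x) * ζ x = sgn d j * ∫ y, g j y * ζ (sg d y) := by
    rw [← sg_mp.integral_comp sg_emb (fun y => g j y * ζ (sg d y)), ← integral_const_mul]
    simp only [sg_sg]
    refine integral_congr_ae (Eventually.of_forall fun x => ?_)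
    simp only
    ring
  have e3 : ∫ y, f y * fderiv ℝ (fun y => ζ (sg d y)) y (bs j) =
      sgn d j * ∫ y, f y * fderiv ℝ ζ (sg d y) (bs j) := by
    rw [← integral_const_mul]
    refine integral_congr_ae (Eventually.of_forall fun x => ?_)
    simp only
    rw [fderiv_sg hζ.1]
    ring
  rw [e3] at h1
  rw [e1, e2]
  have h2 := congrArg (fun t => sgn d j * t) h1
  rw [← mul_assoc, sgn_sq, one_mul] at h2
  rw [h2]
  ring

/-! ### averages -/

lemma avg_eq {O : Set (E (d + 1))} {p : E (d + 1)} {f : E (d + 1) → ℝ}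
    (hf : AEMeasurable f (volume.restrict O)) {a b : ℝ} {q : ℝ → E (d + 1)}
    (hq : ∀ᶠ r : ℝ in 𝓝[>] 0, ball (q r) (r / 2) ⊆ ball p r ∩ O)
    (ha : Tendsto (fun r : ℝ => (∫⁻ x in ball p r ∩ O, ENNReal.ofReal |f x - a|) /
      ENNReal.ofReal (r ^ (d + 1))) (𝓝[>] 0) (𝓝 0))
    (hb : Tendsto (fun r : ℝ => (∫⁻ x in ball p r ∩ O, ENNReal.ofReal |f x - b|) /
      ENNReal.ofReal (r ^ (d + 1))) (𝓝[>] 0) (𝓝 0)) : a = b := by
  set κ : ℝ≥0∞ := ENNReal.ofReal ((1 / 2) ^ (d + 1)) * volume (ball (0 : E (d + 1)) 1) with hκ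
  have hκ0 : κ ≠ 0 := by
    refine mul_ne_zero ?_ ?_
    · rw [Ne, ENNReal.ofReal_eq_zero, not_le]
      positivity
    · exact (measure_ball_pos volume _ one_pos).ne'
  have hsum := ha.add hb
  rw [add_zero] at hsum
  have hle : ∀ᶠ r : ℝ in 𝓝[>] 0, ENNReal.ofReal |a - b| * κ ≤
      (∫⁻ x in ball p r ∩ O, ENNReal.ofReal |f x - a|) / ENNReal.ofReal (r ^ (d + 1)) +
      (∫⁻ x in ball p r ∩ O, ENNReal.ofReal |f x - b|) / ENNReal.ofReal (r ^ (d + 1)) := by
    filter_upwards [hq, self_mem_nhdsWithin] with r hr hr0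
    have hr0' : (0 : ℝ) < r := hr0
    rw [← ENNReal.add_div]
    have hrp : (0 : ℝ) < r ^ (d + 1) := by positivity
    rw [ENNReal.le_div_iff_mul_le (Or.inl (by simpa using hrp)) (Or.inl ENNReal.ofReal_ne_top)]
    have hv : volume (ball (q r) (r / 2)) = κ * ENNReal.ofReal (r ^ (d + 1)) := by
      rw [Measure.addHaar_ball volume _ (by positivity : (0 : ℝ) ≤ r / 2)]
      simp only [finrank_euclideanSpace, Fintype.card_fin]
      rw [hκ, mul_right_comm, ← ENNReal.ofReal_mul (by positivity), ← mul_pow]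
      congr 3
      ring
    rw [mul_assoc, ← hv]
    have hm : AEMeasurable (fun x => ENNReal.ofReal |f x - a|)
        (volume.restrict (ball p r ∩ O)) := by
      have h1 : AEMeasurable f (volume.restrict (ball p r ∩ O)) :=
        hf.mono_measure (Measure.restrict_mono inter_subset_right le_rfl)
      exact ((h1.sub_const a).abs).ennreal_ofReal
    calc ENNReal.ofReal |a - b| * volume (ball (q r) (r / 2))
        ≤ ENNReal.ofReal |a - b| * volume (ball p r ∩ O) := by gcongr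
      _ = ∫⁻ _ in ball p r ∩ O, ENNReal.ofReal |a - b| := by
          rw [setLIntegral_const]
      _ ≤ ∫⁻ x in ball p r ∩ O, (ENNReal.ofReal |f x - a| + ENNReal.ofReal |f x - b|) := by
          refine lintegral_mono fun x => ?_
          rw [← ENNReal.ofReal_add (abs_nonneg _) (abs_nonneg _)]
          refine ENNReal.ofReal_le_ofReal ?_
          have : a - b = -(f x - a) + (f x - b) := by ring
          rw [this]
          refine (abs_add_le _ _).trans ?_
          rw [abs_neg]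
      _ = _ := lintegral_add_left' hm _
  have h0 : ENNReal.ofReal |a - b| * κ ≤ 0 := ge_of_tendsto hsum hle
  have h1 : ENNReal.ofReal |a - b| * κ = 0 := le_antisymm h0 zero_le
  rcases mul_eq_zero.1 h1 with h2 | h2
  · rw [ENNReal.ofReal_eq_zero] at h2
    have h3 := abs_nonpos_iff.1 h2
    linarith
  · exact absurd h2 hκ0

lemma norm_mk (x : Fin d → ℝ) (s t : ℝ) : ‖mk x s - mk x t‖ = |s - t| := by
  rw [EuclideanSpace.norm_eq]
  have h1 : ∀ i, ‖(mk x s - mk x t) i‖ ^ 2 = if i = Fin.last d then (s - t) ^ 2 else 0 := by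
    intro i
    refine Fin.lastCases ?_ (fun j => ?_) i
    · simp [mk]
    · simp [mk, (Fin.castSucc_lt_last j).ne]
  simp only [h1]
  rw [Finset.sum_ite_eq' Finset.univ (Fin.last d)]
  simp [Real.sqrt_sq_eq_abs]

lemma yy_le_norm (x y : E (d + 1)) : |yy x - yy y| ≤ ‖x - y‖ := by
  have := PiLp.norm_apply_le (x - y) (Fin.last d)
  simpa [yy] using this

lemma mk_ga {x : Fin d → ℝ} (hx : x ∈ Bx d) : mk x 0 ∈ ga d := by
  refine ⟨⟨?_, ?_⟩, yy_mk x 0⟩
  · rw [hz_mk]
    exact hx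
  · rw [yy_mk]
    norm_num

/-- small balls touching the interface (upper side) -/
lemma balls_Op {x : Fin d → ℝ} (hx : x ∈ Bx d) :
    ∀ᶠ r : ℝ in 𝓝[>] 0, ball (mk x (r / 2)) (r / 2) ⊆ ball (mk x 0) r ∩ Op d := by
  have hOm : mk x 0 ∈ Om d := (mk_ga hx).1
  obtain ⟨ε, hε, hb⟩ := Metric.isOpen_iff.1 open_Om _ hOm
  have h1 : ∀ᶠ r : ℝ in 𝓝[>] 0, r < ε := by
    have : ∀ᶠ r : ℝ in 𝓝 0, r < ε := gt_mem_nhds hε
    exact this.filter_mono nhdsWithin_le_nhds
  filter_upwards [h1, self_mem_nhdsWithin] with r hr hr0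
  have hr0' : (0 : ℝ) < r := hr0
  intro y hy
  rw [mem_ball, dist_eq_norm] at hy
  have h2 : ‖y - mk x 0‖ < r := by
    have h3 : y - mk x 0 = (y - mk x (r / 2)) + (mk x (r / 2) - mk x 0) := by abel
    rw [h3]
    refine (norm_add_le _ _).trans_lt ?_
    rw [norm_mk, sub_zero, abs_of_pos (by positivity)]
    linarith
  refine ⟨by rwa [mem_ball, dist_eq_norm], hb ?_, ?_⟩
  · rw [mem_ball, dist_eq_norm]
    linarith
  · have h4 := yy_le_norm y (mk x (r / 2))
    rw [yy_mk] at h4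
    have h5 := (abs_le.1 h4).1
    linarith

/-- small balls touching the interface (lower side) -/
lemma balls_Omi {x : Fin d → ℝ} (hx : x ∈ Bx d) :
    ∀ᶠ r : ℝ in 𝓝[>] 0, ball (mk x (-(r / 2))) (r / 2) ⊆ ball (mk x 0) r ∩ Omi d := by
  have hOm : mk x 0 ∈ Om d := (mk_ga hx).1
  obtain ⟨ε, hε, hb⟩ := Metric.isOpen_iff.1 open_Om _ hOm
  have h1 : ∀ᶠ r : ℝ in 𝓝[>] 0, r < ε := by
    have : ∀ᶠ r : ℝ in 𝓝 0, r < ε := gt_mem_nhds hε
    exact this.filter_mono nhdsWithin_le_nhds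
  filter_upwards [h1, self_mem_nhdsWithin] with r hr hr0
  have hr0' : (0 : ℝ) < r := hr0
  intro y hy
  rw [mem_ball, dist_eq_norm] at hy
  have h2 : ‖y - mk x 0‖ < r := by
    have h3 : y - mk x 0 = (y - mk x (-(r / 2))) + (mk x (-(r / 2)) - mk x 0) := by abel
    rw [h3]
    refine (norm_add_le _ _).trans_lt ?_
    rw [norm_mk, sub_zero, abs_neg, abs_of_pos (by positivity)]
    linarith
  refine ⟨by rwa [mem_ball, dist_eq_norm], hb ?_, ?_⟩
  · rw [mem_ball, dist_eq_norm]
    linarith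
  · have h4 := yy_le_norm y (mk x (-(r / 2)))
    rw [yy_mk] at h4
    have h5 := (abs_le.1 h4).2
    linarith

/-- averages over reflected half balls -/
lemma avg_sg (f : E (d + 1) → ℝ) (x' : Fin d → ℝ) (u r : ℝ) :
    ∫⁻ x in ball (mk x' 0) r ∩ Op d, ENNReal.ofReal |f (sg d x) - u| =
      ∫⁻ x in ball (mk x' 0) r ∩ Omi d, ENNReal.ofReal |f x - u| := by
  have h := (sg_mp (d := d)).restrict_preimage_emb sg_emb (ball (mk x' 0) r ∩ Omi d)
  have e : (sg d) ⁻¹' (ball (mk x' 0) r ∩ Omi d) = ball (mk x' 0) r ∩ Op d := by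
    ext x
    rw [mem_preimage, mem_inter_iff, mem_inter_iff, sg_Op]
    have : sg d x ∈ ball (mk x' 0) r ↔ x ∈ ball (mk x' 0) r := by
      rw [mem_ball, mem_ball]
      conv_lhs => rw [← sg_mk x']
      rw [LinearIsometryEquiv.dist_map]
    rw [this]
  rw [e] at h
  exact h.lintegral_comp_emb sg_emb (fun x => ENNReal.ofReal |f x - u|)

/-! ### splitting of the box -/

lemma Om_ae : (Om d : Set (E (d + 1))) =ᵐ[volume] (Op d ∪ Omi d : Set (E (d + 1))) := by
  have h1 : ∀ᵐ x : E (d + 1), x ∉ ga d := by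
    rw [ae_iff]
    simp only [not_not]
    exact null_ga
  filter_upwards [h1] with x hx
  apply propext
  constructor
  · intro h
    rcases lt_trichotomy (yy x) 0 with h2 | h2 | h2
    · exact Or.inr ⟨h, h2⟩
    · exact absurd ⟨h, h2⟩ hx
    · exact Or.inl ⟨h, h2⟩
  · rintro (h | h)
    · exact h.1
    · exact h.1

lemma disj : Disjoint (Op d) (Omi d) := by
  rw [Set.disjoint_left]
  intro x h1 h2
  exact lt_asymm h1.2 h2.2

lemma int_split {F : E (d + 1) → ℝ} (h1 : IntegrableOn F (Op d)) (h2 : IntegrableOn F (Omi d)) :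
    ∫ x in Om d, F x = (∫ x in Op d, F x) + ∫ x in Omi d, F x := by
  rw [setIntegral_congr_set Om_ae, setIntegral_union disj open_Omi.measurableSet h1 h2]

lemma memLp_split {h a b : E (d + 1) → ℝ} (h1 : ∀ x ∈ Op d, h x = a x)
    (h2 : ∀ x ∈ Omi d, h x = b x) (ha : MemLp a 2 (volume.restrict (Op d)))
    (hb : MemLp b 2 (volume.restrict (Omi d))) : MemLp h 2 (volume.restrict (Om d)) := by
  have e : (volume.restrict (Om d) : Measure (E (d + 1))) = volume.restrict (Op d ∪ Omi d) :=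
    Measure.restrict_congr_set Om_ae
  have a' := (memLp_indicator_iff_restrict (open_Op (d := d)).measurableSet).2 ha
  have b' := (memLp_indicator_iff_restrict (open_Omi (d := d)).measurableSet).2 hb
  rw [e]
  refine (MemLp.ae_eq ?_ ((a'.add b').restrict (Op d ∪ Omi d)))
  rw [EventuallyEq, ae_restrict_iff' (open_Op.union open_Omi).measurableSet]
  refine Eventually.of_forall fun x hx => ?_
  simp only [Pi.add_apply]
  rcases hx with hx | hx
  · rw [indicator_of_mem hx, indicator_of_notMem (fun h => (Set.disjoint_left.1 disj) hx h),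
      add_zero, h1 x hx]
  · rw [indicator_of_notMem (fun h => (Set.disjoint_left.1 disj) h hx), indicator_of_mem hx,
      zero_add, h2 x hx]

end GLU_

open GLU_ in
theorem glu_proof (hREP : Stmt_REP) (hIBB : Stmt_IBB) (hLBP : Stmt_LBP) (hHTV : Stmt_HTV) :
    Stmt_GLU := by
  intro d f g g' c hf hf' hc
  -- the two traces
  obtain ⟨up, hup, hrp⟩ := hREP d f g hf
  have hlp := hLBP d f g up hf hup hrp
  have hfs := W12_sg hf'
  obtain ⟨um, hum, hrm⟩ := hREP d _ _ hfs
  have hlm := hLBP d _ _ um hfs hum hrm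
  -- the interface values
  have hnull : ∀ᵐ x' : Fin d → ℝ, x' ∈ Bx d →
      Tendsto (fun r : ℝ => (∫⁻ x in ball (mk x' 0) r ∩ Op d,
        ENNReal.ofReal |f x - c (mk x' 0)|) /
        ENNReal.ofReal (r ^ (d + 1))) (𝓝[>] 0) (𝓝 0) ∧
      Tendsto (fun r : ℝ => (∫⁻ x in ball (mk x' 0) r ∩ Omi d,
        ENNReal.ofReal |f x - c (mk x' 0)|) /
        ENNReal.ofReal (r ^ (d + 1))) (𝓝[>] 0) (𝓝 0) := by
    rw [ae_restrict_iff' meas_ga] at hc
    rw [ae_iff] at hc
    have h1 := (hHTV d _).trans (le_of_eq hc)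
    have h2 := le_antisymm h1 zero_le
    rw [ae_iff]
    refine measure_mono_null ?_ h2
    intro x' hx'
    refine ⟨mk x' 0, ?_, hz_mk _ _⟩
    intro h3
    apply hx'
    intro hB
    exact h3 (mk_ga hB)
  have huu : ∀ᵐ x' : Fin d → ℝ, x' ∈ Bx d → up x' = um x' := by
    filter_upwards [hnull, hlp, hlm] with x' h1 h2 h3 hB
    have a1 := avg_eq (hf.f2.aestronglyMeasurable.aemeasurable) (balls_Op hB) (h2 hB) (h1 hB).1
    have h3' := h3 hB
    simp only [avg_sg] at h3'
    have a2 := avg_eq (hf'.f2.aestronglyMeasurable.aemeasurable) (balls_Omi hB) h3' (h1 hB).2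
    rw [a1, a2]
  refine ⟨memLp_split (fun _ _ => rfl) (fun _ _ => rfl) hf.f2 hf'.f2, fun j =>
    memLp_split (fun x hx => if_pos hx.2) (fun x hx => if_neg (not_lt.2 hx.2.le))
      (hf.g2 j) (hf'.g2 j), ?_⟩
  intro ζ hζ j
  have hζ' : TF (Om d) (fun y => ζ (sg d y)) := TF_sg (fun x hx => (sg_Om x).1 hx) hζ
  have hb1 := hIBB d f g up hf hup hrp ζ hζ
  have hb2 := hIBB d _ _ um hfs hum hrm _ hζ'
  -- integrability
  have hζc : Continuous ζ := hζ.1.continuous
  have hdc : Continuous fun x => fderiv ℝ ζ x (bs j) :=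
    (hζ.1.continuous_fderiv (by simp)).clm_apply continuous_const
  have hds : HasCompactSupport fun x => fderiv ℝ ζ x (bs j) := hζ.2.1.fderiv_apply (𝕜 := ℝ) _
  have m1 : ∀ V : Set (E (d + 1)), MemLp (fun x => fderiv ℝ ζ x (bs j)) 2 (volume.restrict V) :=
    fun V => hdc.memLp_of_hasCompactSupport hds
  have m2 : ∀ V : Set (E (d + 1)), MemLp ζ 2 (volume.restrict V) :=
    fun V => hζc.memLp_of_hasCompactSupport hζ.2.1
  have i1 : IntegrableOn (fun x => f x * fderiv ℝ ζ x (bs j)) (Op d) :=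
    hf.f2.integrable_mul (m1 _)
  have i2 : IntegrableOn (fun x => f x * fderiv ℝ ζ x (bs j)) (Omi d) :=
    hf'.f2.integrable_mul (m1 _)
  have i3 : IntegrableOn (fun x => g j x * ζ x) (Op d) := (hf.g2 j).integrable_mul (m2 _)
  have i4 : IntegrableOn (fun x => g' j x * ζ x) (Omi d) := (hf'.g2 j).integrable_mul (m2 _)
  have e1 : ∫ x, f x * fderiv ℝ ζ x (bs j) =
      (∫ x in Op d, f x * fderiv ℝ ζ x (bs j)) + ∫ x in Omi d, f x * fderiv ℝ ζ x (bs j) := by
    rw [← int_split i1 i2, setIntegral_eq_integral_of_forall_compl_eq_zero]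
    intro x hx
    rw [TF_dzero hζ _ hx, mul_zero]
  have e2 : ∫ x, (if 0 < yy x then g j x else g' j x) * ζ x =
      (∫ x in Op d, g j x * ζ x) + ∫ x in Omi d, g' j x * ζ x := by
    have c1 : EqOn (fun x => g j x * ζ x)
        (fun x => (if 0 < yy x then g j x else g' j x) * ζ x) (Op d) := by
      intro x hx
      simp only
      rw [if_pos hx.2]
    have c2 : EqOn (fun x => g' j x * ζ x)
        (fun x => (if 0 < yy x then g j x else g' j x) * ζ x) (Omi d) := by
      intro x hx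
      simp only
      rw [if_neg (not_lt.2 hx.2.le)]
    rw [setIntegral_congr_fun open_Op.measurableSet c1,
      setIntegral_congr_fun open_Omi.measurableSet c2,
      ← int_split (i3.congr_fun c1 open_Op.measurableSet)
        (i4.congr_fun c2 open_Omi.measurableSet),
      setIntegral_eq_integral_of_forall_compl_eq_zero]
    intro x hx
    rw [TF_zero hζ hx, mul_zero]
  -- the reflected integrals
  have e3 : ∫ x in Op d, f (sg d x) * fderiv ℝ (fun y => ζ (sg d y)) x (bs j) =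
      sgn d j * ∫ x in Omi d, f x * fderiv ℝ ζ x (bs j) := by
    rw [← mp_Op.integral_comp sg_emb (fun x => f x * fderiv ℝ ζ x (bs j)),
      ← integral_const_mul]
    refine integral_congr_ae (Eventually.of_forall fun x => ?_)
    simp only
    rw [fderiv_sg hζ.1]
    ring
  have e4 : ∫ x in Op d, sgn d j * g' j (sg d x) * ζ (sg d x) =
      sgn d j * ∫ x in Omi d, g' j x * ζ x := by
    rw [← mp_Op.integral_comp sg_emb (fun x => g' j x * ζ x), ← integral_const_mul]
    refine integral_congr_ae (Eventually.of_forall fun x => ?_)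
    simp only
    ring
  rw [e1, e2]
  have hcases : j = Fin.last d ∨ ∃ k : Fin d, j = k.castSucc := by
    refine Fin.lastCases (Or.inl rfl) (fun k => Or.inr ⟨k, rfl⟩) j
  rcases hcases with hj | ⟨k, hj⟩
  · subst hj
    have h1 := hb1.1
    have h2 := hb2.1
    rw [e3, e4] at h2
    have hs : sgn d (Fin.last d) = -1 := if_pos rfl
    rw [hs] at h2
    have h3 : ∫ x' in Bx d, um x' * ζ (sg d (mk x' 0)) = ∫ x' in Bx d, up x' * ζ (mk x' 0) := by
      refine integral_congr_ae ?_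
      rw [EventuallyEq, ae_restrict_iff' open_Bx.measurableSet]
      filter_upwards [huu] with x' hx' hB
      rw [sg_mk, hx' hB]
    rw [h3] at h2
    linarith
  · subst hj
    have h1 := hb1.2 k
    have h2 := hb2.2 k
    rw [e3, e4] at h2
    have hs : sgn d k.castSucc = 1 := if_neg (Fin.castSucc_lt_last k).ne
    rw [hs] at h2
    linarith

end Pool.Agent.CAL
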