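import Pool.Agent.CAL.Stmts

/-!
# Squad CAL, module HTV: Hausdorff measure and the horizontal projection
-/

set_option autoImplicit false

namespace Pool.Agent.CAL

open MeasureTheory Set Metric Filter Topology
open scoped ENNReal
open Pool.Agent.COB

theorem htv_proof : Stmt_HTV := by
  intro d S
  have h1 : LipschitzWith 1 (hz : E (d + 1) → (Fin d → ℝ)) := by
    apply LipschitzWith.of_dist_le_mul
    intro x y
    rw [NNReal.coe_one, one_mul]
    refine (dist_pi_le_iff dist_nonneg).2 fun j => ?_
    rw [Real.dist_eq, dist_eq_norm]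
    have h2 := PiLp.norm_apply_le (x - y) j.castSucc
    rwa [PiLp.sub_apply, Real.norm_eq_abs] at h2
  have h3 := h1.hausdorffMeasure_image_le (d := (d : ℝ)) (Nat.cast_nonneg d) S
  have h4 : (Measure.hausdorffMeasure (d : ℝ) : Measure (Fin d → ℝ)) = volume := by
    have h5 := hausdorffMeasure_pi_real (ι := Fin d)
    rwa [Fintype.card_fin] at h5
  rw [h4] at h3
  simpa using h3

end Pool.Agent.CAL
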