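import Pool.Agent.CAL.Stmts

set_option autoImplicit false

namespace Pool.Agent.CAL

open MeasureTheory Set Metric Filter Topology
open scoped ENNReal
open Pool.Agent.COB

namespace IBB_

noncomputable def sn (d : ℕ) : ((Fin d → ℝ) × ℝ) ≃ᵐ E (d + 1) :=
  (MeasurableEquiv.prodComm.trans
    (MeasurableEquiv.piFinSuccAbove (fun _ => ℝ) (Fin.last d)).symm).trans
    (MeasurableEquiv.toLp 2 (Fin (d + 1) → ℝ))

theorem sn_apply (d : ℕ) (p : (Fin d → ℝ) × ℝ) : sn d p = mk p.1 p.2 := by
  unfold sn mk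
  ext i
  simp [MeasurableEquiv.trans_apply, MeasurableEquiv.piFinSuccAbove]
  rfl

theorem sn_mp (d : ℕ) : MeasurePreserving (sn d) (volume.prod volume) volume := by
  have h1 := (volume_preserving_piFinSuccAbove (fun _ : Fin (d + 1) => ℝ) (Fin.last d)).symm
  have h2 : MeasurePreserving (Prod.swap : (Fin d → ℝ) × ℝ → ℝ × (Fin d → ℝ))
      (volume.prod volume) (volume.prod volume) := Measure.measurePreserving_swap
  have h3 := PiLp.volume_preserving_toLp (Fin (d + 1))
  exact h3.comp (h1.comp h2)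

theorem sn_one {φ ψ : ℝ → ℝ} (u : ℝ) (hφ : IntervalIntegrable φ volume 0 1)
    (hψ : ContDiff ℝ 1 ψ) (h1 : ψ 1 = 0) :
    ∫ t in (0 : ℝ)..1, (u + ∫ s in (0 : ℝ)..t, φ s) * deriv ψ t =
      -(∫ t in (0 : ℝ)..1, φ t * ψ t) - u * ψ 0 := by
  have hF := hφ.absolutelyContinuousOnInterval_intervalIntegral (c := 0) (by simp)
  have hG : AbsolutelyContinuousOnInterval ψ 0 1 :=
    (hψ.contDiffOn (s := uIcc 0 1)).absolutelyContinuousOnInterval
  have hib := hF.integral_mul_deriv_eq_deriv_mul hG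
  have hd : Continuous (deriv ψ) := hψ.continuous_deriv le_rfl
  have e1 : ∫ t in (0 : ℝ)..1, (u + ∫ s in (0 : ℝ)..t, φ s) * deriv ψ t =
      (∫ t in (0 : ℝ)..1, u * deriv ψ t) +
      ∫ t in (0 : ℝ)..1, (∫ s in (0 : ℝ)..t, φ s) * deriv ψ t := by
    rw [← intervalIntegral.integral_add]
    · apply intervalIntegral.integral_congr
      intro t _
      simp only []
      ring
    · exact (continuous_const.mul hd).intervalIntegrable _ _
    · apply ContinuousOn.intervalIntegrable
      exact hF.continuousOn.mul hd.continuousOn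
  have e2 : ∫ t in (0 : ℝ)..1, u * deriv ψ t = u * (ψ 1 - ψ 0) := by
    rw [intervalIntegral.integral_const_mul, hG.integral_deriv_eq_sub]
  have e3 : ∫ t in (0 : ℝ)..1, deriv (fun x => ∫ s in (0 : ℝ)..x, φ s) t * ψ t =
      ∫ t in (0 : ℝ)..1, φ t * ψ t := by
    apply intervalIntegral.integral_congr_ae
    filter_upwards [hφ.ae_hasDerivAt_integral] with t ht h2
    rw [(ht (uIoc_subset_uIcc h2) 0 (by simp)).deriv]
  rw [e1, e2, hib, e3, h1]
  simp
  ring

theorem yy_mk {d : ℕ} (x : Fin d → ℝ) (t : ℝ) : yy (mk x t) = t := by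
  simp [yy, mk]

theorem hz_mk {d : ℕ} (x : Fin d → ℝ) (t : ℝ) : hz (mk x t) = x := by
  funext j
  simp [hz, mk]

theorem mk_add {d : ℕ} (x : Fin d → ℝ) (t : ℝ) :
    mk x t = mk x 0 + t • (bs (Fin.last d) : E (d + 1)) := by
  ext i
  refine Fin.lastCases ?_ (fun j => ?_) i
  · simp [mk]
  · simp [mk, Fin.castSucc_ne_last]

theorem pre_Op (d : ℕ) : (sn d) ⁻¹' (Op d) = Bx d ×ˢ Ioo (0 : ℝ) 1 := by
  ext p
  simp only [mem_preimage, sn_apply, Op, Om, mem_ofPred_eq, yy_mk, hz_mk, mem_prod, mem_Ioo]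
  constructor
  · rintro ⟨⟨h1, h2, h3⟩, h4⟩
    exact ⟨h1, h4, h3⟩
  · rintro ⟨h1, h2, h3⟩
    exact ⟨⟨h1, by linarith, h3⟩, h2⟩

theorem open_Bx (d : ℕ) : IsOpen (Bx d) := by
  have : Bx d = Set.pi univ (fun _ => Ioo (0 : ℝ) 1) := by
    ext x
    simp [Bx]
  rw [this]
  exact isOpen_set_pi finite_univ (fun _ _ => isOpen_Ioo)

theorem vol_Bx (d : ℕ) : volume (Bx d) < ⊤ := by
  have : Bx d ⊆ Icc (0 : Fin d → ℝ) 1 := by
    intro x hx
    exact ⟨fun j => (hx j).1.le, fun j => (hx j).2.le⟩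
  exact lt_of_le_of_lt (measure_mono this) isCompact_Icc.measure_lt_top

theorem vol_Op (d : ℕ) : volume (Op d) < ⊤ := by
  have h := (sn_mp d).measure_preimage_equiv (Op d)
  rw [← h, pre_Op, Measure.prod_prod]
  exact ENNReal.mul_lt_top (vol_Bx d) (by simp)

theorem cont_yy (d : ℕ) : Continuous (fun x : E (d + 1) => yy x) := by
  unfold yy
  fun_prop

theorem cont_hz (d : ℕ) : Continuous (fun x : E (d + 1) => hz x) := by
  unfold hz
  fun_prop

theorem open_Om (d : ℕ) : IsOpen (Om d) :=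
  ((open_Bx d).preimage (cont_hz d)).inter (isOpen_Ioo.preimage (cont_yy d))

theorem open_Op (d : ℕ) : IsOpen (Op d) :=
  (open_Om d).inter (isOpen_lt continuous_const (cont_yy d))

theorem int_Op (d : ℕ) (F : E (d + 1) → ℝ) (hF : IntegrableOn F (Op d)) :
    ∫ x in Op d, F x = ∫ x' in Bx d, ∫ t in Ioo (0 : ℝ) 1, F (mk x' t) := by
  have h1 := (sn_mp d).setIntegral_preimage_emb (sn d).measurableEmbedding F (Op d)
  have h2 := ((sn_mp d).integrableOn_comp_preimage (sn d).measurableEmbedding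
    (f := F) (s := Op d)).2 hF
  rw [← h1]
  rw [pre_Op] at h2 ⊢
  have h3 := setIntegral_prod _ h2
  simp only [Function.comp_apply] at h3
  rw [h3]
  simp only [sn_apply]

theorem ibl_Op (d : ℕ) (F : E (d + 1) → ℝ) (hF : IntegrableOn F (Op d)) :
    (∀ᵐ x' ∂(volume.restrict (Bx d)), IntegrableOn (fun t => F (mk x' t)) (Ioo (0 : ℝ) 1)) ∧
    IntegrableOn (fun x' => ∫ t in Ioo (0 : ℝ) 1, F (mk x' t)) (Bx d) := by
  have h2 := ((sn_mp d).integrableOn_comp_preimage (sn d).measurableEmbedding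
    (f := F) (s := Op d)).2 hF
  rw [pre_Op] at h2
  unfold IntegrableOn at h2
  rw [← Measure.prod_restrict] at h2
  have h3 : Integrable (fun p : (Fin d → ℝ) × ℝ => F (mk p.1 p.2))
      ((volume.restrict (Bx d)).prod (volume.restrict (Ioo (0 : ℝ) 1))) := by
    refine h2.congr (Eventually.of_forall fun p => ?_)
    simp [sn_apply]
  exact ⟨h3.prod_right_ae, h3.integral_prod_left⟩

theorem tf_D {d : ℕ} {ζ : E (d + 1) → ℝ} (hζ : TF (Om d) ζ) (j : Fin (d + 1)) :
    Continuous (fun x => fderiv ℝ ζ x (bs j)) ∧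
      ∃ C, ∀ x, ‖fderiv ℝ ζ x (bs j)‖ ≤ C := by
  have h1 : Continuous (fun x => fderiv ℝ ζ x (bs j)) :=
    (hζ.1.continuous_fderiv (by simp)).clm_apply continuous_const
  refine ⟨h1, ?_⟩
  have h2 : HasCompactSupport (fun x => fderiv ℝ ζ x (bs j)) := hζ.2.1.fderiv_apply ℝ (bs j)
  exact h1.bounded_above_of_compact_support h2

theorem tf_b {d : ℕ} {ζ : E (d + 1) → ℝ} (hζ : TF (Om d) ζ) :
    ∃ C, ∀ x, ‖ζ x‖ ≤ C :=
  hζ.1.continuous.bounded_above_of_compact_support hζ.2.1

theorem ibl_mul {d : ℕ} {f D : E (d + 1) → ℝ} (hf : MemLp f 2 (volume.restrict (Op d)))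
    (hD : Continuous D) {C : ℝ} (hC : ∀ x, ‖D x‖ ≤ C) :
    IntegrableOn (fun x => f x * D x) (Op d) := by
  have : IsFiniteMeasure (volume.restrict (Op d)) := ⟨by simpa using vol_Op d⟩
  have h1 : Integrable f (volume.restrict (Op d)) := hf.integrable (by norm_num)
  exact h1.mul_bdd hD.aestronglyMeasurable (Eventually.of_forall hC)

theorem psi_deriv {d : ℕ} {ζ : E (d + 1) → ℝ} (hζ : ContDiff ℝ (⊤ : ℕ∞) ζ) (x' : Fin d → ℝ) :
    ContDiff ℝ 1 (fun t => ζ (mk x' t)) ∧
    ∀ t, deriv (fun t => ζ (mk x' t)) t = fderiv ℝ ζ (mk x' t) (bs (Fin.last d)) := by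
  have h0 : (fun t => ζ (mk x' t)) =
      fun t : ℝ => ζ (mk x' 0 + t • (bs (Fin.last d) : E (d + 1))) := by
    funext t
    rw [mk_add]
  constructor
  · rw [h0]
    exact (hζ.of_le (by simp)).comp (contDiff_const.add (contDiff_id.smul contDiff_const))
  · intro t
    have h1 : HasDerivAt (fun t : ℝ => mk x' 0 + t • (bs (Fin.last d) : E (d + 1)))
        ((1 : ℝ) • (bs (Fin.last d) : E (d + 1))) t :=
      ((hasDerivAt_id t).smul_const _).const_add _
    have h2 : HasFDerivAt ζ (fderiv ℝ ζ (mk x' 0 + t • (bs (Fin.last d) : E (d + 1))))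
        (mk x' 0 + t • (bs (Fin.last d) : E (d + 1))) :=
      ((hζ.differentiable (by simp)) _).hasFDerivAt
    have h3 := h2.comp_hasDerivAt t h1
    rw [h0, mk_add x' t]
    have h4 := h3.deriv
    rw [one_smul] at h4
    exact h4

/-- vertical direction -/
theorem vert (d : ℕ) (f : E (d + 1) → ℝ) (g : Fin (d + 1) → E (d + 1) → ℝ)
    (u : (Fin d → ℝ) → ℝ) (hW : W12 (Op d) f g) (hu : IntegrableOn u (Bx d))
    (hfu : ∀ᵐ x, x ∈ Op d → f x = u (hz x) + ∫ s in (0 : ℝ)..yy x,
      g (Fin.last d) (mk (hz x) s)) (ζ : E (d + 1) → ℝ) (hζ : TF (Om d) ζ) :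
    ∫ x in Op d, f x * fderiv ℝ ζ x (bs (Fin.last d)) =
      -(∫ x in Op d, g (Fin.last d) x * ζ x) - ∫ x' in Bx d, u x' * ζ (mk x' 0) := by
  obtain ⟨hD, C, hC⟩ := tf_D hζ (Fin.last d)
  obtain ⟨C', hC'⟩ := tf_b hζ
  have hi1 := ibl_mul hW.f2 hD hC
  have hi2 := ibl_mul (hW.g2 (Fin.last d)) hζ.1.continuous hC'
  have : IsFiniteMeasure (volume.restrict (Op d)) := ⟨by simpa using vol_Op d⟩
  have hg1 : IntegrableOn (g (Fin.last d)) (Op d) :=
    (hW.g2 (Fin.last d)).integrable (by norm_num)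
  obtain ⟨hga, -⟩ := ibl_Op d _ hg1
  obtain ⟨-, hgz⟩ := ibl_Op d _ hi2
  have hcmk : Continuous (fun x' : Fin d → ℝ => mk x' 0) := by
    unfold mk
    refine (PiLp.continuous_toLp 2 _).comp ?_
    refine continuous_pi fun i => ?_
    refine Fin.lastCases ?_ (fun j => ?_) i
    · simp only [Fin.snoc_last]
      exact continuous_const
    · simp only [Fin.snoc_castSucc]
      exact continuous_apply j
  have hub : IntegrableOn (fun x' => u x' * ζ (mk x' 0)) (Bx d) :=
    hu.mul_bdd (hζ.1.continuous.comp hcmk).aestronglyMeasurable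
      (Eventually.of_forall fun x' => hC' _)
  rw [int_Op d _ hi1, int_Op d _ hi2]
  have hae : ∀ᵐ x' : Fin d → ℝ, ∀ᵐ t : ℝ, x' ∈ Bx d → t ∈ Ioo (0 : ℝ) 1 →
      f (mk x' t) = u x' + ∫ s in (0 : ℝ)..t, g (Fin.last d) (mk x' s) := by
    have h1 := (sn_mp d).quasiMeasurePreserving.ae hfu
    have h2 := Measure.ae_ae_of_ae_prod h1
    filter_upwards [h2] with x' h3
    filter_upwards [h3] with t h4 h5 h6
    rw [sn_apply] at h4
    have h7 : mk x' t ∈ Op d := by
      have : (x', t) ∈ (sn d) ⁻¹' (Op d) := by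
        rw [pre_Op]
        exact ⟨h5, h6⟩
      rw [mem_preimage, sn_apply] at this
      exact this
    have h8 := h4 h7
    simp only [hz_mk, yy_mk] at h8
    exact h8
  have key : ∀ᵐ x' ∂(volume.restrict (Bx d)),
      ∫ t in Ioo (0 : ℝ) 1, f (mk x' t) * fderiv ℝ ζ (mk x' t) (bs (Fin.last d)) =
      -(∫ t in Ioo (0 : ℝ) 1, g (Fin.last d) (mk x' t) * ζ (mk x' t)) -
        u x' * ζ (mk x' 0) := by
    rw [ae_restrict_iff' (open_Bx d).measurableSet]
    rw [ae_restrict_iff' (open_Bx d).measurableSet] at hga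
    filter_upwards [hae, hga] with x' h1 h2 h3
    obtain ⟨hψ, hψ'⟩ := psi_deriv hζ.1 x'
    have hII : IntervalIntegrable (fun t => g (Fin.last d) (mk x' t)) volume 0 1 := by
      rw [intervalIntegrable_iff_integrableOn_Ioo_of_le zero_le_one]
      exact h2 h3
    have hz1 : ζ (mk x' 1) = 0 := by
      apply image_eq_zero_of_notMem_tsupport
      intro hm
      have := (hζ.2.2 hm).2
      rw [yy_mk] at this
      exact absurd this.2 (lt_irrefl _)
    have h4 := sn_one (u x') hII hψ hz1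
    rw [intervalIntegral.integral_of_le zero_le_one, intervalIntegral.integral_of_le zero_le_one,
      integral_Ioc_eq_integral_Ioo, integral_Ioc_eq_integral_Ioo] at h4
    rw [← h4]
    apply setIntegral_congr_ae measurableSet_Ioo
    filter_upwards [h1] with t h5 h6
    rw [h5 h3 h6, hψ']
  rw [integral_congr_ae key]
  have h9 := integral_sub hgz.neg hub
  simp only [Pi.neg_apply] at h9
  rw [h9, integral_neg]

/-- horizontal directions -/
theorem hori (d : ℕ) (f : E (d + 1) → ℝ) (g : Fin (d + 1) → E (d + 1) → ℝ)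
    (hW : W12 (Op d) f g) (ζ : E (d + 1) → ℝ) (hζ : TF (Om d) ζ) (j : Fin d) :
    ∫ x in Op d, f x * fderiv ℝ ζ x (bs j.castSucc) =
      -∫ x in Op d, g j.castSucc x * ζ x := by
  obtain ⟨hD, C, hC⟩ := tf_D hζ j.castSucc
  obtain ⟨C', hC'⟩ := tf_b hζ
  have hi1 := ibl_mul hW.f2 hD hC
  have hi2 := ibl_mul (hW.g2 j.castSucc) hζ.1.continuous hC'
  set χ : ℕ → E (d + 1) → ℝ := fun k x => Real.smoothTransition ((k + 1 : ℝ) * yy x - 1) with hχ
  have hyy : ContDiff ℝ (⊤ : ℕ∞) (fun x : E (d + 1) => yy x) := by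
    unfold yy
    exact (EuclideanSpace.proj (𝕜 := ℝ) (Fin.last d)).contDiff
  have hχs : ∀ k, ContDiff ℝ (⊤ : ℕ∞) (χ k) := fun k =>
    Real.smoothTransition.contDiff.comp ((contDiff_const.mul hyy).sub contDiff_const)
  have hχ0 : ∀ (k : ℕ) x, (k + 1 : ℝ) * yy x ≤ 1 → χ k x = 0 := fun k x h =>
    Real.smoothTransition.zero_of_nonpos (by linarith)
  have hχb : ∀ k x, ‖χ k x‖ ≤ 1 := fun k x => by
    rw [Real.norm_eq_abs, abs_of_nonneg (Real.smoothTransition.nonneg _)]
    exact Real.smoothTransition.le_one _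
  have hχl : ∀ x : E (d + 1), 0 < yy x → Tendsto (fun k => χ k x) atTop (𝓝 1) := by
    intro x hx
    obtain ⟨K, hK⟩ := exists_nat_gt (2 / yy x)
    refine tendsto_const_nhds.congr' ?_
    filter_upwards [eventually_ge_atTop K] with k hk
    refine (Real.smoothTransition.one_of_one_le ?_).symm
    have h1 : (K : ℝ) ≤ k := by exact_mod_cast hk
    have h2 : 2 < K * yy x := by rwa [div_lt_iff₀ hx] at hK
    nlinarith
  have hT : ∀ k, TF (Op d) (fun x => ζ x * χ k x) := by
    intro k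
    refine ⟨hζ.1.mul (hχs k), hζ.2.1.mul_right, ?_⟩
    intro x hx
    have h1 : x ∈ tsupport ζ := closure_mono (Function.support_mul_subset_left _ _) hx
    have h2 : x ∈ {x : E (d + 1) | 1 ≤ (k + 1 : ℝ) * yy x} := by
      have hc : IsClosed {x : E (d + 1) | 1 ≤ (k + 1 : ℝ) * yy x} :=
        isClosed_le continuous_const (continuous_const.mul (cont_yy d))
      refine hc.closure_subset_iff.2 ?_ hx
      intro y hy
      by_contra h3
      apply hy
      simp only [mem_ofPred_eq, not_le] at h3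
      simp only []
      rw [hχ0 k y h3.le, mul_zero]
    refine ⟨hζ.2.2 h1, ?_⟩
    simp only [mem_ofPred_eq] at h2
    have h3 : (0 : ℝ) < k + 1 := by positivity
    by_contra h4
    push Not at h4
    nlinarith
  have hder : ∀ k x, fderiv ℝ (fun x => ζ x * χ k x) x (bs j.castSucc) =
      χ k x * fderiv ℝ ζ x (bs j.castSucc) := by
    intro k x
    have h1 : DifferentiableAt ℝ ζ x := hζ.1.differentiable (by simp) x
    have h2 : DifferentiableAt ℝ (χ k) x := (hχs k).differentiable (by simp) x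
    have h3 : fderiv ℝ (χ k) x (bs j.castSucc) = 0 := by
      have h4 : HasLineDerivAt ℝ (χ k) (fderiv ℝ (χ k) x (bs j.castSucc)) x
        (bs j.castSucc) := h2.hasFDerivAt.hasLineDerivAt _
      have h5 : (fun t : ℝ => χ k (x + t • (bs j.castSucc : E (d + 1)))) =
          fun _ => χ k x := by
        funext t
        have : yy (x + t • (bs j.castSucc : E (d + 1))) = yy x := by
          simp [yy, (Fin.castSucc_ne_last j).symm]
        simp only [hχ, this]
      unfold HasLineDerivAt at h4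
      rw [h5] at h4
      exact h4.unique (hasDerivAt_const _ _)
    rw [show (fun x => ζ x * χ k x) = ζ * χ k from rfl, fderiv_mul h1 h2]
    simp only [_root_.add_apply, _root_.smul_apply, smul_eq_mul, h3]
    ring
  have hk : ∀ k, ∫ x in Op d, χ k x * (f x * fderiv ℝ ζ x (bs j.castSucc)) =
      -∫ x in Op d, χ k x * (g j.castSucc x * ζ x) := by
    intro k
    have h1 := hW.ibp _ (hT k) j.castSucc
    have h2 : ∀ F : E (d + 1) → ℝ, (∀ x, x ∉ Op d → F x = 0) → ∫ x, F x = ∫ x in Op d, F x :=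
      fun F hF => (setIntegral_eq_integral_of_forall_compl_eq_zero hF).symm
    rw [h2, h2] at h1
    · refine Eq.trans ?_ (h1.trans ?_)
      · refine integral_congr_ae (Eventually.of_forall fun x => ?_)
        simp only [hder]
        ring
      · congr 1
        refine integral_congr_ae (Eventually.of_forall fun x => ?_)
        simp only []
        ring
    · intro x hx
      have : ζ x * χ k x = 0 := by
        by_contra h3
        exact hx ((hT k).2.2 (subset_tsupport _ h3))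
      rw [this, mul_zero]
    · intro x hx
      have : fderiv ℝ (fun x => ζ x * χ k x) x = 0 := by
        apply image_eq_zero_of_notMem_tsupport
        intro h3
        exact hx ((hT k).2.2 (tsupport_fderiv_subset ℝ h3))
      rw [this]
      simp
  have hlim : ∀ F : E (d + 1) → ℝ, IntegrableOn F (Op d) →
      Tendsto (fun k => ∫ x in Op d, χ k x * F x) atTop (𝓝 (∫ x in Op d, F x)) := by
    intro F hF
    refine tendsto_integral_of_dominated_convergence (fun x => ‖F x‖) ?_ hF.norm ?_ ?_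
    · intro k
      exact (hχs k).continuous.aestronglyMeasurable.mul hF.aestronglyMeasurable
    · intro k
      refine Eventually.of_forall fun x => ?_
      rw [norm_mul]
      exact mul_le_of_le_one_left (norm_nonneg _) (hχb k x)
    · rw [ae_restrict_iff' (open_Op d).measurableSet]
      refine Eventually.of_forall fun x hx => ?_
      have := (hχl x hx.2).mul_const (F x)
      rwa [one_mul] at this
  have l1 := hlim _ hi1
  have l2 := (hlim _ hi2).neg
  have l3 : (fun k => ∫ x in Op d, χ k x * (f x * fderiv ℝ ζ x (bs j.castSucc))) =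
      fun k => -∫ x in Op d, χ k x * (g j.castSucc x * ζ x) := funext hk
  rw [l3] at l1
  exact tendsto_nhds_unique l1 l2

end IBB_

theorem ibb_proof : Stmt_IBB := by
  intro d f g u hW hu hfu ζ hζ
  exact ⟨IBB_.vert d f g u hW hu hfu ζ hζ, fun j => IBB_.hori d f g hW ζ hζ j⟩

end Pool.Agent.CAL
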