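import Pool.Agent.CAL.Stmts

/-!
# INE: the calibration inequality
-/

set_option autoImplicit false

namespace Pool.Agent.CAL

open MeasureTheory Set Metric Filter Topology
open scoped ENNReal
open Pool.Agent.COB

namespace INE_

theorem NN_le {d n : ℕ} (A : Fin d → (E n →L[ℝ] E n)) (q : Fin (d + 1) → E n) :
    NN A q ≤ ∑ j, ‖q j‖ ^ 2 := by
  unfold NN
  linarith [sq_nonneg ‖dir A q‖]

theorem sum_Ix {n : ℕ} (F : Ix n → ℝ) : ∑ c, F c = ∑ a, F (Sum.inl a) +
    (∑ a, ∑ b, F (Sum.inr (Sum.inl (a, b))) + F (Sum.inr (Sum.inr ()))) := by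
  rw [Fintype.sum_sum_type, Fintype.sum_sum_type, Fintype.sum_prod_type]
  simp

end INE_

open INE_ in
theorem ine_proof (hPTA : Stmt_PTA) (hTAN : Stmt_TAN) : Stmt_INE := by
  intro d n A U w G hA hU hG
  filter_upwards [hTAN (d + 1) n U w G hU hG] with x hx
  -- the mean
  have h1 : 2 * NN A (aG G x) ≤ ∑ j, ∑ a, G (Sum.inl a) j x ^ 2 := by
    have h2 := NN_le A (aG G x)
    have h3 : ∑ j, ‖aG G x j‖ ^ 2 = (∑ j, ∑ a, G (Sum.inl a) j x ^ 2) / 2 := by
      rw [Finset.sum_div]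
      refine Finset.sum_congr rfl fun j _ => ?_
      rw [EuclideanSpace.norm_sq_eq, Finset.sum_div]
      refine Finset.sum_congr rfl fun a _ => ?_
      change ‖G (Sum.inl a) j x / Real.sqrt 2‖ ^ 2 = _
      rw [Real.norm_eq_abs, sq_abs, div_pow, Real.sq_sqrt (by norm_num)]
    linarith
  have h4 : ∑ c, ∑ j, G c j x ^ 2 = ∑ j, ∑ a, G (Sum.inl a) j x ^ 2 +
      ∑ j, ((∑ a, ∑ b, G (Sum.inr (Sum.inl (a, b))) j x ^ 2) +
        G (Sum.inr (Sum.inr ())) j x ^ 2) := by
    rw [Finset.sum_comm, ← Finset.sum_add_distrib]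
    refine Finset.sum_congr rfl fun j _ => ?_
    exact sum_Ix (fun c => G c j x ^ 2)
  have h5 : 2 * ∑ c, NN A (bG G c x) ≤
      ∑ j, ((∑ a, ∑ b, G (Sum.inr (Sum.inl (a, b))) j x ^ 2) +
        G (Sum.inr (Sum.inr ())) j x ^ 2) := by
    by_cases h0 : hd (w x) = 0
    · have h6 : ∀ c, NN A (bG G c x) = 0 := by
        intro c
        have h7 : bG G c x = fun _ => 0 := by
          funext j
          ext a
          exact ((hx j).2.2.2 h0).1 a c
        rw [h7]
        unfold NN dir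
        simp
      rw [Finset.sum_eq_zero (fun c _ => h6 c), mul_zero]
      positivity
    · have hr : ‖hd (w x)‖ ≠ 0 := norm_ne_zero_iff.2 h0
      obtain ⟨q, hq1, hq2, hq3, hq4⟩ := hPTA d n A (‖hd (w x)‖⁻¹ • hd (w x)) ‖hd (w x)‖
        (fun j a b => G (Sum.inr (Sum.inl (a, b))) j x) (fun j => G (Sum.inr (Sum.inr ())) j x)
        hA (by rw [norm_smul, norm_inv, norm_norm, inv_mul_cancel₀ hr]) hr
        (fun j a b => (hx j).1 a b)
        (by
          intro j a b
          have h7 := (hx j).2.1 a b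
          have e1 : ∀ c b', ‖hd (w x)‖ * (‖hd (w x)‖⁻¹ • hd (w x)) c *
              (‖hd (w x)‖⁻¹ • hd (w x)) b' = hd (w x) c * hd (w x) b' / ‖hd (w x)‖ := by
            intro c b'
            change ‖hd (w x)‖ * (‖hd (w x)‖⁻¹ * hd (w x) c) * (‖hd (w x)‖⁻¹ * hd (w x) b') = _
            field_simp
          simp only [e1]
          exact h7)
        (fun j => (hx j).2.2.1)
      have h8 : ∑ c, NN A (bG G c x) = NN A q := hq4
      rw [h8]
      have h9 := NN_le A q
      have h10 : ∑ j, ((∑ a, ∑ b, G (Sum.inr (Sum.inl (a, b))) j x ^ 2) +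
          G (Sum.inr (Sum.inr ())) j x ^ 2) = 2 * ∑ j, ‖q j‖ ^ 2 := by
        rw [Finset.mul_sum]
        exact Finset.sum_congr rfl fun j _ => hq3 j
      rw [h10]
      linarith
  rw [h4]
  unfold TN
  linarith

end Pool.Agent.CAL
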