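import Pool.Agent.CAL.Stmts

/-!
# IOT: `ι` is 1-Lipschitz
-/

set_option autoImplicit false

namespace Pool.Agent.CAL

open MeasureTheory Set Metric Filter Topology
open scoped ENNReal
open Pool.Agent.COB

namespace IOT_

variable {n : ℕ}

theorem inner_sum (s t : E n) : inner ℝ s t = ∑ a, s a * t a := by
  rw [PiLp.inner_apply]
  refine Finset.sum_congr rfl fun i _ => ?_
  simp [mul_comm]

theorem nsq (s : E n) : ∑ a, s a * s a = ‖s‖ ^ 2 := by
  rw [← inner_sum, real_inner_self_eq_norm_sq]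

/-- the sum over the matrix entries -/
theorem mat (s t : E n) :
    ∑ x : Fin n × Fin n, (s x.1 * s x.2 / ‖s‖ - t x.1 * t x.2 / ‖t‖) ^ 2 =
      ‖s‖ ^ 2 + ‖t‖ ^ 2 - 2 * (inner ℝ s t ^ 2 / (‖s‖ * ‖t‖)) := by
  have h1 : ∀ (u v : E n), ∑ x : Fin n × Fin n,
      (u x.1 * u x.2 / ‖u‖) * (v x.1 * v x.2 / ‖v‖) = inner ℝ u v ^ 2 / (‖u‖ * ‖v‖) := by
    intro u v
    rw [inner_sum, sq, Finset.sum_mul_sum, Fintype.sum_prod_type, Finset.sum_div]
    refine Finset.sum_congr rfl fun a _ => ?_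
    rw [Finset.sum_div]
    refine Finset.sum_congr rfl fun c _ => ?_
    rw [div_mul_div_comm]
    ring
  have h2 : ∀ u : E n, inner ℝ u u ^ 2 / (‖u‖ * ‖u‖) = ‖u‖ ^ 2 := by
    intro u
    rw [real_inner_self_eq_norm_sq]
    by_cases hu : ‖u‖ = 0
    · rw [hu]
      simp
    · field_simp
  have h3 : ∀ x : Fin n × Fin n, (s x.1 * s x.2 / ‖s‖ - t x.1 * t x.2 / ‖t‖) ^ 2 =
      (s x.1 * s x.2 / ‖s‖) * (s x.1 * s x.2 / ‖s‖) +
      (t x.1 * t x.2 / ‖t‖) * (t x.1 * t x.2 / ‖t‖) -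
      2 * ((s x.1 * s x.2 / ‖s‖) * (t x.1 * t x.2 / ‖t‖)) := by
    intro x
    ring
  simp only [h3]
  rw [Finset.sum_sub_distrib, Finset.sum_add_distrib, ← Finset.mul_sum, h1, h1, h1, h2, h2]

/-- the scalar inequality -/
theorem amgm (N M I : ℝ) (hN : 0 ≤ N) (hM : 0 ≤ M) (hI : |I| ≤ N * M) :
    2 * |I| ≤ I ^ 2 / (N * M) + N * M := by
  have hNM : 0 ≤ N * M := mul_nonneg hN hM
  generalize N * M = K at hI hNM ⊢
  rcases hNM.lt_or_eq with h | h
  · have h1 : I ^ 2 / K + K - 2 * |I| = (|I| - K) ^ 2 / K := by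
      rw [← sq_abs I]
      field_simp
      ring
    have h2 : 0 ≤ (|I| - K) ^ 2 / K := by positivity
    linarith
  · rw [← h] at hI ⊢
    have h1 : |I| = 0 := le_antisymm hI (abs_nonneg _)
    rw [h1]
    simp

theorem tup_perm (b : Fin 2 → E n) (σ : Equiv.Perm (Fin 2)) :
    tup (fun i => b (σ i)) = tup b := by
  apply Subtype.ext
  show Multiset.map (fun i => b (σ i)) Finset.univ.val = Multiset.map b Finset.univ.val
  have h1 : Multiset.map (fun i => b (σ i)) Finset.univ.val =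
      Multiset.map b (Multiset.map σ Finset.univ.val) := by
    rw [Multiset.map_map]
    rfl
  rw [h1]
  congr 1
  have h2 := congrArg Finset.val (Finset.map_univ_equiv σ)
  rwa [Finset.map_val] at h2

end IOT_

open IOT_

theorem iot_proof (hGGF : Stmt_GGF) (hIOV : Stmt_IOV) : Stmt_IOT := by
  intro n S T
  obtain ⟨a, ha⟩ := exists_tup S
  obtain ⟨b, hb⟩ := exists_tup T
  have ha' : tup a = S := ha
  have hb' : tup b = T := hb
  obtain ⟨σ, hσ⟩ := (hGGF 2 n a b).2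
  rw [ha', hb'] at hσ
  set p := a 0 with hp
  set q := a 1 with hq
  set p' := b (σ 0) with hp'
  set q' := b (σ 1) with hq'
  have hS : S = tup ![p, q] := by
    rw [← ha']
    congr 1
    funext i
    fin_cases i <;> rfl
  have hT : T = tup ![p', q'] := by
    rw [← hb', ← tup_perm b σ]
    congr 1
    funext i
    fin_cases i <;> rfl
  have hG : GG S T ^ 2 = ‖p - p'‖ ^ 2 + ‖q - q'‖ ^ 2 := by
    rw [hσ, Real.sq_sqrt (Finset.sum_nonneg fun i _ => by positivity), Fin.sum_univ_two]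
  obtain ⟨hSa, hSb⟩ := hIOV n p q
  obtain ⟨hTa, hTb⟩ := hIOV n p' q'
  rw [← hS] at hSa hSb
  rw [← hT] at hTa hTb
  set s := hd S with hs
  set t := hd T with ht
  have hsum : ∑ c, (io S c - io T c) ^ 2 = 2 * ‖av S - av T‖ ^ 2 +
      ((‖s‖ ^ 2 + ‖t‖ ^ 2 - 2 * (inner ℝ s t ^ 2 / (‖s‖ * ‖t‖))) + (‖s‖ - ‖t‖) ^ 2) := by
    rw [Fintype.sum_sum_type, Fintype.sum_sum_type, ← mat s t]
    have e1 : ∑ a₁, (io S (Sum.inl a₁) - io T (Sum.inl a₁)) ^ 2 = 2 * ‖av S - av T‖ ^ 2 := by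
      rw [EuclideanSpace.real_norm_sq_eq, Finset.mul_sum]
      refine Finset.sum_congr rfl fun c _ => ?_
      show (Real.sqrt 2 * av S c - Real.sqrt 2 * av T c) ^ 2 = 2 * (av S - av T) c ^ 2
      rw [← mul_sub, mul_pow, Real.sq_sqrt (by norm_num)]
      rfl
    rw [e1]
    congr 1
    congr 1
    simp only [Finset.univ_unique, Finset.sum_singleton]
    rfl
  have hab : |inner ℝ s t| ≤ ‖s‖ * ‖t‖ := abs_real_inner_le_norm s t
  have h1 := amgm ‖s‖ ‖t‖ (inner ℝ s t) (norm_nonneg _) (norm_nonneg _) hab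
  set u : E n := (1 / 2 : ℝ) • (p - q) with hu
  set w : E n := (1 / 2 : ℝ) • (p' - q') with hw
  have hsn : ‖s‖ = ‖u‖ := by
    rcases hSb with h | h
    · rw [h]
    · rw [h, norm_neg]
  have htn : ‖t‖ = ‖w‖ := by
    rcases hTb with h | h
    · rw [h]
    · rw [h, norm_neg]
  have hin : |inner ℝ s t| = |inner ℝ u w| := by
    rcases hSb with h | h <;> rcases hTb with h' | h' <;> rw [h, h'] <;> simp
  have h2 : ‖u - w‖ ^ 2 = ‖u‖ ^ 2 - 2 * inner ℝ u w + ‖w‖ ^ 2 := norm_sub_sq_real u w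
  have h3 : inner ℝ u w ≤ |inner ℝ s t| := by
    rw [hin]
    exact le_abs_self _
  have h4 : ‖p - p'‖ ^ 2 + ‖q - q'‖ ^ 2 = 2 * ‖av S - av T‖ ^ 2 + 2 * ‖u - w‖ ^ 2 := by
    have e1 : p - p' = (av S - av T) + (u - w) := by
      rw [hSa, hTa, hu, hw]
      module
    have e2 : q - q' = (av S - av T) - (u - w) := by
      rw [hSa, hTa, hu, hw]
      module
    have e3 := parallelogram_law_with_norm ℝ (av S - av T) (u - w)
    rw [e1, e2]
    nlinarith [e3]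
  have h5 : (‖u‖ - ‖w‖) ^ 2 = ‖u‖ ^ 2 + ‖w‖ ^ 2 - 2 * (‖u‖ * ‖w‖) := by ring
  rw [hsn, htn] at h1
  rw [hsum, hG, h4, hsn, htn, h5, h2]
  linarith

end Pool.Agent.CAL
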