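import Pool.Agent.CAL.Stmts

set_option autoImplicit false

namespace Pool.Agent.CAL

open MeasureTheory Set Metric Filter Topology
open scoped ENNReal
open Pool.Agent.COB

/-- two listings of the same pair agree up to order -/
theorem IOV_lst {n : ℕ} (p q : E n) :
    (lst (tup ![p, q]) 0 = p ∧ lst (tup ![p, q]) 1 = q) ∨
    (lst (tup ![p, q]) 0 = q ∧ lst (tup ![p, q]) 1 = p) := by
  have h := Classical.choose_spec (exists_tup (tup ![p, q]))
  have h1 : Multiset.map (lst (tup ![p, q])) Finset.univ.val =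
      Multiset.map ![p, q] Finset.univ.val := congrArg Subtype.val h
  rw [Fin.univ_val_map, Fin.univ_val_map] at h1
  simp only [List.ofFn_succ, List.ofFn_zero, Fin.succ_zero_eq_one, Matrix.cons_val_zero,
    Matrix.cons_val_one] at h1
  generalize lst (tup ![p, q]) 0 = a at h1 ⊢
  generalize lst (tup ![p, q]) 1 = b at h1 ⊢
  have h2 : (a ::ₘ b ::ₘ 0 : Multiset (E n)) = p ::ₘ q ::ₘ 0 := h1
  have ha : a ∈ (p ::ₘ q ::ₘ 0 : Multiset (E n)) := by
    rw [← h2]; exact Multiset.mem_cons_self a _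
  rw [Multiset.mem_cons, Multiset.mem_cons] at ha
  rcases ha with ha | ha | ha
  · left
    subst ha
    have h3 := (Multiset.cons_inj_right a).1 h2
    exact ⟨rfl, (Multiset.cons_inj_left _).1 h3⟩
  · right
    subst ha
    rw [Multiset.cons_swap] at h2
    have h4 : (b ::ₘ a ::ₘ 0 : Multiset (E n)) = p ::ₘ a ::ₘ 0 := h2
    exact ⟨rfl, (Multiset.cons_inj_left _).1 h4⟩
  · simp at ha

theorem iov_proof : Stmt_IOV := by
  intro n p q
  unfold av hd
  rcases IOV_lst p q with ⟨h0, h1⟩ | ⟨h0, h1⟩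
  · rw [h0, h1]
    exact ⟨rfl, Or.inl rfl⟩
  · rw [h0, h1]
    refine ⟨by rw [add_comm], Or.inr ?_⟩
    rw [← smul_neg, neg_sub]

end Pool.Agent.CAL
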