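import Pool.Agent.CAL.Stmts

/-!
Squad CAL, module `LBP`: the trace in the sense of averages.
-/

set_option autoImplicit false

namespace Pool.Agent.CAL

open MeasureTheory Set Metric Filter Topology
open scoped ENNReal
open Pool.Agent.COB

namespace LBP_

variable {d : ℕ}

/-- the split coordinates -/
noncomputable def Te (d : ℕ) : E (d + 1) ≃ᵐ ℝ × (Fin d → ℝ) :=
  (MeasurableEquiv.toLp 2 (Fin (d + 1) → ℝ)).symm.trans
    (MeasurableEquiv.piFinSuccAbove (fun _ => ℝ) (Fin.last d))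

theorem Te_mp (d : ℕ) : MeasurePreserving (Te d) (volume : Measure (E (d + 1)))
    (volume : Measure (ℝ × (Fin d → ℝ))) := by
  have h1 := EuclideanSpace.volume_preserving_symm_measurableEquiv_toLp (Fin (d + 1))
  have h2 := volume_preserving_piFinSuccAbove (fun _ : Fin (d + 1) => ℝ) (Fin.last d)
  exact h2.comp h1

theorem Te_apply (x : E (d + 1)) : Te d x = (yy x, hz x) := by
  refine Prod.ext rfl ?_
  funext j
  show x.ofLp ((Fin.last d).succAbove j) = x.ofLp j.castSucc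
  rw [Fin.succAbove_last]

theorem yy_mk (z : Fin d → ℝ) (t : ℝ) : yy (mk z t) = t := by
  show (Fin.snoc (α := fun _ => ℝ) z t : Fin (d + 1) → ℝ) (Fin.last d) = t
  simp

theorem hz_mk (z : Fin d → ℝ) (t : ℝ) : hz (mk z t) = z := by
  funext j
  show (Fin.snoc (α := fun _ => ℝ) z t : Fin (d + 1) → ℝ) j.castSucc = z j
  simp

theorem Te_symm (p : ℝ × (Fin d → ℝ)) : (Te d).symm p = mk p.2 p.1 := by
  apply (Te d).injective
  rw [MeasurableEquiv.apply_symm_apply, Te_apply, yy_mk, hz_mk]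

theorem Te_symm_mp (d : ℕ) : MeasurePreserving (Te d).symm
    (volume : Measure (ℝ × (Fin d → ℝ))) (volume : Measure (E (d + 1))) :=
  (Te_mp d).symm

/-- Fubini -/
theorem fub (F : E (d + 1) → ℝ≥0∞) (hF : AEMeasurable F volume) :
    ∫⁻ x, F x = ∫⁻ z : Fin d → ℝ, ∫⁻ t : ℝ, F (mk z t) := by
  have h1 : ∫⁻ p : ℝ × (Fin d → ℝ), F ((Te d).symm p) = ∫⁻ x, F x :=
    (Te_symm_mp d).lintegral_comp_emb (Te d).symm.measurableEmbedding F
  rw [← h1, Measure.volume_eq_prod, lintegral_prod_symm]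
  · simp only [Te_symm]
  · rw [← Measure.volume_eq_prod]
    exact hF.comp_quasiMeasurePreserving (Te_symm_mp d).quasiMeasurePreserving

/-- a.e. version of Fubini -/
theorem aefub {P : E (d + 1) → Prop} (h : ∀ᵐ x, P x) :
    ∀ᵐ z : Fin d → ℝ, ∀ᵐ t : ℝ, P (mk z t) := by
  have h1 : ∀ᵐ p : ℝ × (Fin d → ℝ), P ((Te d).symm p) :=
    (Te_symm_mp d).quasiMeasurePreserving.ae h
  have h2 : ∀ᵐ q : (Fin d → ℝ) × ℝ, P ((Te d).symm q.swap) := by
    have := (Measure.measurePreserving_swap (μ := (volume : Measure (Fin d → ℝ)))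
      (ν := (volume : Measure ℝ))).quasiMeasurePreserving.ae (p := fun p => P ((Te d).symm p))
      (by rw [← Measure.volume_eq_prod]; exact h1)
    rw [Measure.volume_eq_prod]
    exact this
  rw [Measure.volume_eq_prod] at h2
  have h3 := Measure.ae_ae_of_ae_prod h2
  filter_upwards [h3] with z hz
  filter_upwards [hz] with t ht
  rwa [Te_symm] at ht

theorem meas_yy : Measurable (yy : E (d + 1) → ℝ) := by
  have : (yy : E (d + 1) → ℝ) = fun x => (Te d x).1 := by
    funext x; rw [Te_apply]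
  rw [this]
  exact measurable_fst.comp (Te d).measurable

theorem meas_hz : Measurable (hz : E (d + 1) → (Fin d → ℝ)) := by
  have : (hz : E (d + 1) → (Fin d → ℝ)) = fun x => (Te d x).2 := by
    funext x; rw [Te_apply]
  rw [this]
  exact measurable_snd.comp (Te d).measurable

theorem meas_Bx (d : ℕ) : MeasurableSet (Bx d) := by
  have : Bx d = Set.pi univ (fun _ => Ioo (0 : ℝ) 1) := by
    ext x; simp [Bx]
  rw [this]
  exact MeasurableSet.univ_pi (fun _ => measurableSet_Ioo)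

theorem mem_Op (x : E (d + 1)) : x ∈ Op d ↔ hz x ∈ Bx d ∧ yy x ∈ Ioo (0 : ℝ) 1 := by
  constructor
  · rintro ⟨⟨h1, h2⟩, h3⟩
    exact ⟨h1, h3, h2.2⟩
  · rintro ⟨h1, h2⟩
    exact ⟨⟨h1, by constructor <;> linarith [h2.1, h2.2]⟩, h2.1⟩

theorem meas_Op (d : ℕ) : MeasurableSet (Op d) := by
  have : Op d = hz ⁻¹' (Bx d) ∩ yy ⁻¹' (Ioo (0 : ℝ) 1) := by
    ext x; rw [mem_Op]; rfl
  rw [this]
  exact (meas_hz (meas_Bx d)).inter (meas_yy measurableSet_Ioo)

/-- the integral over a product set -/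
theorem fub_prod (F : (Fin d → ℝ) → ℝ≥0∞) (hF : AEMeasurable F volume) (S : Set (Fin d → ℝ))
    (hS : MeasurableSet S) (r : ℝ) :
    ∫⁻ x in {x : E (d + 1) | hz x ∈ S ∧ yy x ∈ Ioo (0 : ℝ) r}, F (hz x) =
      ENNReal.ofReal r * ∫⁻ z in S, F z := by
  have hms : MeasurableSet {x : E (d + 1) | hz x ∈ S ∧ yy x ∈ Ioo (0 : ℝ) r} :=
    (meas_hz hS).inter (meas_yy measurableSet_Ioo)
  have hq : Measure.QuasiMeasurePreserving (hz : E (d + 1) → (Fin d → ℝ)) volume volume := by
    have : (hz : E (d + 1) → (Fin d → ℝ)) = fun x => (Te d x).2 := by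
      funext x; rw [Te_apply]
    rw [this]
    have h2 : Measure.QuasiMeasurePreserving (Prod.snd : ℝ × (Fin d → ℝ) → (Fin d → ℝ))
        volume volume := by
      rw [Measure.volume_eq_prod]
      exact Measure.quasiMeasurePreserving_snd
    exact h2.comp (Te_mp d).quasiMeasurePreserving
  rw [← lintegral_indicator hms, fub]
  · have h1 : ∀ (z : Fin d → ℝ) (t : ℝ),
        indicator {x : E (d + 1) | hz x ∈ S ∧ yy x ∈ Ioo (0 : ℝ) r} (fun x => F (hz x)) (mk z t) =
        (Ioo (0 : ℝ) r).indicator (fun _ => S.indicator F z) t := by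
      intro z t
      by_cases hzS : z ∈ S <;> by_cases ht : t ∈ Ioo (0 : ℝ) r <;>
        simp [indicator, hz_mk, yy_mk, hzS] 
    simp only [h1]
    have h2 : ∀ z : Fin d → ℝ, ∫⁻ t : ℝ, (Ioo (0 : ℝ) r).indicator (fun _ => S.indicator F z) t =
        ENNReal.ofReal r * S.indicator F z := by
      intro z
      rw [lintegral_indicator measurableSet_Ioo, setLIntegral_const, Real.volume_Ioo, sub_zero,
        mul_comm]
    simp only [h2]
    rw [lintegral_const_mul'' _ (hF.indicator hS), lintegral_indicator hS]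
  · exact (hF.comp_quasiMeasurePreserving hq).indicator hms

/-- inclusion of the ball in the product -/
theorem ball_sub (x' : Fin d → ℝ) (r : ℝ) :
    ball (mk x' 0) r ∩ Op d ⊆
      {x : E (d + 1) | hz x ∈ closedBall x' r ∩ Bx d ∧ yy x ∈ Ioo (0 : ℝ) r} := by
  rintro x ⟨hx, hxO⟩
  rw [mem_Op] at hxO
  have hn : ‖x - mk x' 0‖ < r := by rwa [mem_ball, dist_eq_norm] at hx
  have hr : 0 < r := lt_of_le_of_lt (norm_nonneg _) hn
  refine ⟨⟨?_, hxO.1⟩, hxO.2.1, ?_⟩
  · rw [mem_closedBall, dist_pi_le_iff hr.le]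
    intro j
    have h := PiLp.norm_apply_le (x - mk x' 0) j.castSucc
    have h2 : (x - mk x' 0).ofLp j.castSucc = hz x j - x' j := by
      show x.ofLp j.castSucc - (mk x' 0).ofLp j.castSucc = _
      have : (mk x' 0).ofLp j.castSucc = x' j := congrFun (hz_mk x' 0) j
      rw [this]; rfl
    rw [h2] at h
    rw [Real.dist_eq, ← Real.norm_eq_abs]
    linarith
  · have h := PiLp.norm_apply_le (x - mk x' 0) (Fin.last d)
    have h2 : (x - mk x' 0).ofLp (Fin.last d) = yy x := by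
      show x.ofLp (Fin.last d) - (mk x' 0).ofLp (Fin.last d) = _
      have : (mk x' 0).ofLp (Fin.last d) = 0 := yy_mk x' 0
      rw [this, sub_zero]; rfl
    rw [h2] at h
    have h3 := le_abs_self (yy x)
    rw [Real.norm_eq_abs] at h
    linarith

theorem main (f : E (d + 1) → ℝ) (G : E (d + 1) → ℝ) (u : (Fin d → ℝ) → ℝ)
    (hG : ∫⁻ x in Op d, ‖G x‖ₑ ≠ ⊤) (hGm : AEStronglyMeasurable G (volume.restrict (Op d)))
    (hu : IntegrableOn u (Bx d))
    (hf : ∀ᵐ x, x ∈ Op d → f x = u (hz x) + ∫ s in (0 : ℝ)..yy x, G (mk (hz x) s)) :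
    ∀ᵐ x', x' ∈ Bx d → Tendsto (fun r : ℝ =>
    (∫⁻ x in ball (mk x' 0) r ∩ Op d, ENNReal.ofReal |f x - u x'|) /
      ENNReal.ofReal (r ^ (d + 1))) (𝓝[>] 0) (𝓝 0) := by
  -- the measurable version
  have hIm : AEMeasurable ((Op d).indicator (fun x => ‖G x‖ₑ)) volume :=
    (aemeasurable_indicator_iff (meas_Op d)).2 hGm.enorm
  set H : E (d + 1) → ℝ≥0∞ := hIm.mk _ with hH
  have hHm : Measurable H := hIm.measurable_mk
  have hHe : ∀ᵐ x, (Op d).indicator (fun x => ‖G x‖ₑ) x = H x := hIm.ae_eq_mk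
  have hmk : Measurable (fun p : (Fin d → ℝ) × ℝ => mk p.1 p.2) := by
    have : (fun p : (Fin d → ℝ) × ℝ => mk p.1 p.2) = fun p => (Te d).symm p.swap := by
      funext p; rw [Te_symm]; rfl
    rw [this]
    exact (Te d).symm.measurable.comp measurable_swap
  set D : ℝ → (Fin d → ℝ) → ℝ≥0∞ := fun ρ z => ∫⁻ t in Ioo (0 : ℝ) ρ, H (mk z t) with hD
  have hDm : ∀ ρ, Measurable (D ρ) := by
    intro ρ
    exact Measurable.lintegral_prod_right' (f := fun p : (Fin d → ℝ) × ℝ => H (mk p.1 p.2))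
      (hHm.comp hmk)
  have hDint : ∀ ρ, ∫⁻ z, D ρ z ≠ ⊤ := by
    intro ρ
    have h1 : ∫⁻ x, H x ≠ ⊤ := by
      rw [← lintegral_congr_ae hHe, lintegral_indicator (meas_Op d)]
      exact hG
    rw [fub H hHm.aemeasurable] at h1
    refine ne_top_of_le_ne_top h1 ?_
    exact lintegral_mono (fun z => setLIntegral_le_lintegral _ _)
  have hDmono : ∀ a b : ℝ, a ≤ b → ∀ z, D a z ≤ D b z := by
    intro a b hab z
    exact lintegral_mono_set (Ioo_subset_Ioo_right hab)
  -- bound of the interval integral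
  have hint : ∀ᵐ z : Fin d → ℝ, z ∈ Bx d → ∀ y : ℝ, y ∈ Ioo (0 : ℝ) 1 →
      ‖∫ s in (0 : ℝ)..y, G (mk z s)‖ₑ ≤ D y z := by
    filter_upwards [aefub hHe] with z hz hzB y hy
    rw [intervalIntegral.integral_of_le hy.1.le]
    refine (enorm_integral_le_lintegral_enorm _).trans ?_
    rw [Measure.restrict_congr_set (Ioo_ae_eq_Ioc (a := (0 : ℝ)) (b := y)).symm]
    refine le_of_eq ?_
    refine setLIntegral_congr_fun_ae measurableSet_Ioo ?_
    filter_upwards [hz] with t ht htI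
    rw [← ht, indicator_of_mem]
    rw [mem_Op, hz_mk, yy_mk]
    exact ⟨hzB, htI.1, htI.2.trans hy.2⟩
  have hint' : ∀ᵐ x : E (d + 1), x ∈ Op d → ‖∫ s in (0 : ℝ)..yy x, G (mk (hz x) s)‖ₑ ≤
      D (yy x) (hz x) := by
    have hq : Measure.QuasiMeasurePreserving (hz : E (d + 1) → (Fin d → ℝ)) volume volume := by
      have : (hz : E (d + 1) → (Fin d → ℝ)) = fun x => (Te d x).2 := by
        funext x; rw [Te_apply]
      rw [this]
      have h2 : Measure.QuasiMeasurePreserving (Prod.snd : ℝ × (Fin d → ℝ) → (Fin d → ℝ))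
          volume volume := by
        rw [Measure.volume_eq_prod]
        exact Measure.quasiMeasurePreserving_snd
      exact h2.comp (Te_mp d).quasiMeasurePreserving
    filter_upwards [hq.ae hint] with x hx hxO
    rw [mem_Op] at hxO
    exact hx hxO.1 _ hxO.2
  -- the extended trace
  set U : (Fin d → ℝ) → ℝ := (Bx d).indicator u with hU
  have hUi : Integrable U volume := (integrable_indicator_iff (meas_Bx d)).2 hu
  have L1 := VitaliFamily.ae_tendsto_lintegral_enorm_sub_div_of_integrable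
    (Besicovitch.vitaliFamily (volume : Measure (Fin d → ℝ))) hUi
  have L2 : ∀ᵐ x' : Fin d → ℝ, ∀ k : ℕ,
      Tendsto (fun a => (∫⁻ y in a, D (1 / (k + 1 : ℝ)) y) / volume a)
        ((Besicovitch.vitaliFamily (volume : Measure (Fin d → ℝ))).filterAt x')
        (𝓝 (D (1 / (k + 1 : ℝ)) x')) := by
    rw [ae_all_iff]
    intro k
    exact VitaliFamily.ae_tendsto_lintegral_div _ (hDm _).aemeasurable (hDint _)
  have L3 : ∀ᵐ x' : Fin d → ℝ, D 1 x' < ⊤ := ae_lt_top (hDm 1) (hDint 1)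
  filter_upwards [L1, L2, L3] with x' l1 l2 l3 hx'
  have m1 := l1.comp (Besicovitch.tendsto_filterAt (volume : Measure (Fin d → ℝ)) x')
  -- `D (1/(k+1)) x'` tends to zero
  have l4 : Tendsto (fun k : ℕ => D (1 / (k + 1 : ℝ)) x') atTop (𝓝 0) := by
    have e1 : ∀ k : ℕ, D (1 / (k + 1 : ℝ)) x' =
        ∫⁻ t in Ioo (0 : ℝ) (1 / (k + 1 : ℝ)), H (mk x' t) ∂(volume.restrict (Ioo (0 : ℝ) 1)) := by
      intro k
      rw [Measure.restrict_restrict measurableSet_Ioo, inter_eq_left.2]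
      apply Ioo_subset_Ioo_right
      rw [div_le_one (by positivity)]
      have : (0 : ℝ) ≤ k := Nat.cast_nonneg k
      linarith
    simp only [e1]
    refine tendsto_setLIntegral_zero l3.ne ?_
    have e2 : ∀ k : ℕ, (volume.restrict (Ioo (0 : ℝ) 1)) (Ioo (0 : ℝ) (1 / (k + 1 : ℝ))) ≤
        ENNReal.ofReal (1 / (k + 1 : ℝ)) := by
      intro k
      refine (Measure.restrict_apply_le _ _).trans ?_
      rw [Real.volume_Ioo, sub_zero]
    refine tendsto_of_tendsto_of_tendsto_of_le_of_le tendsto_const_nhds ?_ (fun _ => bot_le) e2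
    have := ENNReal.tendsto_ofReal (tendsto_one_div_add_atTop_nhds_zero_nat (𝕜 := ℝ))
    rwa [ENNReal.ofReal_zero] at this
  -- main bound
  have key : ∀ (ρ r : ℝ), 0 < r → r ≤ ρ →
      (∫⁻ x in ball (mk x' 0) r ∩ Op d, ENNReal.ofReal |f x - u x'|) /
        ENNReal.ofReal (r ^ (d + 1)) ≤ ENNReal.ofReal (2 ^ d) *
        ((∫⁻ y in closedBall x' r, ‖U y - U x'‖ₑ) / volume (closedBall x' r) +
          (∫⁻ y in closedBall x' r, D ρ y) / volume (closedBall x' r)) := by
    intro ρ r hr hrρ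
    have hUx : U x' = u x' := by rw [hU, indicator_of_mem hx']
    have hM : AEMeasurable (fun y => ‖U y - U x'‖ₑ + D ρ y) volume :=
      ((hUi.aestronglyMeasurable.sub aestronglyMeasurable_const).enorm).add
        (hDm ρ).aemeasurable
    have b1 : ∫⁻ x in ball (mk x' 0) r ∩ Op d, ENNReal.ofReal |f x - u x'| ≤
        ∫⁻ x in ball (mk x' 0) r ∩ Op d, (‖U (hz x) - U x'‖ₑ + D ρ (hz x)) := by
      refine setLIntegral_mono_ae' (measurableSet_ball.inter (meas_Op d)) ?_
      filter_upwards [hf, hint'] with x h1 h2 hx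
      have hO := hx.2
      have hy := (ball_sub x' r hx).2
      have hB := ((mem_Op x).1 hO).1
      rw [h1 hO, ← Real.enorm_eq_ofReal_abs]
      have : u (hz x) + (∫ s in (0 : ℝ)..yy x, G (mk (hz x) s)) - u x' =
          (U (hz x) - U x') + ∫ s in (0 : ℝ)..yy x, G (mk (hz x) s) := by
        rw [hUx, hU, indicator_of_mem hB]; ring
      rw [this]
      refine (enorm_add_le _ _).trans ?_
      gcongr
      exact (h2 hO).trans (hDmono _ _ (hy.2.le.trans hrρ) _)
    have b2 : ∫⁻ x in ball (mk x' 0) r ∩ Op d, (‖U (hz x) - U x'‖ₑ + D ρ (hz x)) ≤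
        ENNReal.ofReal r * ∫⁻ z in closedBall x' r ∩ Bx d, (‖U z - U x'‖ₑ + D ρ z) := by
      rw [← fub_prod (fun z => ‖U z - U x'‖ₑ + D ρ z) hM (closedBall x' r ∩ Bx d)
        (measurableSet_closedBall.inter (meas_Bx d)) r]
      exact lintegral_mono_set (ball_sub x' r)
    have b3 : ∫⁻ z in closedBall x' r ∩ Bx d, (‖U z - U x'‖ₑ + D ρ z) ≤
        (∫⁻ y in closedBall x' r, ‖U y - U x'‖ₑ) + (∫⁻ y in closedBall x' r, D ρ y) := by
      refine (lintegral_mono_set inter_subset_left).trans (le_of_eq ?_)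
      exact lintegral_add_right _ (hDm ρ)
    have b4 : volume (closedBall x' r) = ENNReal.ofReal (2 ^ d) * ENNReal.ofReal (r ^ d) := by
      rw [Real.volume_pi_closedBall x' hr.le, Fintype.card_fin, mul_pow,
        ENNReal.ofReal_mul (by positivity)]
    set P : ℝ≥0∞ := (∫⁻ y in closedBall x' r, ‖U y - U x'‖ₑ) with hP
    set Q : ℝ≥0∞ := (∫⁻ y in closedBall x' r, D ρ y) with hQ
    have b5 : (∫⁻ x in ball (mk x' 0) r ∩ Op d, ENNReal.ofReal |f x - u x'|) ≤
        ENNReal.ofReal r * (P + Q) :=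
      b1.trans (b2.trans (by gcongr))
    have hr0 : ENNReal.ofReal r ≠ 0 := by
      rw [Ne, ENNReal.ofReal_eq_zero]; linarith
    have hrd0 : ENNReal.ofReal (r ^ d) ≠ 0 := by
      rw [Ne, ENNReal.ofReal_eq_zero, not_le]; positivity
    have h2d0 : ENNReal.ofReal (2 ^ d) ≠ 0 := by
      rw [Ne, ENNReal.ofReal_eq_zero, not_le]; positivity
    have b6 : ENNReal.ofReal (r ^ (d + 1)) = ENNReal.ofReal r * ENNReal.ofReal (r ^ d) := by
      rw [← ENNReal.ofReal_mul hr.le, pow_succ']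
    calc (∫⁻ x in ball (mk x' 0) r ∩ Op d, ENNReal.ofReal |f x - u x'|) /
          ENNReal.ofReal (r ^ (d + 1))
        ≤ (ENNReal.ofReal r * (P + Q)) / (ENNReal.ofReal r * ENNReal.ofReal (r ^ d)) := by
          rw [b6]; gcongr
      _ = (P + Q) / ENNReal.ofReal (r ^ d) :=
          ENNReal.mul_div_mul_left _ _ hr0 ENNReal.ofReal_ne_top
      _ = (ENNReal.ofReal (2 ^ d) * (P + Q)) /
            (ENNReal.ofReal (2 ^ d) * ENNReal.ofReal (r ^ d)) :=
          (ENNReal.mul_div_mul_left _ _ h2d0 ENNReal.ofReal_ne_top).symm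
      _ = ENNReal.ofReal (2 ^ d) * (P / volume (closedBall x' r) +
            Q / volume (closedBall x' r)) := by
          rw [b4, mul_div_assoc, ENNReal.add_div]
  -- conclusion
  rw [ENNReal.tendsto_nhds_zero]
  intro ε hε
  have hpos : 0 < ε / (ENNReal.ofReal (2 ^ d)) / 2 := by
    refine ENNReal.div_pos (ENNReal.div_pos hε.ne' ENNReal.ofReal_ne_top).ne' (by norm_num)
  obtain ⟨k, hk⟩ := ((tendsto_order.1 l4).2 _ hpos).exists
  have m2 := (l2 k).comp (Besicovitch.tendsto_filterAt (volume : Measure (Fin d → ℝ)) x')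
  have e1 := (tendsto_order.1 m1).2 _ hpos
  have e2 := (tendsto_order.1 m2).2 _ hk
  have e3 : ∀ᶠ r : ℝ in 𝓝[>] 0, r ∈ Ioo (0 : ℝ) (1 / (k + 1 : ℝ)) :=
    Ioo_mem_nhdsGT (by positivity)
  filter_upwards [e1, e2, e3] with r h1 h2 h3
  refine (key (1 / (k + 1 : ℝ)) r h3.1 h3.2.le).trans ?_
  have h1' := h1.le
  have h2' := h2.le
  simp only [Function.comp] at h1' h2'
  calc ENNReal.ofReal (2 ^ d) *
        ((∫⁻ y in closedBall x' r, ‖U y - U x'‖ₑ) / volume (closedBall x' r) +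
          (∫⁻ y in closedBall x' r, D (1 / (k + 1 : ℝ)) y) / volume (closedBall x' r))
      ≤ ENNReal.ofReal (2 ^ d) * (ε / (ENNReal.ofReal (2 ^ d)) / 2 +
          ε / (ENNReal.ofReal (2 ^ d)) / 2) := by gcongr
    _ = ENNReal.ofReal (2 ^ d) * (ε / (ENNReal.ofReal (2 ^ d))) := by
        rw [ENNReal.add_halves]
    _ ≤ ε := ENNReal.mul_div_le

end LBP_

theorem lbp_proof : Stmt_LBP := by
  intro d f g u hW hu hf
  refine LBP_.main f (g (Fin.last d)) u ?_ (hW.g2 (Fin.last d)).aestronglyMeasurable hu hf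
  have hfin : volume (Op d) < ⊤ := by
    have h1 : volume (Op d) = ∫⁻ x in {x : E (d + 1) | hz x ∈ Bx d ∧ yy x ∈ Ioo (0 : ℝ) 1},
        (fun _ : Fin d → ℝ => (1 : ℝ≥0∞)) (hz x) := by
      have : Op d = {x : E (d + 1) | hz x ∈ Bx d ∧ yy x ∈ Ioo (0 : ℝ) 1} := by
        ext x; rw [LBP_.mem_Op]; rfl
      rw [← this]; simp
    rw [h1, LBP_.fub_prod _ aemeasurable_const _ (LBP_.meas_Bx d)]
    have h2 : volume (Bx d) < ⊤ := by
      have : Bx d = Set.pi univ (fun _ => Ioo (0 : ℝ) 1) := by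
        ext x; simp [Bx]
      rw [this, Real.volume_pi_Ioo]
      simp
    simp [h2]
  have : IsFiniteMeasure (volume.restrict (Op d)) := ⟨by simpa using hfin⟩
  have h1 : MemLp (g (Fin.last d)) 1 (volume.restrict (Op d)) :=
    (hW.g2 (Fin.last d)).mono_exponent (by norm_num)
  exact (memLp_one_iff_integrable.1 h1).2.ne

end Pool.Agent.CAL
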