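import Pool.Agent.CAL.Stmts

/-!
Squad CAL, module LO2: lower bound for the energy of two valued maps.
-/

set_option autoImplicit false

namespace Pool.Agent.CAL

open MeasureTheory Set Metric Filter Topology
open scoped ENNReal
open Pool.Agent.COB

namespace LO2_

theorem int_mul {m : ℕ} {U : Set (E m)} {g ζ : E m → ℝ}
    (hg : MemLp g 2 (volume.restrict U)) (hζ : TF U ζ) :
    Integrable (fun x => g x * ζ x) volume := by
  have hz : MemLp ζ 2 (volume.restrict U) :=
    (hζ.1.continuous.memLp_of_hasCompactSupport hζ.2.1).restrict U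
  have h1 : IntegrableOn (fun x => g x * ζ x) U volume := hg.integrable_mul hz
  refine h1.integrable_of_forall_notMem_eq_zero fun x hx => ?_
  have : ζ x = 0 := by
    by_contra h
    exact hx (hζ.2.2 (subset_tsupport ζ h))
  rw [this, mul_zero]

theorem unq (hUNQ : Stmt_UNQ) {m : ℕ} {U : Set (E m)} (hU : IsOpen U) (hv : volume U < ⊤)
    {f : E m → ℝ} {G G' : Fin m → E m → ℝ} (h : W12 U f G) (h' : W12 U f G') (j : Fin m) :
    ∀ᵐ x ∂(volume.restrict U), G j x = G' j x := by
  have : IsFiniteMeasure (volume.restrict U) := ⟨by simpa using hv⟩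
  have hi : MemLp (fun x => G j x - G' j x) 2 (volume.restrict U) := (h.g2 j).sub (h'.g2 j)
  have hl : LocallyIntegrableOn (fun x => G j x - G' j x) U volume := by
    have h1 : IntegrableOn (fun x => G j x - G' j x) U volume := hi.integrable (by norm_num)
    exact h1.locallyIntegrableOn
  have := hUNQ m U (fun x => G j x - G' j x) hU hl (fun ζ hζ => by
    have e1 := h.ibp ζ hζ j
    have e2 := h'.ibp ζ hζ j
    have e3 : ∫ x, (G j x - G' j x) * ζ x = (∫ x, G j x * ζ x) - ∫ x, G' j x * ζ x := by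
      rw [← integral_sub (int_mul (h.g2 j) hζ) (int_mul (h'.g2 j) hζ)]
      exact integral_congr_ae (Eventually.of_forall fun x => by ring)
    rw [e3]
    linarith)
  filter_upwards [this] with x hx
  linarith

theorem ofReal_int_le {α : Type*} [MeasurableSpace α] {μ : Measure α} {F : α → ℝ}
    (hF : ∀ x, 0 ≤ F x) : ENNReal.ofReal (∫ x, F x ∂μ) ≤ ∫⁻ x, ENNReal.ofReal (F x) ∂μ := by
  by_cases hi : Integrable F μ
  · exact (ofReal_integral_eq_lintegral_ofReal hi (Eventually.of_forall hF)).le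
  · rw [integral_undef hi]
    simp

theorem core (hVEC : Stmt_VEC) (hUNQ : Stmt_UNQ) {m n Q N : ℕ} {U : Set (E m)}
    {g : E m → Sym (E n) Q} (l : Fin N → Sym (E n) Q → ℝ) (hU : IsOpen U) (hv : volume U < ⊤)
    (hg : MemW U g) (hl : ∀ S T, ∑ c, (l c S - l c T) ^ 2 ≤ GG S T ^ 2) :
    ∃ G : Fin N → Fin m → E m → ℝ, (∀ c, W12 U (fun x => l c (g x)) (G c)) ∧
      ENNReal.ofReal (∫ x in U, ∑ c, ∑ j, G c j x ^ 2) ≤ energy U g := by
  have h0 := hg.en
  unfold energy at h0
  obtain ⟨h, hh⟩ := iInf_lt_iff.1 h0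
  obtain ⟨ha, hh⟩ := iInf_lt_iff.1 hh
  obtain ⟨G, hG, _⟩ := hVEC m n Q N U g h l hU hv hg ha hh hl
  refine ⟨G, hG, ?_⟩
  unfold energy
  refine le_iInf₂ fun h' ha' => ?_
  rcases eq_or_ne (∫⁻ x in U, ∑ j, h' j x ^ 2) ⊤ with htop | htop
  · rw [htop]; exact le_top
  obtain ⟨G', hG', hb⟩ := hVEC m n Q N U g h' l hU hv hg ha' (lt_top_iff_ne_top.2 htop) hl
  refine (ofReal_int_le fun x => Finset.sum_nonneg fun c _ => Finset.sum_nonneg fun j _ =>
    sq_nonneg _).trans ?_
  refine lintegral_mono_ae ?_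
  have hu : ∀ᵐ x ∂(volume.restrict U), ∀ c j, G c j x = G' c j x := by
    rw [ae_all_iff]
    intro c
    rw [ae_all_iff]
    intro j
    exact unq hUNQ hU hv (hG c) (hG' c) j
  have hb' : ∀ᵐ x ∂(volume.restrict U), ∀ j,
      ENNReal.ofReal (∑ c, G' c j x ^ 2) ≤ h' j x ^ 2 := by
    rw [ae_all_iff]
    exact hb
  filter_upwards [hu, hb'] with x h1 h2
  rw [Finset.sum_comm, ENNReal.ofReal_sum_of_nonneg fun j _ => Finset.sum_nonneg fun c _ =>
    sq_nonneg _]
  refine Finset.sum_le_sum fun j _ => ?_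
  refine le_trans (le_of_eq ?_) (h2 j)
  congr 1
  exact Finset.sum_congr rfl fun c _ => by rw [h1 c j]

end LO2_

theorem lo2_proof (hVEC : Stmt_VEC) (hIOT : Stmt_IOT) (hUNQ : Stmt_UNQ) : Stmt_LO2 := by
  intro m n U g hU hv hg
  let e := Fintype.equivFin (Ix n)
  obtain ⟨G, hG, hE⟩ := LO2_.core hVEC hUNQ
    (fun (c : Fin (Fintype.card (Ix n))) S => io S (e.symm c)) hU hv hg (fun S T => by
      have h1 : ∑ c, (io S (e.symm c) - io T (e.symm c)) ^ 2 =
          ∑ c, (io S c - io T c) ^ 2 := Equiv.sum_comp e.symm fun c => (io S c - io T c) ^ 2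
      rw [h1]
      exact hIOT n S T)
  refine ⟨fun c => G (e c), fun c => ?_, ?_⟩
  · have h1 := hG (e c)
    simp only [Equiv.symm_apply_apply] at h1
    exact h1
  · refine le_trans (le_of_eq ?_) hE
    congr 1
    refine integral_congr_ae (Eventually.of_forall fun x => ?_)
    exact Equiv.sum_comp e fun c => ∑ j, G c j x ^ 2

end Pool.Agent.CAL
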