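import Pool.Agent.CAL.Stmts

set_option autoImplicit false

namespace Pool.Agent.CAL

open MeasureTheory Set Metric Filter Topology
open scoped ENNReal
open Pool.Agent.COB

namespace MIN_

noncomputable def sn (d : ℕ) : ((Fin d → ℝ) × ℝ) ≃ᵐ E (d + 1) :=
  (MeasurableEquiv.prodComm.trans
    (MeasurableEquiv.piFinSuccAbove (fun _ => ℝ) (Fin.last d)).symm).trans
    (MeasurableEquiv.toLp 2 (Fin (d + 1) → ℝ))

theorem sn_apply (d : ℕ) (p : (Fin d → ℝ) × ℝ) : sn d p = mk p.1 p.2 := by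
  unfold sn mk
  ext i
  simp [MeasurableEquiv.trans_apply, MeasurableEquiv.piFinSuccAbove]
  rfl

theorem sn_mp (d : ℕ) : MeasurePreserving (sn d) (volume.prod volume) volume := by
  have h1 := (volume_preserving_piFinSuccAbove (fun _ : Fin (d + 1) => ℝ) (Fin.last d)).symm
  have h2 : MeasurePreserving (Prod.swap : (Fin d → ℝ) × ℝ → ℝ × (Fin d → ℝ))
      (volume.prod volume) (volume.prod volume) := Measure.measurePreserving_swap
  have h3 := PiLp.volume_preserving_toLp (Fin (d + 1))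
  exact h3.comp (h1.comp h2)

theorem yy_mk {d : ℕ} (x : Fin d → ℝ) (t : ℝ) : yy (mk x t) = t := by
  simp [yy, mk]

/-- the hyperplane is a null set -/
theorem null_yy (d : ℕ) : ∀ᵐ x : E (d + 1), yy x ≠ 0 := by
  rw [ae_iff]
  have h := (sn_mp d).measure_preimage_equiv {x : E (d + 1) | ¬ yy x ≠ 0}
  rw [← h]
  have h1 : (sn d) ⁻¹' {x : E (d + 1) | ¬ yy x ≠ 0} = univ ×ˢ {(0 : ℝ)} := by
    ext p
    simp [sn_apply, yy_mk]
  rw [h1, Measure.prod_prod]
  simp

theorem w12_mono {m : ℕ} {U V : Set (E m)} {f : E m → ℝ} {g : Fin m → E m → ℝ}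
    (h : W12 U f g) (hVU : V ⊆ U) : W12 V f g :=
  ⟨h.f2.mono_measure (Measure.restrict_mono_set _ hVU),
    fun j => (h.g2 j).mono_measure (Measure.restrict_mono_set _ hVU),
    fun ζ hζ j => h.ibp ζ ⟨hζ.1, hζ.2.1, hζ.2.2.trans hVU⟩ j⟩

theorem w12_zero {m : ℕ} (U : Set (E m)) : W12 U (fun _ => (0 : ℝ)) (fun _ _ => 0) :=
  ⟨MemLp.zero', fun _ => MemLp.zero', fun ζ _ j => by simp⟩

theorem memLp_vG {m n : ℕ} {U : Set (E m)} {P : Fin n → Fin m → E m → ℝ}
    (hP : ∀ a j, MemLp (P a j) 2 (volume.restrict U)) (j : Fin m) :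
    MemLp (fun x => vG P x j) 2 (volume.restrict U) := by
  have hm : AEStronglyMeasurable (fun x => vG P x j) (volume.restrict U) := by
    unfold vG
    refine (PiLp.continuous_toLp 2 _).comp_aestronglyMeasurable ?_
    exact (aemeasurable_pi_lambda _ fun a => (hP a j).1.aemeasurable).aestronglyMeasurable
  rw [memLp_two_iff_integrable_sq_norm hm]
  have h1 : (fun x => ‖vG P x j‖ ^ 2) = fun x => ∑ a, (P a j x) ^ 2 := by
    funext x
    rw [EuclideanSpace.norm_sq_eq]
    simp [vG]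
  rw [h1]
  exact integrable_finsetSum _ fun a _ => (hP a j).integrable_sq

theorem sum_vG {m n : ℕ} (P : Fin n → Fin m → E m → ℝ) (x : E m) :
    ∑ j, ‖vG P x j‖ ^ 2 = ∑ a, ∑ j, (P a j x) ^ 2 := by
  rw [Finset.sum_comm]
  refine Finset.sum_congr rfl fun j _ => ?_
  rw [EuclideanSpace.norm_sq_eq]
  simp [vG]

theorem integrable_NN {d n : ℕ} {A : Fin d → (E n →L[ℝ] E n)} {U : Set (E (d + 1))}
    {P : Fin n → Fin (d + 1) → E (d + 1) → ℝ}
    (hP : ∀ a j, MemLp (P a j) 2 (volume.restrict U)) :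
    IntegrableOn (fun x => NN A (vG P x)) U := by
  have h1 := memLp_vG hP
  have h2 : MemLp (fun x => dir A (vG P x)) 2 (volume.restrict U) := by
    unfold dir
    refine (h1 _).add (memLp_finsetSum _ fun j _ => ?_)
    exact (A j).comp_memLp' (h1 j.castSucc)
  unfold NN
  refine Integrable.sub (integrable_finsetSum _ fun j _ => ?_) ?_
  · exact (memLp_two_iff_integrable_sq_norm (h1 j).1).1 (h1 j)
  · exact (memLp_two_iff_integrable_sq_norm h2.1).1 h2

theorem NN_le {d n : ℕ} (A : Fin d → (E n →L[ℝ] E n)) (q : Fin (d + 1) → E n) :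
    NN A q ≤ ∑ j, ‖q j‖ ^ 2 := by
  unfold NN
  have := sq_nonneg ‖dir A q‖
  linarith

theorem NN_zero {d n : ℕ} (A : Fin d → (E n →L[ℝ] E n)) (q : Fin (d + 1) → E n)
    (hq : ∀ j, q j = 0) : NN A q = 0 := by
  unfold NN dir
  simp [hq]

theorem lst_gm {n : ℕ} (p : E n) : lst (tup ![p]) 0 = p := by
  have h := Classical.choose_spec (exists_tup (tup ![p]))
  have h1 : (⟨Multiset.map (lst (tup ![p])) Finset.univ.val, by simp⟩ : Sym (E n) 1) =
    tup ![p] := h
  have h2 := congrArg Subtype.val h1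
  simp [tup] at h2
  exact h2

theorem split_int {d : ℕ} (hO : IsSplit (Om d) (Op d) (Omi d) (ga d)) (F : E (d + 1) → ℝ)
    (hF : IntegrableOn F (Om d)) :
    ∫ x in Om d, F x = (∫ x in Op d, F x) + ∫ x in Omi d, F x := by
  have h1 : (Om d : Set (E (d + 1))) =ᵐ[volume] (Op d ∪ Omi d : Set (E (d + 1))) := by
    filter_upwards [null_yy d] with x hx
    apply propext
    have h2 : x ∈ Om d ↔ x ∈ Op d ∪ Omi d := by
      constructor
      · intro h
        rcases lt_or_gt_of_ne hx with h3 | h3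
        · exact Or.inr ⟨h, h3⟩
        · exact Or.inl ⟨h, h3⟩
      · rintro (h | h)
        · exact h.1
        · exact h.1
    exact h2
  rw [setIntegral_congr_set h1]
  exact setIntegral_union hO.disj3 hO.openOmi.measurableSet
    (hF.mono_set fun x hx => hx.1) (hF.mono_set fun x hx => hx.1)

end MIN_

open MIN_ in
theorem min_proof (hLO2 : Stmt_LO2) (hLO1 : Stmt_LO1) (hINE : Stmt_INE) (hEQN : Stmt_EQN)
    (hTNI : Stmt_TNI) (hVVW : Stmt_VVW) (hUPP : Stmt_UPP) (hPAI : Stmt_PAI) (hCPG : Stmt_CPG)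
    (hTWO : Stmt_TWO) (hSPL : Stmt_SPL) : Stmt_MIN := by
  intro d n A f v C hA hD
  refine ⟨(hPAI d n A f v C hD).1, ?_⟩
  rintro hp hm hpair ⟨K, hK, hKc, hpK, hmK⟩
  obtain ⟨hO, -, hvol, -⟩ := hSPL d
  have hvp : volume (Op d) < ⊤ := lt_of_le_of_lt (measure_mono fun x hx => hx.1) hvol
  have hvm : volume (Omi d) < ⊤ := lt_of_le_of_lt (measure_mono fun x hx => hx.1) hvol
  have hOpOm : Op d ⊆ Om d := fun x hx => hx.1
  have hOmiOm : Omi d ⊆ Om d := fun x hx => hx.1
  obtain ⟨-, R, hR, -, hdir⟩ := hVVW d n A f v C hD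
  obtain ⟨G1, hG1, hE1⟩ := hLO2 (d + 1) n (Op d) hp hO.openOp hvp hpair.wp
  obtain ⟨P, hP, hE2⟩ := hLO1 (d + 1) n (Omi d) hm hO.openOmi hvm hpair.wm
  obtain ⟨G, hG, hG', hGG⟩ := hCPG d n A f v C hp hm hD hpair G1 P hG1 hP
  have hZ : ∀ a : Fin n, W12 (Om d) (fun _ => (0 : E n) a)
      ((fun _ _ _ => 0 : Fin n → Fin (d + 1) → E (d + 1) → ℝ) a) := by
    intro a
    exact w12_zero (Om d)
  obtain ⟨G0, hG0⟩ := hTWO (d + 1) n (Om d) (fun _ => 0) (VV v) (fun _ _ _ => 0) R
    hO.openOm hvol hZ hR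
  have hq0 := hEQN d n A (Om d) (fun _ => 0) (VV v) (fun _ _ _ => 0) R G0 hA hO.openOm hZ hR hG0
  have hqm := hEQN d n A (Omi d) (fun x => lst (hm x) 0) (VV v) P R G hA hO.openOmi hP
    (fun a => w12_mono (hR a) hOmiOm) hG'
  have hin := hINE d n A (Op d) hp G1 hA hO.openOp hG1
  obtain ⟨hI, hI0, hII⟩ := hTNI d n A (Om d)
    (fun x => if 0 < yy x then hp x else tup ![lst (hm x) 0, VV v x])
    (fun x => tup ![0, VV v x]) G G0 hA hO.openOm hG hG0 ⟨K, hK, hKc, by
      filter_upwards [hpK, hmK, null_yy d] with x h1 h2 h3 h4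
      rcases lt_or_gt_of_ne h3 with h5 | h5
      · have h6 := h2 ⟨⟨h4.1, h5⟩, h4.2⟩
        rw [if_neg (not_lt.2 h5.le), h6]
        have h7 : lst (gm d n x) 0 = 0 := lst_gm 0
        rw [h7]
      · have h6 := h1 ⟨⟨h4.1, h5⟩, h4.2⟩
        rw [if_pos h5, h6]
        rfl⟩
  obtain ⟨hU1, hU2⟩ := hUPP d n A f v C R hD hR
  -- the chain of integrals
  have hPm : ∀ a j, MemLp (P a j) 2 (volume.restrict (Omi d)) := fun a j => (hP a).g2 j
  have hRm : ∀ a j, MemLp (R a j) 2 (volume.restrict (Om d)) := fun a j => (hR a).g2 j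
  have iR : IntegrableOn (fun x => NN A (vG R x)) (Om d) := integrable_NN hRm
  have iP : IntegrableOn (fun x => NN A (vG P x)) (Omi d) := integrable_NN hPm
  have s1 := split_int hO _ hI
  have s2 : ∫ x in Om d, TN A G0 x = ∫ x in Om d, NN A (vG R x) := by
    apply integral_congr_ae
    filter_upwards [hq0] with x hx
    rw [hx, NN_zero A _ (fun j => ?_), zero_add]
    ext a
    simp [vG]
  have s3 := split_int hO _ iR
  have s4 : ∫ x in Omi d, TN A G x =
      (∫ x in Omi d, NN A (vG P x)) + ∫ x in Omi d, NN A (vG R x) := by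
    rw [← integral_add iP (iR.mono_set hOmiOm)]
    exact integral_congr_ae hqm
  have s5 : ∫ x in Op d, TN A G x ≤ ∫ x in Op d, ∑ c, ∑ j, G1 c j x ^ 2 := by
    refine integral_mono_ae (hI.mono_set hOpOm) ?_ ?_
    · exact integrable_finsetSum _ fun c _ => integrable_finsetSum _ fun j _ =>
        ((hG1 c).g2 j).integrable_sq
    · have h1 : ∀ᵐ x ∂(volume.restrict (Op d)), ∀ c j, G c j x = G1 c j x := by
        rw [ae_all_iff]
        intro c
        rw [ae_all_iff]
        intro j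
        rw [ae_restrict_iff' hO.openOp.measurableSet]
        exact hGG c j
      filter_upwards [hin, h1] with x h2 h3
      refine le_trans (le_of_eq ?_) h2
      unfold TN
      have e1 : aG G x = aG G1 x := by
        funext j
        unfold aG
        simp only [h3]
      have e2 : ∀ c, bG G c x = bG G1 c x := by
        intro c
        funext j
        unfold bG
        simp only [h3]
      rw [e1]
      simp only [e2]
  have s6 : ∫ x in Omi d, NN A (vG P x) ≤ ∫ x in Omi d, ∑ a, ∑ j, P a j x ^ 2 := by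
    refine integral_mono_ae iP ?_ ?_
    · exact integrable_finsetSum _ fun c _ => integrable_finsetSum _ fun j _ =>
        (hPm c j).integrable_sq
    · refine Eventually.of_forall fun x => ?_
      have := NN_le A (vG P x)
      rw [sum_vG] at this
      exact this
  have s7 : ∫ x in Op d, NN A (vG R x) = ∫ x in Op d, ∑ j, ‖vG R x j‖ ^ 2 := by
    apply setIntegral_congr_ae hO.openOp.measurableSet
    filter_upwards [hdir] with x h1 h2
    unfold NN
    rw [h1 h2]
    simp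
  have s8 : ∫ x in Op d, ∑ j, ‖vG R x j‖ ^ 2 ≤
      (∫ x in Op d, ∑ c, ∑ j, G1 c j x ^ 2) + ∫ x in Omi d, ∑ a, ∑ j, P a j x ^ 2 := by
    linarith
  calc energy (Op d) (gp v) + energy (Omi d) (gm d n)
      ≤ ENNReal.ofReal (∫ x in Op d, ∑ j, ‖vG R x j‖ ^ 2) := by
        rw [hU2, add_zero]
        exact hU1
    _ ≤ ENNReal.ofReal ((∫ x in Op d, ∑ c, ∑ j, G1 c j x ^ 2) +
          ∫ x in Omi d, ∑ a, ∑ j, P a j x ^ 2) := ENNReal.ofReal_le_ofReal s8
    _ ≤ ENNReal.ofReal (∫ x in Op d, ∑ c, ∑ j, G1 c j x ^ 2) +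
          ENNReal.ofReal (∫ x in Omi d, ∑ a, ∑ j, P a j x ^ 2) := ENNReal.ofReal_add_le
    _ ≤ energy (Op d) hp + energy (Omi d) hm := add_le_add hE1 hE2

end Pool.Agent.CAL
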