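import Pool.Agent.CAL.Stmts

/-!
Module NLF: the null Lagrangian is an antisymmetric quadratic form.
-/

set_option autoImplicit false

namespace Pool.Agent.CAL

open MeasureTheory Set Metric Filter Topology
open scoped ENNReal
open Pool.Agent.COB

namespace NLF_

variable {d n : ℕ}

/-- the operators including the vertical one -/
noncomputable def AA (A : Fin d → (E n →L[ℝ] E n)) : Fin (d + 1) → (E n →L[ℝ] E n) :=
  Fin.snoc (α := fun _ => (E n →L[ℝ] E n)) A (ContinuousLinearMap.id ℝ (E n))

theorem AA_last (A : Fin d → (E n →L[ℝ] E n)) (x : E n) : AA A (Fin.last d) x = x := by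
  simp [AA]

theorem AA_cast (A : Fin d → (E n →L[ℝ] E n)) (j : Fin d) : AA A j.castSucc = A j := by
  simp [AA]

theorem dir_eq (A : Fin d → (E n →L[ℝ] E n)) (q : Fin (d + 1) → E n) :
    dir A q = ∑ j, AA A j (q j) := by
  rw [Fin.sum_univ_castSucc, AA_last]
  simp only [AA_cast]
  rw [dir, add_comm]

theorem iso {A : Fin d → (E n →L[ℝ] E n)} (hA : Cl A) (i : Fin (d + 1)) (x : E n) :
    inner ℝ (AA A i x) (AA A i x) = inner ℝ x x := by
  refine Fin.lastCases ?_ (fun j => ?_) i
  · rw [AA_last]
  · rw [AA_cast, hA.skew, hA.sq, inner_neg_right, neg_neg]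

theorem anti {A : Fin d → (E n →L[ℝ] E n)} (hA : Cl A) (i j : Fin (d + 1)) (hij : i ≠ j)
    (x y : E n) : inner ℝ (AA A i x) (AA A j y) = -inner ℝ (AA A j x) (AA A i y) := by
  revert hij
  refine Fin.lastCases (fun hij => ?_) (fun i' => ?_) i
  · revert hij
    refine Fin.lastCases (fun hij => absurd rfl hij) (fun j' _ => ?_) j
    rw [AA_last, AA_last, AA_cast, hA.skew, neg_neg]
  · refine Fin.lastCases (fun _ => ?_) (fun j' hij => ?_) j
    · rw [AA_last, AA_last, AA_cast, hA.skew]
    · rw [AA_cast, AA_cast, hA.skew, hA.skew,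
        hA.anti i' j' (fun h => hij (by rw [h])), inner_neg_right]

theorem expand (x : E n) : x = ∑ a, x a • (bs a : E n) := by
  have h := (EuclideanSpace.basisFun (Fin n) ℝ).sum_repr x
  conv_lhs => rw [← h]
  refine Finset.sum_congr rfl fun a _ => ?_
  simp [bs]

theorem bil (S T : E n →L[ℝ] E n) (x y : E n) : inner ℝ (S x) (T y) =
    ∑ a, ∑ b, inner ℝ (S (bs a)) (T (bs b)) * x a * y b := by
  conv_lhs => rw [expand x, expand y]
  rw [map_sum, map_sum, sum_inner]
  refine Finset.sum_congr rfl fun a _ => ?_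
  rw [inner_sum]
  refine Finset.sum_congr rfl fun b _ => ?_
  rw [map_smul, map_smul, inner_smul_left, inner_smul_right]
  simp only [conj_trivial]
  ring

end NLF_

open NLF_ in
theorem nlf_proof : Stmt_NLF := by
  intro d n A hA
  refine ⟨fun i j a b => if i = j then 0 else -inner ℝ (AA A i (bs a)) (AA A j (bs b)), ?_, ?_⟩
  · intro i j a b
    by_cases h : i = j
    · simp [h]
    · have h' : ¬ j = i := fun e => h e.symm
      simp only [if_neg h, if_neg h']
      rw [anti hA i j h]
  · intro q
    have h1 : ‖dir A q‖ ^ 2 = ∑ i, ∑ j, inner ℝ (AA A i (q i)) (AA A j (q j)) := by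
      rw [← real_inner_self_eq_norm_sq, dir_eq, sum_inner]
      exact Finset.sum_congr rfl fun i _ => inner_sum _ _ _
    have h2 : ∀ i, ∑ j, inner ℝ (AA A i (q i)) (AA A j (q j)) = ‖q i‖ ^ 2 +
        ∑ j, (if i = j then 0 else inner ℝ (AA A i (q i)) (AA A j (q j))) := by
      intro i
      have h3 : ∀ j, inner ℝ (AA A i (q i)) (AA A j (q j)) = (if i = j then ‖q i‖ ^ 2 else 0) +
          (if i = j then 0 else inner ℝ (AA A i (q i)) (AA A j (q j))) := by
        intro j
        by_cases h : i = j
        · subst h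
          simp only [if_true, add_zero]
          rw [iso hA, real_inner_self_eq_norm_sq]
        · simp [h]
      rw [Finset.sum_congr rfl fun j _ => h3 j, Finset.sum_add_distrib]
      simp
    unfold NN
    rw [h1, Finset.sum_congr rfl fun i _ => h2 i, Finset.sum_add_distrib, sub_add_cancel_left,
      ← Finset.sum_neg_distrib]
    refine Finset.sum_congr rfl fun i _ => ?_
    rw [← Finset.sum_neg_distrib]
    refine Finset.sum_congr rfl fun j _ => ?_
    by_cases h : i = j
    · simp [h]
    · simp only [if_neg h]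
      rw [bil, ← Finset.sum_neg_distrib]
      refine Finset.sum_congr rfl fun a _ => ?_
      rw [← Finset.sum_neg_distrib]
      refine Finset.sum_congr rfl fun b _ => ?_
      ring

end Pool.Agent.CAL
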