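import Pool.Agent.CAL.Stmts

set_option autoImplicit false

namespace Pool.Agent.CAL

open MeasureTheory Set Metric Filter Topology
open scoped ENNReal
open Pool.Agent.COB

namespace PAI_

variable {d n : ℕ}

lemma GG_le {n Q : ℕ} (a b : Fin Q → E n) :
    GG (tup a) (tup b) ≤ Real.sqrt (∑ i, ‖a i - b i‖ ^ 2) := by
  apply csInf_le
  · exact ⟨0, by rintro r ⟨a, b, -, -, rfl⟩; exact Real.sqrt_nonneg _⟩
  · exact ⟨a, b, rfl, rfl, rfl⟩

lemma GG_le2 {n : ℕ} (q q' : E n) :
    GG (tup ![0, q]) (tup ![0, q']) ≤ ‖q - q'‖ := by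
  refine (GG_le _ _).trans ?_
  rw [Fin.sum_univ_two]
  simp only [Matrix.cons_val_zero, Matrix.cons_val_one, sub_zero, norm_zero]
  rw [Real.sqrt_le_iff]
  constructor
  · positivity
  · simp

lemma repl {n : ℕ} : (Sym.replicate 2 (0 : E n)) = tup ![0, 0] := by
  apply Subtype.ext
  simp [tup, Sym.replicate, Multiset.replicate_succ]
  rfl

lemma repl1 {n : ℕ} : (Sym.replicate 1 (0 : E n)) = tup ![0] := by
  apply Subtype.ext
  simp [tup, Sym.replicate]

lemma cns {n : ℕ} (u w : E n) : (u ::ₛ tup ![w] : Sym (E n) 2) = tup ![w, u] := by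
  apply Subtype.ext
  show (u ::ₘ (Multiset.map ![w] Finset.univ.val)) = Multiset.map ![w, u] Finset.univ.val
  simp only [Fin.univ_val_map, List.ofFn_succ, List.ofFn_zero, Matrix.cons_val_zero,
    Matrix.cons_val_succ]
  exact Multiset.cons_swap u w 0

lemma absGG (hM : Stmt_GGM) {n Q : ℕ} (S S' T : Sym (E n) Q) : |GG S T - GG S' T| ≤ GG S S' := by
  have h1 := (hM Q n S T S').2.2.2
  have h2 := (hM Q n S' T S).2.2.2
  have h3 := (hM Q n S' S S).2.2.1
  rw [abs_le]; constructor <;> linarith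

lemma hz_cont : Continuous (hz : E (d + 1) → (Fin d → ℝ)) := by
  unfold hz
  fun_prop

lemma yy_cont : Continuous (yy : E (d + 1) → ℝ) := by
  unfold yy
  fun_prop

lemma om_open : IsOpen (Om d) := by
  have h1 : IsOpen (Bx d) := by
    have : Bx d = Set.pi univ (fun _ => Ioo (0 : ℝ) 1) := by
      ext x; simp [Bx]
    rw [this]
    exact isOpen_set_pi finite_univ fun _ _ => isOpen_Ioo
  exact (h1.preimage hz_cont).inter (isOpen_Ioo.preimage yy_cont)

lemma ga_meas : MeasurableSet (ga d) :=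
  om_open.measurableSet.inter (measurableSet_eq_fun yy_cont.measurable measurable_const)

lemma om_vol : volume (Om d) < ⊤ := by
  refine Bornology.IsBounded.measure_lt_top ?_
  refine (isBounded_closedBall (x := (0 : E (d + 1))) (r := ∑ _j : Fin (d + 1), (1 : ℝ))).subset ?_
  intro x hx
  rw [mem_closedBall, dist_zero_right]
  have h : x = ∑ a, x a • (bs a : E (d + 1)) := by
    ext i
    simp [Pi.single_apply]
  calc ‖x‖ = ‖∑ a, x a • (bs a : E (d + 1))‖ := by rw [← h]
    _ ≤ ∑ a, ‖x a • (bs a : E (d + 1))‖ := norm_sum_le _ _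
    _ = ∑ a, |x a| := by
        refine Finset.sum_congr rfl fun a _ => ?_
        rw [norm_smul]
        simp [bs]
    _ ≤ ∑ _j : Fin (d + 1), (1 : ℝ) := by
        refine Finset.sum_le_sum fun a _ => ?_
        refine Fin.lastCases ?_ (fun j => ?_) a
        · have := hx.2
          exact abs_le.2 ⟨this.1.le, this.2.le⟩
        · have := hx.1 j
          exact abs_le.2 ⟨by linarith [this.1, show x j.castSucc = hz x j from rfl], this.2.le⟩

lemma vv_ga {f : (Fin d → ℝ) → E n} {v : (Fin d → ℝ) × ℝ → E n} (h0 : ∀ x, v (x, 0) = f x)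
    {p : E (d + 1)} (hp : p ∈ ga d) : VV v p = f (hz p) := by
  unfold VV
  rw [hp.2, max_self, h0]

/-- averages of a function bounded by `K r` on balls -/
lemma trace_tendsto {K : ℝ} (U : Set (E (d + 1))) (p : E (d + 1)) (F : E (d + 1) → ℝ)
    (hF : ∀ x, F x ≤ K * ‖x - p‖) (hK : 0 ≤ K) :
    Tendsto (fun r : ℝ => (∫⁻ x in ball p r ∩ U, ENNReal.ofReal (F x)) /
      ENNReal.ofReal (r ^ (d + 1))) (𝓝[>] 0) (𝓝 0) := by
  set c := (volume : Measure (E (d + 1))) (ball 0 1) with hc
  have hc' : c ≠ ⊤ := measure_ball_lt_top.ne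
  have hlim : Tendsto (fun r : ℝ => ENNReal.ofReal (K * r) * c) (𝓝[>] 0) (𝓝 0) := by
    have h1 : Tendsto (fun r : ℝ => ENNReal.ofReal (K * r)) (𝓝[>] 0) (𝓝 (ENNReal.ofReal (K * 0))) :=
      (ENNReal.continuous_ofReal.comp (continuous_const.mul continuous_id)).continuousAt.tendsto.mono_left
        nhdsWithin_le_nhds
    have h2 := ENNReal.Tendsto.mul_const h1 (Or.inr hc')
    simpa using h2
  refine tendsto_of_tendsto_of_tendsto_of_le_of_le' tendsto_const_nhds hlim
    (Eventually.of_forall fun _ => zero_le) ?_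
  filter_upwards [self_mem_nhdsWithin] with r hr
  have hr : 0 < r := hr
  have hrp : 0 < r ^ (d + 1) := pow_pos hr _
  rw [ENNReal.div_le_iff (by simpa using hrp) ENNReal.ofReal_ne_top]
  calc ∫⁻ x in ball p r ∩ U, ENNReal.ofReal (F x)
      ≤ ∫⁻ x in ball p r, ENNReal.ofReal (F x) := lintegral_mono_set inter_subset_left
    _ ≤ ∫⁻ _ in ball p r, ENNReal.ofReal (K * r) := by
        refine setLIntegral_mono' measurableSet_ball fun x hx => ?_
        refine ENNReal.ofReal_le_ofReal ((hF x).trans ?_)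
        rw [mem_ball, dist_eq_norm] at hx
        exact mul_le_mul_of_nonneg_left hx.le hK
    _ = ENNReal.ofReal (K * r) * (ENNReal.ofReal (r ^ (d + 1)) * c) := by
        rw [setLIntegral_const, Measure.addHaar_ball _ _ hr.le]
        simp [hc]
    _ = ENNReal.ofReal (K * r) * c * ENNReal.ofReal (r ^ (d + 1)) := by ring

end PAI_

open PAI_ in
theorem pai_proof (hUPP : Stmt_UPP) (hVVW : Stmt_VVW) (_hGGF : Stmt_GGF) (hGGM : Stmt_GGM) :
    Stmt_PAI := by
  intro d n A f v C hD
  obtain ⟨⟨K, hK⟩, R, hR, -, -⟩ := hVVW d n A f v C hD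
  obtain ⟨hE1, hE2⟩ := hUPP d n A f v C R hD hR
  have hK' : ∀ x y : E (d + 1), ‖VV v x - VV v y‖ ≤ |K| * ‖x - y‖ := fun x y =>
    (hK x y).trans (mul_le_mul_of_nonneg_right (le_abs_self _) (norm_nonneg _))
  have hlip : ∀ x y : E (d + 1), GG (gp v x) (gp v y) ≤ |K| * ‖x - y‖ := fun x y =>
    (GG_le2 _ _).trans (hK' x y)
  have hcont : ∀ T : Sym (E n) 2, Continuous fun x => GG (gp v x) T := by
    intro T
    have : LipschitzWith (Real.toNNReal |K|) fun x => GG (gp v x) T := by
      refine LipschitzWith.of_dist_le_mul fun x y => ?_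
      rw [Real.dist_eq, dist_eq_norm, Real.coe_toNNReal _ (abs_nonneg _)]
      exact (absGG hGGM _ _ _).trans (hlip x y)
    exact this.continuous
  have hvop : volume (Op d) < ⊤ := lt_of_le_of_lt (measure_mono fun x hx => hx.1) om_vol
  have hw1 : MemW (Op d) (gp v) := by
    refine ⟨fun T => (hcont T).aestronglyMeasurable, ?_, lt_of_le_of_lt hE1 ENNReal.ofReal_lt_top⟩
    have : ∀ x, GG (gp v x) (Sym.replicate 2 0) ^ 2 ≤ C ^ 2 := by
      intro x
      have h1 : GG (gp v x) (Sym.replicate 2 0) ≤ C := by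
        rw [repl]
        refine (GG_le2 _ _).trans ?_
        rw [sub_zero]
        exact hD.bd _ (le_max_right _ _)
      exact pow_le_pow_left₀ (hGGM _ _ _ _ (gp v x)).1 h1 2
    calc ∫⁻ x in Op d, ENNReal.ofReal (GG (gp v x) (Sym.replicate 2 0) ^ 2)
        ≤ ∫⁻ _ in Op d, ENNReal.ofReal (C ^ 2) :=
          lintegral_mono fun x => ENNReal.ofReal_le_ofReal (this x)
      _ = ENNReal.ofReal (C ^ 2) * volume (Op d) := setLIntegral_const _ _
      _ < ⊤ := ENNReal.mul_lt_top ENNReal.ofReal_lt_top hvop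
  have hw2 : MemW (Omi d) (gm d n) := by
    refine ⟨fun T => (aestronglyMeasurable_const (b := GG (tup ![0]) T)), ?_, ?_⟩
    · have : ∀ x : E (d + 1), GG (gm d n x) (Sym.replicate 1 0) = 0 := by
        intro x
        rw [repl1]
        exact (hGGM _ _ _ (tup ![0]) (tup ![0])).2.1
      simp [this]
    · rw [hE2]; simp
  refine ⟨⟨hw1, hw2, gm d n, ?_, ?_⟩, ?_, ?_⟩
  · refine Eventually.of_forall fun p => ?_
    refine trace_tendsto (K := 0) _ _ _ (fun x => ?_) le_rfl
    rw [zero_mul]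
    exact (hGGM _ _ _ (tup ![0]) (tup ![0])).2.1.le
  · refine (ae_restrict_mem ga_meas).mono fun p hp => ?_
    refine trace_tendsto (K := |K|) _ _ _ (fun x => ?_) (abs_nonneg _)
    have h1 : (f (hz p) ::ₛ gm d n p : Sym (E n) 2) = gp v p := by
      unfold gm gp
      rw [cns, vv_ga hD.v0 hp]
    show GG (gp v x) (f (hz p) ::ₛ gm d n p) ≤ _
    rw [h1]
    exact hlip x p
  · intro x _
    have h1 : Tendsto (fun y => |K| * ‖y - x‖) (𝓝[Op d ∪ ga d] x) (𝓝 0) := by
      have : Continuous fun y : E (d + 1) => |K| * ‖y - x‖ := by fun_prop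
      have h2 := this.continuousAt (x := x)
      have h3 := h2.tendsto
      simp only [sub_self, norm_zero, mul_zero] at h3
      exact h3.mono_left nhdsWithin_le_nhds
    exact squeeze_zero (fun y => (hGGM _ _ _ _ (gp v x)).1) (fun y => hlip y x) h1
  · intro x _
    have : (fun y => GG (gm d n y) (gm d n x)) = fun _ => (0 : ℝ) := by
      funext y
      exact (hGGM _ _ _ (tup ![0]) (tup ![0])).2.1
    rw [this]
    exact tendsto_const_nhds

end Pool.Agent.CAL
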