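import Pool.Agent.CAL.Stmts

/-!
Squad CAL, module PRD: local mollification and the product rule in `W^{1,2}`.
-/

set_option autoImplicit false

namespace Pool.Agent.CAL

open MeasureTheory Set Metric Filter Topology
open scoped ENNReal Convolution ContDiff
open Pool.Agent.COB

namespace PRD_

variable {m : ℕ}

theorem exists_cut (U C : Set (E m)) (hU : IsOpen U) (hCU : C ⊆ U) (hC : IsCompact C) :
    ∃ ψ : E m → ℝ, ContDiff ℝ (⊤ : ℕ∞) ψ ∧ HasCompactSupport ψ ∧ tsupport ψ ⊆ U ∧
      (∀ z ∈ C, ψ z = 1) ∧ (∀ z ∈ C, fderiv ℝ ψ z = 0) := by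
  obtain ⟨K, hK, hCK, hKU⟩ := exists_compact_between hC hU hCU
  obtain ⟨f, h1, h0, -⟩ := exists_contMDiffMap_one_nhds_of_subset_interior
    (modelWithCornersSelf ℝ (E m)) (n := (⊤ : ℕ∞)) hC.isClosed hCK
  have hsup : tsupport f ⊆ K := by
    apply closure_minimal _ hK.isClosed
    intro x hx
    by_contra hxK
    exact hx (h0 x hxK)
  refine ⟨f, f.contMDiff.contDiff, ?_, hsup.trans hKU, fun z hz => ?_, fun z hz => ?_⟩
  · exact IsCompact.of_isClosed_subset hK (isClosed_tsupport _) hsup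
  · exact h1.self_of_nhdsSet z hz
  · have h2 : ∀ᶠ x in 𝓝 z, f x = 1 := h1.filter_mono (nhds_le_nhdsSet hz)
    have h3 : (f : E m → ℝ) =ᶠ[𝓝 z] fun _ => (1 : ℝ) := h2
    rw [h3.fderiv_eq]
    simp

/-! ### mollification in `L²` -/

lemma sq_eLpNorm (u : (E m) → ℝ) : eLpNorm u 2 volume ^ (2 : ℝ) = ∫⁻ z, ‖u z‖ₑ ^ (2 : ℝ) := by
  have := eLpNorm_nnreal_pow_eq_lintegral (f := u) (μ := (volume : Measure (E m))) (p := 2)
    (by norm_num)
  simpa using this

/-- continuity of translations in L2 -/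
lemma trans_small (g : (E m) → ℝ) (hg : MemLp g 2 volume) (ε : ℝ≥0∞) (hε : 0 < ε) :
    ∃ δ > 0, ∀ t : (E m), ‖t‖ < δ → ∫⁻ z, ‖g (z - t) - g z‖ₑ ^ (2 : ℝ) ≤ ε ^ (2 : ℝ) := by
  haveI : Fact ((1 : ℝ≥0∞) ≤ 2) := ⟨by norm_num⟩
  set f : Lp ℝ 2 (volume : Measure (E m)) := hg.toLp g with hf
  let τ : (E m) → C((E m), (E m)) := fun t => ⟨fun z => z - t, by fun_prop⟩
  have hτ : Continuous τ := ContinuousMap.continuous_of_continuous_uncurry _ (by
    show Continuous fun p : (E m) × (E m) => p.2 - p.1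
    fun_prop)
  have hm : ∀ t, MeasurePreserving (τ t) volume volume := fun t =>
    measurePreserving_sub_right volume t
  have hc : Continuous fun t => Lp.compMeasurePreserving (τ t) (hm t) f :=
    continuous_const.compMeasurePreservingLp hτ hm (by norm_num)
  have h0 := hc.tendsto 0
  rw [EMetric.tendsto_nhds] at h0
  obtain ⟨δ, hδ, hδ2⟩ := Metric.eventually_nhds_iff.1 (h0 ε hε)
  refine ⟨δ, hδ, fun t ht => ?_⟩
  have h1 := hδ2 (y := t) (by simpa using ht)
  have e1 : Lp.compMeasurePreserving (τ t) (hm t) f =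
      (hg.comp_measurePreserving (hm t)).toLp (g ∘ τ t) := rfl
  have e2 : Lp.compMeasurePreserving (τ 0) (hm 0) f =
      (hg.comp_measurePreserving (hm 0)).toLp (g ∘ τ 0) := rfl
  rw [e1, e2, Lp.edist_toLp_toLp] at h1
  have e3 : (g ∘ τ t - g ∘ τ 0) = fun z => g (z - t) - g z := by
    funext z
    simp [τ]
  rw [e3] at h1
  rw [← sq_eLpNorm]
  exact ENNReal.rpow_le_rpow h1.le (by norm_num)

lemma jensen (φ : ContDiffBump (0 : (E m))) (u : (E m) → ℝ) (hu : AEStronglyMeasurable u volume) :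
    ‖∫ t, φ.normed volume t * u t‖ₑ ^ (2 : ℝ) ≤
      ∫⁻ t, ENNReal.ofReal (φ.normed volume t) * ‖u t‖ₑ ^ (2 : ℝ) := by
  set ρ : (E m) → ℝ := φ.normed volume with hρ
  have hρm : Measurable fun t => ENNReal.ofReal (ρ t) :=
    (φ.continuous_normed.measurable).ennreal_ofReal
  have hρn : ∀ t, 0 ≤ ρ t := fun t => φ.nonneg_normed t
  set ν : Measure (E m) := volume.withDensity fun t => ENNReal.ofReal (ρ t) with hν
  have hν1 : ν univ = 1 := by
    rw [hν, withDensity_apply _ MeasurableSet.univ, Measure.restrict_univ,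
      ← ofReal_integral_eq_lintegral_ofReal φ.integrable_normed (Eventually.of_forall hρn),
      φ.integral_normed, ENNReal.ofReal_one]
  haveI : IsProbabilityMeasure ν := ⟨hν1⟩
  have hac : ν ≪ volume := withDensity_absolutelyContinuous _ _
  have h1 : ‖∫ t, ρ t * u t‖ₑ ≤ ∫⁻ t, ‖u t‖ₑ ∂ν := by
    refine (enorm_integral_le_lintegral_enorm _).trans (le_of_eq ?_)
    rw [hν, lintegral_withDensity_eq_lintegral_mul₀ hρm.aemeasurable hu.enorm]
    refine lintegral_congr fun t => ?_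
    simp only [Pi.mul_apply, enorm_mul]
    rw [Real.enorm_of_nonneg (hρn t)]
  have h2 : ∫⁻ t, ‖u t‖ₑ ∂ν ≤ eLpNorm u 2 ν := by
    rw [← eLpNorm_one_eq_lintegral_enorm]
    exact eLpNorm_le_eLpNorm_of_exponent_le (by norm_num) (hu.mono_ac hac)
  have h3 : eLpNorm u 2 ν ^ (2 : ℝ) = ∫⁻ t, ENNReal.ofReal (ρ t) * ‖u t‖ₑ ^ (2 : ℝ) := by
    have := eLpNorm_nnreal_pow_eq_lintegral (f := u) (μ := ν) (p := 2) (by norm_num)
    have e : eLpNorm u 2 ν ^ (2 : ℝ) = ∫⁻ t, ‖u t‖ₑ ^ (2 : ℝ) ∂ν := by simpa using this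
    rw [e, hν, lintegral_withDensity_eq_lintegral_mul₀ hρm.aemeasurable
      (hu.enorm.pow_const _)]
    rfl
  rw [← h3]
  exact ENNReal.rpow_le_rpow (h1.trans h2) (by norm_num)

theorem mol (g : (E m) → ℝ) (hg : AEStronglyMeasurable g volume)
    (hg2 : Integrable (fun z => g z ^ 2)) (ε : ℝ) (hε : 0 < ε) :
    ∃ δ > 0, ∀ φ : ContDiffBump (0 : (E m)), φ.rOut < δ →
      Integrable (fun z =>
        ((φ.normed volume ⋆[ContinuousLinearMap.lsmul ℝ ℝ, volume] g) z - g z) ^ 2) ∧
      ∫ z, ((φ.normed volume ⋆[ContinuousLinearMap.lsmul ℝ ℝ, volume] g) z - g z) ^ 2 ≤ ε := by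
  have hmem : MemLp g 2 volume := (memLp_two_iff_integrable_sq hg).2 hg2
  set η : ℝ≥0∞ := ENNReal.ofReal (Real.sqrt ε) with hη
  have hηpos : 0 < η := ENNReal.ofReal_pos.2 (Real.sqrt_pos.2 hε)
  have hη2 : η ^ (2 : ℝ) = ENNReal.ofReal ε := by
    rw [hη, ENNReal.ofReal_rpow_of_nonneg (Real.sqrt_nonneg _) (by norm_num)]
    congr 1
    rw [Real.rpow_two, Real.sq_sqrt hε.le]
  obtain ⟨δ, hδ, hδ2⟩ := trans_small g hmem η hηpos
  rw [hη2] at hδ2
  refine ⟨δ, hδ, fun φ hφ => ?_⟩
  have hloc : LocallyIntegrable g volume := hmem.locallyIntegrable (by norm_num)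
  set ρ : (E m) → ℝ := φ.normed volume with hρ
  have hρc : Continuous ρ := φ.continuous_normed
  have hρs : HasCompactSupport ρ := φ.hasCompactSupport_normed
  have hρn : ∀ t, 0 ≤ ρ t := fun t => φ.nonneg_normed t
  have hρi : Integrable ρ volume := φ.integrable_normed
  have hcont : Continuous (ρ ⋆[ContinuousLinearMap.lsmul ℝ ℝ, volume] g) :=
    hρs.continuous_convolution_left _ hρc hloc
  have hex : ConvolutionExists ρ g (ContinuousLinearMap.lsmul ℝ ℝ) volume :=
    hρs.convolutionExists_left _ hρc hloc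
  have hid : ∀ z, (ρ ⋆[ContinuousLinearMap.lsmul ℝ ℝ, volume] g) z - g z =
      ∫ t, ρ t * (g (z - t) - g z) := by
    intro z
    have i1 : Integrable (fun t => ρ t * g (z - t)) volume := by
      have := hex z
      simpa [ConvolutionExistsAt] using this
    have i2 : Integrable (fun t => ρ t * g z) volume := hρi.mul_const _
    have e : ∀ t, ρ t * (g (z - t) - g z) = ρ t * g (z - t) - ρ t * g z := fun t => by ring
    simp only [e]
    rw [integral_sub i1 i2, integral_mul_const, φ.integral_normed, one_mul]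
    simp [convolution]
  have hmeas : AEStronglyMeasurable (fun z =>
      (ρ ⋆[ContinuousLinearMap.lsmul ℝ ℝ, volume] g) z - g z) volume :=
    hcont.aestronglyMeasurable.sub hg
  have hjm : AEStronglyMeasurable (fun p : (E m) × (E m) => g (p.1 - p.2) - g p.1)
      (volume.prod volume) := by
    refine AEStronglyMeasurable.sub ?_ hg.comp_fst
    exact hg.comp_quasiMeasurePreserving
      (quasiMeasurePreserving_sub_of_right_invariant volume volume)
  have hkey : ∫⁻ z, ‖(ρ ⋆[ContinuousLinearMap.lsmul ℝ ℝ, volume] g) z - g z‖ₑ ^ (2 : ℝ) ≤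
      ENNReal.ofReal ε := by
    calc ∫⁻ z, ‖(ρ ⋆[ContinuousLinearMap.lsmul ℝ ℝ, volume] g) z - g z‖ₑ ^ (2 : ℝ)
        ≤ ∫⁻ z, ∫⁻ t, ENNReal.ofReal (ρ t) * ‖g (z - t) - g z‖ₑ ^ (2 : ℝ) := by
          refine lintegral_mono fun z => ?_
          rw [hid z]
          refine jensen φ (fun t => g (z - t) - g z) ?_
          refine AEStronglyMeasurable.sub ?_ aestronglyMeasurable_const
          exact hg.comp_quasiMeasurePreserving
            (quasiMeasurePreserving_sub_left volume z)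
      _ = ∫⁻ t, ∫⁻ z, ENNReal.ofReal (ρ t) * ‖g (z - t) - g z‖ₑ ^ (2 : ℝ) := by
          refine lintegral_lintegral_swap ?_
          refine AEMeasurable.mul ?_ (hjm.enorm.pow_const _)
          exact ((hρc.measurable.ennreal_ofReal).comp measurable_snd).aemeasurable
      _ = ∫⁻ t, ENNReal.ofReal (ρ t) * ∫⁻ z, ‖g (z - t) - g z‖ₑ ^ (2 : ℝ) := by
          refine lintegral_congr fun t => ?_
          rw [lintegral_const_mul' _ _ ENNReal.ofReal_ne_top]
      _ ≤ ∫⁻ t, ENNReal.ofReal (ρ t) * ENNReal.ofReal ε := by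
          refine lintegral_mono fun t => ?_
          by_cases ht : ‖t‖ < δ
          · exact mul_le_mul_right (hδ2 t ht) _
          · have : ρ t = 0 := by
              by_contra h
              have hs : t ∈ Function.support ρ := h
              rw [hρ, φ.support_normed_eq, mem_ball_zero_iff] at hs
              exact ht (hs.trans hφ)
            rw [this]
            simp
      _ = ENNReal.ofReal ε := by
          rw [lintegral_mul_const' _ _ ENNReal.ofReal_ne_top,
            ← ofReal_integral_eq_lintegral_ofReal hρi (Eventually.of_forall hρn),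
            φ.integral_normed, ENNReal.ofReal_one, one_mul]
  have hfin : MemLp (fun z => (ρ ⋆[ContinuousLinearMap.lsmul ℝ ℝ, volume] g) z - g z) 2 volume := by
    refine ⟨hmeas, ?_⟩
    by_contra h
    rw [not_lt, top_le_iff] at h
    have := sq_eLpNorm (fun z => (ρ ⋆[ContinuousLinearMap.lsmul ℝ ℝ, volume] g) z - g z)
    rw [h] at this
    rw [← this] at hkey
    simp at hkey
  have hint := (memLp_two_iff_integrable_sq hmeas).1 hfin
  refine ⟨hint, ?_⟩
  rw [← ENNReal.ofReal_le_ofReal_iff hε.le,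
    ofReal_integral_eq_lintegral_ofReal hint (Eventually.of_forall fun z => sq_nonneg _)]
  refine le_trans (le_of_eq ?_) hkey
  refine lintegral_congr fun z => ?_
  rw [← ofReal_norm_eq_enorm, ENNReal.ofReal_rpow_of_nonneg (norm_nonneg _) (by norm_num)]
  congr 1
  rw [Real.rpow_two, Real.norm_eq_abs, sq_abs]

theorem fd_swap (ρ : E m → ℝ) (hρ : ContDiff ℝ (⊤ : ℕ∞) ρ) (z w : E m) :
    HasFDerivAt (fun w => ρ (z - w)) (-(fderiv ℝ ρ (z - w))) w := by
  have hd : Differentiable ℝ ρ := hρ.differentiable (by simp)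
  have h1 : HasFDerivAt (fun w : E m => z - w) (-(ContinuousLinearMap.id ℝ (E m))) w :=
    (hasFDerivAt_id w).const_sub z
  have h2 : HasFDerivAt (fun w => ρ (z - w)) ((fderiv ℝ ρ (z - w)).comp
      (-(ContinuousLinearMap.id ℝ (E m)))) w := (hd (z - w)).hasFDerivAt.comp w h1
  have e : (fderiv ℝ ρ (z - w)).comp (-(ContinuousLinearMap.id ℝ (E m))) =
      -(fderiv ℝ ρ (z - w)) := by
    ext v
    simp
  rw [e] at h2
  exact h2


lemma int_tf {U : Set (E m)} {f k : E m → ℝ} (hf : MemLp f 2 (volume.restrict U))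
    (hk : Continuous k) (hkc : HasCompactSupport k) (hkU : tsupport k ⊆ U) :
    Integrable (fun x => f x * k x) := by
  have h1 : MemLp k 2 (volume.restrict U) :=
    (hk.memLp_of_hasCompactSupport hkc).restrict U
  have h2 : IntegrableOn (fun x => f x * k x) U := MemLp.integrable_mul hf h1
  refine h2.integrable_of_forall_notMem_eq_zero (fun x hx => ?_)
  have h3 : k x = 0 := image_eq_zero_of_notMem_tsupport fun h => hx (hkU h)
  rw [h3, mul_zero]

lemma memLp_mul {U : Set (E m)} (hU : IsOpen U) {f k : E m → ℝ}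
    (hf : MemLp f 2 (volume.restrict U))
    (hk : Continuous k) (hkc : HasCompactSupport k) (hkU : tsupport k ⊆ U) :
    MemLp (fun x => k x * f x) 2 volume := by
  obtain ⟨M, hM⟩ := hk.bounded_above_of_compact_support hkc
  have h1 : MemLp (fun x => k x * f x) 2 (volume.restrict U) := by
    refine MemLp.of_le_mul (c := M) hf (hk.aestronglyMeasurable.mul hf.1) ?_
    refine Eventually.of_forall fun x => ?_
    rw [norm_mul]
    exact mul_le_mul_of_nonneg_right (hM x) (norm_nonneg _)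
  have h2 : U.indicator (fun x => k x * f x) = fun x => k x * f x := by
    rw [Set.indicator_eq_self]
    intro x hx
    by_contra h
    have h3 : k x = 0 := image_eq_zero_of_notMem_tsupport fun h' => h (hkU h')
    exact hx (by simp only [h3, zero_mul])
  rw [← h2]
  exact (memLp_indicator_iff_restrict hU.measurableSet).2 h1

lemma fderiv_cont {η : E m → ℝ} (hη : ContDiff ℝ (⊤ : ℕ∞) η) (v : E m) :
    Continuous fun x => fderiv ℝ η x v :=
  (hη.continuous_fderiv (by simp)).clm_apply continuous_const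

lemma fderiv_cs {η : E m → ℝ} (hc : HasCompactSupport η) (v : E m) :
    HasCompactSupport fun x => fderiv ℝ η x v :=
  hc.fderiv_apply ℝ v

lemma fderiv_tsup {η : E m → ℝ} (v : E m) :
    tsupport (fun x => fderiv ℝ η x v) ⊆ tsupport η := by
  refine closure_minimal ?_ (isClosed_tsupport _)
  intro x hx
  by_contra h
  have h1 : η =ᶠ[𝓝 x] fun _ => (0 : ℝ) := by
    filter_upwards [(isClosed_tsupport η).isOpen_compl.mem_nhds h] with y hy
    exact image_eq_zero_of_notMem_tsupport hy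
  have h2 : fderiv ℝ η x = 0 := by
    rw [h1.fderiv_eq]
    simp
  exact hx (by simp only [h2, _root_.zero_apply])

lemma fderiv_mul' {a b : E m → ℝ} (ha : ContDiff ℝ (⊤ : ℕ∞) a) (hb : ContDiff ℝ (⊤ : ℕ∞) b)
    (x v : E m) : fderiv ℝ (fun y => a y * b y) x v =
      fderiv ℝ a x v * b x + a x * fderiv ℝ b x v := by
  rw [fderiv_fun_mul ((ha.differentiable (by simp)) x) ((hb.differentiable (by simp)) x)]
  simp only [_root_.add_apply, _root_.smul_apply, smul_eq_mul]
  ring

section cut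

variable {U : Set (E m)} {u : E m → ℝ} {gu : Fin m → E m → ℝ} {χ : E m → ℝ}

/-- the gradient of the truncated function -/
noncomputable def Gr (u : E m → ℝ) (gu : Fin m → E m → ℝ) (χ : E m → ℝ) (j : Fin m) (w : E m) : ℝ :=
  χ w * gu j w + fderiv ℝ χ w (bs j) * u w

lemma Gr_mem (hU : IsOpen U) (hu : W12 U u gu) (hχ : TF U χ) (j : Fin m) :
    MemLp (Gr u gu χ j) 2 volume := by
  unfold Gr
  exact (memLp_mul hU (hu.g2 j) hχ.1.continuous hχ.2.1 hχ.2.2).add
    (memLp_mul hU hu.f2 (fderiv_cont hχ.1 _) (fderiv_cs hχ.2.1 _)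
      ((fderiv_tsup _).trans hχ.2.2))

/-- integration by parts for the truncated function -/
lemma ibp_cut (hu : W12 U u gu) (hχ : TF U χ) (j : Fin m) (φ : E m → ℝ)
    (hφ : ContDiff ℝ (⊤ : ℕ∞) φ) :
    ∫ x, (χ x * u x) * fderiv ℝ φ x (bs j) = -∫ x, Gr u gu χ j x * φ x := by
  have hT : TF U (fun x => χ x * φ x) :=
    ⟨hχ.1.mul hφ, hχ.2.1.mul_right, (tsupport_mul_subset_left).trans hχ.2.2⟩
  have h := hu.ibp _ hT j
  have i1 : Integrable (fun x => u x * (χ x * fderiv ℝ φ x (bs j))) :=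
    int_tf hu.f2 (hχ.1.continuous.mul (fderiv_cont hφ _)) hχ.2.1.mul_right
      ((tsupport_mul_subset_left).trans hχ.2.2)
  have i2 : Integrable (fun x => u x * (fderiv ℝ χ x (bs j) * φ x)) :=
    int_tf hu.f2 ((fderiv_cont hχ.1 _).mul hφ.continuous) (fderiv_cs hχ.2.1 _).mul_right
      ((tsupport_mul_subset_left).trans ((fderiv_tsup _).trans hχ.2.2))
  have i3 : Integrable (fun x => gu j x * (χ x * φ x)) :=
    int_tf (hu.g2 j) hT.1.continuous hT.2.1 hT.2.2
  have e1 : ∫ x, u x * fderiv ℝ (fun y => χ y * φ y) x (bs j) =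
      (∫ x, u x * (fderiv ℝ χ x (bs j) * φ x)) + ∫ x, u x * (χ x * fderiv ℝ φ x (bs j)) := by
    rw [← integral_add i2 i1]
    refine integral_congr_ae (Eventually.of_forall fun x => ?_)
    simp only [fderiv_mul' hχ.1 hφ]
    ring
  have e2 : ∫ x, (χ x * u x) * fderiv ℝ φ x (bs j) =
      ∫ x, u x * (χ x * fderiv ℝ φ x (bs j)) := by
    refine integral_congr_ae (Eventually.of_forall fun x => ?_)
    simp only []
    ring
  have e3 : ∫ x, Gr u gu χ j x * φ x =
      (∫ x, gu j x * (χ x * φ x)) + ∫ x, u x * (fderiv ℝ χ x (bs j) * φ x) := by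
    rw [← integral_add i3 i2]
    refine integral_congr_ae (Eventually.of_forall fun x => ?_)
    simp only [Gr]
    ring
  rw [e2, e3]
  rw [e1] at h
  linarith

/-- derivative of the mollification -/
lemma conv_d (hU : IsOpen U) (hu : W12 U u gu) (hχ : TF U χ) (j : Fin m)
    (ρ : E m → ℝ) (hρ : ContDiff ℝ (⊤ : ℕ∞) ρ) (hρc : HasCompactSupport ρ) (z : E m) :
    fderiv ℝ (ρ ⋆[ContinuousLinearMap.lsmul ℝ ℝ, volume] fun w => χ w * u w) z (bs j) =
      (ρ ⋆[ContinuousLinearMap.lsmul ℝ ℝ, volume] Gr u gu χ j) z := by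
  have hρ1 : ContDiff ℝ 1 ρ := hρ.of_le (by exact_mod_cast le_top)
  have hm : MemLp (fun w => χ w * u w) 2 volume :=
    memLp_mul hU hu.f2 hχ.1.continuous hχ.2.1 hχ.2.2
  have hui : LocallyIntegrable (fun w => χ w * u w) volume := hm.locallyIntegrable (by norm_num)
  have hρd : Continuous (fderiv ℝ ρ) := hρ.continuous_fderiv (by simp)
  have hder := hρc.hasFDerivAt_convolution_left (ContinuousLinearMap.lsmul ℝ ℝ) hρ1
    hui (μ := volume) z
  have hr : ContDiff ℝ (⊤ : ℕ∞) (fun w => ρ (z - w)) := hρ.comp (contDiff_const.sub contDiff_id)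
  have hrf : ∀ w v, fderiv ℝ (fun w => ρ (z - w)) w v = -(fderiv ℝ ρ (z - w) v) := by
    intro w v
    rw [(fd_swap ρ hρ z w).fderiv]
    rfl
  rw [hder.fderiv]
  have e1 : (fderiv ℝ ρ ⋆[ContinuousLinearMap.precompL (E m) (ContinuousLinearMap.lsmul ℝ ℝ),
      volume] fun w => χ w * u w) z (bs j) =
      ∫ t, fderiv ℝ ρ t (bs j) * (χ (z - t) * u (z - t)) := by
    have hconv : ConvolutionExistsAt (fderiv ℝ ρ) (fun w => χ w * u w) z
        (ContinuousLinearMap.precompL (E m) (ContinuousLinearMap.lsmul ℝ ℝ)) volume :=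
      (hρc.fderiv ℝ).convolutionExists_left _ hρd hui z
    rw [convolution, ContinuousLinearMap.integral_apply hconv]
    rfl
  have e2 : ∫ t, fderiv ℝ ρ t (bs j) * (χ (z - t) * u (z - t)) =
      ∫ w, fderiv ℝ ρ (z - w) (bs j) * (χ w * u w) := by
    rw [← integral_sub_left_eq_self
      (fun t => fderiv ℝ ρ t (bs j) * (χ (z - t) * u (z - t))) volume z]
    simp only [sub_sub_cancel]
  have e3 : (ρ ⋆[ContinuousLinearMap.lsmul ℝ ℝ, volume] Gr u gu χ j) z =
      ∫ w, Gr u gu χ j w * ρ (z - w) := by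
    rw [convolution, ← integral_sub_left_eq_self _ volume z]
    refine integral_congr_ae (Eventually.of_forall fun w => ?_)
    simp only [ContinuousLinearMap.lsmul_apply, smul_eq_mul, sub_sub_cancel]
    ring
  have e4 := ibp_cut hu hχ j _ hr
  have e5 : ∫ w, fderiv ℝ ρ (z - w) (bs j) * (χ w * u w) =
      -∫ w, (χ w * u w) * fderiv ℝ (fun w => ρ (z - w)) w (bs j) := by
    rw [← integral_neg]
    refine integral_congr_ae (Eventually.of_forall fun w => ?_)
    simp only [hrf]
    ring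
  rw [e1, e2, e3, e5, e4, neg_neg]

end cut

/-- local mollification -/
theorem moll {U C : Set (E m)} (hU : IsOpen U) (hCU : C ⊆ U) (hC : IsCompact C)
    {u : E m → ℝ} {gu : Fin m → E m → ℝ} (hu : W12 U u gu) (ε : ℝ) (hε : 0 < ε) :
    ∃ Φ : E m → ℝ, ContDiff ℝ (⊤ : ℕ∞) Φ ∧ HasCompactSupport Φ ∧
      IntegrableOn (fun x => (Φ x - u x) ^ 2) C ∧ ∫ x in C, (Φ x - u x) ^ 2 ≤ ε ∧
      ∀ j, IntegrableOn (fun x => (fderiv ℝ Φ x (bs j) - gu j x) ^ 2) C ∧
        ∫ x in C, (fderiv ℝ Φ x (bs j) - gu j x) ^ 2 ≤ ε := by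
  obtain ⟨χ, hχ, hχc, hχU, hχ1, hχd⟩ := exists_cut U C hU hCU hC
  have hT : TF U χ := ⟨hχ, hχc, hχU⟩
  have hm : MemLp (fun w => χ w * u w) 2 volume :=
    memLp_mul hU hu.f2 hχ.continuous hχc hχU
  have hG := fun j => Gr_mem hU hu hT j
  obtain ⟨δ0, hδ0, h0⟩ := mol (fun w => χ w * u w) hm.1 hm.integrable_sq ε hε
  have hj := fun j => mol (Gr u gu χ j) (hG j).1 (hG j).integrable_sq ε hε
  choose δ hδ hδ2 using hj
  have hev : ∀ᶠ r : ℝ in 𝓝[>] 0, (0 < r ∧ r < δ0) ∧ ∀ j, r < δ j := by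
    refine ((eventually_mem_nhdsWithin).and ?_).and (eventually_all.2 fun j => ?_)
    · exact nhdsWithin_le_nhds (Iio_mem_nhds hδ0)
    · exact nhdsWithin_le_nhds (Iio_mem_nhds (hδ j))
  obtain ⟨r, ⟨hr0, hr1⟩, hr2⟩ := hev.exists
  let φ : ContDiffBump (0 : E m) := ⟨r / 2, r, by positivity, by linarith⟩
  have hφ : φ.rOut = r := rfl
  obtain ⟨a1, a2⟩ := h0 φ (by rw [hφ]; exact hr1)
  have hρ : ContDiff ℝ (⊤ : ℕ∞) (φ.normed volume) := φ.contDiff_normed
  have hρc : HasCompactSupport (φ.normed volume) := φ.hasCompactSupport_normed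
  have hus : HasCompactSupport (fun w => χ w * u w) := hχc.mul_right
  have hCm : MeasurableSet C := hC.measurableSet
  refine ⟨φ.normed volume ⋆[ContinuousLinearMap.lsmul ℝ ℝ, volume] (fun w => χ w * u w),
    ?_, ?_, ?_, ?_, ?_⟩
  · exact hρc.contDiff_convolution_left _ hρ (hm.locallyIntegrable (by norm_num))
  · exact hρc.convolution _ hus
  · refine (a1.integrableOn (s := C)).congr_fun (fun z hz => ?_) hCm
    simp only [hχ1 z hz, one_mul]
  · refine le_trans (le_of_eq ?_) ((setIntegral_le_integral (s := C) a1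
      (Eventually.of_forall fun z => sq_nonneg _)).trans a2)
    refine setIntegral_congr_fun hCm (fun z hz => ?_)
    simp only [hχ1 z hz, one_mul]
  · intro j
    obtain ⟨b1, b2⟩ := hδ2 j φ (by rw [hφ]; exact hr2 j)
    have hcong : ∀ z ∈ C, (fderiv ℝ (φ.normed volume ⋆[ContinuousLinearMap.lsmul ℝ ℝ, volume]
        (fun w => χ w * u w)) z (bs j) - gu j z) ^ 2 =
        ((φ.normed volume ⋆[ContinuousLinearMap.lsmul ℝ ℝ, volume] Gr u gu χ j) z -
          Gr u gu χ j z) ^ 2 := by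
      intro z hz
      rw [conv_d hU hu hT j _ hρ hρc z]
      have : Gr u gu χ j z = gu j z := by
        simp only [Gr, hχ1 z hz, hχd z hz, _root_.zero_apply, one_mul, zero_mul, add_zero]
      rw [this]
    refine ⟨?_, ?_⟩
    · exact (b1.integrableOn (s := C)).congr_fun (fun z hz => (hcong z hz).symm) hCm
    · rw [setIntegral_congr_fun hCm hcong]
      exact (setIntegral_le_integral (s := C) b1
        (Eventually.of_forall fun z => sq_nonneg _)).trans b2

lemma amgm {μ : Measure (E m)} {f g : E m → ℝ} (hf : Integrable (fun x => f x ^ 2) μ)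
    (hg : Integrable (fun x => g x ^ 2) μ) (ε : ℝ) (hε : 0 < ε) :
    |∫ x, f x * g x ∂μ| ≤ (ε⁻¹ * ∫ x, f x ^ 2 ∂μ + ε * ∫ x, g x ^ 2 ∂μ) / 2 := by
  have h1 : Integrable (fun x => (ε⁻¹ * f x ^ 2 + ε * g x ^ 2) / 2) μ :=
    ((hf.const_mul _).add (hg.const_mul _)).div_const 2
  have h2 : ∫ x, (ε⁻¹ * f x ^ 2 + ε * g x ^ 2) / 2 ∂μ =
      (ε⁻¹ * ∫ x, f x ^ 2 ∂μ + ε * ∫ x, g x ^ 2 ∂μ) / 2 := by
    rw [integral_div, integral_add (hf.const_mul _) (hg.const_mul _), integral_const_mul,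
      integral_const_mul]
  rw [← h2, ← Real.norm_eq_abs]
  refine norm_integral_le_of_norm_le h1 (Eventually.of_forall fun x => ?_)
  rw [Real.norm_eq_abs, abs_mul]
  have h3 : 2 * (|f x| * |g x|) ≤ ε⁻¹ * f x ^ 2 + ε * g x ^ 2 := by
    have h4 : 0 ≤ ε⁻¹ * (|f x| - ε * |g x|) ^ 2 := by positivity
    have h5 : ε⁻¹ * (|f x| - ε * |g x|) ^ 2 =
        ε⁻¹ * |f x| ^ 2 + ε * |g x| ^ 2 - 2 * (|f x| * |g x|) := by
      field_simp
      ring
    rw [h5, sq_abs, sq_abs] at h4
    linarith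
  linarith

end PRD_

open PRD_ in
/-- product rule -/
theorem prd_proof : Stmt_PRD := by
  intro m U u w gu gw hU hu hw ζ hζ j
  obtain ⟨hζ1, hζc, hζU⟩ := hζ
  set K : Set (E m) := tsupport ζ with hK
  have hKc : IsCompact K := hζc
  have hKm : MeasurableSet K := hKc.measurableSet
  have hdc := fderiv_cont hζ1 (bs j)
  have hds := fderiv_cs hζc (bs j)
  have hdt : tsupport (fun x => fderiv ℝ ζ x (bs j)) ⊆ U := (fderiv_tsup (bs j)).trans hζU
  set h1 : E m → ℝ := fun x => fderiv ℝ ζ x (bs j) * w x + ζ x * gw j x with hh1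
  set h2 : E m → ℝ := fun x => ζ x * w x with hh2
  have m1 : MemLp h1 2 volume :=
    (memLp_mul hU hw.f2 hdc hds hdt).add (memLp_mul hU (hw.g2 j) hζ1.continuous hζc hζU)
  have m2 : MemLp h2 2 volume := memLp_mul hU hw.f2 hζ1.continuous hζc hζU
  have z1 : ∀ x ∉ K, h1 x = 0 := by
    intro x hx
    have c1 : ζ x = 0 := image_eq_zero_of_notMem_tsupport hx
    have c2 : fderiv ℝ ζ x (bs j) = 0 :=
      image_eq_zero_of_notMem_tsupport (f := fun x => fderiv ℝ ζ x (bs j))
        fun h => hx (fderiv_tsup (bs j) h)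
    simp only [hh1, c1, c2, zero_mul, add_zero]
  have z2 : ∀ x ∉ K, h2 x = 0 := by
    intro x hx
    have c1 : ζ x = 0 := image_eq_zero_of_notMem_tsupport hx
    simp only [hh2, c1, zero_mul]
  -- restrict a product with a function vanishing off `K`
  have hres : ∀ (a b : E m → ℝ), (∀ x ∉ K, b x = 0) →
      ∫ x, a x * b x = ∫ x in K, a x * b x := by
    intro a b hb
    rw [setIntegral_eq_integral_of_forall_compl_eq_zero]
    intro x hx
    rw [hb x hx, mul_zero]
  -- the identity for smooth functions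
  have hA : ∀ Φ : E m → ℝ, ContDiff ℝ (⊤ : ℕ∞) Φ →
      (∫ x in K, Φ x * h1 x) + ∫ x in K, fderiv ℝ Φ x (bs j) * h2 x = 0 := by
    intro Φ hΦ
    have hT : TF U (fun x => ζ x * Φ x) :=
      ⟨hζ1.mul hΦ, hζc.mul_right, (tsupport_mul_subset_left).trans hζU⟩
    have h := hw.ibp _ hT j
    have i1 : Integrable (fun x => w x * (fderiv ℝ ζ x (bs j) * Φ x)) :=
      int_tf hw.f2 (hdc.mul hΦ.continuous) hds.mul_right ((tsupport_mul_subset_left).trans hdt)
    have i2 : Integrable (fun x => w x * (ζ x * fderiv ℝ Φ x (bs j))) :=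
      int_tf hw.f2 (hζ1.continuous.mul (fderiv_cont hΦ _)) hζc.mul_right
        ((tsupport_mul_subset_left).trans hζU)
    have i3 : Integrable (fun x => gw j x * (ζ x * Φ x)) :=
      int_tf (hw.g2 j) hT.1.continuous hT.2.1 hT.2.2
    rw [← hres _ _ z1, ← hres _ _ z2]
    have e1 : ∫ x, w x * fderiv ℝ (fun y => ζ y * Φ y) x (bs j) =
        (∫ x, w x * (fderiv ℝ ζ x (bs j) * Φ x)) + ∫ x, w x * (ζ x * fderiv ℝ Φ x (bs j)) := by
      rw [← integral_add i1 i2]
      refine integral_congr_ae (Eventually.of_forall fun x => ?_)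
      simp only [fderiv_mul' hζ1 hΦ]
      ring
    have e2 : ∫ x, Φ x * h1 x =
        (∫ x, w x * (fderiv ℝ ζ x (bs j) * Φ x)) + ∫ x, gw j x * (ζ x * Φ x) := by
      rw [← integral_add i1 i3]
      refine integral_congr_ae (Eventually.of_forall fun x => ?_)
      simp only [hh1]
      ring
    have e3 : ∫ x, fderiv ℝ Φ x (bs j) * h2 x = ∫ x, w x * (ζ x * fderiv ℝ Φ x (bs j)) := by
      refine integral_congr_ae (Eventually.of_forall fun x => ?_)
      simp only [hh2]
      ring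
    rw [e2, e3]
    rw [e1] at h
    linarith
  -- integrability on `K`
  have q1 : Integrable (fun x => h1 x ^ 2) (volume.restrict K) := (m1.restrict K).integrable_sq
  have q2 : Integrable (fun x => h2 x ^ 2) (volume.restrict K) := (m2.restrict K).integrable_sq
  have uK : MemLp u 2 (volume.restrict K) := hu.f2.mono_measure (Measure.restrict_mono_set _ hζU)
  have gK : MemLp (gu j) 2 (volume.restrict K) :=
    (hu.g2 j).mono_measure (Measure.restrict_mono_set _ hζU)
  have j1 : Integrable (fun x => u x * h1 x) (volume.restrict K) :=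
    MemLp.integrable_mul uK (m1.restrict K)
  have j2 : Integrable (fun x => gu j x * h2 x) (volume.restrict K) :=
    MemLp.integrable_mul gK (m2.restrict K)
  set S : ℝ := (∫ x in K, u x * h1 x) + ∫ x in K, gu j x * h2 x with hS
  have hbd : ∀ ε > 0, |S| ≤ ε * ((2 + (∫ x in K, h1 x ^ 2) + ∫ x in K, h2 x ^ 2) / 2) := by
    intro ε hε
    obtain ⟨Φ, hΦ, -, p1, p2, p3⟩ := moll hU hζU hKc hu (ε ^ 2) (by positivity)
    obtain ⟨p4, p5⟩ := p3 j
    have hΦm : MemLp Φ 2 (volume.restrict K) := by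
      refine (memLp_two_iff_integrable_sq hΦ.continuous.aestronglyMeasurable).2 ?_
      exact (hΦ.continuous.pow 2).continuousOn.integrableOn_compact hKc
    have hΨm : MemLp (fun x => fderiv ℝ Φ x (bs j)) 2 (volume.restrict K) := by
      refine (memLp_two_iff_integrable_sq (fderiv_cont hΦ _).aestronglyMeasurable).2 ?_
      exact ((fderiv_cont hΦ (bs j)).pow 2).continuousOn.integrableOn_compact hKc
    have k1 : Integrable (fun x => Φ x * h1 x) (volume.restrict K) :=
      MemLp.integrable_mul hΦm (m1.restrict K)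
    have k2 : Integrable (fun x => fderiv ℝ Φ x (bs j) * h2 x) (volume.restrict K) :=
      MemLp.integrable_mul hΨm (m2.restrict K)
    have e1 : ∫ x in K, (Φ x - u x) * h1 x =
        (∫ x in K, Φ x * h1 x) - ∫ x in K, u x * h1 x := by
      rw [← integral_sub k1 j1]
      refine integral_congr_ae (Eventually.of_forall fun x => ?_)
      simp only []
      ring
    have e2 : ∫ x in K, (fderiv ℝ Φ x (bs j) - gu j x) * h2 x =
        (∫ x in K, fderiv ℝ Φ x (bs j) * h2 x) - ∫ x in K, gu j x * h2 x := by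
      rw [← integral_sub k2 j2]
      refine integral_congr_ae (Eventually.of_forall fun x => ?_)
      simp only []
      ring
    have a1 := amgm (μ := volume.restrict K) p1 q1 ε hε
    have a2 := amgm (μ := volume.restrict K) p4 q2 ε hε
    have a3 := hA Φ hΦ
    have hSe : S = -((∫ x in K, (Φ x - u x) * h1 x) +
        ∫ x in K, (fderiv ℝ Φ x (bs j) - gu j x) * h2 x) := by
      rw [e1, e2, hS]
      linarith
    have b1 : ε⁻¹ * ∫ x in K, (Φ x - u x) ^ 2 ≤ ε := by
      calc ε⁻¹ * ∫ x in K, (Φ x - u x) ^ 2 ≤ ε⁻¹ * ε ^ 2 :=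
            mul_le_mul_of_nonneg_left p2 (by positivity)
        _ = ε := by field_simp
    have b2 : ε⁻¹ * ∫ x in K, (fderiv ℝ Φ x (bs j) - gu j x) ^ 2 ≤ ε := by
      calc ε⁻¹ * ∫ x in K, (fderiv ℝ Φ x (bs j) - gu j x) ^ 2 ≤ ε⁻¹ * ε ^ 2 :=
            mul_le_mul_of_nonneg_left p5 (by positivity)
        _ = ε := by field_simp
    rw [hSe, abs_neg]
    refine (abs_add_le _ _).trans ?_
    linarith
  have hS0 : S = 0 := by
    by_contra hne
    have hpos : 0 < |S| := abs_pos.2 hne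
    set c : ℝ := (2 + (∫ x in K, h1 x ^ 2) + ∫ x in K, h2 x ^ 2) / 2 with hc
    have hc1 : 1 ≤ c := by
      have c1 : 0 ≤ ∫ x in K, h1 x ^ 2 := integral_nonneg fun x => sq_nonneg _
      have c2 : 0 ≤ ∫ x in K, h2 x ^ 2 := integral_nonneg fun x => sq_nonneg _
      rw [hc]
      linarith
    have h := hbd (|S| / (2 * c)) (by positivity)
    have e : |S| / (2 * c) * c = |S| / 2 := by
      field_simp
    rw [e] at h
    linarith
  -- conclusion
  have l1 : Integrable (fun x => (u x * w x) * fderiv ℝ ζ x (bs j)) (volume.restrict K) := by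
    have : MemLp (fun x => fderiv ℝ ζ x (bs j) * w x) 2 (volume.restrict K) :=
      (memLp_mul hU hw.f2 hdc hds hdt).restrict K
    refine (MemLp.integrable_mul uK this).congr (Eventually.of_forall fun x => ?_)
    simp only [Pi.mul_apply]
    ring
  have l2 : Integrable (fun x => (u x * gw j x) * ζ x) (volume.restrict K) := by
    have : MemLp (fun x => ζ x * gw j x) 2 (volume.restrict K) :=
      (memLp_mul hU (hw.g2 j) hζ1.continuous hζc hζU).restrict K
    refine (MemLp.integrable_mul uK this).congr (Eventually.of_forall fun x => ?_)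
    simp only [Pi.mul_apply]
    ring
  have z3 : ∀ x ∉ K, ζ x = 0 := fun x hx => image_eq_zero_of_notMem_tsupport hx
  have z4 : ∀ x ∉ K, fderiv ℝ ζ x (bs j) = 0 := fun x hx =>
    image_eq_zero_of_notMem_tsupport (f := fun x => fderiv ℝ ζ x (bs j))
      fun h => hx (fderiv_tsup (bs j) h)
  rw [hres _ _ z4, hres _ _ z3]
  have f1 : ∫ x in K, u x * h1 x = (∫ x in K, (u x * w x) * fderiv ℝ ζ x (bs j)) +
      ∫ x in K, (u x * gw j x) * ζ x := by
    rw [← integral_add l1 l2]
    refine integral_congr_ae (Eventually.of_forall fun x => ?_)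
    simp only [hh1]
    ring
  have f2 : ∫ x in K, (u x * gw j x + gu j x * w x) * ζ x =
      (∫ x in K, (u x * gw j x) * ζ x) + ∫ x in K, gu j x * h2 x := by
    rw [← integral_add l2 j2]
    refine integral_congr_ae (Eventually.of_forall fun x => ?_)
    simp only [hh2]
    ring
  rw [f2]
  rw [hS, f1] at hS0
  linarith

end Pool.Agent.CAL
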