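import Pool.Agent.CAL.Stmts

/-!
Module PTA: pointwise algebra for the derivative of `r ν ⊗ ν`.
-/

set_option autoImplicit false

namespace Pool.Agent.CAL

open MeasureTheory Set Metric Filter Topology
open scoped ENNReal
open Pool.Agent.COB

namespace PTA_

variable {n : ℕ}

theorem nrm_sq (x : E n) : ‖x‖ ^ 2 = ∑ a, x a ^ 2 := by
  rw [EuclideanSpace.norm_sq_eq]
  exact Finset.sum_congr rfl fun a _ => by rw [Real.norm_eq_abs, sq_abs]

/-- the sum over the columns -/
theorem col (ν p q : Fin n → ℝ) (s t : ℝ) (hν : ∑ c, ν c * ν c = 1) (hp : ∑ c, ν c * p c = s)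
    (hq : ∑ c, ν c * q c = t) (a b : Fin n) :
    ∑ c, (ν a * p c + p a * ν c - s * ν a * ν c) * (ν b * q c + q b * ν c - t * ν b * ν c) =
      ν a * ν b * ((∑ c, p c * q c) - s * t) + p a * q b := by
  have h : ∀ c, (ν a * p c + p a * ν c - s * ν a * ν c) * (ν b * q c + q b * ν c - t * ν b * ν c) =
      ν a * ν b * (p c * q c) + (ν a * q b - t * ν a * ν b) * (ν c * p c) +
      (p a * ν b - s * ν a * ν b) * (ν c * q c) +
      (p a * q b - t * p a * ν b - s * ν a * q b + s * t * ν a * ν b) * (ν c * ν c) := by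
    intro c
    ring
  rw [Finset.sum_congr rfl fun c _ => h c, Finset.sum_add_distrib, Finset.sum_add_distrib,
    Finset.sum_add_distrib, ← Finset.mul_sum, ← Finset.mul_sum, ← Finset.mul_sum, ← Finset.mul_sum,
    hν, hp, hq]
  ring

end PTA_

open PTA_ in
theorem pta_proof (hNLF : Stmt_NLF) : Stmt_PTA := by
  intro d n A ν r M r' hA hν hr hsym hrel htr
  have hνν : ∑ c, ν c * ν c = 1 := by
    have h := nrm_sq ν
    rw [hν] at h
    rw [Finset.sum_congr rfl fun c _ => (sq (ν c)).symm, ← h]
    norm_num
  set p : Fin (d + 1) → Fin n → ℝ := fun j a => ∑ c, M j a c * ν c with hp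
  have hM : ∀ j a b, M j a b = ν a * p j b + p j a * ν b - r' j * ν a * ν b := by
    intro j a b
    have h1 : ∑ c, (M j a c * (r * ν c * ν b) + (r * ν a * ν c) * M j c b) =
        r * (p j a * ν b + ν a * p j b) := by
      have h2 : ∀ c, M j a c * (r * ν c * ν b) + (r * ν a * ν c) * M j c b =
          r * ν b * (M j a c * ν c) + r * ν a * (M j b c * ν c) := by
        intro c
        rw [hsym j c b]
        ring
      rw [Finset.sum_congr rfl fun c _ => h2 c, Finset.sum_add_distrib, ← Finset.mul_sum,
        ← Finset.mul_sum]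
      simp only [hp]
      ring
    have h3 := hrel j a b
    rw [h1] at h3
    have h4 : r * (p j a * ν b + ν a * p j b - r' j * (ν a * ν b) - M j a b) = 0 := by
      linear_combination h3
    rcases mul_eq_zero.1 h4 with h5 | h5
    · exact absurd h5 hr
    · linear_combination -h5
  have hpν : ∀ j, ∑ c, ν c * p j c = r' j := by
    intro j
    have h1 := htr j
    rw [Finset.sum_congr rfl fun a _ => hM j a a] at h1
    have h2 : ∀ a, ν a * p j a + p j a * ν a - r' j * ν a * ν a =
        2 * (ν a * p j a) - r' j * (ν a * ν a) := fun a => by ring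
    rw [Finset.sum_congr rfl fun a _ => h2 a, Finset.sum_sub_distrib, ← Finset.mul_sum,
      ← Finset.mul_sum, hνν] at h1
    linarith
  refine ⟨fun j => WithLp.toLp 2 (p j), fun j a b => hM j a b, ?_, ?_, ?_⟩
  · intro j
    rw [← hpν j, PiLp.inner_apply]
    refine Finset.sum_congr rfl fun c _ => ?_
    simp [mul_comm]
  · intro j
    have h1 : ∀ a, ∑ b, M j a b ^ 2 =
        ν a * ν a * ((∑ c, p j c * p j c) - r' j * r' j) + p j a * p j a := by
      intro a
      rw [← col ν (p j) (p j) (r' j) (r' j) hνν (hpν j) (hpν j) a a]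
      refine Finset.sum_congr rfl fun b _ => ?_
      rw [hM j a b]
      ring
    rw [Finset.sum_congr rfl fun a _ => h1 a, Finset.sum_add_distrib, ← Finset.sum_mul, hνν,
      nrm_sq]
    have h2 : ∑ a, (WithLp.toLp 2 (p j) : E n) a ^ 2 = ∑ c, p j c * p j c :=
      Finset.sum_congr rfl fun c _ => by simp [sq]
    rw [h2]
    ring
  · obtain ⟨c, hc, hN⟩ := hNLF d n A hA
    rw [hN, Finset.sum_congr rfl fun e _ => hN _]
    -- exchange of the sums
    have h1 : ∑ e, ∑ i, ∑ j, ∑ a, ∑ b, c i j a b *
        (WithLp.toLp 2 (fun a => M i a e) : E n) a * (WithLp.toLp 2 (fun a => M j a e) : E n) b =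
        ∑ i, ∑ j, ∑ a, ∑ b, c i j a b *
          (ν a * ν b * ((∑ e, p i e * p j e) - r' i * r' j) + p i a * p j b) := by
      rw [Finset.sum_comm]
      refine Finset.sum_congr rfl fun i _ => ?_
      rw [Finset.sum_comm]
      refine Finset.sum_congr rfl fun j _ => ?_
      rw [Finset.sum_comm]
      refine Finset.sum_congr rfl fun a _ => ?_
      rw [Finset.sum_comm]
      refine Finset.sum_congr rfl fun b _ => ?_
      rw [← col ν (p i) (p j) (r' i) (r' j) hνν (hpν i) (hpν j) a b, Finset.mul_sum]
      refine Finset.sum_congr rfl fun e _ => ?_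
      rw [← hM i a e, ← hM j b e]
      ring
    rw [h1]
    have h2 : ∑ i, ∑ j, ∑ a, ∑ b, c i j a b *
        (ν a * ν b * ((∑ e, p i e * p j e) - r' i * r' j)) = 0 := by
      have h3 : ∑ i, ∑ j, ∑ a, ∑ b, c i j a b *
          (ν a * ν b * ((∑ e, p i e * p j e) - r' i * r' j)) =
          -∑ i, ∑ j, ∑ a, ∑ b, c i j a b *
          (ν a * ν b * ((∑ e, p i e * p j e) - r' i * r' j)) := by
        conv_lhs => rw [Finset.sum_comm]
        rw [← Finset.sum_neg_distrib]
        refine Finset.sum_congr rfl fun i _ => ?_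
        rw [← Finset.sum_neg_distrib]
        refine Finset.sum_congr rfl fun j _ => ?_
        rw [← Finset.sum_neg_distrib]
        refine Finset.sum_congr rfl fun a _ => ?_
        rw [← Finset.sum_neg_distrib]
        refine Finset.sum_congr rfl fun b _ => ?_
        rw [hc j i a b, Finset.sum_congr rfl fun e _ => mul_comm (p j e) (p i e)]
        ring
      linarith
    rw [← sub_eq_zero, ← Finset.sum_sub_distrib, ← h2]
    refine Finset.sum_congr rfl fun i _ => ?_
    rw [← Finset.sum_sub_distrib]
    refine Finset.sum_congr rfl fun j _ => ?_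
    rw [← Finset.sum_sub_distrib]
    refine Finset.sum_congr rfl fun a _ => ?_
    rw [← Finset.sum_sub_distrib]
    refine Finset.sum_congr rfl fun b _ => ?_
    show c i j a b * _ - c i j a b * p i a * p j b = _
    ring

end Pool.Agent.CAL
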