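import Pool.Agent.CAL.Stmts

/-!
# REP: representation along vertical lines
-/

set_option autoImplicit false

namespace Pool.Agent.CAL

open MeasureTheory Set Metric Filter Topology
open scoped ENNReal
open Pool.Agent.COB

namespace REP_

/-- the product structure of `E (d + 1)` -/
def PSI (d : ℕ) : (Fin d → ℝ) × ℝ ≃ᵐ E (d + 1) :=
  MeasurableEquiv.prodComm.trans
    ((MeasurableEquiv.piFinSuccAbove (fun _ : Fin (d + 1) => ℝ) (Fin.last d)).symm.trans
      (MeasurableEquiv.toLp 2 (Fin (d + 1) → ℝ)))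

theorem PSI_apply {d : ℕ} (q : (Fin d → ℝ) × ℝ) : PSI d q = mk q.1 q.2 := by
  ext j
  change (Fin.last d).insertNth (α := fun _ => ℝ) q.2 q.1 j =
    Fin.snoc (α := fun _ => ℝ) q.1 q.2 j
  rw [Fin.insertNth_last']

theorem PSI_mp (d : ℕ) : MeasurePreserving (PSI d) volume volume := by
  have h1 : MeasurePreserving (Prod.swap : (Fin d → ℝ) × ℝ → ℝ × (Fin d → ℝ)) volume volume :=
    Measure.measurePreserving_swap
  have h2 := (volume_preserving_piFinSuccAbove (fun _ : Fin (d + 1) => ℝ) (Fin.last d)).symm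
  have h3 := PiLp.volume_preserving_toLp (Fin (d + 1))
  exact h3.comp (h2.comp h1)

theorem hz_mk {d : ℕ} (x : Fin d → ℝ) (t : ℝ) : hz (mk x t) = x := by
  funext j
  change Fin.snoc (α := fun _ => ℝ) x t j.castSucc = x j
  rw [Fin.snoc_castSucc]

theorem yy_mk {d : ℕ} (x : Fin d → ℝ) (t : ℝ) : yy (mk x t) = t := by
  change Fin.snoc (α := fun _ => ℝ) x t (Fin.last d) = t
  rw [Fin.snoc_last]

theorem mk_hz_yy {d : ℕ} (x : E (d + 1)) : mk (hz x) (yy x) = x := by
  ext j
  change Fin.snoc (α := fun _ => ℝ) (hz x) (yy x) j = x j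
  refine Fin.lastCases ?_ (fun i => ?_) j
  · rw [Fin.snoc_last]; rfl
  · rw [Fin.snoc_castSucc]; rfl

/-- the box in the product -/
def SS (d : ℕ) : Set ((Fin d → ℝ) × ℝ) := Bx d ×ˢ Ioo (0 : ℝ) 1

theorem pre_Op (d : ℕ) : PSI d ⁻¹' Op d = SS d := by
  ext q
  rw [mem_preimage, PSI_apply]
  unfold Op Om SS
  simp only [mem_ofPred_eq, hz_mk, yy_mk, mem_prod, mem_Ioo]
  constructor
  · rintro ⟨⟨a, b, c⟩, e⟩; exact ⟨a, e, c⟩
  · rintro ⟨a, e, c⟩; exact ⟨⟨a, by linarith, c⟩, e⟩

theorem Bx_eq (d : ℕ) : Bx d = Set.pi univ fun _ : Fin d => Ioo (0 : ℝ) 1 := by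
  ext x
  simp [Bx]

theorem meas_Bx (d : ℕ) : MeasurableSet (Bx d) := by
  rw [Bx_eq]
  exact MeasurableSet.univ_pi fun _ => measurableSet_Ioo

theorem meas_SS (d : ℕ) : MeasurableSet (SS d) := (meas_Bx d).prod measurableSet_Ioo

theorem vol_SS (d : ℕ) : volume (SS d) < ⊤ := by
  have h1 : SS d ⊆ Icc (0 : Fin d → ℝ) 1 ×ˢ Icc (0 : ℝ) 1 := by
    rintro ⟨x, t⟩ ⟨hx, ht⟩
    exact ⟨⟨fun j => (hx j).1.le, fun j => (hx j).2.le⟩, ht.1.le, ht.2.le⟩
  exact lt_of_le_of_lt (measure_mono h1) (isCompact_Icc.prod isCompact_Icc).measure_lt_top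

theorem meas_Op (d : ℕ) : MeasurableSet (Op d) := by
  have h := (PSI d).measurableSet_preimage (s := Op d)
  rw [pre_Op] at h
  exact h.1 (meas_SS d)

theorem vol_Op (d : ℕ) : volume (Op d) < ⊤ := by
  rw [← (PSI_mp d).measure_preimage_equiv, pre_Op]
  exact vol_SS d

theorem int_of_mem {d : ℕ} {g : E (d + 1) → ℝ} (h : MemLp g 2 (volume.restrict (Op d))) :
    IntegrableOn g (Op d) := by
  have : IsFiniteMeasure (volume.restrict (Op d)) := ⟨by
    rw [Measure.restrict_apply_univ]; exact vol_Op d⟩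
  exact (h.mono_exponent (by norm_num)).integrable le_rfl

/-- vertical lines of a smooth function -/
theorem vline {d : ℕ} (ζ : E (d + 1) → ℝ) (h : ContDiff ℝ (⊤ : ℕ∞) ζ) (x : Fin d → ℝ) :
    ContDiff ℝ 1 (fun t : ℝ => ζ (mk x t)) ∧
      ∀ t, deriv (fun t : ℝ => ζ (mk x t)) t = fderiv ℝ ζ (mk x t) (bs (Fin.last d)) := by
  have e : (fun t : ℝ => mk x t) = fun t : ℝ => mk x 0 + t • (bs (Fin.last d) : E (d + 1)) := by
    funext t
    ext j
    rw [PiLp.add_apply, PiLp.smul_apply]
    refine Fin.lastCases ?_ (fun i => ?_) j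
    · change Fin.snoc (α := fun _ => ℝ) x t (Fin.last d) =
        Fin.snoc (α := fun _ => ℝ) x 0 (Fin.last d) + t • (bs (Fin.last d) : E (d + 1)) (Fin.last d)
      rw [Fin.snoc_last, Fin.snoc_last]
      simp
    · change Fin.snoc (α := fun _ => ℝ) x t i.castSucc =
        Fin.snoc (α := fun _ => ℝ) x 0 i.castSucc + t • (bs (Fin.last d) : E (d + 1)) i.castSucc
      rw [Fin.snoc_castSucc, Fin.snoc_castSucc]
      simp [Fin.castSucc_ne_last]
  have hd : ∀ t : ℝ, HasDerivAt (fun t : ℝ => mk x t) (bs (Fin.last d) : E (d + 1)) t := by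
    intro t
    rw [e]
    simpa using ((hasDerivAt_id t).smul_const (bs (Fin.last d) : E (d + 1))).const_add (mk x 0)
  have hc : ContDiff ℝ 1 (fun t : ℝ => mk x t) := by
    rw [e]
    exact contDiff_const.add (contDiff_id.smul contDiff_const)
  refine ⟨(h.of_le (by exact_mod_cast le_top)).comp hc, fun t => ?_⟩
  have h2 : HasFDerivAt ζ (fderiv ℝ ζ (mk x t)) (mk x t) :=
    ((h.differentiable (by simp)) _).hasFDerivAt
  exact (h2.comp_hasDerivAt t (hd t)).deriv

theorem cont_mk {d : ℕ} : Continuous fun q : (Fin d → ℝ) × ℝ => (mk q.1 q.2 : E (d + 1)) := by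
  unfold mk
  refine (PiLp.continuous_toLp 2 _).comp (continuous_pi fun j => ?_)
  refine Fin.lastCases ?_ (fun i => ?_) j
  · simp only [Fin.snoc_last]
    exact continuous_snd
  · simp only [Fin.snoc_castSucc]
    exact (continuous_apply i).comp continuous_fst

theorem cpt_line {d : ℕ} (ζ : E (d + 1) → ℝ) (h : HasCompactSupport ζ) (x : Fin d → ℝ) :
    HasCompactSupport (fun t : ℝ => ζ (mk x t)) := by
  have hc : Continuous (yy : E (d + 1) → ℝ) := by
    unfold yy
    fun_prop
  refine HasCompactSupport.intro (h.isCompact.image hc) ?_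
  intro t ht
  by_contra hne
  exact ht ⟨mk x t, subset_tsupport _ hne, yy_mk x t⟩

end REP_

open REP_ in
theorem rep_proof (hCST : Stmt_CST) : Stmt_REP := by
  intro d f g hW
  obtain ⟨gl, hgl⟩ : ∃ gl, gl = g (Fin.last d) := ⟨_, rfl⟩
  have hgi : IntegrableOn gl (Op d) := by rw [hgl]; exact int_of_mem (hW.g2 _)
  have hfi : IntegrableOn f (Op d) := int_of_mem hW.f2
  have hme := (PSI d).measurableEmbedding
  -- the function on the product
  obtain ⟨G, hG⟩ : ∃ G, G = (SS d).indicator (fun q => gl (mk q.1 q.2)) := ⟨_, rfl⟩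
  have hGi : Integrable G (volume.prod volume) := by
    rw [hG, integrable_indicator_iff (meas_SS d)]
    have h1 := ((PSI_mp d).integrableOn_comp_preimage hme (f := gl) (s := Op d)).2 hgi
    rw [pre_Op] at h1
    have h2 : (gl ∘ (PSI d)) = fun q => gl (mk q.1 q.2) := by
      funext q
      change gl (PSI d q) = _
      rw [PSI_apply]
    rw [h2] at h1
    exact h1
  obtain ⟨G', hG'm, hG'e⟩ := hGi.1
  have hG'i : Integrable G' (volume.prod volume) := hGi.congr hG'e
  have hae1 : ∀ᵐ x : Fin d → ℝ, Integrable (fun s : ℝ => G' (x, s)) := hG'i.prod_right_ae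
  have hae2 : ∀ᵐ x : Fin d → ℝ, ∀ᵐ s : ℝ, G (x, s) = G' (x, s) :=
    Measure.ae_ae_of_ae_prod hG'e
  have hHi : Integrable (fun x : Fin d → ℝ => ∫ s : ℝ, ‖G' (x, s)‖) := hG'i.integral_norm_prod_left
  obtain ⟨F, hF⟩ : ∃ F : (Fin d → ℝ) × ℝ → ℝ, F = fun q => ∫ s in Iic q.2, G' (q.1, s) :=
    ⟨_, rfl⟩
  have hFm : StronglyMeasurable F := by
    have h1 : StronglyMeasurable (fun z : ((Fin d → ℝ) × ℝ) × ℝ =>
        ({z : ((Fin d → ℝ) × ℝ) × ℝ | z.2 ≤ z.1.2}).indicator (fun z => G' (z.1.1, z.2)) z) := by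
      refine StronglyMeasurable.indicator ?_ ?_
      · exact hG'm.comp_measurable (by fun_prop)
      · exact measurableSet_le measurable_snd (measurable_snd.comp measurable_fst)
    have h2 := h1.integral_prod_right' (ν := (volume : Measure ℝ))
    have h3 : F = fun q : (Fin d → ℝ) × ℝ => ∫ s : ℝ,
        ({z : ((Fin d → ℝ) × ℝ) × ℝ | z.2 ≤ z.1.2}).indicator (fun z => G' (z.1.1, z.2)) (q, s) := by
      rw [hF]
      funext q
      rw [← integral_indicator measurableSet_Iic]
      rfl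
    rw [h3]
    exact h2
  have hFb : ∀ᵐ x : Fin d → ℝ, ∀ t, ‖F (x, t)‖ ≤ ∫ s : ℝ, ‖G' (x, s)‖ := by
    filter_upwards [hae1] with x hx t
    rw [hF]
    refine (norm_integral_le_integral_norm _).trans ?_
    exact setIntegral_le_integral hx.norm (Eventually.of_forall fun s => norm_nonneg _)
  have hFi : IntegrableOn F (SS d) (volume.prod volume) := by
    have h1 : Integrable (fun q : (Fin d → ℝ) × ℝ => (∫ s : ℝ, ‖G' (q.1, s)‖) *
        (Ioo (0 : ℝ) 1).indicator (fun _ => (1 : ℝ)) q.2) (volume.prod volume) := by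
      refine hHi.mul_prod ?_
      rw [integrable_indicator_iff measurableSet_Ioo]
      exact integrableOn_const (by simp)
    rw [← integrable_indicator_iff (meas_SS d)]
    refine h1.mono' (hFm.indicator (meas_SS d)).aestronglyMeasurable ?_
    have h2 : ∀ᵐ q : (Fin d → ℝ) × ℝ ∂(volume.prod volume), ∀ t, ‖F (q.1, t)‖ ≤
        ∫ s : ℝ, ‖G' (q.1, s)‖ := Measure.quasiMeasurePreserving_fst.ae hFb
    filter_upwards [h2] with q hq
    by_cases hqS : q ∈ SS d
    · rw [indicator_of_mem hqS, indicator_of_mem hqS.2, mul_one]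
      exact hq q.2
    · rw [indicator_of_notMem hqS, norm_zero]
      refine mul_nonneg (integral_nonneg fun s => norm_nonneg _) ?_
      exact indicator_nonneg (fun _ _ => zero_le_one) _
  -- back to `E (d + 1)`
  obtain ⟨F', hF'⟩ : ∃ F' : E (d + 1) → ℝ, F' = fun x => F (hz x, yy x) := ⟨_, rfl⟩
  have hF'c : F' ∘ (PSI d) = F := by
    rw [hF']
    funext q
    change F (hz (PSI d q), yy (PSI d q)) = F q
    rw [PSI_apply, hz_mk, yy_mk]
  have hF'i : IntegrableOn F' (Op d) := by
    refine ((PSI_mp d).integrableOn_comp_preimage hme (f := F') (s := Op d)).1 ?_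
    rw [pre_Op, hF'c]
    exact hFi
  -- integration by parts
  have hibp : ∀ ζ, TF (Op d) ζ → ∫ x, F' x * fderiv ℝ ζ x (bs (Fin.last d)) =
      -∫ x, gl x * ζ x := by
    intro ζ hζ
    obtain ⟨hζ1, hζ2, hζ3⟩ := hζ
    have hD : Continuous fun q : (Fin d → ℝ) × ℝ => fderiv ℝ ζ (mk q.1 q.2) (bs (Fin.last d)) := by
      have h1 : Continuous (fderiv ℝ ζ) := hζ1.continuous_fderiv (by simp)
      exact (h1.comp cont_mk).clm_apply continuous_const
    have hsup : ∀ x, x ∉ Op d → ζ x = 0 ∧ fderiv ℝ ζ x (bs (Fin.last d)) = 0 := by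
      intro x hx
      have h1 : x ∉ tsupport ζ := fun h => hx (hζ3 h)
      refine ⟨image_eq_zero_of_notMem_tsupport h1, ?_⟩
      have h2 : fderiv ℝ ζ x = 0 := image_eq_zero_of_notMem_tsupport
        (fun h => h1 (tsupport_fderiv_subset ℝ h))
      rw [h2]
      rfl
    have e1 : ∫ x, F' x * fderiv ℝ ζ x (bs (Fin.last d)) =
        ∫ q : (Fin d → ℝ) × ℝ, F q * fderiv ℝ ζ (mk q.1 q.2) (bs (Fin.last d)) := by
      rw [← (PSI_mp d).integral_comp hme]
      refine integral_congr_ae (Eventually.of_forall fun q => ?_)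
      have h1 := congrFun hF'c q
      change F' (PSI d q) * fderiv ℝ ζ (PSI d q) (bs (Fin.last d)) = _
      change F' (PSI d q) = F q at h1
      rw [h1, PSI_apply]
    have e2 : ∫ x, gl x * ζ x = ∫ q : (Fin d → ℝ) × ℝ, G' q * ζ (mk q.1 q.2) := by
      rw [← (PSI_mp d).integral_comp hme]
      refine integral_congr_ae ?_
      filter_upwards [hG'e] with q hq
      change gl (PSI d q) * ζ (PSI d q) = _
      rw [PSI_apply, ← hq, hG]
      by_cases hqS : q ∈ SS d
      · rw [indicator_of_mem hqS]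
      · have h1 : mk q.1 q.2 ∉ Op d := by
          intro h
          apply hqS
          rw [← pre_Op, mem_preimage, PSI_apply]
          exact h
        rw [indicator_of_notMem hqS, (hsup _ h1).1, mul_zero, mul_zero]
    obtain ⟨C, hC⟩ : ∃ C, ∀ x, ‖fderiv ℝ ζ x (bs (Fin.last d))‖ ≤ C := by
      have h1 : Continuous fun x => fderiv ℝ ζ x (bs (Fin.last d) : E (d + 1)) :=
        (hζ1.continuous_fderiv (by simp)).clm_apply continuous_const
      have h2 : HasCompactSupport fun x => fderiv ℝ ζ x (bs (Fin.last d) : E (d + 1)) :=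
        hζ2.fderiv_apply (𝕜 := ℝ) _
      exact h2.exists_bound_of_continuous h1
    obtain ⟨C', hC'⟩ : ∃ C', ∀ x, ‖ζ x‖ ≤ C' := hζ2.exists_bound_of_continuous hζ1.continuous
    have i1 : Integrable (fun q : (Fin d → ℝ) × ℝ =>
        F q * fderiv ℝ ζ (mk q.1 q.2) (bs (Fin.last d))) (volume.prod volume) := by
      have h1 : (fun q : (Fin d → ℝ) × ℝ => F q * fderiv ℝ ζ (mk q.1 q.2) (bs (Fin.last d))) =
          fun q => (SS d).indicator F q * fderiv ℝ ζ (mk q.1 q.2) (bs (Fin.last d)) := by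
        funext q
        by_cases hqS : q ∈ SS d
        · rw [indicator_of_mem hqS]
        · have h1 : mk q.1 q.2 ∉ Op d := by
            intro h
            apply hqS
            rw [← pre_Op, mem_preimage, PSI_apply]
            exact h
          rw [(hsup _ h1).2, mul_zero, mul_zero]
      rw [h1]
      refine ((integrable_indicator_iff (meas_SS d)).2 hFi).mul_bdd (c := C)
        hD.aestronglyMeasurable (Eventually.of_forall fun q => hC _)
    have i2 : Integrable (fun q : (Fin d → ℝ) × ℝ => G' q * ζ (mk q.1 q.2))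
        (volume.prod volume) :=
      hG'i.mul_bdd (c := C') (hζ1.continuous.comp cont_mk).aestronglyMeasurable
        (Eventually.of_forall fun q => hC' _)
    rw [e1, e2, Measure.volume_eq_prod, integral_prod _ i1, integral_prod _ i2, ← integral_neg]
    refine integral_congr_ae ?_
    filter_upwards [hae1] with x hx
    obtain ⟨hv1, hv2⟩ := vline ζ hζ1 x
    have hcl := cpt_line ζ hζ2 x
    have hder : Integrable (fun t : ℝ => fderiv ℝ ζ (mk x t) (bs (Fin.last d))) := by
      have h1 : (fun t : ℝ => fderiv ℝ ζ (mk x t) (bs (Fin.last d))) =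
          deriv (fun t : ℝ => ζ (mk x t)) := by
        funext t
        rw [hv2]
      rw [h1]
      exact (hv1.continuous_deriv le_rfl).integrable_of_hasCompactSupport hcl.deriv
    have k1 : ∫ t : ℝ, F (x, t) * fderiv ℝ ζ (mk x t) (bs (Fin.last d)) =
        ∫ t : ℝ, ∫ s : ℝ, ({z : ℝ × ℝ | z.2 ≤ z.1}).indicator (fun z => G' (x, z.2) *
          fderiv ℝ ζ (mk x z.1) (bs (Fin.last d))) (t, s) := by
      refine integral_congr_ae (Eventually.of_forall fun t => ?_)
      change F (x, t) * fderiv ℝ ζ (mk x t) (bs (Fin.last d)) = _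
      rw [hF]
      change (∫ s in Iic t, G' (x, s)) * fderiv ℝ ζ (mk x t) (bs (Fin.last d)) = _
      rw [← integral_mul_const, ← integral_indicator measurableSet_Iic]
      rfl
    have k2 : Integrable (fun z : ℝ × ℝ => ({z : ℝ × ℝ | z.2 ≤ z.1}).indicator
        (fun z => G' (x, z.2) * fderiv ℝ ζ (mk x z.1) (bs (Fin.last d))) z)
        (volume.prod volume) := by
      refine Integrable.indicator ?_ (measurableSet_le measurable_snd measurable_fst)
      have h1 := hder.mul_prod hx
      refine h1.congr (Eventually.of_forall fun z => ?_)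
      ring
    have k3 : ∀ s : ℝ, ∫ t : ℝ, ({z : ℝ × ℝ | z.2 ≤ z.1}).indicator (fun z => G' (x, z.2) *
          fderiv ℝ ζ (mk x z.1) (bs (Fin.last d))) (t, s) = -(G' (x, s) * ζ (mk x s)) := by
      intro s
      have h1 : ∀ t : ℝ, ({z : ℝ × ℝ | z.2 ≤ z.1}).indicator (fun z => G' (x, z.2) *
          fderiv ℝ ζ (mk x z.1) (bs (Fin.last d))) (t, s) =
          (Ici s).indicator (fun t => G' (x, s) * deriv (fun t : ℝ => ζ (mk x t)) t) t := by
        intro t
        simp only [hv2]
        rfl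
      simp only [h1]
      rw [integral_indicator measurableSet_Ici, integral_Ici_eq_integral_Ioi,
        integral_const_mul, hcl.integral_Ioi_deriv_eq hv1]
      ring
    rw [k1, integral_integral_swap k2]
    simp only [k3]
    rw [integral_neg]
  -- the difference does not depend on the height
  have hsupp : ∀ (φ : E (d + 1) → ℝ) (ζ : E (d + 1) → ℝ), TF (Op d) ζ → IntegrableOn φ (Op d) →
      Integrable (fun x => φ x * fderiv ℝ ζ x (bs (Fin.last d))) := by
    intro φ ζ hζ hφ
    obtain ⟨hζ1, hζ2, hζ3⟩ := hζ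
    have h1 : Continuous fun x => fderiv ℝ ζ x (bs (Fin.last d) : E (d + 1)) :=
      (hζ1.continuous_fderiv (by simp)).clm_apply continuous_const
    have h2 : HasCompactSupport fun x => fderiv ℝ ζ x (bs (Fin.last d) : E (d + 1)) :=
      hζ2.fderiv_apply (𝕜 := ℝ) _
    obtain ⟨C, hC⟩ := h2.exists_bound_of_continuous h1
    have h3 : (fun x => φ x * fderiv ℝ ζ x (bs (Fin.last d))) =
        fun x => (Op d).indicator φ x * fderiv ℝ ζ x (bs (Fin.last d)) := by
      funext x
      by_cases hx : x ∈ Op d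
      · rw [indicator_of_mem hx]
      · have h4 : x ∉ tsupport ζ := fun h => hx (hζ3 h)
        have h5 : fderiv ℝ ζ x = 0 := image_eq_zero_of_notMem_tsupport
          (fun h => h4 (tsupport_fderiv_subset ℝ h))
        rw [h5]
        simp
    rw [h3]
    exact ((integrable_indicator_iff (meas_Op d)).2 hφ).mul_bdd (c := C)
      h1.aestronglyMeasurable (Eventually.of_forall fun x => hC x)
  obtain ⟨u, hu1, hu2⟩ := hCST d (fun x => f x - F' x) (hfi.sub hF'i) (by
    intro ζ hζ
    have h1 := hW.ibp ζ hζ (Fin.last d)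
    rw [← hgl] at h1
    have h2 := hibp ζ hζ
    have h3 : ∫ x, (f x - F' x) * fderiv ℝ ζ x (bs (Fin.last d)) =
        ∫ x, (f x * fderiv ℝ ζ x (bs (Fin.last d)) - F' x * fderiv ℝ ζ x (bs (Fin.last d))) := by
      refine integral_congr_ae (Eventually.of_forall fun x => ?_)
      ring
    rw [h3, integral_sub (hsupp f ζ hζ hfi) (hsupp F' ζ hζ hF'i), h1, h2, sub_self])
  refine ⟨u, hu1, ?_⟩
  -- identification of `F'`
  have hid : ∀ᵐ x : E (d + 1), x ∈ Op d → F' x = ∫ s in (0 : ℝ)..yy x, gl (mk (hz x) s) := by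
    have h1 : ∀ᵐ q : (Fin d → ℝ) × ℝ ∂(volume.prod volume), ∀ᵐ s : ℝ,
        G (q.1, s) = G' (q.1, s) := Measure.quasiMeasurePreserving_fst.ae hae2
    have h2 : ∀ᵐ q : (Fin d → ℝ) × ℝ, q ∈ SS d →
        F q = ∫ s in (0 : ℝ)..q.2, gl (mk q.1 s) := by
      filter_upwards [h1] with q hq hqS
      rw [hF]
      change ∫ s in Iic q.2, G' (q.1, s) = _
      rw [intervalIntegral.integral_of_le hqS.2.1.le, ← integral_indicator measurableSet_Iic,
        ← integral_indicator measurableSet_Ioc]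
      refine integral_congr_ae ?_
      filter_upwards [hq] with s hs
      by_cases h3 : s ≤ q.2
      · rw [indicator_of_mem (show s ∈ Iic q.2 from h3), ← hs, hG]
        by_cases h4 : 0 < s
        · rw [indicator_of_mem (show s ∈ Ioc 0 q.2 from ⟨h4, h3⟩), indicator_of_mem]
          exact ⟨hqS.1, h4, lt_of_le_of_lt h3 hqS.2.2⟩
        · rw [indicator_of_notMem (show s ∉ Ioc 0 q.2 from fun h => h4 h.1),
            indicator_of_notMem]
          exact fun h => h4 h.2.1
      · rw [indicator_of_notMem (show s ∉ Iic q.2 from h3),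
          indicator_of_notMem (show s ∉ Ioc 0 q.2 from fun h => h3 h.2)]
    have h3 := (MeasurePreserving.symm (PSI d) (PSI_mp d)).quasiMeasurePreserving.ae h2
    filter_upwards [h3] with x hx hxO
    have h4 : (PSI d).symm x = (hz x, yy x) := by
      rw [MeasurableEquiv.symm_apply_eq, PSI_apply]
      exact (mk_hz_yy x).symm
    rw [h4] at hx
    have h5 : (hz x, yy x) ∈ SS d := by
      rw [← h4, ← pre_Op, mem_preimage, MeasurableEquiv.apply_symm_apply]
      exact hxO
    rw [hF']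
    exact hx h5
  filter_upwards [hu2, hid] with x h1 h2 hxO
  have h3 := h1 hxO
  have h4 := h2 hxO
  rw [← hgl, ← h4]
  change f x - F' x = _ at h3
  linarith

end Pool.Agent.CAL
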