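import Pool.Agent.CAL.Stmts

set_option autoImplicit false

namespace Pool.Agent.CAL

open MeasureTheory Set Metric Filter Topology
open scoped ENNReal
open Pool.Agent.COB

namespace SNG_

variable {d n : ℕ}

lemma hz_mk (x : Fin d → ℝ) (t : ℝ) : hz (mk x t) = x := by
  funext j
  simp [hz, mk]

lemma yy_mk (x : Fin d → ℝ) (t : ℝ) : yy (mk x t) = t := by
  simp [yy, mk]

lemma mk_cont : Continuous fun p : (Fin d → ℝ) × ℝ => (mk p.1 p.2 : E (d + 1)) := by
  unfold mk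
  refine (PiLp.continuous_toLp 2 _).comp ?_
  refine continuous_pi fun i => ?_
  refine Fin.lastCases ?_ (fun j => ?_) i
  · simpa using continuous_snd
  · have : Continuous fun p : (Fin d → ℝ) × ℝ => p.1 j := (continuous_apply j).comp continuous_fst
    simpa using this

/-- the multiset equation -/
lemma pair_eq (a b w : E n) (u : Fin 1 → E n) (h : (tup ![a, b] : Sym (E n) 2) = w ::ₛ tup u) :
    (w = a ∧ u 0 = b) ∨ (w = b ∧ u 0 = a) := by
  have h1 := congrArg (Subtype.val) h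
  simp only [tup, Sym.cons] at h1
  have e1 : Multiset.map ![a, b] (Finset.univ : Finset (Fin 2)).val = {a, b} := by
    simp [Fin.univ_val_map]
    rfl
  have e2 : Multiset.map u (Finset.univ : Finset (Fin 1)).val = {u 0} := by
    simp [Fin.univ_val_map]
  have h2 : ({a, b} : Multiset (E n)) = w ::ₘ {u 0} := by
    rw [← e1, ← e2]
    exact h1
  have hw : w ∈ ({a, b} : Multiset (E n)) := by rw [h2]; exact Multiset.mem_cons_self _ _
  rw [Multiset.insert_eq_cons, Multiset.mem_cons, Multiset.mem_singleton] at hw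
  rcases hw with rfl | rfl
  · left
    refine ⟨rfl, ?_⟩
    rw [Multiset.insert_eq_cons, Multiset.cons_inj_right, Multiset.singleton_inj] at h2
    exact h2.symm
  · right
    refine ⟨rfl, ?_⟩
    rw [Multiset.pair_comm, Multiset.insert_eq_cons, Multiset.cons_inj_right,
      Multiset.singleton_inj] at h2
    exact h2.symm

end SNG_

open SNG_ in
theorem sng_proof : Stmt_SNG := by
  intro d n v x hx h0 h1
  refine ⟨⟨⟨?_, ?_⟩, yy_mk x 0⟩, ?_⟩
  · rw [hz_mk]; exact hx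
  · rw [yy_mk]; constructor <;> norm_num
  rintro ⟨r, hr, u, w, hgp, -, -, hw⟩
  -- a neighbourhood
  have hBx : IsOpen (Bx d) := by
    have : Bx d = Set.pi Set.univ fun _ : Fin d => Ioo (0 : ℝ) 1 := by
      ext z; simp [Bx]
    rw [this]
    exact isOpen_set_pi Set.finite_univ fun _ _ => isOpen_Ioo
  have hU : IsOpen {p : (Fin d → ℝ) × ℝ | (mk p.1 p.2 : E (d + 1)) ∈ ball (mk x 0) r ∧
      p.1 ∈ Bx d ∧ p.2 < 1} :=
    (isOpen_ball.preimage mk_cont).inter ((hBx.preimage continuous_fst).inter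
      (isOpen_Iio.preimage continuous_snd))
  have hxU : (x, (0 : ℝ)) ∈ {p : (Fin d → ℝ) × ℝ | (mk p.1 p.2 : E (d + 1)) ∈ ball (mk x 0) r ∧
      p.1 ∈ Bx d ∧ p.2 < 1} := ⟨mem_ball_self hr, hx, by norm_num⟩
  obtain ⟨ρ, hρ, hsub⟩ := Metric.isOpen_iff.1 hU _ hxU
  have key : ∀ p : (Fin d → ℝ) × ℝ, ‖p.1 - x‖ < ρ → 0 < p.2 → p.2 < ρ →
      (mk p.1 p.2 : E (d + 1)) ∈ ball (mk x 0) r ∩ Op d ∧ VV v (mk p.1 p.2) = v p := by
    intro p hp1 hp2 hp3
    have hp : p ∈ ball (x, (0 : ℝ)) ρ := by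
      rw [mem_ball, Prod.dist_eq, max_lt_iff, dist_eq_norm, dist_eq_norm, sub_zero, Real.norm_eq_abs,
        abs_of_pos hp2]
      exact ⟨hp1, hp3⟩
    obtain ⟨k1, k2, k3⟩ := hsub hp
    refine ⟨⟨k1, ⟨?_, ?_⟩, ?_⟩, ?_⟩
    · rw [hz_mk]; exact k2
    · rw [yy_mk]; constructor <;> linarith
    · rw [yy_mk]; exact hp2
    · simp only [VV, hz_mk, yy_mk, max_eq_left hp2.le]
  obtain ⟨p0, a1, a2, a3, a4⟩ := h0 ρ hρ
  obtain ⟨p1, b1, b2, b3, b4⟩ := h1 ρ hρ
  obtain ⟨m0, e0⟩ := key p0 a1 a2 a3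
  obtain ⟨m1, e1⟩ := key p1 b1 b2 b3
  have g0 := pair_eq _ _ _ _ (hgp _ m0)
  have g1 := pair_eq _ _ _ _ (hgp _ m1)
  rw [e0, a4] at g0
  rw [e1] at g1
  rcases hw 0 with hw | hw
  · have := hw _ m1
    rcases g1 with ⟨c1, c2⟩ | ⟨c1, c2⟩
    · exact b4 (by rw [← c2, ← this, c1])
    · exact b4 (by rw [← c1, this, c2])
  · refine hw _ m0 ?_
    rcases g0 with ⟨c1, c2⟩ | ⟨c1, c2⟩ <;> rw [c1, c2]

end Pool.Agent.CAL
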