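import Pool.Agent.CAL.Stmts

/-!
# Squad CAL, module SOB: Lipschitz functions of a Sobolev map
-/

set_option autoImplicit false

namespace Pool.Agent.CAL

open MeasureTheory Set Metric Filter Topology
open scoped ENNReal
open Pool.Agent.COB

namespace SOB_

variable {n Q : ℕ}

/-- the Lipschitz function as an infimum -/
theorem l_eq (hGGM : Stmt_GGM) (D : ℕ → Sym (E n) Q)
    (hD : ∀ S : Sym (E n) Q, ∀ ε > 0, ∃ i, GG S (D i) < ε) (l : Sym (E n) Q → ℝ)
    (hl : ∀ S T, |l S - l T| ≤ GG S T) (S : Sym (E n) Q) :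
    l S = ⨅ i, (l (D i) + GG S (D i)) := by
  have h1 : ∀ i, l S ≤ l (D i) + GG S (D i) := by
    intro i
    have := hl S (D i)
    rw [abs_le] at this
    linarith
  apply le_antisymm
  · exact le_ciInf h1
  · apply le_of_forall_pos_le_add
    intro ε hε
    obtain ⟨i, hi⟩ := hD S (ε / 2) (by linarith)
    have h2 : (⨅ i, (l (D i) + GG S (D i))) ≤ l (D i) + GG S (D i) :=
      ciInf_le ⟨l S, by rintro _ ⟨j, rfl⟩; exact h1 j⟩ i
    have h3 := hl S (D i)
    rw [abs_le] at h3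
    linarith

theorem ennreal_aux {a : ℝ} {A : ℝ≥0∞} (h : ∀ ε : ℝ, 0 < ε → ENNReal.ofReal a ≤
    A + ENNReal.ofReal ε) : ENNReal.ofReal a ≤ A := by
  apply ENNReal.le_of_forall_pos_le_add
  intro ε hε _
  have := h ε (by exact_mod_cast hε)
  rwa [ENNReal.ofReal_coe_nnreal] at this

/-- from the dense sequence to the metric -/
theorem gg_le (hGGM : Stmt_GGM) (D : ℕ → Sym (E n) Q)
    (hD : ∀ S : Sym (E n) Q, ∀ ε > 0, ∃ i, GG S (D i) < ε) (S T : Sym (E n) Q) (A : ℝ≥0∞)
    (h : ∀ i, ENNReal.ofReal |GG S (D i) - GG T (D i)| ≤ A) : ENNReal.ofReal (GG S T) ≤ A := by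
  apply ennreal_aux
  intro ε hε
  obtain ⟨i, hi⟩ := hD T (ε / 2) (by linarith)
  obtain ⟨-, -, -, h1⟩ := hGGM Q n S T (D i)
  obtain ⟨-, -, h2, -⟩ := hGGM Q n (D i) T (D i)
  have h3 : GG S T ≤ |GG S (D i) - GG T (D i)| + ε := by
    have := le_abs_self (GG S (D i) - GG T (D i))
    linarith
  calc ENNReal.ofReal (GG S T) ≤ ENNReal.ofReal (|GG S (D i) - GG T (D i)| + ε) :=
        ENNReal.ofReal_le_ofReal h3
    _ = ENNReal.ofReal |GG S (D i) - GG T (D i)| + ENNReal.ofReal ε :=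
        ENNReal.ofReal_add (abs_nonneg _) hε.le
    _ ≤ A + ENNReal.ofReal ε := add_le_add (h i) le_rfl

end SOB_

open SOB_

theorem sob_proof (hGGM : Stmt_GGM) (hGGS : Stmt_GGS) (hDQA : Stmt_DQA) (hDQB : Stmt_DQB)
    (hWDX : Stmt_WDX) : Stmt_SOB := by
  intro m n Q U g h l hU hvol hW hA hh hl
  obtain ⟨D, hD⟩ := hGGS Q n
  have hfin : IsFiniteMeasure (volume.restrict U) :=
    ⟨by rw [Measure.restrict_apply_univ]; exact hvol⟩
  -- square integrability
  have hnn : ∀ S T : Sym (E n) Q, 0 ≤ GG S T := fun S T => (hGGM Q n S T S).1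
  have h0 : MemLp (fun x => GG (g x) (Sym.replicate Q 0)) 2 (volume.restrict U) := by
    rw [memLp_two_iff_integrable_sq (hW.meas _)]
    refine ⟨(hW.meas _).pow 2, ?_⟩
    rw [hasFiniteIntegral_iff_enorm]
    refine lt_of_eq_of_lt ?_ hW.sq
    apply lintegral_congr
    intro x
    rw [← ofReal_norm, Real.norm_of_nonneg (sq_nonneg _)]
  have hc : ∀ c : ℝ, MemLp (fun x => c + GG (g x) (Sym.replicate Q 0)) 2 (volume.restrict U) :=
    fun c => (memLp_const c).add h0
  have hD2 : ∀ i, MemLp (fun x => GG (g x) (D i)) 2 (volume.restrict U) := by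
    intro i
    refine (hc (GG (Sym.replicate Q 0) (D i))).of_le (hW.meas _) ?_
    apply Eventually.of_forall
    intro x
    obtain ⟨-, -, -, h1⟩ := hGGM Q n (g x) (D i) (Sym.replicate Q 0)
    rw [Real.norm_of_nonneg (hnn _ _), Real.norm_of_nonneg (add_nonneg (hnn _ _) (hnn _ _))]
    linarith
  have hlm : AEStronglyMeasurable (fun x => l (g x)) (volume.restrict U) := by
    have e : (fun x => l (g x)) = fun x => ⨅ i, (l (D i) + GG (g x) (D i)) := by
      funext x
      exact l_eq hGGM D hD l hl (g x)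
    rw [e]
    apply AEMeasurable.aestronglyMeasurable
    apply AEMeasurable.iInf
    intro i
    exact (aemeasurable_const.add (hW.meas (D i)).aemeasurable)
  have hl2 : MemLp (fun x => l (g x)) 2 (volume.restrict U) := by
    refine (hc |l (Sym.replicate Q 0)|).of_le hlm ?_
    apply Eventually.of_forall
    intro x
    have h1 := hl (g x) (Sym.replicate Q 0)
    rw [Real.norm_eq_abs, Real.norm_of_nonneg (add_nonneg (abs_nonneg _) (hnn _ _))]
    have h2 := abs_sub_abs_le_abs_sub (l (g x)) (l (Sym.replicate Q 0))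
    linarith
  have hhj : ∀ j, ∫⁻ x in U, h j x ^ 2 < ⊤ := by
    intro j
    refine lt_of_le_of_lt (lintegral_mono fun x => ?_) hh
    exact Finset.single_le_sum (f := fun j => h j x ^ 2) (fun _ _ => zero_le)
      (Finset.mem_univ j)
  have hDB : ∀ j, DerivBound U (bs j) (fun x => l (g x)) (h j) := by
    intro j
    apply hDQB m U j (fun x => l (g x)) (h j) hU hl2 (hA.1 j) (hhj j)
    intro t ht
    have h1 : ∀ᵐ x, ∀ i, Seg U j t x →
        ENNReal.ofReal |GG (g (x + t • (bs j : E m))) (D i) - GG (g x) (D i)| ≤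
          ∫⁻ s in Ioc (0 : ℝ) t, h j (x + s • (bs j : E m)) := by
      rw [ae_all_iff]
      intro i
      exact hDQA m U j (fun x => GG (g x) (D i)) (h j) hU (hD2 i) (hA.1 j) (hhj j)
        (hA.2 (D i) j) t ht
    filter_upwards [h1] with x hx hseg
    have h2 := gg_le hGGM D hD (g (x + t • (bs j : E m))) (g x) _ (fun i => hx i hseg)
    exact (ENNReal.ofReal_le_ofReal (hl _ _)).trans h2
  have h2 : ∀ j, ∃ G : E m → ℝ, MemLp G 2 (volume.restrict U) ∧
      (∀ ζ, TF U ζ → ∫ x, l (g x) * fderiv ℝ ζ x (bs j) = -∫ x, G x * ζ x) ∧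
      ∀ᵐ x ∂(volume.restrict U), ENNReal.ofReal |G x| ≤ h j x := fun j =>
    hWDX m U j (fun x => l (g x)) (h j) hU hl2 (hA.1 j) (hhj j) (hDB j)
  choose G hG1 hG2 hG3 using h2
  exact ⟨G, ⟨hl2, hG1, fun ζ hζ j => hG2 j ζ hζ⟩, hG3⟩

end Pool.Agent.CAL
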