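import Pool.Agent.CAL.Stmts

set_option autoImplicit false

namespace Pool.Agent.CAL

open MeasureTheory Set Metric Filter Topology
open scoped ENNReal
open Pool.Agent.COB

theorem SPL_cont_yy (d : ℕ) : Continuous (yy (d := d)) := by
  unfold yy; fun_prop

theorem SPL_cont_hz (d : ℕ) : Continuous (hz (d := d)) := by
  unfold hz; fun_prop

theorem SPL_openBx (d : ℕ) : IsOpen (Bx d) := by
  have : Bx d = Set.pi Set.univ (fun _ : Fin d => Ioo (0 : ℝ) 1) := by
    ext x; simp [Bx, Set.mem_pi]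
  rw [this]
  exact isOpen_set_pi Set.finite_univ (fun _ _ => isOpen_Ioo)

theorem SPL_openOm (d : ℕ) : IsOpen (Om d) := by
  exact ((SPL_openBx d).preimage (SPL_cont_hz d)).inter (isOpen_Ioo.preimage (SPL_cont_yy d))

theorem SPL_openOp (d : ℕ) : IsOpen (Op d) :=
  (SPL_openOm d).inter (isOpen_lt continuous_const (SPL_cont_yy d))

theorem SPL_openOmi (d : ℕ) : IsOpen (Omi d) :=
  (SPL_openOm d).inter (isOpen_lt (SPL_cont_yy d) continuous_const)

theorem SPL_convex (d : ℕ) : Convex ℝ (Om d) := by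
  intro x hx y hy a b ha hb hab
  have key : ∀ (l u s t : ℝ), l < s → s < u → l < t → t < u → l < a * s + b * t ∧
      a * s + b * t < u := by
    intro l u s t h1 h2 h3 h4
    have hc : Convex ℝ (Ioo l u) := convex_Ioo l u
    have := hc (x := s) ⟨h1, h2⟩ (y := t) ⟨h3, h4⟩ ha hb hab
    simpa [smul_eq_mul] using this
  refine ⟨fun j => ?_, ?_⟩
  · have h1 := hx.1 j
    have h2 := hy.1 j
    have := key 0 1 _ _ h1.1 h1.2 h2.1 h2.2
    show (0 < (a • x + b • y) j.castSucc ∧ (a • x + b • y) j.castSucc < 1)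
    simpa [hz] using this
  · have h1 := hx.2
    have h2 := hy.2
    have := key (-1) 1 _ _ h1.1 h1.2 h2.1 h2.2
    show (-1 < (a • x + b • y) (Fin.last d) ∧ (a • x + b • y) (Fin.last d) < 1)
    simpa [yy] using this

theorem SPL_nonempty (d : ℕ) : (Om d).Nonempty := by
  refine ⟨mk (fun _ => 1 / 2) 0, ?_, ?_⟩
  · intro j
    simp only [hz, mk, Fin.snoc_castSucc]
    constructor <;> norm_num
  · simp only [yy, mk, Fin.snoc_last]
    constructor <;> norm_num

theorem SPL_bounded (d : ℕ) : Om d ⊆ closedBall (0 : E (d + 1)) (Real.sqrt (d + 1)) := by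
  intro x hx
  rw [mem_closedBall, dist_zero_right, EuclideanSpace.norm_eq]
  apply Real.sqrt_le_sqrt
  have h : ∀ i : Fin (d + 1), ‖x i‖ ^ 2 ≤ 1 := by
    intro i
    have h1 : ‖x i‖ ≤ 1 := by
      refine Fin.lastCases ?_ (fun j => ?_) i
      · have := hx.2
        rw [Real.norm_eq_abs, abs_le]
        exact ⟨this.1.le, this.2.le⟩
      · have := hx.1 j
        rw [Real.norm_eq_abs, abs_le]
        have h0 : (0 : ℝ) < x j.castSucc := this.1
        have h2 : x j.castSucc < 1 := this.2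
        constructor <;> linarith
    have h0 := norm_nonneg (x i)
    nlinarith
  calc ∑ i, ‖x i‖ ^ 2 ≤ ∑ _i : Fin (d + 1), (1 : ℝ) := Finset.sum_le_sum (fun i _ => h i)
    _ = (d : ℝ) + 1 := by simp

/-- the last coordinate as a continuous linear map -/
noncomputable def SPL_pr (d : ℕ) : E (d + 1) →L[ℝ] ℝ := EuclideanSpace.proj (Fin.last d)

theorem SPL_pr_eq (d : ℕ) : (yy (d := d)) = fun x => SPL_pr d x := rfl

theorem SPL_fderiv (d : ℕ) (p : E (d + 1)) : fderiv ℝ (yy (d := d)) p ≠ 0 := by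
  intro h
  rw [SPL_pr_eq] at h
  have h2 := (SPL_pr d).fderiv (x := p)
  have h3 : SPL_pr d = 0 := h2.symm.trans h
  have h4 := DFunLike.congr_fun h3 (EuclideanSpace.single (Fin.last d) (1 : ℝ))
  simp [SPL_pr] at h4

theorem spl_proof : Stmt_SPL := by
  intro d
  refine ⟨⟨SPL_openOm d, SPL_openOp d, SPL_openOmi d, ?_, ?_, ?_, ?_, ?_⟩, ?_, ?_, ?_⟩
  · ext x
    simp only [Op, Omi, ga, mem_union, mem_ofPred_eq]
    constructor
    · intro hx
      rcases lt_trichotomy (yy x) 0 with h | h | h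
      · exact Or.inr ⟨hx, h⟩
      · exact Or.inl (Or.inr ⟨hx, h⟩)
      · exact Or.inl (Or.inl ⟨hx, h⟩)
    · rintro ((h | h) | h)
      · exact h.1
      · exact h.1
      · exact h.1
  · rw [Set.disjoint_left]
    rintro x ⟨_, h1⟩ ⟨_, h2⟩
    linarith
  · rw [Set.disjoint_left]
    rintro x ⟨_, h1⟩ ⟨_, h2⟩
    linarith
  · rw [Set.disjoint_left]
    rintro x ⟨_, h1⟩ ⟨_, h2⟩
    linarith
  · intro p hp
    refine ⟨Om d, SPL_openOm d, hp.1, yy, ?_, SPL_fderiv d p, ?_⟩
    · apply ContDiff.contDiffOn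
      rw [SPL_pr_eq]
      exact (SPL_pr d).contDiff
    · intro x hx
      refine ⟨⟨fun h => h.2, fun h => ⟨hx, h⟩⟩, ⟨fun h => h.2, fun h => ⟨hx, h⟩⟩,
        ⟨fun h => h.2, fun h => ⟨hx, h⟩⟩⟩
  · exact ⟨SPL_nonempty d, (SPL_convex d).isPreconnected⟩
  · exact lt_of_le_of_lt (measure_mono (SPL_bounded d)) measure_closedBall_lt_top
  · exact (SPL_openOm d).measurableSet.inter
      ((SPL_cont_yy d).measurable (measurableSet_singleton 0))

end Pool.Agent.CAL
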