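import Pool.Agent.CAL.Stmts

/-!
# TAN: a.e. relations for the gradient of `ι ∘ w`
-/

set_option autoImplicit false

namespace Pool.Agent.CAL

open MeasureTheory Set Metric Filter Topology
open scoped ENNReal
open Pool.Agent.COB

namespace TAN_

variable {m : ℕ}

/-- test functions may be multiplied -/
theorem int_mul {U : Set (E m)} {g η : E m → ℝ} (hg : LocallyIntegrableOn g U)
    (hη : Continuous η) (hc : HasCompactSupport η) (hs : tsupport η ⊆ U) :
    Integrable (fun x => g x * η x) := by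
  have hK : IsCompact (tsupport η) := hc
  have h1 : IntegrableOn g (tsupport η) := hg.integrableOn_compact_subset hs hK
  have h2 : IntegrableOn (fun x => g x * η x) (tsupport η) :=
    h1.mul_continuousOn hη.continuousOn hK
  refine (integrableOn_iff_integrable_of_support_subset ?_).1 h2
  intro x hx
  apply subset_tsupport
  intro h0
  apply hx
  show g x * η x = 0
  rw [h0, mul_zero]

/-- weak derivative -/
structure WD (U : Set (E m)) (j : Fin m) (f g : E m → ℝ) : Prop where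
  lf : LocallyIntegrableOn f U
  lg : LocallyIntegrableOn g U
  ibp : ∀ ζ, TF U ζ → ∫ x, f x * fderiv ℝ ζ x (bs j) = -∫ x, g x * ζ x

theorem int_d {U : Set (E m)} {f ζ : E m → ℝ} (hf : LocallyIntegrableOn f U) (hζ : TF U ζ)
    (j : Fin m) : Integrable (fun x => f x * fderiv ℝ ζ x (bs j)) := by
  have h1 : Continuous (fun x => fderiv ℝ ζ x (bs j)) :=
    (hζ.1.continuous_fderiv (by simp)).clm_apply continuous_const
  exact int_mul hf h1 (hζ.2.1.fderiv_apply ℝ _) ((tsupport_fderiv_apply_subset ℝ _).trans hζ.2.2)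

theorem int_z {U : Set (E m)} {g ζ : E m → ℝ} (hg : LocallyIntegrableOn g U) (hζ : TF U ζ) :
    Integrable (fun x => g x * ζ x) :=
  int_mul hg hζ.1.continuous hζ.2.1 hζ.2.2

theorem WD.add {U : Set (E m)} {j : Fin m} {f g f' g' : E m → ℝ} (h : WD U j f g)
    (h' : WD U j f' g') : WD U j (fun x => f x + f' x) (fun x => g x + g' x) := by
  refine ⟨h.lf.add h'.lf, h.lg.add h'.lg, fun ζ hζ => ?_⟩
  simp only [add_mul]
  rw [integral_add (int_d h.lf hζ j) (int_d h'.lf hζ j), integral_add (int_z h.lg hζ)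
    (int_z h'.lg hζ), h.ibp ζ hζ, h'.ibp ζ hζ]
  ring

theorem WD.sub {U : Set (E m)} {j : Fin m} {f g f' g' : E m → ℝ} (h : WD U j f g)
    (h' : WD U j f' g') : WD U j (fun x => f x - f' x) (fun x => g x - g' x) := by
  refine ⟨h.lf.sub h'.lf, h.lg.sub h'.lg, fun ζ hζ => ?_⟩
  simp only [sub_mul]
  rw [integral_sub (int_d h.lf hζ j) (int_d h'.lf hζ j), integral_sub (int_z h.lg hζ)
    (int_z h'.lg hζ), h.ibp ζ hζ, h'.ibp ζ hζ]
  ring

theorem WD.zero {U : Set (E m)} {j : Fin m} : WD U j (fun _ => 0) (fun _ => 0) := by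
  have h0 : LocallyIntegrableOn (fun _ : E m => (0 : ℝ)) U :=
    (locallyIntegrable_const (0 : ℝ)).locallyIntegrableOn U
  exact ⟨h0, h0, fun ζ _ => by simp⟩

theorem WD.sum {U : Set (E m)} {j : Fin m} {ι : Type} (s : Finset ι) (f g : ι → E m → ℝ)
    (h : ∀ i ∈ s, WD U j (f i) (g i)) :
    WD U j (fun x => ∑ i ∈ s, f i x) (fun x => ∑ i ∈ s, g i x) := by
  classical
  induction s using Finset.induction_on with
  | empty => simpa using WD.zero
  | insert i s hi ih =>
    simp only [Finset.sum_insert hi]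
    exact (h i (Finset.mem_insert_self i s)).add
      (ih fun k hk => h k (Finset.mem_insert_of_mem hk))

theorem loc2 {U : Set (E m)} {f : E m → ℝ} (hf : MemLp f 2 (volume.restrict U)) :
    LocallyIntegrableOn f U :=
  locallyIntegrableOn_of_locallyIntegrable_restrict (hf.locallyIntegrable (by norm_num))

theorem WD.of_w12 {U : Set (E m)} {f : E m → ℝ} {g : Fin m → E m → ℝ} (h : W12 U f g)
    (j : Fin m) : WD U j f (g j) :=
  ⟨loc2 h.f2, loc2 (h.g2 j), fun ζ hζ => h.ibp ζ hζ j⟩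

theorem loc22 {U : Set (E m)} {f g : E m → ℝ} (hf : MemLp f 2 (volume.restrict U))
    (hg : MemLp g 2 (volume.restrict U)) : LocallyIntegrableOn (fun x => f x * g x) U := by
  have h : IntegrableOn (fun x => f x * g x) U := hf.integrable_mul hg
  exact h.locallyIntegrableOn

theorem WD.mul (hPRD : Stmt_PRD) {U : Set (E m)} (hU : IsOpen U) {u w : E m → ℝ}
    {gu gw : Fin m → E m → ℝ} (hu : W12 U u gu) (hw : W12 U w gw) (j : Fin m) :
    WD U j (fun x => u x * w x) (fun x => u x * gw j x + gu j x * w x) :=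
  ⟨loc22 hu.f2 hw.f2, (loc22 hu.f2 (hw.g2 j)).add (loc22 (hu.g2 j) hw.f2),
    fun ζ hζ => hPRD m U u w gu gw hU hu hw ζ hζ j⟩

/-- uniqueness -/
theorem WD.eq (hUNQ : Stmt_UNQ) {U : Set (E m)} (hU : IsOpen U) {j : Fin m}
    {f g f' g' : E m → ℝ} (h : WD U j f g) (h' : WD U j f' g') (hf : ∀ x, f x = f' x) :
    ∀ᵐ x ∂(volume.restrict U), g x = g' x := by
  have h1 := h.sub h'
  have h2 := hUNQ m U (fun x => g x - g' x) hU h1.lg (by
    intro ζ hζ
    have h3 := h1.ibp ζ hζ
    have h4 : ∀ x, (f x - f' x) * fderiv ℝ ζ x (bs j) = 0 := by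
      intro x
      rw [hf x, sub_self, zero_mul]
    simp only [h4, integral_zero] at h3
    linarith)
  filter_upwards [h2] with x hx
  linarith

theorem nsq {n : ℕ} (s : E n) : ∑ a, s a * s a = ‖s‖ ^ 2 := by
  rw [EuclideanSpace.real_norm_sq_eq]
  refine Finset.sum_congr rfl fun i _ => ?_
  ring

end TAN_

open TAN_

theorem tan_proof (hPRD : Stmt_PRD) (hUNQ : Stmt_UNQ) (hZER : Stmt_ZER) : Stmt_TAN := by
  intro m n U w G hU hW
  rw [ae_all_iff]
  intro j
  -- symmetry
  have c1 : ∀ a b : Fin n, ∀ᵐ x ∂(volume.restrict U), bG G b x j a = bG G a x j b := by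
    intro a b
    refine WD.eq hUNQ hU (WD.of_w12 (hW (Sum.inr (Sum.inl (a, b)))) j)
      (WD.of_w12 (hW (Sum.inr (Sum.inl (b, a)))) j) ?_
    intro x
    show hd (w x) a * hd (w x) b / ‖hd (w x)‖ = hd (w x) b * hd (w x) a / ‖hd (w x)‖
    rw [mul_comm]
  have c2 : ∀ a b : Fin n, ∀ᵐ x ∂(volume.restrict U),
      ∑ c, (bG G c x j a * (hd (w x) c * hd (w x) b / ‖hd (w x)‖) +
        (hd (w x) a * hd (w x) c / ‖hd (w x)‖) * bG G b x j c) =
      G (Sum.inr (Sum.inr ())) j x * (hd (w x) a * hd (w x) b / ‖hd (w x)‖) +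
        ‖hd (w x)‖ * bG G b x j a := by
    intro a b
    have h1 := WD.sum (U := U) (j := j) Finset.univ
      (fun c x => io (w x) (Sum.inr (Sum.inl (a, c))) * io (w x) (Sum.inr (Sum.inl (c, b))))
      (fun c x => io (w x) (Sum.inr (Sum.inl (a, c))) * G (Sum.inr (Sum.inl (c, b))) j x +
        G (Sum.inr (Sum.inl (a, c))) j x * io (w x) (Sum.inr (Sum.inl (c, b))))
      (fun c _ => WD.mul hPRD hU (hW (Sum.inr (Sum.inl (a, c)))) (hW (Sum.inr (Sum.inl (c, b)))) j)
    have h2 := WD.mul hPRD hU (hW (Sum.inr (Sum.inr ()))) (hW (Sum.inr (Sum.inl (a, b)))) j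
    have h3 := WD.eq hUNQ hU h1 h2 (by
      intro x
      show ∑ c, (hd (w x) a * hd (w x) c / ‖hd (w x)‖) * (hd (w x) c * hd (w x) b / ‖hd (w x)‖) =
        ‖hd (w x)‖ * (hd (w x) a * hd (w x) b / ‖hd (w x)‖)
      set s := hd (w x)
      by_cases hs : ‖s‖ = 0
      · rw [hs]
        simp
      · have e1 : ∀ c, (s a * s c / ‖s‖) * (s c * s b / ‖s‖) =
            (s a * s b / ‖s‖ ^ 2) * (s c * s c) := by
          intro c
          field_simp
        simp only [e1]
        rw [← Finset.mul_sum, nsq]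
        field_simp)
    filter_upwards [h3] with x hx
    have h4 : ∑ c, (io (w x) (Sum.inr (Sum.inl (a, c))) * G (Sum.inr (Sum.inl (c, b))) j x +
        G (Sum.inr (Sum.inl (a, c))) j x * io (w x) (Sum.inr (Sum.inl (c, b)))) =
        ∑ c, (bG G c x j a * (hd (w x) c * hd (w x) b / ‖hd (w x)‖) +
        (hd (w x) a * hd (w x) c / ‖hd (w x)‖) * bG G b x j c) := by
      refine Finset.sum_congr rfl fun c _ => ?_
      rw [add_comm]
      rfl
    rw [← h4, hx, add_comm]
    rfl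
  have c3 : ∀ᵐ x ∂(volume.restrict U), ∑ a, bG G a x j a = G (Sum.inr (Sum.inr ())) j x := by
    have h1 := WD.sum (U := U) (j := j) Finset.univ
      (fun a x => io (w x) (Sum.inr (Sum.inl (a, a))))
      (fun a x => G (Sum.inr (Sum.inl (a, a))) j x)
      (fun a _ => WD.of_w12 (hW (Sum.inr (Sum.inl (a, a)))) j)
    refine WD.eq hUNQ hU h1 (WD.of_w12 (hW (Sum.inr (Sum.inr ()))) j) ?_
    intro x
    show ∑ a, hd (w x) a * hd (w x) a / ‖hd (w x)‖ = ‖hd (w x)‖
    rw [← Finset.sum_div, nsq]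
    by_cases hs : ‖hd (w x)‖ = 0
    · rw [hs]
      simp
    · field_simp
  have c4 := hZER m U _ _ hU (hW (Sum.inr (Sum.inr ()))) j
  have c5 : ∀ a b : Fin n, ∀ᵐ x ∂(volume.restrict U),
      io (w x) (Sum.inr (Sum.inl (a, b))) = 0 → G (Sum.inr (Sum.inl (a, b))) j x = 0 :=
    fun a b => hZER m U _ _ hU (hW (Sum.inr (Sum.inl (a, b)))) j
  have c1' := ae_all_iff.2 fun a => ae_all_iff.2 fun b => c1 a b
  have c2' := ae_all_iff.2 fun a => ae_all_iff.2 fun b => c2 a b
  have c5' := ae_all_iff.2 fun a => ae_all_iff.2 fun b => c5 a b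
  filter_upwards [c1', c2', c3, c4, c5'] with x h1 h2 h3 h4 h5
  refine ⟨h1, h2, h3, fun h0 => ⟨fun a b => ?_, ?_⟩⟩
  · refine h5 a b ?_
    show hd (w x) a * hd (w x) b / ‖hd (w x)‖ = 0
    rw [h0, norm_zero, div_zero]
  · refine h4 ?_
    show ‖hd (w x)‖ = 0
    rw [h0, norm_zero]

end Pool.Agent.CAL
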