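import Pool.Agent.CAL.Stmts

/-!
Squad CAL, module TNI: the integral of the calibration density depends only on the boundary values.
-/

set_option autoImplicit false

namespace Pool.Agent.CAL

open MeasureTheory Set Metric Filter Topology
open scoped ENNReal
open Pool.Agent.COB

namespace TNI_

variable {m n d : ℕ}

/-- the quadratic form -/
def SS (c : Fin m → Fin m → Fin n → Fin n → ℝ) (g : Fin n → Fin m → E m → ℝ) (x : E m) : ℝ :=
  ∑ i, ∑ j, ∑ a, ∑ b, c i j a b * g a i x * g b j x

theorem SS_int (c : Fin m → Fin m → Fin n → Fin n → ℝ) (U : Set (E m))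
    (g : Fin n → Fin m → E m → ℝ) (h : ∀ a i, MemLp (g a i) 2 (volume.restrict U)) :
    IntegrableOn (SS c g) U := by
  unfold SS IntegrableOn
  refine integrable_finsetSum _ fun i _ => integrable_finsetSum _ fun j _ =>
    integrable_finsetSum _ fun a _ => integrable_finsetSum _ fun b _ => ?_
  have h1 : Integrable (fun x => g a i x * g b j x) (volume.restrict U) :=
    (h a i).integrable_mul (h b j)
  have h2 := h1.const_mul (c i j a b)
  simpa only [mul_assoc] using h2

theorem TN_eq (A : Fin d → (E n →L[ℝ] E n)) (c : Fin (d + 1) → Fin (d + 1) → Fin n → Fin n → ℝ)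
    (hc : ∀ q : Fin (d + 1) → E n, NN A q = ∑ i, ∑ j, ∑ a, ∑ b, c i j a b * q i a * q j b)
    (G : Ix n → Fin (d + 1) → E (d + 1) → ℝ) (x : E (d + 1)) :
    TN A G x = SS c (fun a => G (Sum.inl a)) x +
      2 * ∑ k, SS c (fun a => G (Sum.inr (Sum.inl (a, k)))) x := by
  have h1 : 2 * NN A (aG G x) = SS c (fun a => G (Sum.inl a)) x := by
    rw [hc, SS, Finset.mul_sum]
    refine Finset.sum_congr rfl fun i _ => ?_
    rw [Finset.mul_sum]
    refine Finset.sum_congr rfl fun j _ => ?_
    rw [Finset.mul_sum]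
    refine Finset.sum_congr rfl fun a _ => ?_
    rw [Finset.mul_sum]
    refine Finset.sum_congr rfl fun b _ => ?_
    show 2 * (c i j a b * (G (Sum.inl a) i x / Real.sqrt 2) * (G (Sum.inl b) j x / Real.sqrt 2)) =
      c i j a b * G (Sum.inl a) i x * G (Sum.inl b) j x
    have h2 : Real.sqrt 2 * Real.sqrt 2 = 2 := Real.mul_self_sqrt (by norm_num)
    have h3 : Real.sqrt 2 ≠ 0 := by positivity
    rw [show 2 * (c i j a b * (G (Sum.inl a) i x / Real.sqrt 2) *
      (G (Sum.inl b) j x / Real.sqrt 2)) = 2 * (c i j a b * G (Sum.inl a) i x *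
      G (Sum.inl b) j x) / (Real.sqrt 2 * Real.sqrt 2) by field_simp, h2]
    field_simp
  have h2 : ∀ k, NN A (bG G k x) = SS c (fun a => G (Sum.inr (Sum.inl (a, k)))) x := by
    intro k
    rw [hc]
    rfl
  rw [TN, h1]
  simp only [h2]

end TNI_

open TNI_

theorem tni_proof (hNUL : Stmt_NUL) (hNLF : Stmt_NLF) : Stmt_TNI := by
  intro d n A U w w' G G' hA hU hG hG' hK
  obtain ⟨K, hKU, hKc, hK⟩ := hK
  obtain ⟨c, hc1, hc2⟩ := hNLF d n A hA
  have e1 : TN A G = fun x => SS c (fun a => G (Sum.inl a)) x +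
      2 * ∑ k, SS c (fun a => G (Sum.inr (Sum.inl (a, k)))) x := by
    funext x
    exact TN_eq A c hc2 G x
  have e2 : TN A G' = fun x => SS c (fun a => G' (Sum.inl a)) x +
      2 * ∑ k, SS c (fun a => G' (Sum.inr (Sum.inl (a, k)))) x := by
    funext x
    exact TN_eq A c hc2 G' x
  have i1 : IntegrableOn (SS c (fun a => G (Sum.inl a))) U :=
    SS_int c U _ fun a i => (hG (Sum.inl a)).g2 i
  have i2 : ∀ k, IntegrableOn (SS c (fun a => G (Sum.inr (Sum.inl (a, k))))) U :=
    fun k => SS_int c U _ fun a i => (hG (Sum.inr (Sum.inl (a, k)))).g2 i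
  have i1' : IntegrableOn (SS c (fun a => G' (Sum.inl a))) U :=
    SS_int c U _ fun a i => (hG' (Sum.inl a)).g2 i
  have i2' : ∀ k, IntegrableOn (SS c (fun a => G' (Sum.inr (Sum.inl (a, k))))) U :=
    fun k => SS_int c U _ fun a i => (hG' (Sum.inr (Sum.inl (a, k)))).g2 i
  have j2 : Integrable (fun x => 2 * ∑ k, SS c (fun a => G (Sum.inr (Sum.inl (a, k)))) x)
      (volume.restrict U) := (integrable_finsetSum _ fun k _ => i2 k).const_mul 2
  have j2' : Integrable (fun x => 2 * ∑ k, SS c (fun a => G' (Sum.inr (Sum.inl (a, k)))) x)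
      (volume.restrict U) := (integrable_finsetSum _ fun k _ => i2' k).const_mul 2
  refine ⟨?_, ?_, ?_⟩
  · rw [e1]
    exact i1.add j2
  · rw [e2]
    exact i1'.add j2'
  · have n1 : ∫ x in U, SS c (fun a => G (Sum.inl a)) x =
        ∫ x in U, SS c (fun a => G' (Sum.inl a)) x := by
      refine hNUL (d + 1) n U c (fun a x => io (w x) (Sum.inl a)) (fun a x => io (w' x) (Sum.inl a))
        _ _ hU hc1 (fun a => hG (Sum.inl a)) (fun a => hG' (Sum.inl a)) ⟨K, hKU, hKc, fun a => ?_⟩
      filter_upwards [hK] with x hx hxU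
      rw [hx hxU]
    have n2 : ∀ k, ∫ x in U, SS c (fun a => G (Sum.inr (Sum.inl (a, k)))) x =
        ∫ x in U, SS c (fun a => G' (Sum.inr (Sum.inl (a, k)))) x := by
      intro k
      refine hNUL (d + 1) n U c (fun a x => io (w x) (Sum.inr (Sum.inl (a, k))))
        (fun a x => io (w' x) (Sum.inr (Sum.inl (a, k))))
        _ _ hU hc1 (fun a => hG (Sum.inr (Sum.inl (a, k))))
        (fun a => hG' (Sum.inr (Sum.inl (a, k)))) ⟨K, hKU, hKc, fun a => ?_⟩
      filter_upwards [hK] with x hx hxU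
      rw [hx hxU]
    rw [e1, e2, integral_add i1 j2, integral_add i1' j2', integral_const_mul,
      integral_const_mul, integral_finsetSum _ fun k _ => i2 k,
      integral_finsetSum _ fun k _ => i2' k, n1]
    simp only [n2]

end Pool.Agent.CAL
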