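import Pool.Agent.CAL.Stmts

set_option autoImplicit false

namespace Pool.Agent.CAL

open MeasureTheory Set Metric Filter Topology
open scoped ENNReal
open Pool.Agent.COB

namespace TWO_

lemma GG_le {n Q : ℕ} (a b : Fin Q → E n) :
    GG (tup a) (tup b) ≤ Real.sqrt (∑ i, ‖a i - b i‖ ^ 2) := by
  apply csInf_le
  · exact ⟨0, by rintro r ⟨a, b, -, -, rfl⟩; exact Real.sqrt_nonneg _⟩
  · exact ⟨a, b, rfl, rfl, rfl⟩

lemma GG_le2 {n : ℕ} (p q p' q' : E n) :
    GG (tup ![p, q]) (tup ![p', q']) ≤ ‖p - p'‖ + ‖q - q'‖ := by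
  refine (GG_le _ _).trans ?_
  rw [Fin.sum_univ_two]
  simp only [Matrix.cons_val_zero, Matrix.cons_val_one]
  apply Real.sqrt_le_iff.2
  constructor
  · positivity
  · nlinarith [norm_nonneg (p - p'), norm_nonneg (q - q')]

lemma nrm_le {n : ℕ} (p : E n) : ‖p‖ ≤ ∑ a, |p a| := by
  have h : p = ∑ a, p a • (bs a : E n) := by
    ext i
    simp [Pi.single_apply]
  calc ‖p‖ = ‖∑ a, p a • (bs a : E n)‖ := by rw [← h]
    _ ≤ ∑ a, ‖p a • (bs a : E n)‖ := norm_sum_le _ _
    _ = ∑ a, |p a| := by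
        refine Finset.sum_congr rfl fun a _ => ?_
        rw [norm_smul]
        simp [bs]

lemma repl {n : ℕ} : (Sym.replicate 2 (0 : E n)) = tup ![0, 0] := by
  apply Subtype.ext
  simp [tup, Sym.replicate, Multiset.replicate_succ]
  rfl

/-- a measurable bound of the weak derivative -/
lemma db {m : ℕ} {U : Set (E m)} {f : E m → ℝ} {g : Fin m → E m → ℝ}
    (hU : IsOpen U) (hw : W12 U f g) (j : Fin m) :
    ∃ s : E m → ℝ, Measurable s ∧ MemLp s 2 (volume.restrict U) ∧
      DerivBound U (bs j) f (fun x => ENNReal.ofReal |s x|) := by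
  have h2 := hw.g2 j
  set s := h2.1.aemeasurable.mk (g j) with hs
  have hae : g j =ᵐ[volume.restrict U] s := h2.1.aemeasurable.ae_eq_mk
  refine ⟨s, h2.1.aemeasurable.measurable_mk, h2.ae_eq hae, ?_⟩
  intro ζ h1 h3 h4
  rw [hw.ibp ζ ⟨h1, h3, h4⟩ j, abs_neg]
  have hz : ∀ x, x ∉ U → ζ x = 0 := fun x hx =>
    image_eq_zero_of_notMem_tsupport (fun h => hx (h4 h))
  have hae' : ∀ᵐ x ∂volume, x ∈ U → g j x = s x :=
    (ae_restrict_iff' hU.measurableSet).1 hae
  calc ENNReal.ofReal |∫ x, g j x * ζ x| = ‖∫ x, g j x * ζ x‖ₑ := by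
        rw [← Real.norm_eq_abs, ofReal_norm]
    _ ≤ ∫⁻ x, ‖g j x * ζ x‖ₑ := enorm_integral_le_lintegral_enorm _
    _ = ∫⁻ x, ENNReal.ofReal |s x| * ENNReal.ofReal |ζ x| := by
        refine lintegral_congr_ae ?_
        filter_upwards [hae'] with x hx
        by_cases hxU : x ∈ U
        · rw [hx hxU, enorm_mul, ← ofReal_norm, ← ofReal_norm]
          rfl
        · simp [hz x hxU]

lemma aem {m n : ℕ} {U : Set (E m)} {p : E m → E n}
    (hp : ∀ a, AEMeasurable (fun x => p x a) (volume.restrict U)) :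
    AEMeasurable p (volume.restrict U) :=
  (PiLp.continuous_toLp 2 (fun _ : Fin n => ℝ)).measurable.comp_aemeasurable
    (aemeasurable_pi_iff.2 hp)

lemma absGG (hM : Stmt_GGM) {n Q : ℕ} (S S' T : Sym (E n) Q) : |GG S T - GG S' T| ≤ GG S S' := by
  have h1 := (hM Q n S T S').2.2.2
  have h2 := (hM Q n S' T S).2.2.2
  have h3 := (hM Q n S' S S).2.2.1
  rw [abs_le]; constructor <;> linarith

lemma cont (hM : Stmt_GGM) {n : ℕ} (T : Sym (E n) 2) :
    Continuous (fun z : E n × E n => GG (tup ![z.1, z.2]) T) := by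
  have : LipschitzWith 2 (fun z : E n × E n => GG (tup ![z.1, z.2]) T) := by
    refine LipschitzWith.of_dist_le_mul fun z w => ?_
    rw [Real.dist_eq]
    refine (absGG hM _ _ _).trans ((GG_le2 _ _ _ _).trans ?_)
    have h1 : dist z.1 w.1 ≤ dist z w := le_max_left _ _
    have h2 : dist z.2 w.2 ≤ dist z w := le_max_right _ _
    rw [dist_eq_norm] at h1 h2
    show _ ≤ (2 : ℝ) * dist z w
    linarith
  exact this.continuous

lemma sq_fin {m : ℕ} {U : Set (E m)} {s : E m → ℝ} (hs : MemLp s 2 (volume.restrict U)) :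
    ∫⁻ x in U, ENNReal.ofReal (s x ^ 2) < ⊤ := hs.integrable_sq.lintegral_lt_top

lemma sq_fin' {m : ℕ} {U : Set (E m)} {s : E m → ℝ} (hs : MemLp s 2 (volume.restrict U)) :
    ∫⁻ x in U, ENNReal.ofReal |s x| ^ 2 < ⊤ := by
  have := sq_fin hs
  refine lt_of_eq_of_lt (lintegral_congr fun x => ?_) this
  rw [← ENNReal.ofReal_pow (abs_nonneg _), sq_abs]

end TWO_

open TWO_ in
theorem two_proof (hDQA : Stmt_DQA) (hDQB : Stmt_DQB) (_hGGF : Stmt_GGF) (hGGM : Stmt_GGM)
    (hLO2 : Stmt_LO2) : Stmt_TWO := by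
  intro m n U p q P R hU hv hp hq
  suffices hMW : MemW U (fun x => tup ![p x, q x]) by
    obtain ⟨G, hG, -⟩ := hLO2 m n U (fun x => tup ![p x, q x]) hU hv hMW
    exact ⟨G, hG⟩
  have : IsFiniteMeasure (volume.restrict U) := ⟨by simpa using hv⟩
  have hpm : AEMeasurable p (volume.restrict U) := aem fun a => (hp a).f2.1.aemeasurable
  have hqm : AEMeasurable q (volume.restrict U) := aem fun a => (hq a).f2.1.aemeasurable
  have hmeas : ∀ T : Sym (E n) 2,
      AEStronglyMeasurable (fun x => GG (tup ![p x, q x]) T) (volume.restrict U) := by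
    intro T
    exact ((cont hGGM T).measurable.comp_aemeasurable (hpm.prodMk hqm)).aestronglyMeasurable
  have hbd : MemLp (fun x => ∑ a, |p x a| + ∑ a, |q x a|) 2 (volume.restrict U) := by
    refine MemLp.add ?_ ?_
    · exact memLp_finsetSum _ fun a _ => (hp a).f2.abs
    · exact memLp_finsetSum _ fun a _ => (hq a).f2.abs
  have hg0 : ∀ x, GG (tup ![p x, q x]) (Sym.replicate 2 0) ≤ ∑ a, |p x a| + ∑ a, |q x a| := by
    intro x
    rw [repl]
    refine (GG_le2 _ _ _ _).trans ?_
    simp only [sub_zero]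
    exact add_le_add (nrm_le _) (nrm_le _)
  have hMT : ∀ T : Sym (E n) 2,
      MemLp (fun x => GG (tup ![p x, q x]) T) 2 (volume.restrict U) := by
    intro T
    refine MemLp.mono (hbd.add (memLp_const (GG (Sym.replicate 2 0) T))) (hmeas T) ?_
    refine Eventually.of_forall fun x => ?_
    have h1 := (hGGM 2 n (tup ![p x, q x]) T (Sym.replicate 2 0)).2.2.2
    have h2 := (hGGM 2 n (tup ![p x, q x]) T T).1
    rw [Real.norm_eq_abs, abs_of_nonneg h2]
    refine le_trans ?_ (le_abs_self _)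
    simp only [Pi.add_apply]
    linarith [hg0 x]
  refine ⟨hmeas, sq_fin (hMT _), ?_⟩
  choose sp hsp1 hsp2 hsp3 using fun a j => db hU (hp a) j
  choose sq hsq1 hsq2 hsq3 using fun a j => db hU (hq a) j
  set s : Fin m → E m → ℝ := fun j x => ∑ a, |sp a j x| + ∑ a, |sq a j x| with hs
  have hsm : ∀ j, Measurable (s j) := by
    intro j
    refine Measurable.add ?_ ?_
    · exact Finset.measurable_sum _ fun a _ => (continuous_abs.measurable.comp (hsp1 a j))
    · exact Finset.measurable_sum _ fun a _ => (continuous_abs.measurable.comp (hsq1 a j))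
  have hs2 : ∀ j, MemLp (s j) 2 (volume.restrict U) := by
    intro j
    refine MemLp.add ?_ ?_
    · exact memLp_finsetSum _ fun a _ => (hsp2 a j).abs
    · exact memLp_finsetSum _ fun a _ => (hsq2 a j).abs
  have hs0 : ∀ j x, 0 ≤ s j x := fun j x => by
    have : 0 ≤ ∑ a, |sp a j x| := Finset.sum_nonneg fun _ _ => abs_nonneg _
    have : 0 ≤ ∑ a, |sq a j x| := Finset.sum_nonneg fun _ _ => abs_nonneg _
    simp only [hs]; positivity
  have hfin : ∀ j, ∫⁻ x in U, ENNReal.ofReal (s j x) ^ 2 < ⊤ := by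
    intro j
    have := sq_fin (hs2 j)
    simpa only [ENNReal.ofReal_pow (hs0 j _)] using this
  have hadm : Adm U (fun x => tup ![p x, q x]) (fun j x => ENNReal.ofReal (s j x)) := by
    refine ⟨fun j => (hsm j).ennreal_ofReal, fun T j => ?_⟩
    refine hDQB m U j _ _ hU (hMT T) (hsm j).ennreal_ofReal (hfin j) fun t ht => ?_
    have h1 : ∀ᵐ x : E m, ∀ a, Seg U j t x →
        ENNReal.ofReal |p (x + t • (bs j : E m)) a - p x a| ≤
          ∫⁻ s in Ioc (0 : ℝ) t, ENNReal.ofReal |sp a j (x + s • (bs j : E m))| := by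
      rw [ae_all_iff]
      intro a
      refine hDQA m U j (fun x => p x a) _ hU (hp a).f2
        (continuous_abs.measurable.comp (hsp1 a j)).ennreal_ofReal ?_ (hsp3 a j) t ht
      exact sq_fin' (hsp2 a j)
    have h2 : ∀ᵐ x : E m, ∀ a, Seg U j t x →
        ENNReal.ofReal |q (x + t • (bs j : E m)) a - q x a| ≤
          ∫⁻ s in Ioc (0 : ℝ) t, ENNReal.ofReal |sq a j (x + s • (bs j : E m))| := by
      rw [ae_all_iff]
      intro a
      refine hDQA m U j (fun x => q x a) _ hU (hq a).f2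
        (continuous_abs.measurable.comp (hsq1 a j)).ennreal_ofReal ?_ (hsq3 a j) t ht
      exact sq_fin' (hsq2 a j)
    filter_upwards [h1, h2] with x hx1 hx2 hseg
    have hmeas1 : ∀ a, Measurable fun r : ℝ =>
        ENNReal.ofReal |sp a j (x + r • (bs j : E m))| := fun a =>
      (continuous_abs.measurable.comp ((hsp1 a j).comp (by fun_prop))).ennreal_ofReal
    have hmeas2 : ∀ a, Measurable fun r : ℝ =>
        ENNReal.ofReal |sq a j (x + r • (bs j : E m))| := fun a =>
      (continuous_abs.measurable.comp ((hsq1 a j).comp (by fun_prop))).ennreal_ofReal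
    calc ENNReal.ofReal |GG (tup ![p (x + t • (bs j : E m)), q (x + t • (bs j : E m))]) T
            - GG (tup ![p x, q x]) T|
        ≤ ENNReal.ofReal (∑ a, |p (x + t • (bs j : E m)) a - p x a| +
            ∑ a, |q (x + t • (bs j : E m)) a - q x a|) := by
          refine ENNReal.ofReal_le_ofReal ?_
          refine (absGG hGGM _ _ _).trans ((GG_le2 _ _ _ _).trans ?_)
          exact add_le_add (nrm_le _) (nrm_le _)
      _ = ∑ a, ENNReal.ofReal |p (x + t • (bs j : E m)) a - p x a| +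
            ∑ a, ENNReal.ofReal |q (x + t • (bs j : E m)) a - q x a| := by
          rw [ENNReal.ofReal_add (Finset.sum_nonneg fun _ _ => abs_nonneg _)
            (Finset.sum_nonneg fun _ _ => abs_nonneg _),
            ENNReal.ofReal_sum_of_nonneg fun _ _ => abs_nonneg _,
            ENNReal.ofReal_sum_of_nonneg fun _ _ => abs_nonneg _]
      _ ≤ (∑ a, ∫⁻ s in Ioc (0 : ℝ) t, ENNReal.ofReal |sp a j (x + s • (bs j : E m))|) +
            ∑ a, ∫⁻ s in Ioc (0 : ℝ) t, ENNReal.ofReal |sq a j (x + s • (bs j : E m))| :=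
          add_le_add (Finset.sum_le_sum fun a _ => hx1 a hseg)
            (Finset.sum_le_sum fun a _ => hx2 a hseg)
      _ = ∫⁻ r in Ioc (0 : ℝ) t, ENNReal.ofReal (s j (x + r • (bs j : E m))) := by
          rw [← lintegral_finsetSum _ fun a _ => hmeas1 a,
            ← lintegral_finsetSum _ fun a _ => hmeas2 a,
            ← lintegral_add_left (Finset.measurable_sum _ fun a _ => hmeas1 a)]
          refine lintegral_congr fun r => ?_
          simp only [hs]
          rw [ENNReal.ofReal_add (Finset.sum_nonneg fun _ _ => abs_nonneg _)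
            (Finset.sum_nonneg fun _ _ => abs_nonneg _),
            ENNReal.ofReal_sum_of_nonneg fun _ _ => abs_nonneg _,
            ENNReal.ofReal_sum_of_nonneg fun _ _ => abs_nonneg _]
  refine lt_of_le_of_lt (iInf₂_le _ hadm) ?_
  rw [lintegral_finsetSum _ fun j _ => ((hsm j).ennreal_ofReal.pow_const 2)]
  exact ENNReal.sum_lt_top.2 fun j _ => hfin j

end Pool.Agent.CAL
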