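import Pool.Agent.CAL.Stmts

set_option autoImplicit false

namespace Pool.Agent.CAL

open MeasureTheory Set Metric Filter Topology
open scoped ENNReal
open Pool.Agent.COB

theorem unq_proof : Stmt_UNQ := by
  intro m U g hU hg h
  rw [ae_restrict_iff' hU.measurableSet]
  refine hU.ae_eq_zero_of_integral_contDiff_smul_eq_zero hg ?_
  intro ζ h1 h2 h3
  rw [← h ζ ⟨h1, h2, h3⟩]
  refine integral_congr_ae (Eventually.of_forall fun x => ?_)
  show ζ x • g x = g x * ζ x
  rw [smul_eq_mul, mul_comm]

end Pool.Agent.CAL
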