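import Pool.Agent.CAL.Stmts

set_option autoImplicit false

namespace Pool.Agent.CAL

open MeasureTheory Set Metric Filter Topology
open scoped ENNReal
open Pool.Agent.COB

noncomputable section

namespace UPP_

/-- Minkowski -/
lemma mink {Q n : ℕ} (a b c : Fin Q → E n) :
    Real.sqrt (∑ i, ‖a i - c i‖ ^ 2) ≤ Real.sqrt (∑ i, ‖a i - b i‖ ^ 2) +
      Real.sqrt (∑ i, ‖b i - c i‖ ^ 2) := by
  have key : ∀ u : Fin Q → E n,
      Real.sqrt (∑ i, ‖u i‖ ^ 2) = ‖(WithLp.toLp 2 u : PiLp 2 (fun _ : Fin Q => E n))‖ := by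
    intro u
    rw [PiLp.norm_eq_of_L2]
  rw [key (fun i => a i - c i), key (fun i => a i - b i), key (fun i => b i - c i)]
  have : (WithLp.toLp 2 (fun i => a i - c i) : PiLp 2 (fun _ : Fin Q => E n)) =
      WithLp.toLp 2 (fun i => a i - b i) + WithLp.toLp 2 (fun i => b i - c i) := by
    ext i : 1
    simp
  rw [this]
  exact norm_add_le _ _

lemma gg_le (hGGF : Stmt_GGF) {Q n : ℕ} (a b : Fin Q → E n) (T : Sym (E n) Q) :
    GG (tup a) T ≤ GG (tup b) T + Real.sqrt (∑ i, ‖a i - b i‖ ^ 2) := by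
  obtain ⟨c, hc⟩ := exists_tup T
  have hT : T = tup c := hc.symm
  rw [hT]
  obtain ⟨σ, hσ⟩ := (hGGF Q n b c).2
  have h1 := (hGGF Q n a c).1 σ
  rw [hσ]
  have h2 := mink a b (fun i => c (σ i))
  linarith

lemma gp_lip (hGGF : Stmt_GGF) {d n : ℕ} (v : (Fin d → ℝ) × ℝ → E n) (T : Sym (E n) 2)
    (x y : E (d + 1)) : |GG (gp v x) T - GG (gp v y) T| ≤ ‖VV v x - VV v y‖ := by
  have h : ∀ p q : E (d + 1), GG (gp v p) T ≤ GG (gp v q) T + ‖VV v p - VV v q‖ := by
    intro p q
    have h1 := gg_le hGGF ![0, VV v p] ![0, VV v q] T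
    have h2 : Real.sqrt (∑ i : Fin 2, ‖(![0, VV v p] : Fin 2 → E n) i -
        (![0, VV v q] : Fin 2 → E n) i‖ ^ 2) = ‖VV v p - VV v q‖ := by
      rw [Fin.sum_univ_two]
      simp
    rw [h2] at h1
    exact h1
  rw [abs_le]
  constructor
  · have := h y x
    rw [norm_sub_rev] at this
    linarith
  · have := h x y
    linarith

/-- a bound on the weak derivative of a real valued Lipschitz function controlled by a vector
valued one -/
lemma deriv_bound {m n : ℕ} {U : Set (E m)} {F : E m → ℝ} {W : E m → E n} {K : NNReal}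
    (hW : LipschitzWith K W) (hFW : ∀ x y, |F x - F y| ≤ ‖W x - W y‖) (v : E m) :
    DerivBound U v F (fun x => ENNReal.ofReal ‖lineDeriv ℝ W x v‖) := by
  intro ζ hζ hc _
  have hF : LipschitzWith K F := by
    apply LipschitzWith.of_dist_le_mul
    intro x y
    rw [Real.dist_eq]
    refine (hFW x y).trans ?_
    rw [← dist_eq_norm]
    exact hW.dist_le_mul x y
  obtain ⟨D, hD⟩ := ContDiff.lipschitzWith_of_hasCompactSupport hc
    (hζ.of_le (by exact_mod_cast le_top) : ContDiff ℝ 1 ζ) (by simp)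
  have h1 := hF.integral_lineDeriv_mul_eq (μ := volume) hD hc v
  have h2 : ∀ x, lineDeriv ℝ ζ x (-v) = -fderiv ℝ ζ x v := by
    intro x
    rw [(hζ.differentiable (by simp) x).lineDeriv_eq_fderiv, map_neg]
  have h3 : ∫ x, F x * fderiv ℝ ζ x v = -∫ x, lineDeriv ℝ F x v * ζ x := by
    rw [h1, ← integral_neg]
    congr 1
    ext x
    rw [h2]
    ring
  rw [h3, abs_neg, ← Real.enorm_eq_ofReal_abs]
  refine (enorm_integral_le_lintegral_enorm _).trans ?_
  apply lintegral_mono_ae
  filter_upwards [hF.ae_differentiableAt (μ := volume), hW.ae_differentiableAt (μ := volume)]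
    with x hx1 hx2
  rw [enorm_mul, Real.enorm_eq_ofReal_abs (ζ x)]
  gcongr
  rw [Real.enorm_eq_ofReal_abs]
  apply ENNReal.ofReal_le_ofReal
  have t1 : HasDerivAt (fun t : ℝ => F (x + t • v)) (lineDeriv ℝ F x v) 0 :=
    (hx1.lineDifferentiableAt (v := v)).hasLineDerivAt
  have t2 : HasDerivAt (fun t : ℝ => W (x + t • v)) (lineDeriv ℝ W x v) 0 :=
    (hx2.lineDifferentiableAt (v := v)).hasLineDerivAt
  have s1 := t1.tendsto_slope_zero
  have s2 := t2.tendsto_slope_zero
  have s1' := s1.norm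
  have s2' := s2.norm
  rw [← Real.norm_eq_abs]
  refine le_of_tendsto_of_tendsto s1' s2' ?_
  filter_upwards with t
  rw [norm_smul, norm_smul]
  gcongr
  have := hFW (x + (0 + t) • v) (x + (0 : ℝ) • v)
  rw [Real.norm_eq_abs]
  exact this

lemma measurable_h {m n : ℕ} {W : E m → E n} {K : NNReal} (hW : LipschitzWith K W) (v : E m) :
    Measurable (fun x => ENNReal.ofReal ‖lineDeriv ℝ W x v‖) :=
  ENNReal.measurable_ofReal.comp ((measurable_lineDeriv hW.continuous).norm)

/-- uniqueness: the weak gradient of a Lipschitz function is the classical one -/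
lemma grad_eq {m : ℕ} {U : Set (E m)} (hU : IsOpen U) {f : E m → ℝ} {K : NNReal}
    (hf : LipschitzWith K f) {g : Fin m → E m → ℝ} (hg : W12 U f g) (j : Fin m) :
    ∀ᵐ x ∂(volume : Measure (E m)), x ∈ U → g j x = lineDeriv ℝ f x (bs j) := by
  have hli : LocallyIntegrableOn (fun x => g j x - lineDeriv ℝ f x (bs j)) U volume := by
    apply LocallyIntegrableOn.sub
    · apply locallyIntegrableOn_of_locallyIntegrable_restrict
      exact (hg.g2 j).locallyIntegrable (by norm_num)
    · apply LocallyIntegrable.locallyIntegrableOn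
      have hb : ∀ x, ‖lineDeriv ℝ f x (bs j)‖ ≤ K * ‖(bs j : E m)‖ := fun x =>
        norm_lineDeriv_le_of_lipschitz ℝ hf
      have hmeas := measurable_lineDeriv (𝕜 := ℝ) (v := (bs j : E m)) hf.continuous
      intro x
      refine ⟨ball x 1, ball_mem_nhds x one_pos, ?_⟩
      apply Measure.integrableOn_of_bounded (M := K * ‖(bs j : E m)‖)
      · exact measure_ball_lt_top.ne
      · exact hmeas.aestronglyMeasurable
      · exact Filter.Eventually.of_forall hb
  have hz := hU.ae_eq_zero_of_integral_contDiff_smul_eq_zero hli (fun ζ h1 h2 h3 => by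
    have e1 := hg.ibp ζ ⟨h1, h2, h3⟩ j
    obtain ⟨D, hD⟩ := ContDiff.lipschitzWith_of_hasCompactSupport h2
      (h1.of_le (by exact_mod_cast le_top) : ContDiff ℝ 1 ζ) (by simp)
    have e2 := hf.integral_lineDeriv_mul_eq (μ := volume) hD h2 (bs j)
    have e3 : ∀ x, lineDeriv ℝ ζ x (-(bs j)) = -fderiv ℝ ζ x (bs j) := by
      intro x
      rw [(h1.differentiable (by simp) x).lineDeriv_eq_fderiv, map_neg]
    have e4 : ∫ x, f x * fderiv ℝ ζ x (bs j) = -∫ x, lineDeriv ℝ f x (bs j) * ζ x := by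
      rw [e2, ← integral_neg]
      congr 1
      ext x
      rw [e3]
      ring
    have i1 : Integrable (fun x => g j x * ζ x) := by
      have i0 : Integrable (fun x => g j x * ζ x) (volume.restrict U) :=
        (hg.g2 j).integrable_mul (q := 2) (h1.continuous.memLp_of_hasCompactSupport h2)
      have i0' : IntegrableOn (fun x => g j x * ζ x) U := i0
      rw [integrableOn_iff_integrable_of_support_subset] at i0'
      · exact i0'
      · intro x hx
        by_contra hxU
        exact hx (by simp [image_eq_zero_of_notMem_tsupport (fun h' => hxU (h3 h'))])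
    have i2 : Integrable (fun x => lineDeriv ℝ f x (bs j) * ζ x) := by
      have hb : ∀ x, ‖lineDeriv ℝ f x (bs j)‖ ≤ K * ‖(bs j : E m)‖ := fun x =>
        norm_lineDeriv_le_of_lipschitz ℝ hf
      exact (h1.continuous.integrable_of_hasCompactSupport h2).bdd_mul
        (measurable_lineDeriv hf.continuous).aestronglyMeasurable
        (Filter.Eventually.of_forall hb)
    have e5 : ∫ x, ζ x • (g j x - lineDeriv ℝ f x (bs j)) =
        (∫ x, g j x * ζ x) - ∫ x, lineDeriv ℝ f x (bs j) * ζ x := by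
      rw [← integral_sub i1 i2]
      congr 1
      ext x
      rw [smul_eq_mul]
      ring
    rw [e5]
    linarith)
  filter_upwards [hz] with x hx hxU
  linarith [hx hxU]

lemma isOpen_Om (d : ℕ) : IsOpen (Om d) := by
  have h1 : Continuous (fun x : E (d + 1) => yy x) := by unfold yy; fun_prop
  have h2 : Continuous (fun x : E (d + 1) => hz x) := by
    unfold hz
    fun_prop
  have h3 : IsOpen (Bx d) := by
    have : Bx d = Set.pi univ (fun _ => Ioo (0 : ℝ) 1) := by
      ext x
      simp [Bx]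
    rw [this]
    exact isOpen_set_pi finite_univ (fun _ _ => isOpen_Ioo)
  exact (h3.preimage h2).inter (isOpen_Ioo.preimage h1)

lemma isOpen_Op (d : ℕ) : IsOpen (Op d) := by
  have h1 : Continuous (fun x : E (d + 1) => yy x) := by unfold yy; fun_prop
  exact (isOpen_Om d).inter (isOpen_lt continuous_const h1)

theorem upp_aux (hGGF : Stmt_GGF) (hVVW : Stmt_VVW) (d n : ℕ)
    (A : Fin d → (E n →L[ℝ] E n)) (f : (Fin d → ℝ) → E n)
    (v : (Fin d → ℝ) × ℝ → E n) (C : ℝ) (R : Fin n → Fin (d + 1) → E (d + 1) → ℝ)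
    (hD : Dat A f v C) (hR : ∀ a, W12 (Om d) (fun x => VV v x a) (R a)) :
    energy (Op d) (gp v) ≤ ENNReal.ofReal (∫ x in Op d, ∑ j, ‖vG R x j‖ ^ 2) ∧
    energy (Omi d) (gm d n) = 0 := by
  obtain ⟨⟨K, hK⟩, -⟩ := hVVW d n A f v C hD
  have hW : LipschitzWith (Real.toNNReal K) (VV v) := by
    apply LipschitzWith.of_dist_le_mul
    intro x y
    rw [dist_eq_norm, dist_eq_norm]
    refine (hK x y).trans ?_
    gcongr
    exact Real.le_coe_toNNReal K
  constructor
  · have hadm : Adm (Op d) (gp v) (fun j x => ENNReal.ofReal ‖lineDeriv ℝ (VV v) x (bs j)‖) :=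
      ⟨fun j => measurable_h hW _, fun T j => deriv_bound hW (gp_lip hGGF v T) _⟩
    have h1 : energy (Op d) (gp v) ≤ ∫⁻ x in Op d, ∑ j,
        (ENNReal.ofReal ‖lineDeriv ℝ (VV v) x (bs j)‖) ^ 2 := by
      unfold energy
      exact iInf₂_le (fun j x => ENNReal.ofReal ‖lineDeriv ℝ (VV v) x (bs j)‖) hadm
    refine h1.trans (le_of_eq ?_)
    -- the weak gradient is the classical one
    have hcomp : ∀ a, LipschitzWith (Real.toNNReal K) (fun x => VV v x a) := by
      intro a
      apply LipschitzWith.of_dist_le_mul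
      intro x y
      refine le_trans ?_ (hW.dist_le_mul x y)
      rw [Real.dist_eq, dist_eq_norm]
      have := EuclideanSpace.norm_eq (VV v x - VV v y)
      have h2 := PiLp.norm_apply_le (VV v x - VV v y) a
      simpa using h2
    have hall : ∀ᵐ x ∂(volume : Measure (E (d + 1))), ∀ a : Fin n, ∀ j : Fin (d + 1),
        x ∈ Om d → R a j x = lineDeriv ℝ (fun x => VV v x a) x (bs j) :=
      ae_all_iff.mpr fun a => ae_all_iff.mpr fun j => grad_eq (isOpen_Om d) (hcomp a) (hR a) j
    have hae : ∀ᵐ x ∂(volume.restrict (Op d)), ∑ j : Fin (d + 1),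
        (ENNReal.ofReal ‖lineDeriv ℝ (VV v) x (bs j)‖) ^ 2 =
        ENNReal.ofReal (∑ j, ‖vG R x j‖ ^ 2) := by
      rw [ae_restrict_iff' (isOpen_Op d).measurableSet]
      filter_upwards [hall, hW.ae_differentiableAt (μ := volume)] with x hx hdx hxO
      rw [ENNReal.ofReal_sum_of_nonneg (fun j _ => sq_nonneg _)]
      apply Finset.sum_congr rfl
      intro j _
      rw [ENNReal.ofReal_pow (norm_nonneg _)]
      congr 3
      ext a
      show _ = R a j x
      rw [hx a j hxO.1]
      have t2 : HasDerivAt (fun t : ℝ => VV v (x + t • (bs j : E (d + 1))))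
          (lineDeriv ℝ (VV v) x (bs j)) 0 :=
        (hdx.lineDifferentiableAt (v := bs j)).hasLineDerivAt
      have t3 : HasDerivAt (fun t : ℝ => VV v (x + t • (bs j : E (d + 1))) a)
          ((lineDeriv ℝ (VV v) x (bs j)) a) 0 :=
        (EuclideanSpace.proj (𝕜 := ℝ) a).hasFDerivAt.comp_hasDerivAt (0 : ℝ) t2
      have t4 : HasLineDerivAt ℝ (fun x => VV v x a) ((lineDeriv ℝ (VV v) x (bs j)) a) x (bs j) :=
        t3
      exact t4.lineDeriv.symm
    rw [lintegral_congr_ae hae, ← ofReal_integral_eq_lintegral_ofReal]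
    · have hRa : ∀ a j, MemLp (R a j) 2 (volume.restrict (Op d)) := fun a j =>
        ((hR a).g2 j).mono_measure (Measure.restrict_mono (fun x hx => hx.1) le_rfl)
      apply integrable_finsetSum
      intro j _
      have : (fun x => ‖vG R x j‖ ^ 2) = fun x => ∑ a, R a j x ^ 2 := by
        ext x
        rw [EuclideanSpace.norm_sq_eq]
        apply Finset.sum_congr rfl
        intro a _
        simp [vG]
      rw [this]
      exact integrable_finsetSum _ (fun a _ => (hRa a j).integrable_sq)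
    · filter_upwards with x
      exact Finset.sum_nonneg (fun j _ => sq_nonneg _)
  · have hadm : Adm (Omi d) (gm d n) (fun _ _ => 0) := by
      refine ⟨fun j => measurable_const, fun T j => ?_⟩
      have h0 : LipschitzWith 0 (fun _ : E (d + 1) => (0 : E n)) := LipschitzWith.const _
      have h1 := deriv_bound (U := Omi d) (F := fun x => GG (gm d n x) T) h0
        (fun x y => by simp [gm]) (bs j)
      intro ζ z1 z2 z3
      refine (h1 ζ z1 z2 z3).trans (le_of_eq ?_)
      congr 1
      ext x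
      have : lineDeriv ℝ (fun _ : E (d + 1) => (0 : E n)) x (bs j) = 0 := by
        simp [lineDeriv]
      show ENNReal.ofReal ‖lineDeriv ℝ (fun _ : E (d + 1) => (0 : E n)) x (bs j)‖ *
        ENNReal.ofReal |ζ x| = 0 * ENNReal.ofReal |ζ x|
      rw [this]
      simp
    have h1 : energy (Omi d) (gm d n) ≤ ∫⁻ x in Omi d, ∑ j : Fin (d + 1), (0 : ℝ≥0∞) ^ 2 := by
      unfold energy
      exact iInf₂_le (fun _ _ => (0 : ℝ≥0∞)) hadm
    have h2 : ∫⁻ x in Omi d, ∑ j : Fin (d + 1), (0 : ℝ≥0∞) ^ 2 = 0 := by simp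
    rw [h2] at h1
    exact le_antisymm h1 zero_le

end UPP_

theorem upp_proof (_hDQB : Stmt_DQB) (hGGF : Stmt_GGF) (hVVW : Stmt_VVW) : Stmt_UPP :=
  UPP_.upp_aux hGGF hVVW

end

end Pool.Agent.CAL
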