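import Pool.Agent.CAL.Stmts

/-!
Squad CAL, module VEC: vector valued 1-Lipschitz functions of a Sobolev map.
-/

set_option autoImplicit false

namespace Pool.Agent.CAL

open MeasureTheory Set Metric Filter Topology
open scoped ENNReal
open Pool.Agent.COB

namespace VEC_

theorem gg_nonneg {n Q : ℕ} (S T : Sym (E n) Q) : 0 ≤ GG S T := by
  unfold GG
  refine Real.sInf_nonneg ?_
  rintro r ⟨a, b, -, -, rfl⟩
  exact Real.sqrt_nonneg _

theorem intg {m : ℕ} {U : Set (E m)} (hU : volume U < ⊤) {g : E m → ℝ}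
    (hg : MemLp g 2 (volume.restrict U)) {ζ : E m → ℝ} (hζ : TF U ζ) :
    Integrable (fun x => g x * ζ x) := by
  haveI : IsFiniteMeasure (volume.restrict U) := ⟨by simpa using hU⟩
  have h1 : Integrable g (volume.restrict U) := hg.integrable (by norm_num)
  obtain ⟨C, hC⟩ := hζ.1.continuous.bounded_above_of_compact_support hζ.2.1
  have h2 : IntegrableOn (fun x => g x * ζ x) U :=
    h1.mul_bdd (c := C) hζ.1.continuous.aestronglyMeasurable (Filter.Eventually.of_forall hC)
  refine (integrableOn_iff_integrable_of_support_subset ?_).1 h2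
  intro x hx
  apply hζ.2.2
  apply subset_tsupport
  intro h0
  apply hx
  simp [h0]

theorem tf_deriv {m : ℕ} {U : Set (E m)} {ζ : E m → ℝ} (hζ : TF U ζ) (v : E m) :
    TF U (fun x => fderiv ℝ ζ x v) := by
  refine ⟨?_, hζ.2.1.fderiv_apply ℝ v, (tsupport_fderiv_apply_subset ℝ v).trans hζ.2.2⟩
  exact (hζ.1.fderiv_right (m := (⊤ : ℕ∞)) (by simp)).clm_apply contDiff_const

theorem cs {N : ℕ} (e u : Fin N → ℝ) (he : ∑ c, e c ^ 2 ≤ 1) {R : ℝ} (hR : 0 ≤ R)
    (hu : ∑ c, u c ^ 2 ≤ R ^ 2) : |∑ c, e c * u c| ≤ R := by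
  apply abs_le_of_sq_le_sq _ hR
  have h1 := Finset.sum_mul_sq_le_sq_mul_sq Finset.univ e u
  have h2 : (∑ c, e c ^ 2) * ∑ c, u c ^ 2 ≤ 1 * R ^ 2 :=
    mul_le_mul he hu (Finset.sum_nonneg fun c _ => sq_nonneg _) zero_le_one
  linarith

end VEC_

open VEC_ in
theorem vec_proof (hSOB : Stmt_SOB) (hUNQ : Stmt_UNQ) : Stmt_VEC := by
  intro m n Q N U g h l hUo hU hg hA hh hl
  -- the components
  have hl1 : ∀ c S T, |l c S - l c T| ≤ GG S T := by
    intro c S T
    apply abs_le_of_sq_le_sq _ (gg_nonneg S T)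
    refine le_trans ?_ (hl S T)
    exact Finset.single_le_sum (f := fun c => (l c S - l c T) ^ 2)
      (fun c _ => sq_nonneg _) (Finset.mem_univ c)
  have hS := fun c => hSOB m n Q U g h (l c) hUo hU hg hA hh (hl1 c)
  choose G hG hGb using hS
  refine ⟨G, hG, fun j => ?_⟩
  -- the directions
  let K : Type := {e : Fin N → ℝ // ∑ c, e c ^ 2 ≤ 1}
  haveI : Nonempty K := ⟨⟨fun _ => 0, by simp⟩⟩
  have key : ∀ e : K, ∀ᵐ x ∂(volume.restrict U),
      ENNReal.ofReal |∑ c, e.1 c * G c j x| ≤ h j x := by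
    intro e
    have hle : ∀ S T : Sym (E n) Q,
        |(∑ c, e.1 c * l c S) - (∑ c, e.1 c * l c T)| ≤ GG S T := by
      intro S T
      have h1 : (∑ c, e.1 c * l c S) - (∑ c, e.1 c * l c T) =
          ∑ c, e.1 c * (l c S - l c T) := by
        rw [← Finset.sum_sub_distrib]
        exact Finset.sum_congr rfl fun c _ => by ring
      rw [h1]
      exact cs e.1 _ e.2 (gg_nonneg S T) (hl S T)
    obtain ⟨Ge, hGe, hGeb⟩ := hSOB m n Q U g h (fun S => ∑ c, e.1 c * l c S) hUo hU hg hA hh hle
    have hsumL : MemLp (fun x => ∑ c, e.1 c * G c j x) 2 (volume.restrict U) := by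
      have := memLp_finset_sum (p := 2) (μ := volume.restrict U) (Finset.univ : Finset (Fin N))
        (f := fun c x => e.1 c * G c j x) (fun c _ => ((hG c).g2 j).const_mul (e.1 c))
      exact this
    have hdiff : MemLp (fun x => Ge j x - ∑ c, e.1 c * G c j x) 2 (volume.restrict U) :=
      (hGe.g2 j).sub hsumL
    haveI : IsFiniteMeasure (volume.restrict U) := ⟨by simpa using hU⟩
    have hloc : LocallyIntegrableOn (fun x => Ge j x - ∑ c, e.1 c * G c j x) U := by
      have h1 : IntegrableOn (fun x => Ge j x - ∑ c, e.1 c * G c j x) U :=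
        hdiff.integrable (by norm_num)
      exact h1.locallyIntegrableOn
    have hz : ∀ ζ, TF U ζ → ∫ x, (Ge j x - ∑ c, e.1 c * G c j x) * ζ x = 0 := by
      intro ζ hζ
      have i1 := intg hU (hGe.g2 j) hζ
      have i2 : ∀ c, Integrable (fun x => e.1 c * (G c j x * ζ x)) := fun c =>
        (intg hU ((hG c).g2 j) hζ).const_mul _
      have i3 : Integrable (fun x => ∑ c, e.1 c * (G c j x * ζ x)) :=
        integrable_finset_sum _ fun c _ => i2 c
      have e1 : ∀ x, (Ge j x - ∑ c, e.1 c * G c j x) * ζ x =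
          Ge j x * ζ x - ∑ c, e.1 c * (G c j x * ζ x) := by
        intro x
        rw [sub_mul, Finset.sum_mul]
        congr 1
        exact Finset.sum_congr rfl fun c _ => by ring
      simp_rw [e1]
      rw [integral_sub i1 i3, integral_finset_sum _ fun c _ => i2 c]
      simp_rw [integral_const_mul]
      have p1 := hGe.ibp ζ hζ j
      have p2 := fun c => (hG c).ibp ζ hζ j
      have j2 : ∀ c, Integrable (fun x => e.1 c * (l c (g x) * fderiv ℝ ζ x (bs j))) := fun c =>
        (intg hU (hG c).f2 (tf_deriv hζ (bs j))).const_mul _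
      have e2 : ∫ x, (∑ c, e.1 c * l c (g x)) * fderiv ℝ ζ x (bs j) =
          ∑ c, e.1 c * ∫ x, l c (g x) * fderiv ℝ ζ x (bs j) := by
        have e3 : ∀ x, (∑ c, e.1 c * l c (g x)) * fderiv ℝ ζ x (bs j) =
            ∑ c, e.1 c * (l c (g x) * fderiv ℝ ζ x (bs j)) := by
          intro x
          rw [Finset.sum_mul]
          exact Finset.sum_congr rfl fun c _ => by ring
        simp_rw [e3]
        rw [integral_finset_sum _ fun c _ => j2 c]
        simp_rw [integral_const_mul]
      have e4 : ∑ c, e.1 c * ∫ x, G c j x * ζ x =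
          -∑ c, e.1 c * ∫ x, l c (g x) * fderiv ℝ ζ x (bs j) := by
        rw [← Finset.sum_neg_distrib]
        refine Finset.sum_congr rfl fun c _ => ?_
        rw [p2 c]
        ring
      rw [e4, ← e2]
      have p1' : ∫ x, (∑ c, e.1 c * l c (g x)) * fderiv ℝ ζ x (bs j) =
          -∫ x, Ge j x * ζ x := p1
      rw [p1']
      ring
    filter_upwards [hUNQ m U _ hUo hloc hz, hGeb j] with x hx1 hx2
    have : Ge j x = ∑ c, e.1 c * G c j x := by linarith
    rw [← this]
    exact hx2
  -- all directions at once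
  have hae : ∀ᵐ x ∂(volume.restrict U), ∀ i : ℕ,
      ENNReal.ofReal |∑ c, (TopologicalSpace.denseSeq K i).1 c * G c j x| ≤ h j x :=
    ae_all_iff.2 fun i => key _
  filter_upwards [hae] with x hx
  by_cases htop : h j x = ⊤
  · rw [htop]
    simp
  have hall : ∀ e : K, |∑ c, e.1 c * G c j x| ≤ (h j x).toReal := by
    intro e
    refine (TopologicalSpace.denseRange_denseSeq K).induction_on
      (p := fun e : K => |∑ c, e.1 c * G c j x| ≤ (h j x).toReal) e ?_ ?_
    · refine isClosed_le ?_ continuous_const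
      refine continuous_abs.comp ?_
      refine continuous_finset_sum _ fun c _ => ?_
      exact ((continuous_apply c).comp continuous_subtype_val).mul continuous_const
    · intro i
      exact (ENNReal.ofReal_le_iff_le_toReal htop).1 (hx i)
  have hH : 0 ≤ (h j x).toReal := ENNReal.toReal_nonneg
  have hfin : ∑ c, G c j x ^ 2 ≤ (h j x).toReal ^ 2 := by
    set s2 := ∑ c, G c j x ^ 2 with hs2
    have hs0 : 0 ≤ s2 := Finset.sum_nonneg fun c _ => sq_nonneg _
    rcases hs0.eq_or_lt with h0 | hpos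
    · rw [← h0]
      positivity
    · have hs : 0 < Real.sqrt s2 := Real.sqrt_pos.2 hpos
      have hss : Real.sqrt s2 ^ 2 = s2 := Real.sq_sqrt hs0
      have hK : ∑ c, (G c j x / Real.sqrt s2) ^ 2 ≤ 1 := by
        have : ∑ c, (G c j x / Real.sqrt s2) ^ 2 = s2 / Real.sqrt s2 ^ 2 := by
          rw [hs2, Finset.sum_div]
          exact Finset.sum_congr rfl fun c _ => by rw [div_pow]
        rw [this, hss, div_self hpos.ne']
      have h1 := hall ⟨fun c => G c j x / Real.sqrt s2, hK⟩
      have h2 : ∑ c, (G c j x / Real.sqrt s2) * G c j x = Real.sqrt s2 := by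
        have : ∑ c, (G c j x / Real.sqrt s2) * G c j x = s2 / Real.sqrt s2 := by
          rw [hs2, Finset.sum_div]
          exact Finset.sum_congr rfl fun c _ => by ring
        rw [this, div_eq_iff hs.ne', ← sq, hss]
      have h3 : |Real.sqrt s2| ≤ (h j x).toReal := by
        rw [← h2]
        exact h1
      rw [abs_of_pos hs] at h3
      calc s2 = Real.sqrt s2 ^ 2 := hss.symm
        _ ≤ _ := pow_le_pow_left₀ hs.le h3 2
  calc ENNReal.ofReal (∑ c, G c j x ^ 2) ≤ ENNReal.ofReal ((h j x).toReal ^ 2) :=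
        ENNReal.ofReal_le_ofReal hfin
    _ = (ENNReal.ofReal (h j x).toReal) ^ 2 := by rw [ENNReal.ofReal_pow hH]
    _ = h j x ^ 2 := by rw [ENNReal.ofReal_toReal htop]

end Pool.Agent.CAL
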