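import Pool.Agent.CAL.Stmts

/-!
# Squad CAL: module VVW (the extended datum is Lipschitz; its weak gradient)
-/

set_option autoImplicit false

namespace Pool.Agent.CAL

open MeasureTheory Set Metric Filter Topology
open scoped ENNReal
open Pool.Agent.COB

namespace VVW_

variable {d n : ℕ} {A : Fin d → (E n →L[ℝ] E n)} {f : (Fin d → ℝ) → E n}
  {v : (Fin d → ℝ) × ℝ → E n} {C : ℝ}

/-- the half space is open -/
lemma open_half : IsOpen {p : (Fin d → ℝ) × ℝ | 0 < p.2} :=
  isOpen_lt continuous_const continuous_snd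

lemma convex_half : Convex ℝ {p : (Fin d → ℝ) × ℝ | 0 < p.2} := by
  have h := (convex_Ioi (0 : ℝ)).linear_preimage (LinearMap.snd ℝ (Fin d → ℝ) ℝ)
  exact h

lemma C_nonneg (h : Dat A f v C) : 0 ≤ C :=
  le_trans (norm_nonneg _) (h.lip (0, 1) (by norm_num))

/-- `v` is Lipschitz in the open half space -/
lemma lip_open (h : Dat A f v C) (p q : (Fin d → ℝ) × ℝ) (hp : 0 < p.2) (hq : 0 < q.2) :
    ‖v p - v q‖ ≤ C * ‖p - q‖ := by
  refine convex_half.norm_image_sub_le_of_norm_fderiv_le (𝕜 := ℝ) (f := v) ?_ ?_ hq hp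
  · intro x hx
    exact (h.dif.differentiableOn one_ne_zero x hx).differentiableAt (open_half.mem_nhds hx)
  · intro x hx
    exact h.lip x hx

/-- `v` is Lipschitz in the closed half space -/
lemma lip_closed (h : Dat A f v C) (p q : (Fin d → ℝ) × ℝ) (hp : 0 ≤ p.2) (hq : 0 ≤ q.2) :
    ‖v p - v q‖ ≤ C * ‖p - q‖ := by
  have key : ∀ p : (Fin d → ℝ) × ℝ, 0 ≤ p.2 →
      Tendsto (fun t : ℝ => v (p.1, p.2 + t)) (𝓝[>] 0) (𝓝 (v p)) := by
    intro p hp
    have h1 : ContinuousWithinAt v {p | 0 ≤ p.2} p := h.cont p hp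
    have h2 : Tendsto (fun t : ℝ => ((p.1, p.2 + t) : (Fin d → ℝ) × ℝ)) (𝓝[>] 0)
        (𝓝[{p | 0 ≤ p.2}] p) := by
      rw [tendsto_nhdsWithin_iff]
      constructor
      · have h3 : Continuous fun t : ℝ => ((p.1, p.2 + t) : (Fin d → ℝ) × ℝ) := by fun_prop
        have h4 := h3.tendsto 0
        simp only [add_zero, Prod.mk.eta] at h4
        exact h4.mono_left nhdsWithin_le_nhds
      · filter_upwards [self_mem_nhdsWithin] with t ht
        have : (0 : ℝ) < t := ht
        show 0 ≤ p.2 + t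
        linarith
    exact h1.tendsto.comp h2
  have h3 : Tendsto (fun t : ℝ => ‖v (p.1, p.2 + t) - v (q.1, q.2 + t)‖) (𝓝[>] 0)
      (𝓝 ‖v p - v q‖) := ((key p hp).sub (key q hq)).norm
  refine le_of_tendsto h3 ?_
  filter_upwards [self_mem_nhdsWithin] with t ht
  have ht' : (0 : ℝ) < t := ht
  have h4 := lip_open h (p.1, p.2 + t) (q.1, q.2 + t) (by simp only; linarith)
    (by simp only; linarith)
  have h5 : ((p.1, p.2 + t) : (Fin d → ℝ) × ℝ) - (q.1, q.2 + t) = p - q := by
    ext
    · simp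
    · simp
  rw [h5] at h4
  exact h4

lemma coord_le (x y : E (d + 1)) (j : Fin (d + 1)) : |x j - y j| ≤ ‖x - y‖ := by
  have := PiLp.norm_apply_le (x - y) j
  simpa using this

/-- Lipschitz bound for `VV` -/
lemma lipV (h : Dat A f v C) (x y : E (d + 1)) : ‖VV v x - VV v y‖ ≤ C * ‖x - y‖ := by
  have hC := C_nonneg h
  refine (lip_closed h (hz x, max (yy x) 0) (hz y, max (yy y) 0) (le_max_right _ _)
    (le_max_right _ _)).trans (mul_le_mul_of_nonneg_left ?_ hC)
  rw [Prod.norm_def]
  refine max_le ?_ ?_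
  · refine (pi_norm_le_iff_of_nonneg (norm_nonneg _)).2 fun j => ?_
    have := coord_le x y j.castSucc
    simpa [hz] using this
  · have h1 : |max (yy x) 0 - max (yy y) 0| ≤ |yy x - yy y| := abs_max_sub_max_le_abs _ _ _
    exact h1.trans (coord_le x y (Fin.last d))

/-- the linear map `x ↦ (hz x, yy x)` -/
noncomputable def Lh (d : ℕ) : E (d + 1) →L[ℝ] ((Fin d → ℝ) × ℝ) :=
  ContinuousLinearMap.prod
    (ContinuousLinearMap.pi fun j : Fin d => EuclideanSpace.proj (𝕜 := ℝ) j.castSucc)
    (EuclideanSpace.proj (𝕜 := ℝ) (Fin.last d))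

lemma Lh_apply (x : E (d + 1)) : Lh d x = (hz x, yy x) := rfl

lemma yy_cont : Continuous (yy : E (d + 1) → ℝ) := by
  unfold yy
  fun_prop

lemma hz_cont : Continuous (hz : E (d + 1) → (Fin d → ℝ)) := by
  unfold hz
  fun_prop

/-- derivative of `VV` in the upper half space -/
lemma hasF (h : Dat A f v C) (x : E (d + 1)) (hx : 0 < yy x) :
    HasFDerivAt (VV v) ((fderiv ℝ v (hz x, yy x)).comp (Lh d)) x := by
  have h1 : HasFDerivAt v (fderiv ℝ v (Lh d x)) (Lh d x) :=
    ((h.dif.differentiableOn one_ne_zero (Lh d x) hx).differentiableAt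
      (open_half.mem_nhds hx)).hasFDerivAt
  have h2 : HasFDerivAt (fun y => v (Lh d y)) ((fderiv ℝ v (Lh d x)).comp (Lh d)) x :=
    h1.comp x (Lh d).hasFDerivAt
  refine h2.congr_of_eventuallyEq ?_
  have h3 : ∀ᶠ y in 𝓝 x, 0 < yy y := (yy_cont.tendsto x).eventually (lt_mem_nhds hx)
  filter_upwards [h3] with y hy
  show v (hz y, max (yy y) 0) = v (Lh d y)
  rw [max_eq_left hy.le]
  rfl

lemma Lh_cast (j : Fin d) : Lh d (bs j.castSucc) = (Pi.single j 1, 0) := by
  rw [Lh_apply]
  ext k
  · simp [hz, Pi.single_apply]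
  · simp only [yy, PiLp.single_apply]
    rw [if_neg]
    exact (Fin.castSucc_lt_last j).ne'

lemma Lh_last : Lh d (bs (Fin.last d)) = (0, 1) := by
  rw [Lh_apply]
  ext k
  · simp only [hz, PiLp.single_apply]
    rw [if_neg]
    · rfl
    · exact (Fin.castSucc_lt_last k).ne
  · simp [yy]

/-- the box is bounded -/
lemma vol_Om : volume (Om d) < ⊤ := by
  have h1 : Om d ⊆ closedBall 0 (Real.sqrt (d + 1)) := by
    intro x hx
    rw [mem_closedBall_zero_iff, EuclideanSpace.norm_eq]
    refine Real.sqrt_le_sqrt ?_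
    have h2 : ∀ i : Fin (d + 1), ‖x i‖ ^ 2 ≤ 1 := by
      intro i
      refine Fin.lastCases ?_ (fun j => ?_) i
      · have h3 := hx.2
        have h4 : |x (Fin.last d)| ≤ 1 := abs_le.2 ⟨h3.1.le, h3.2.le⟩
        rw [Real.norm_eq_abs]
        nlinarith [abs_nonneg (x (Fin.last d))]
      · have h3 := hx.1 j
        have h4 : |x j.castSucc| ≤ 1 := abs_le.2 ⟨by linarith [h3.1, show x j.castSucc = hz x j
          from rfl], h3.2.le⟩
        rw [Real.norm_eq_abs]
        nlinarith [abs_nonneg (x j.castSucc)]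
    calc ∑ i, ‖x i‖ ^ 2 ≤ ∑ _i : Fin (d + 1), (1 : ℝ) := Finset.sum_le_sum fun i _ => h2 i
      _ = (d : ℝ) + 1 := by simp
  exact (measure_mono h1).trans_lt measure_closedBall_lt_top

lemma bdV (h : Dat A f v C) (x : E (d + 1)) : ‖VV v x‖ ≤ C := h.bd _ (le_max_right _ _)

end VVW_

open VVW_ in
theorem vvw_proof : Stmt_VVW := by
  intro d n A f v C h
  have hC := C_nonneg h
  refine ⟨⟨C, lipV h⟩, ?_⟩
  have hL : LipschitzWith C.toNNReal (VV v : E (d + 1) → E n) := by
    refine LipschitzWith.of_dist_le_mul fun x y => ?_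
    rw [dist_eq_norm, dist_eq_norm, Real.coe_toNNReal _ hC]
    exact lipV h x y
  have hfin : IsFiniteMeasure (volume.restrict (Om d)) := ⟨by
    rw [Measure.restrict_apply_univ]
    exact vol_Om⟩
  have hfb : ∀ x : E (d + 1), ‖fderiv ℝ (VV v) x‖ ≤ C := by
    intro x
    have := norm_fderiv_le_of_lipschitz ℝ hL (x₀ := x)
    rwa [Real.coe_toNNReal _ hC] at this
  refine ⟨fun a j x => fderiv ℝ (VV v) x (bs j) a, ?_, Eventually.of_forall fun x _ a j => rfl, ?_⟩
  · intro a
    have hLa : LipschitzWith C.toNNReal (fun x : E (d + 1) => VV v x a) := by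
      refine LipschitzWith.of_dist_le_mul fun x y => ?_
      have h1 := hL.dist_le_mul x y
      refine le_trans ?_ h1
      rw [Real.dist_eq, dist_eq_norm]
      have := PiLp.norm_apply_le (VV v x - VV v y) a
      simpa using this
    have hae := hL.ae_differentiableAt (μ := volume)
    refine ⟨?_, ?_, ?_⟩
    · refine MemLp.of_bound hLa.continuous.aestronglyMeasurable C (Eventually.of_forall fun x => ?_)
      exact (PiLp.norm_apply_le (VV v x) a).trans (bdV h x)
    · intro j
      refine MemLp.of_bound ?_ C (Eventually.of_forall fun x => ?_)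
      · have h1 : Measurable fun x : E (d + 1) => fderiv ℝ (VV v) x (bs j) :=
          measurable_fderiv_apply_const ℝ _ _
        have h2 : Measurable fun x : E (d + 1) => fderiv ℝ (VV v) x (bs j) a := by
          have h3 : Continuous fun y : E n => y a := by fun_prop
          exact h3.measurable.comp h1
        exact h2.aestronglyMeasurable
      · refine (PiLp.norm_apply_le _ a).trans ?_
        refine ((fderiv ℝ (VV v) x).le_opNorm _).trans ?_
        have h1 : ‖(bs j : E (d + 1))‖ = 1 := by simp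
        rw [h1, mul_one]
        exact hfb x
    · intro ζ hζ j
      have hζ1 : ContDiff ℝ 1 ζ := hζ.1.of_le (by exact_mod_cast le_top)
      obtain ⟨D, hD⟩ := hζ1.lipschitzWith_of_hasCompactSupport hζ.2.1 one_ne_zero
      have h1 := LipschitzWith.integral_lineDeriv_mul_eq (μ := volume) hLa hD hζ.2.1 (bs j)
      have h2 : ∫ x, lineDeriv ℝ (fun x : E (d + 1) => VV v x a) x (bs j) * ζ x =
          ∫ x, fderiv ℝ (VV v) x (bs j) a * ζ x := by
        refine integral_congr_ae ?_
        filter_upwards [hae] with x hx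
        have h3 : HasFDerivAt (fun x : E (d + 1) => VV v x a)
            ((EuclideanSpace.proj (𝕜 := ℝ) a : E n →L[ℝ] ℝ).comp (fderiv ℝ (VV v) x)) x :=
          (EuclideanSpace.proj (𝕜 := ℝ) a : E n →L[ℝ] ℝ).hasFDerivAt.comp x hx.hasFDerivAt
        rw [h3.differentiableAt.lineDeriv_eq_fderiv, h3.fderiv]
        rfl
      have h3 : ∫ x, lineDeriv ℝ ζ x (-bs j) * VV v x a =
          -∫ x, VV v x a * fderiv ℝ ζ x (bs j) := by
        rw [← integral_neg]
        refine integral_congr_ae (Eventually.of_forall fun x => ?_)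
        simp only
        rw [((hζ1.differentiable one_ne_zero) x).lineDeriv_eq_fderiv, map_neg]
        ring
      rw [h2, h3] at h1
      linarith
  · refine Eventually.of_forall fun x hx => ?_
    have hx' : 0 < yy x := hx.2
    have h1 := (hasF h x hx').fderiv
    have h2 : ∀ j, vG (fun a j x => fderiv ℝ (VV v) x (bs j) a) x j = fderiv ℝ (VV v) x (bs j) :=
      fun j => rfl
    unfold dir
    rw [h2, h1]
    have h3 := h.eq (hz x, yy x) hx'
    rw [← h3]
    congr 1
    · simp only [ContinuousLinearMap.comp_apply]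
      rw [Lh_last]
    · refine Finset.sum_congr rfl fun j _ => ?_
      rw [h2, h1]
      simp only [ContinuousLinearMap.comp_apply]
      rw [Lh_cast]

end Pool.Agent.CAL
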