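import Pool.Agent.CAL.Stmts

set_option autoImplicit false

namespace Pool.Agent.CAL

open MeasureTheory Set Metric Filter Topology
open scoped ENNReal
open Pool.Agent.COB

noncomputable section

namespace WDX_

variable {m : ℕ}

/-- smooth test functions -/
def TS (U : Set (E m)) : Submodule ℝ (E m → ℝ) where
  carrier := {ζ | ContDiff ℝ (⊤ : ℕ∞) ζ ∧ HasCompactSupport ζ ∧ tsupport ζ ⊆ U}
  add_mem' := by
    rintro a b ⟨ha, ha', ha''⟩ ⟨hb, hb', hb''⟩
    exact ⟨ha.add hb, ha'.add hb', (tsupport_add a b).trans (union_subset ha'' hb'')⟩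
  zero_mem' := by
    refine ⟨contDiff_const, HasCompactSupport.zero, ?_⟩
    have : tsupport (0 : E m → ℝ) = ∅ := by simp [tsupport]
    rw [this]; exact empty_subset _
  smul_mem' := by
    rintro c a ⟨ha, ha', ha''⟩
    refine ⟨contDiff_const.smul ha, ha'.smul_left (f := fun _ => c), ?_⟩
    exact (tsupport_smul_subset_right (fun _ => c) a).trans ha''

lemma fd_zero {ζ : E m → ℝ} {v : E m} {x : E m} (hx : x ∉ tsupport ζ) : fderiv ℝ ζ x v = 0 := by
  have h1 : ζ =ᶠ[𝓝 x] 0 := notMem_tsupport_iff_eventuallyEq.mp hx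
  have h2 : fderiv ℝ ζ x = 0 := by
    rw [h1.fderiv_eq]; simp
  rw [h2]; rfl

lemma int_mul {U C : Set (E m)} {f ψ : E m → ℝ} (hf : MemLp f 2 (volume.restrict U))
    (hC : IsCompact C) (hCU : C ⊆ U) (hψ : Continuous ψ) (h0 : ∀ x, x ∉ C → ψ x = 0) :
    Integrable (fun x => f x * ψ x) := by
  have hs : HasCompactSupport ψ := HasCompactSupport.intro hC h0
  have h1 : Integrable (fun x => f x * ψ x) (volume.restrict U) :=
    hf.integrable_mul (q := 2) (hψ.memLp_of_hasCompactSupport hs)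
  have h2 : IntegrableOn (fun x => f x * ψ x) C := IntegrableOn.mono_set h1 hCU
  rw [integrableOn_iff_integrable_of_support_subset] at h2
  · exact h2
  · intro x hx
    by_contra hxC
    exact hx (by simp [h0 x hxC])

lemma int_fd {U : Set (E m)} {f ζ : E m → ℝ} (hf : MemLp f 2 (volume.restrict U))
    (hζ : ContDiff ℝ 1 ζ) (hc : HasCompactSupport ζ) (hU : tsupport ζ ⊆ U) (v : E m) :
    Integrable (fun x => f x * fderiv ℝ ζ x v) :=
  int_mul hf hc hU ((hζ.continuous_fderiv (by simp)).clm_apply continuous_const)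
    (fun _ hx => fd_zero hx)

def T (U : Set (E m)) : TS U →ₗ[ℝ] Lp ℝ 2 ((volume : Measure (E m)).restrict U) where
  toFun ζ := MemLp.toLp (ζ : E m → ℝ)
    ((ζ.2.1.continuous).memLp_of_hasCompactSupport ζ.2.2.1)
  map_add' a b := by
    rw [← MemLp.toLp_add]; rfl
  map_smul' c a := by
    rw [RingHom.id_apply, ← MemLp.toLp_const_smul]; rfl

def Lm (U : Set (E m)) (f : E m → ℝ) (hf : MemLp f 2 (volume.restrict U)) (v : E m) :
    TS U →ₗ[ℝ] ℝ where
  toFun ζ := ∫ x, f x * fderiv ℝ (ζ : E m → ℝ) x v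
  map_add' a b := by
    rw [← integral_add (int_fd hf (a.2.1.of_le (by exact_mod_cast le_top)) a.2.2.1 a.2.2.2 v)
      (int_fd hf (b.2.1.of_le (by exact_mod_cast le_top)) b.2.2.1 b.2.2.2 v)]
    congr 1
    ext x
    have h1 : DifferentiableAt ℝ (a : E m → ℝ) x := (a.2.1.differentiable (by simp)) x
    have h2 : DifferentiableAt ℝ (b : E m → ℝ) x := (b.2.1.differentiable (by simp)) x
    have : fderiv ℝ ((a + b : TS U) : E m → ℝ) x = fderiv ℝ (a : E m → ℝ) x + fderiv ℝ (b : E m → ℝ) x :=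
      fderiv_add h1 h2
    rw [this, add_apply, mul_add]
  map_smul' c a := by
    rw [RingHom.id_apply, smul_eq_mul, ← integral_const_mul]
    congr 1
    ext x
    have h1 : DifferentiableAt ℝ (a : E m → ℝ) x := (a.2.1.differentiable (by simp)) x
    have : fderiv ℝ ((c • a : TS U) : E m → ℝ) x = c • fderiv ℝ (a : E m → ℝ) x :=
      fderiv_const_smul h1 c
    rw [this, smul_apply, smul_eq_mul]; ring

lemma bound {U : Set (E m)} {f : E m → ℝ} (hf : MemLp f 2 (volume.restrict U)) {v : E m} {h : E m → ℝ≥0∞}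
    (hU : IsOpen U) (hm : Measurable h) (hfin : ∫⁻ x in U, h x ^ 2 < ⊤) (hb : DerivBound U v f h) :
    ∀ ζ : TS U, ‖Lm U f hf v ζ‖ ≤ ((∫⁻ x in U, h x ^ 2) ^ (1 / 2 : ℝ)).toReal * ‖T U ζ‖ := by
  intro ζ
  have h1 := hb ζ ζ.2.1 ζ.2.2.1 ζ.2.2.2
  have h2 : ∫⁻ x, h x * ENNReal.ofReal |(ζ : E m → ℝ) x| = ∫⁻ x in U, h x * ENNReal.ofReal |(ζ : E m → ℝ) x| := by
    rw [← lintegral_indicator hU.measurableSet]
    congr 1
    ext x
    by_cases hx : x ∈ U
    · simp [hx]
    · have : (ζ : E m → ℝ) x = 0 := image_eq_zero_of_notMem_tsupport (fun h' => hx (ζ.2.2.2 h'))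
      simp [hx, this]
  have h3 : ∫⁻ x in U, h x * ENNReal.ofReal |(ζ : E m → ℝ) x| ≤
      (∫⁻ x in U, h x ^ (2 : ℝ)) ^ (1 / 2 : ℝ) *
      (∫⁻ x in U, (ENNReal.ofReal |(ζ : E m → ℝ) x|) ^ (2 : ℝ)) ^ (1 / 2 : ℝ) := by
    apply ENNReal.lintegral_mul_le_Lp_mul_Lq _ (Real.HolderConjugate.two_two) hm.aemeasurable
    exact (ENNReal.measurable_ofReal.comp (ζ.2.1.continuous.measurable.abs)).aemeasurable
  have h4 : (∫⁻ x in U, (ENNReal.ofReal |(ζ : E m → ℝ) x|) ^ (2 : ℝ)) ^ (1 / 2 : ℝ) =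
      ENNReal.ofReal ‖T U ζ‖ := by
    have : ‖T U ζ‖ = (eLpNorm (ζ : E m → ℝ) 2 (volume.restrict U)).toReal := by
      exact Lp.norm_toLp (ζ : E m → ℝ) ((ζ.2.1.continuous).memLp_of_hasCompactSupport ζ.2.2.1)
    rw [this, ENNReal.ofReal_toReal]
    · rw [eLpNorm_eq_lintegral_rpow_enorm_toReal (by norm_num) (by norm_num)]
      simp only [ENNReal.toReal_ofNat]
      congr 1
      apply lintegral_congr
      intro x
      rw [Real.enorm_eq_ofReal_abs]
    · exact ((ζ.2.1.continuous).memLp_of_hasCompactSupport ζ.2.2.1).2.ne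
  have h5 : (∫⁻ x in U, h x ^ (2 : ℝ)) = ∫⁻ x in U, h x ^ 2 := by
    congr 1; ext x; exact ENNReal.rpow_ofNat (h x) 2
  rw [h2] at h1
  have h6 := h1.trans h3
  rw [h4, h5] at h6
  have hC : (∫⁻ x in U, h x ^ 2) ^ (1 / 2 : ℝ) ≠ ⊤ :=
    ENNReal.rpow_ne_top_of_nonneg (by norm_num) hfin.ne
  have h7 := ENNReal.toReal_mono (ENNReal.mul_ne_top hC ENNReal.ofReal_ne_top) h6
  rw [ENNReal.toReal_mul, ENNReal.toReal_ofReal (abs_nonneg _),
    ENNReal.toReal_ofReal (norm_nonneg _)] at h7
  exact h7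

/-- Riesz -/
lemma riesz {U : Set (E m)} {f : E m → ℝ} (hf : MemLp f 2 (volume.restrict U)) {v : E m} {h : E m → ℝ≥0∞}
    (hU : IsOpen U) (hm : Measurable h) (hfin : ∫⁻ x in U, h x ^ 2 < ⊤) (hb : DerivBound U v f h) :
    ∃ G : Lp ℝ 2 ((volume : Measure (E m)).restrict U), ∀ ζ : TS U,
      Lm U f hf v ζ = ∫ x in U, G x * (ζ : E m → ℝ) x := by
  set C := ((∫⁻ x in U, h x ^ 2) ^ (1 / 2 : ℝ)).toReal with hCdef
  have hbd := bound hf hU hm hfin hb
  have hker : LinearMap.ker (T U) ≤ LinearMap.ker (Lm U f hf v) := by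
    intro ζ hζ
    rw [LinearMap.mem_ker] at hζ ⊢
    have := hbd ζ
    rw [hζ, norm_zero, mul_zero] at this
    exact norm_le_zero_iff.mp this
  let Λ' : LinearMap.range (T U) →ₗ[ℝ] ℝ :=
    ((LinearMap.ker (T U)).liftQ (Lm U f hf v) hker).comp
      ((T U).quotKerEquivRange.symm : LinearMap.range (T U) →ₗ[ℝ] _)
  have hΛ : ∀ ζ : TS U, Λ' ⟨T U ζ, LinearMap.mem_range_self _ ζ⟩ = Lm U f hf v ζ := by
    intro ζ
    have : (T U).quotKerEquivRange.symm ⟨T U ζ, LinearMap.mem_range_self _ ζ⟩ =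
        (LinearMap.ker (T U)).mkQ ζ := by
      rw [LinearEquiv.symm_apply_eq]
      rfl
    show ((LinearMap.ker (T U)).liftQ (Lm U f hf v) hker) _ = _
    rw [LinearEquiv.coe_coe, this, Submodule.mkQ_apply, Submodule.liftQ_apply]
  let Λc : LinearMap.range (T U) →L[ℝ] ℝ := Λ'.mkContinuous C (by
    rintro ⟨y, ζ, rfl⟩
    rw [hΛ]
    exact hbd ζ)
  obtain ⟨g, hg, -⟩ := exists_extension_norm_eq (𝕜 := ℝ) (LinearMap.range (T U)) Λc
  refine ⟨(InnerProductSpace.toDual ℝ _).symm g, fun ζ => ?_⟩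
  have h1 : g (T U ζ) = Lm U f hf v ζ := by
    have := hg ⟨T U ζ, LinearMap.mem_range_self _ ζ⟩
    rw [← hΛ ζ]
    exact this
  rw [← h1, ← InnerProductSpace.toDual_symm_apply, L2.inner_def]
  apply integral_congr_ae
  have h2 : (T U ζ : E m → ℝ) =ᵐ[volume.restrict U] (ζ : E m → ℝ) :=
    MemLp.coeFn_toLp ((ζ.2.1.continuous).memLp_of_hasCompactSupport ζ.2.2.1)
  filter_upwards [h2] with x hx
  rw [hx]
  simp [mul_comm]

/-- positivity of a distribution -/
lemma ae_le_of_test {U : Set (E m)} (hU : IsOpen U) {D : E m → ℝ}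
    (hD : ∀ K : Set (E m), K ⊆ U → IsCompact K → IntegrableOn D K)
    (hm : AEStronglyMeasurable D (volume.restrict U))
    (hnt : ∀ ζ : E m → ℝ, ContDiff ℝ (⊤ : ℕ∞) ζ → HasCompactSupport ζ → tsupport ζ ⊆ U →
      (∀ x, 0 ≤ ζ x) → ∫ x in U, D x * ζ x ≤ 0) :
    ∀ᵐ x : E m, x ∈ U → D x ≤ 0 := by
  -- integrals over compact sets
  have hK : ∀ s : Set (E m), s ⊆ U → IsCompact s → ∫ x in s, D x ≤ 0 := by
    intro s hsU hs
    obtain ⟨δ, δpos, hδU⟩ := hs.exists_cthickening_subset_open hU hsU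
    have hδ : IsCompact (cthickening δ s) := hs.cthickening
    obtain ⟨u, -, u_pos, u_lim⟩ : ∃ u, StrictAnti u ∧ (∀ (n : ℕ), u n ∈ Ioo 0 δ)
      ∧ Tendsto u atTop (𝓝 0) := exists_seq_strictAnti_tendsto' δpos
    let v : ℕ → Set (E m) := fun n ↦ thickening (u n) s
    have vK : ∀ n, v n ⊆ cthickening δ s :=
      fun n ↦ thickening_subset_cthickening_of_le (u_pos n).2.le _
    have : ∀ n, ∃ (g : E m → ℝ), Function.support g = v n ∧ ContDiff ℝ (⊤ : ℕ∞) g ∧
        Set.range g ⊆ Set.Icc 0 1 ∧ ∀ x ∈ s, g x = 1 := by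
      intro n
      rcases exists_contMDiff_support_eq_eq_one_iff (n := (⊤ : ℕ∞))
        (modelWithCornersSelf ℝ (E m)) isOpen_thickening
        hs.isClosed (self_subset_thickening (u_pos n).1 s) with ⟨g, g_smooth, g_range, g_supp, hg⟩
      exact ⟨g, g_supp, g_smooth.contDiff, g_range, fun x hx ↦ (hg x).1 hx⟩
    choose g g_supp g_diff g_range hg using this
    have g0 : ∀ n x, 0 ≤ g n x := fun n x => (g_range n (mem_range_self x)).1
    have g1 : ∀ n x, g n x ≤ 1 := fun n x => (g_range n (mem_range_self x)).2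
    have gz : ∀ n x, x ∉ cthickening δ s → g n x = 0 := by
      intro n x hx
      rw [← Function.notMem_support, g_supp]
      exact fun h' => hx (vK n h')
    have hIoU : ∀ n, ∫ x in cthickening δ s, D x * g n x ≤ 0 := by
      intro n
      have h1 : ∫ x in cthickening δ s, D x * g n x = ∫ x in U, D x * g n x := by
        symm
        apply setIntegral_eq_of_subset_of_forall_sdiff_eq_zero hU.measurableSet hδU
        intro x hx
        rw [gz n x hx.2, mul_zero]
      rw [h1]
      have hts : tsupport (g n) ⊆ cthickening δ s := by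
        apply closure_minimal _ hδ.isClosed
        rw [g_supp]; exact vK n
      exact hnt (g n) (g_diff n) (HasCompactSupport.of_support_subset_isCompact hδ
        (by rw [g_supp]; exact vK n)) (hts.trans hδU) (g0 n)
    have L : Tendsto (fun n ↦ ∫ x in cthickening δ s, D x * g n x) atTop
        (𝓝 (∫ x in cthickening δ s, s.indicator D x)) := by
      have hDi := hD _ hδU hδ
      apply tendsto_integral_of_dominated_convergence (fun x => ‖D x‖)
      · exact fun n => hDi.1.mul (g_diff n).continuous.aestronglyMeasurable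
      · exact hDi.norm
      · intro n
        filter_upwards with x
        rw [norm_mul, Real.norm_of_nonneg (g0 n x)]
        exact mul_le_of_le_one_right (norm_nonneg _) (g1 n x)
      · filter_upwards with x
        by_cases hxs : x ∈ s
        · have : ∀ n, g n x = 1 := fun n ↦ hg n x hxs
          simp [this, indicator_of_mem hxs D]
        · rw [indicator_of_notMem hxs D]
          apply tendsto_const_nhds.congr'
          suffices H : ∀ᶠ n in atTop, g n x = 0 by
            filter_upwards [H] with n hn using by simp [hn]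
          obtain ⟨ε, εpos, hε⟩ : ∃ ε, 0 < ε ∧ x ∉ thickening ε s := by
            rw [← hs.isClosed.closure_eq, closure_eq_iInter_thickening s] at hxs
            simpa using hxs
          filter_upwards [(tendsto_order.1 u_lim).2 _ εpos] with n hn
          rw [← Function.notMem_support, g_supp]
          contrapose hε
          exact thickening_mono hn.le s hε
    have h2 : ∫ x in cthickening δ s, s.indicator D x = ∫ x in s, D x := by
      rw [setIntegral_indicator hs.measurableSet, inter_eq_right.mpr (self_subset_cthickening s)]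
    rw [← h2]
    exact le_of_tendsto' L hIoU
  -- a strongly measurable representative
  obtain ⟨D', hD'm, hD'e⟩ := hm
  have h3 : ∀ᵐ x : E m, x ∈ U → D x = D' x := (ae_restrict_iff' hU.measurableSet).mp hD'e
  let S : Set (E m) := {x | x ∈ U ∧ 0 < D' x}
  have hS : MeasurableSet S :=
    hU.measurableSet.inter (measurableSet_lt measurable_const hD'm.measurable)
  have hS0 : volume S = 0 := by
    by_contra hne
    have hpos : 0 < volume S := pos_iff_ne_zero.mpr hne
    obtain ⟨K, hKS, hKc, hKpos⟩ := hS.exists_lt_isCompact hpos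
    have hKU : K ⊆ U := fun x hx => (hKS hx).1
    have h4 := hK K hKU hKc
    have h5 : ∫ x in K, D x = ∫ x in K, D' x := by
      apply setIntegral_congr_ae hKc.measurableSet
      filter_upwards [h3] with x hx hxK using hx (hKU hxK)
    have h6 : IntegrableOn D' K := by
      apply (hD K hKU hKc).congr_fun_ae
      rw [EventuallyEq, ae_restrict_iff' hKc.measurableSet]
      filter_upwards [h3] with x hx hxK using hx (hKU hxK)
    have h7 : 0 < ∫ x in K, D' x := by
      rw [setIntegral_pos_iff_support_of_nonneg_ae _ h6]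
      · have : Function.support D' ∩ K = K := by
          apply inter_eq_right.mpr
          intro x hx
          exact (hKS hx).2.ne'
        rw [this]; exact hKpos
      · rw [EventuallyLE, ae_restrict_iff' hKc.measurableSet]
        filter_upwards with x hx using (hKS hx).2.le
    linarith
  have h8 : ∀ᵐ x : E m, x ∉ S := measure_eq_zero_iff_ae_notMem.mp hS0
  filter_upwards [h3, h8] with x hx hx' hxU
  rw [hx hxU]
  by_contra hne
  exact hx' ⟨hxU, not_le.mp hne⟩


theorem wdx_aux (m : ℕ) (U : Set (E m)) (j : Fin m) (f : E m → ℝ) (h : E m → ℝ≥0∞)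
    (hU : IsOpen U) (hf : MemLp f 2 (volume.restrict U)) (hm : Measurable h)
    (hfin : ∫⁻ x in U, h x ^ 2 < ⊤) (hb : DerivBound U (bs j) f h) :
    ∃ g : E m → ℝ, MemLp g 2 (volume.restrict U) ∧
    (∀ ζ, TF U ζ → ∫ x, f x * fderiv ℝ ζ x (bs j) = -∫ x, g x * ζ x) ∧
    ∀ᵐ x ∂(volume.restrict U), ENNReal.ofReal |g x| ≤ h x := by
  obtain ⟨G, hG⟩ := riesz hf hU hm hfin hb
  have hG2 : MemLp G 2 ((volume : Measure (E m)).restrict U) := Lp.memLp G
  have hLK : ∀ H : E m → ℝ, MemLp H 2 ((volume : Measure (E m)).restrict U) →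
      ∀ K : Set (E m), K ⊆ U → IsCompact K → IntegrableOn H K := by
    intro H hH K hKU hK
    have h1 : MemLp H 2 ((volume : Measure (E m)).restrict K) :=
      hH.mono_measure (Measure.restrict_mono hKU le_rfl)
    have : IsFiniteMeasure ((volume : Measure (E m)).restrict K) :=
      ⟨by rw [Measure.restrict_apply_univ]; exact hK.measure_lt_top⟩
    exact h1.integrable (by norm_num)
  have hfinae : ∀ᵐ x ∂((volume : Measure (E m)).restrict U), h x < ⊤ := by
    have h1 := ae_lt_top (hm.pow_const 2) hfin.ne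
    filter_upwards [h1] with x hx
    by_contra hne
    rw [not_lt, top_le_iff] at hne
    rw [hne] at hx
    simp at hx
  have hr2 : MemLp (fun x => (h x).toReal) 2 ((volume : Measure (E m)).restrict U) := by
    refine ⟨hm.ennreal_toReal.aestronglyMeasurable, ?_⟩
    rw [eLpNorm_lt_top_iff_lintegral_rpow_enorm_lt_top (by norm_num) (by norm_num)]
    refine lt_of_le_of_lt (le_of_eq ?_) hfin
    apply lintegral_congr_ae
    filter_upwards [hfinae] with x hx
    simp only [ENNReal.toReal_ofNat]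
    rw [ENNReal.rpow_ofNat, Real.enorm_eq_ofReal ENNReal.toReal_nonneg, ENNReal.ofReal_toReal hx.ne]
  -- key inequality for test functions
  have hkey : ∀ ζ : E m → ℝ, ContDiff ℝ (⊤ : ℕ∞) ζ → HasCompactSupport ζ → tsupport ζ ⊆ U →
      (∀ x, 0 ≤ ζ x) → |∫ x in U, (G : E m → ℝ) x * ζ x| ≤ ∫ x in U, (h x).toReal * ζ x := by
    intro ζ h1 h2 h3 h4
    have h5 := hb ζ h1 h2 h3
    have h6 := hG ⟨ζ, h1, h2, h3⟩
    have h6' : ∫ x, f x * fderiv ℝ ζ x (bs j) = ∫ x in U, (G : E m → ℝ) x * ζ x := h6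
    rw [h6'] at h5
    have h7 : ∫⁻ x, h x * ENNReal.ofReal |ζ x| = ∫⁻ x in U, h x * ENNReal.ofReal |ζ x| := by
      rw [← lintegral_indicator hU.measurableSet]
      congr 1
      ext x
      by_cases hx : x ∈ U
      · simp [hx]
      · have : ζ x = 0 := image_eq_zero_of_notMem_tsupport (fun h' => hx (h3 h'))
        simp [hx, this]
    have h8 : ∫⁻ x in U, h x * ENNReal.ofReal |ζ x| =
        ENNReal.ofReal (∫ x in U, (h x).toReal * ζ x) := by
      rw [ofReal_integral_eq_lintegral_ofReal]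
      · apply lintegral_congr_ae
        filter_upwards [hfinae] with x hx
        rw [ENNReal.ofReal_mul ENNReal.toReal_nonneg, ENNReal.ofReal_toReal hx.ne,
          abs_of_nonneg (h4 x)]
      · exact hr2.integrable_mul (q := 2) (h1.continuous.memLp_of_hasCompactSupport h2)
      · filter_upwards with x
        exact mul_nonneg ENNReal.toReal_nonneg (h4 x)
    rw [h7, h8] at h5
    have h9 : 0 ≤ ∫ x in U, (h x).toReal * ζ x :=
      integral_nonneg (fun x => mul_nonneg ENNReal.toReal_nonneg (h4 x))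
    exact (ENNReal.ofReal_le_ofReal_iff h9).mp h5
  have hnt : ∀ (H : E m → ℝ), MemLp H 2 ((volume : Measure (E m)).restrict U) →
      ∀ ζ : E m → ℝ, ContDiff ℝ (⊤ : ℕ∞) ζ → HasCompactSupport ζ →
      Integrable (fun x => H x * ζ x) ((volume : Measure (E m)).restrict U) :=
    fun H hH ζ h1 h2 => hH.integrable_mul (q := 2) (h1.continuous.memLp_of_hasCompactSupport h2)
  have hbound : ∀ᵐ x : E m, x ∈ U → |(G : E m → ℝ) x| ≤ (h x).toReal := by
    have hA := ae_le_of_test (D := fun x => (G : E m → ℝ) x - (h x).toReal) hU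
      (fun K h1 h2 => (hLK _ hG2 K h1 h2).sub (hLK _ hr2 K h1 h2))
      (hG2.1.sub hr2.1) (fun ζ h1 h2 h3 h4 => by
        have := hkey ζ h1 h2 h3 h4
        have h5 := (abs_le.mp this).2
        have h6 : ∫ x in U, ((G : E m → ℝ) x - (h x).toReal) * ζ x =
            (∫ x in U, (G : E m → ℝ) x * ζ x) - ∫ x in U, (h x).toReal * ζ x := by
          rw [← integral_sub (hnt _ hG2 ζ h1 h2) (hnt _ hr2 ζ h1 h2)]
          congr 1; ext x; ring
        rw [h6]; linarith)
    have hB := ae_le_of_test (D := fun x => -(G : E m → ℝ) x - (h x).toReal) hU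
      (fun K h1 h2 => (hLK _ hG2 K h1 h2).neg.sub (hLK _ hr2 K h1 h2))
      (hG2.1.neg.sub hr2.1) (fun ζ h1 h2 h3 h4 => by
        have := hkey ζ h1 h2 h3 h4
        have h5 := (abs_le.mp this).1
        have h6 : ∫ x in U, (-(G : E m → ℝ) x - (h x).toReal) * ζ x =
            (-∫ x in U, (G : E m → ℝ) x * ζ x) - ∫ x in U, (h x).toReal * ζ x := by
          have i1 : Integrable (fun x => -((G : E m → ℝ) x * ζ x)) (volume.restrict U) :=
            (hnt _ hG2 ζ h1 h2).neg
          rw [← integral_neg, ← integral_sub i1 (hnt _ hr2 ζ h1 h2)]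
          congr 1; ext x; ring
        rw [h6]; linarith)
    filter_upwards [hA, hB] with x h1 h2 hx
    rw [abs_le]
    constructor
    · linarith [h2 hx]
    · linarith [h1 hx]
  refine ⟨fun x => -(G : E m → ℝ) x, hG2.neg, ?_, ?_⟩
  · rintro ζ ⟨h1, h2, h3⟩
    have h6 := hG ⟨ζ, h1, h2, h3⟩
    have h6' : ∫ x, f x * fderiv ℝ ζ x (bs j) = ∫ x in U, (G : E m → ℝ) x * ζ x := h6
    have h7 : ∫ x, (-(G : E m → ℝ) x) * ζ x = ∫ x in U, (-(G : E m → ℝ) x) * ζ x := by
      symm
      apply setIntegral_eq_integral_of_forall_compl_eq_zero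
      intro x hx
      rw [image_eq_zero_of_notMem_tsupport (fun h' => hx (h3 h')), mul_zero]
    rw [h6', h7, ← integral_neg]
    congr 1
    ext x
    ring
  · rw [ae_restrict_iff' hU.measurableSet]
    filter_upwards [hbound] with x hx hxU
    have h1 := hx hxU
    show ENNReal.ofReal |-(G : E m → ℝ) x| ≤ h x
    rw [abs_neg]
    exact (ENNReal.ofReal_le_ofReal h1).trans ENNReal.ofReal_toReal_le

end WDX_

theorem wdx_proof : Stmt_WDX := WDX_.wdx_aux

end

end Pool.Agent.CAL
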