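import Pool.Agent.CAL.Stmts

/-!
# Squad CAL: module ZER (the weak gradient vanishes a.e. on the zero set)
-/

set_option autoImplicit false

namespace Pool.Agent.CAL

open MeasureTheory Set Metric Filter Topology
open scoped ENNReal Convolution ContDiff
open Pool.Agent.COB

namespace ZER_

variable {m : ℕ}

theorem exists_cut (U C : Set (E m)) (hU : IsOpen U) (hCU : C ⊆ U) (hC : IsCompact C) :
    ∃ ψ : E m → ℝ, ContDiff ℝ (⊤ : ℕ∞) ψ ∧ HasCompactSupport ψ ∧ tsupport ψ ⊆ U ∧
      (∀ z ∈ C, ψ z = 1) ∧ (∀ z ∈ C, fderiv ℝ ψ z = 0) := by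
  obtain ⟨K, hK, hCK, hKU⟩ := exists_compact_between hC hU hCU
  obtain ⟨f, h1, h0, -⟩ := exists_contMDiffMap_one_nhds_of_subset_interior
    (modelWithCornersSelf ℝ (E m)) (n := (⊤ : ℕ∞)) hC.isClosed hCK
  have hsup : tsupport f ⊆ K := by
    apply closure_minimal _ hK.isClosed
    intro x hx
    by_contra hxK
    exact hx (h0 x hxK)
  refine ⟨f, f.contMDiff.contDiff, ?_, hsup.trans hKU, fun z hz => ?_, fun z hz => ?_⟩
  · exact IsCompact.of_isClosed_subset hK (isClosed_tsupport _) hsup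
  · exact h1.self_of_nhdsSet z hz
  · have h2 : ∀ᶠ x in 𝓝 z, f x = 1 := h1.filter_mono (nhds_le_nhdsSet hz)
    have h3 : (f : E m → ℝ) =ᶠ[𝓝 z] fun _ => (1 : ℝ) := h2
    rw [h3.fderiv_eq]
    simp

/-! ### mollification in `L²` -/

lemma sq_eLpNorm (u : E m → ℝ) : eLpNorm u 2 volume ^ (2 : ℝ) = ∫⁻ z, ‖u z‖ₑ ^ (2 : ℝ) := by
  have := eLpNorm_nnreal_pow_eq_lintegral (f := u) (μ := (volume : Measure (E m))) (p := 2)
    (by norm_num)
  simpa using this

/-- continuity of translations in L2 -/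
lemma trans_small (g : E m → ℝ) (hg : MemLp g 2 volume) (ε : ℝ≥0∞) (hε : 0 < ε) :
    ∃ δ > 0, ∀ t : E m, ‖t‖ < δ → ∫⁻ z, ‖g (z - t) - g z‖ₑ ^ (2 : ℝ) ≤ ε ^ (2 : ℝ) := by
  have : Fact ((1 : ℝ≥0∞) ≤ 2) := ⟨by norm_num⟩
  set f : Lp ℝ 2 (volume : Measure (E m)) := hg.toLp g with hf
  let τ : E m → C(E m, E m) := fun t => ⟨fun z => z - t, by fun_prop⟩
  have hτ : Continuous τ := ContinuousMap.continuous_of_continuous_uncurry _ (by
    show Continuous fun p : E m × E m => p.2 - p.1
    fun_prop)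
  have hm : ∀ t, MeasurePreserving (τ t) volume volume := fun t =>
    measurePreserving_sub_right volume t
  have hc : Continuous fun t => Lp.compMeasurePreserving (τ t) (hm t) f :=
    continuous_const.compMeasurePreservingLp hτ hm (by norm_num)
  have h0 := hc.tendsto 0
  rw [EMetric.tendsto_nhds] at h0
  obtain ⟨δ, hδ, hδ2⟩ := Metric.eventually_nhds_iff.1 (h0 ε hε)
  refine ⟨δ, hδ, fun t ht => ?_⟩
  have h1 := hδ2 (y := t) (by simpa using ht)
  have e1 : Lp.compMeasurePreserving (τ t) (hm t) f =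
      (hg.comp_measurePreserving (hm t)).toLp (g ∘ τ t) := rfl
  have e2 : Lp.compMeasurePreserving (τ 0) (hm 0) f =
      (hg.comp_measurePreserving (hm 0)).toLp (g ∘ τ 0) := rfl
  rw [e1, e2, Lp.edist_toLp_toLp] at h1
  have e3 : (g ∘ τ t - g ∘ τ 0) = fun z => g (z - t) - g z := by
    funext z
    simp [τ]
  rw [e3] at h1
  rw [← sq_eLpNorm]
  exact ENNReal.rpow_le_rpow h1.le (by norm_num)

lemma jensen (φ : ContDiffBump (0 : E m)) (u : E m → ℝ) (hu : AEStronglyMeasurable u volume) :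
    ‖∫ t, φ.normed volume t • u t‖ₑ ^ (2 : ℝ) ≤
      ∫⁻ t, ENNReal.ofReal (φ.normed volume t) * ‖u t‖ₑ ^ (2 : ℝ) := by
  set ρ : E m → ℝ := φ.normed volume with hρ
  have hρm : Measurable fun t => ENNReal.ofReal (ρ t) :=
    (φ.continuous_normed.measurable).ennreal_ofReal
  have hρn : ∀ t, 0 ≤ ρ t := fun t => φ.nonneg_normed t
  set ν : Measure (E m) := volume.withDensity fun t => ENNReal.ofReal (ρ t) with hν
  have hν1 : ν univ = 1 := by
    rw [hν, withDensity_apply _ MeasurableSet.univ, Measure.restrict_univ,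
      ← ofReal_integral_eq_lintegral_ofReal φ.integrable_normed (Eventually.of_forall hρn),
      φ.integral_normed, ENNReal.ofReal_one]
  have : IsProbabilityMeasure ν := ⟨hν1⟩
  have hac : ν ≪ volume := withDensity_absolutelyContinuous _ _
  have h1 : ‖∫ t, ρ t • u t‖ₑ ≤ ∫⁻ t, ‖u t‖ₑ ∂ν := by
    refine (enorm_integral_le_lintegral_enorm _).trans (le_of_eq ?_)
    rw [hν, lintegral_withDensity_eq_lintegral_mul₀ hρm.aemeasurable hu.enorm]
    refine lintegral_congr fun t => ?_
    simp only [Pi.mul_apply, enorm_smul]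
    rw [Real.enorm_of_nonneg (hρn t)]
  have h2 : ∫⁻ t, ‖u t‖ₑ ∂ν ≤ eLpNorm u 2 ν := by
    rw [← eLpNorm_one_eq_lintegral_enorm]
    exact eLpNorm_le_eLpNorm_of_exponent_le (by norm_num) (hu.mono_ac hac)
  have h3 : eLpNorm u 2 ν ^ (2 : ℝ) = ∫⁻ t, ENNReal.ofReal (ρ t) * ‖u t‖ₑ ^ (2 : ℝ) := by
    have := eLpNorm_nnreal_pow_eq_lintegral (f := u) (μ := ν) (p := 2) (by norm_num)
    have e : eLpNorm u 2 ν ^ (2 : ℝ) = ∫⁻ t, ‖u t‖ₑ ^ (2 : ℝ) ∂ν := by simpa using this
    rw [e, hν, lintegral_withDensity_eq_lintegral_mul₀ hρm.aemeasurable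
      (hu.enorm.pow_const _)]
    rfl
  rw [← h3]
  exact ENNReal.rpow_le_rpow (h1.trans h2) (by norm_num)

theorem mol (g : E m → ℝ) (hmem : MemLp g 2 volume) (ε : ℝ) (hε : 0 < ε) :
    ∃ δ > 0, ∀ φ : ContDiffBump (0 : E m), φ.rOut < δ →
      Integrable (fun z =>
        ((φ.normed volume ⋆[ContinuousLinearMap.lsmul ℝ ℝ, volume] g) z - g z) ^ 2) ∧
      ∫ z, ((φ.normed volume ⋆[ContinuousLinearMap.lsmul ℝ ℝ, volume] g) z - g z) ^ 2 ≤ ε := by
  have hg := hmem.aestronglyMeasurable
  set η : ℝ≥0∞ := ENNReal.ofReal (Real.sqrt ε) with hη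
  have hηpos : 0 < η := ENNReal.ofReal_pos.2 (Real.sqrt_pos.2 hε)
  have hη2 : η ^ (2 : ℝ) = ENNReal.ofReal ε := by
    rw [hη, ENNReal.ofReal_rpow_of_nonneg (Real.sqrt_nonneg _) (by norm_num)]
    congr 1
    rw [Real.rpow_two, Real.sq_sqrt hε.le]
  obtain ⟨δ, hδ, hδ2⟩ := trans_small g hmem η hηpos
  rw [hη2] at hδ2
  refine ⟨δ, hδ, fun φ hφ => ?_⟩
  have hloc : LocallyIntegrable g volume := hmem.locallyIntegrable (by norm_num)
  set ρ : E m → ℝ := φ.normed volume with hρ
  have hρc : Continuous ρ := φ.continuous_normed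
  have hρs : HasCompactSupport ρ := φ.hasCompactSupport_normed
  have hρn : ∀ t, 0 ≤ ρ t := fun t => φ.nonneg_normed t
  have hρi : Integrable ρ volume := φ.integrable_normed
  have hcont : Continuous (ρ ⋆[ContinuousLinearMap.lsmul ℝ ℝ, volume] g) :=
    hρs.continuous_convolution_left _ hρc hloc
  have hex : ConvolutionExists ρ g (ContinuousLinearMap.lsmul ℝ ℝ) volume :=
    hρs.convolutionExists_left _ hρc hloc
  have hid : ∀ z, (ρ ⋆[ContinuousLinearMap.lsmul ℝ ℝ, volume] g) z - g z =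
      ∫ t, ρ t • (g (z - t) - g z) := by
    intro z
    have i1 : Integrable (fun t => ρ t • g (z - t)) volume := by
      have := hex z
      simpa [ConvolutionExistsAt] using this
    have i2 : Integrable (fun t => ρ t • g z) volume := hρi.smul_const _
    have e : ∀ t, ρ t • (g (z - t) - g z) = ρ t • g (z - t) - ρ t • g z := fun t => smul_sub _ _ _
    simp only [e]
    rw [integral_sub i1 i2, integral_smul_const, φ.integral_normed, one_smul]
    simp [convolution]
  have hmeas : AEStronglyMeasurable (fun z =>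
      (ρ ⋆[ContinuousLinearMap.lsmul ℝ ℝ, volume] g) z - g z) volume :=
    hcont.aestronglyMeasurable.sub hg
  have hjm : AEStronglyMeasurable (fun p : E m × E m => g (p.1 - p.2) - g p.1)
      (volume.prod volume) := by
    refine AEStronglyMeasurable.sub ?_ hg.comp_fst
    exact hg.comp_quasiMeasurePreserving
      (quasiMeasurePreserving_sub_of_right_invariant volume volume)
  have hkey : ∫⁻ z, ‖(ρ ⋆[ContinuousLinearMap.lsmul ℝ ℝ, volume] g) z - g z‖ₑ ^ (2 : ℝ) ≤
      ENNReal.ofReal ε := by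
    calc ∫⁻ z, ‖(ρ ⋆[ContinuousLinearMap.lsmul ℝ ℝ, volume] g) z - g z‖ₑ ^ (2 : ℝ)
        ≤ ∫⁻ z, ∫⁻ t, ENNReal.ofReal (ρ t) * ‖g (z - t) - g z‖ₑ ^ (2 : ℝ) := by
          refine lintegral_mono fun z => ?_
          rw [hid z]
          refine jensen φ (fun t => g (z - t) - g z) ?_
          refine AEStronglyMeasurable.sub ?_ aestronglyMeasurable_const
          exact hg.comp_quasiMeasurePreserving
            (quasiMeasurePreserving_sub_left volume z)
      _ = ∫⁻ t, ∫⁻ z, ENNReal.ofReal (ρ t) * ‖g (z - t) - g z‖ₑ ^ (2 : ℝ) := by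
          refine lintegral_lintegral_swap ?_
          refine AEMeasurable.mul ?_ (hjm.enorm.pow_const _)
          exact ((hρc.measurable.ennreal_ofReal).comp measurable_snd).aemeasurable
      _ = ∫⁻ t, ENNReal.ofReal (ρ t) * ∫⁻ z, ‖g (z - t) - g z‖ₑ ^ (2 : ℝ) := by
          refine lintegral_congr fun t => ?_
          rw [lintegral_const_mul' _ _ ENNReal.ofReal_ne_top]
      _ ≤ ∫⁻ t, ENNReal.ofReal (ρ t) * ENNReal.ofReal ε := by
          refine lintegral_mono fun t => ?_
          by_cases ht : ‖t‖ < δ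
          · exact mul_le_mul_right (hδ2 t ht) _
          · have : ρ t = 0 := by
              by_contra h
              have hs : t ∈ Function.support ρ := h
              rw [hρ, φ.support_normed_eq, mem_ball_zero_iff] at hs
              exact ht (hs.trans hφ)
            rw [this]
            simp
      _ = ENNReal.ofReal ε := by
          rw [lintegral_mul_const' _ _ ENNReal.ofReal_ne_top,
            ← ofReal_integral_eq_lintegral_ofReal hρi (Eventually.of_forall hρn),
            φ.integral_normed, ENNReal.ofReal_one, one_mul]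
  have hfin : MemLp (fun z => (ρ ⋆[ContinuousLinearMap.lsmul ℝ ℝ, volume] g) z - g z) 2 volume := by
    refine ⟨hmeas, ?_⟩
    by_contra h
    rw [not_lt, top_le_iff] at h
    have := sq_eLpNorm (fun z => (ρ ⋆[ContinuousLinearMap.lsmul ℝ ℝ, volume] g) z - g z)
    rw [h] at this
    rw [← this] at hkey
    simp at hkey
  have hint : Integrable (fun z =>
      ((ρ ⋆[ContinuousLinearMap.lsmul ℝ ℝ, volume] g) z - g z) ^ 2) := hfin.integrable_sq
  refine ⟨hint, ?_⟩
  rw [← ENNReal.ofReal_le_ofReal_iff hε.le,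
    ofReal_integral_eq_lintegral_ofReal hint (Eventually.of_forall fun z => sq_nonneg _)]
  refine le_trans (le_of_eq ?_) hkey
  refine lintegral_congr fun z => ?_
  rw [← ofReal_norm, ENNReal.ofReal_rpow_of_nonneg (norm_nonneg _) (by norm_num)]
  congr 1
  rw [Real.rpow_two, Real.norm_eq_abs, sq_abs]

/-! ### the derivative of the mollification -/

theorem fderiv_cont {η : E m → ℝ} (hη : ContDiff ℝ 1 η) (v : E m) :
    Continuous fun x => fderiv ℝ η x v :=
  (hη.continuous_fderiv one_ne_zero).clm_apply continuous_const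

theorem fd_swap (ρ : E m → ℝ) (hρ : ContDiff ℝ (⊤ : ℕ∞) ρ) (z w : E m) :
    HasFDerivAt (fun w => ρ (z - w)) (-(fderiv ℝ ρ (z - w))) w := by
  have hd : Differentiable ℝ ρ := hρ.differentiable (by simp)
  have h1 : HasFDerivAt (fun w : E m => z - w) (-(ContinuousLinearMap.id ℝ (E m))) w :=
    (hasFDerivAt_id w).const_sub z
  have h2 : HasFDerivAt (fun w => ρ (z - w)) ((fderiv ℝ ρ (z - w)).comp
      (-(ContinuousLinearMap.id ℝ (E m)))) w := (hd (z - w)).hasFDerivAt.comp w h1
  have e : (fderiv ℝ ρ (z - w)).comp (-(ContinuousLinearMap.id ℝ (E m))) =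
      -(fderiv ℝ ρ (z - w)) := by
    ext v
    simp
  rw [e] at h2
  exact h2

/-- a function in `L²(U)` times a continuous function with compact support in `U` -/
theorem mem_mul {U : Set (E m)} (hU : IsOpen U) {f φ : E m → ℝ}
    (hf : MemLp f 2 (volume.restrict U)) (hφ : Continuous φ) (hc : HasCompactSupport φ)
    (hsub : tsupport φ ⊆ U) : MemLp (fun x => f x * φ x) 2 volume := by
  obtain ⟨M, hM⟩ := hφ.bounded_above_of_compact_support hc
  have h1 : MemLp (fun x => φ x * f x) 2 (volume.restrict U) := by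
    refine MemLp.of_le_mul (c := M) hf (hφ.aestronglyMeasurable.mul hf.1)
      (Eventually.of_forall fun x => ?_)
    rw [norm_mul]
    exact mul_le_mul_of_nonneg_right (hM x) (norm_nonneg _)
  have h2 : (fun x => f x * φ x) = U.indicator (fun x => φ x * f x) := by
    funext x
    by_cases hx : x ∈ U
    · simp [hx, mul_comm]
    · have : φ x = 0 := image_eq_zero_of_notMem_tsupport fun h => hx (hsub h)
      simp [hx, this]
  rw [h2]
  exact (memLp_indicator_iff_restrict hU.measurableSet).2 h1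

theorem int_mul {U : Set (E m)} (hU : IsOpen U) {f φ : E m → ℝ}
    (hf : MemLp f 2 (volume.restrict U)) (hφ : Continuous φ) (hc : HasCompactSupport φ)
    (hsub : tsupport φ ⊆ U) : Integrable (fun x => f x * φ x) volume := by
  have h1 := mem_mul hU hf hφ hc hsub
  have h2 : MemLp (fun x => f x * φ x) 1 (volume.restrict (tsupport φ)) := by
    have : IsFiniteMeasure (volume.restrict (tsupport φ)) := ⟨by
      rw [Measure.restrict_apply_univ]
      exact IsCompact.measure_lt_top hc⟩
    exact (h1.restrict _).mono_exponent (by norm_num)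
  have h3 : IntegrableOn (fun x => f x * φ x) (tsupport φ) := memLp_one_iff_integrable.1 h2
  refine h3.integrable_of_forall_notMem_eq_zero fun x hx => ?_
  rw [image_eq_zero_of_notMem_tsupport hx, mul_zero]

/-- derivative of the mollification -/
theorem conv_der {U : Set (E m)} (hU : IsOpen U) {f : E m → ℝ} {g : Fin m → E m → ℝ}
    (hf : W12 U f g) (j : Fin m) {χ : E m → ℝ} (hχ : ContDiff ℝ (⊤ : ℕ∞) χ)
    (hχc : HasCompactSupport χ) (hχU : tsupport χ ⊆ U)
    (ρ : E m → ℝ) (hρ : ContDiff ℝ (⊤ : ℕ∞) ρ) (hρc : HasCompactSupport ρ) (z : E m) :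
    fderiv ℝ (ρ ⋆[ContinuousLinearMap.lsmul ℝ ℝ, volume] fun w => f w * χ w) z (bs j) =
      (ρ ⋆[ContinuousLinearMap.lsmul ℝ ℝ, volume]
        fun w => g j w * χ w + f w * fderiv ℝ χ w (bs j)) z := by
  set v : E m := bs j with hv
  set u : E m → ℝ := fun w => f w * χ w with hu
  set G : E m → ℝ := fun w => g j w * χ w + f w * fderiv ℝ χ w v with hGd
  have hχ1 : ContDiff ℝ 1 χ := hχ.of_le (by exact_mod_cast le_top)
  have hρ1 : ContDiff ℝ 1 ρ := hρ.of_le (by exact_mod_cast le_top)
  have hχd : Continuous fun w => fderiv ℝ χ w v := fderiv_cont hχ1 v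
  have hχdc : HasCompactSupport fun w => fderiv ℝ χ w v := hχc.fderiv_apply (𝕜 := ℝ) v
  have hχdU : tsupport (fun w => fderiv ℝ χ w v) ⊆ U :=
    (tsupport_fderiv_apply_subset ℝ v).trans hχU
  have hui : Integrable u := int_mul hU hf.f2 hχ.continuous hχc hχU
  have hGi : Integrable G :=
    (int_mul hU (hf.g2 j) hχ.continuous hχc hχU).add (int_mul hU hf.f2 hχd hχdc hχdU)
  have hρd : Continuous (fderiv ℝ ρ) := hρ.continuous_fderiv (by simp)
  have hder := hρc.hasFDerivAt_convolution_left (ContinuousLinearMap.lsmul ℝ ℝ) hρ1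
    hui.locallyIntegrable (μ := volume) z
  obtain ⟨M, hM⟩ := hρ.continuous.bounded_above_of_compact_support hρc
  -- the function `w ↦ ρ (z - w)`
  set r : E m → ℝ := fun w => ρ (z - w) with hr
  have hrs : ContDiff ℝ (⊤ : ℕ∞) r := hρ.comp (contDiff_const.sub contDiff_id)
  have hrf : ∀ w v, fderiv ℝ r w v = -(fderiv ℝ ρ (z - w) v) := by
    intro w v
    rw [(fd_swap ρ hρ z w).fderiv]
    rfl
  have hr1 : ContDiff ℝ 1 r := hrs.of_le (by exact_mod_cast le_top)
  rw [hder.fderiv]
  -- the test function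
  set η : E m → ℝ := fun w => χ w * r w with hη
  have hηs : ContDiff ℝ (⊤ : ℕ∞) η := hχ.mul hrs
  have hη1 : ContDiff ℝ 1 η := hχ1.mul hr1
  have hηc : HasCompactSupport η := hχc.mul_right
  have hηt : tsupport η ⊆ U := (tsupport_mul_subset_left).trans hχU
  have hibp := hf.ibp η ⟨hηs, hηc, hηt⟩ j
  rw [← hv] at hibp
  have hηf : ∀ w, fderiv ℝ η w v = fderiv ℝ χ w v * r w - χ w * fderiv ℝ ρ (z - w) v := by
    intro w
    rw [hη, fderiv_fun_mul ((hχ1.differentiable one_ne_zero) w)
      ((hr1.differentiable one_ne_zero) w)]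
    have e := hrf w v
    simp only [_root_.add_apply, _root_.smul_apply, smul_eq_mul, e]
    ring
  have i1 : Integrable fun w => f w * fderiv ℝ η w v :=
    int_mul hU hf.f2 (fderiv_cont hη1 v) (hηc.fderiv_apply (𝕜 := ℝ) v)
      ((tsupport_fderiv_apply_subset ℝ v).trans hηt)
  have i2 : Integrable fun w => g j w * η w := int_mul hU (hf.g2 j) hη1.continuous hηc hηt
  have i3 : Integrable fun w => f w * (fderiv ℝ χ w v * r w) := by
    refine int_mul hU hf.f2 (hχd.mul hr1.continuous) ?_ ?_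
    · exact hχdc.mul_right
    · exact (tsupport_mul_subset_left).trans hχdU
  have e1 : (fderiv ℝ ρ ⋆[ContinuousLinearMap.precompL (E m) (ContinuousLinearMap.lsmul ℝ ℝ),
      volume] u) z v = ∫ t, fderiv ℝ ρ t v * u (z - t) := by
    have hconv : ConvolutionExistsAt (fderiv ℝ ρ) u z
        (ContinuousLinearMap.precompL (E m) (ContinuousLinearMap.lsmul ℝ ℝ)) volume :=
      (hρc.fderiv ℝ).convolutionExists_left _ hρd hui.locallyIntegrable z
    rw [convolution, ContinuousLinearMap.integral_apply hconv]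
    rfl
  have e2 : ∫ t, fderiv ℝ ρ t v * u (z - t) = ∫ w, fderiv ℝ ρ (z - w) v * u w := by
    rw [← integral_sub_left_eq_self (fun t => fderiv ℝ ρ t v * u (z - t)) volume z]
    simp
  have e3 : (ρ ⋆[ContinuousLinearMap.lsmul ℝ ℝ, volume] G) z = ∫ w, r w * G w := by
    rw [convolution, ← integral_sub_left_eq_self _ volume z]
    refine integral_congr_ae (Eventually.of_forall fun w => ?_)
    simp [hr]
  have e5 : ∀ w, r w * G w = f w * (fderiv ℝ χ w v * r w) + g j w * η w := by
    intro w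
    simp only [hGd, hη]
    ring
  have e6 : ∀ w, fderiv ℝ ρ (z - w) v * u w =
      f w * (fderiv ℝ χ w v * r w) - f w * fderiv ℝ η w v := by
    intro w
    rw [hηf w]
    simp only [hu]
    ring
  rw [e1, e2, e3]
  simp only [e5, e6]
  rw [integral_add i3 i2, integral_sub i3 i1, hibp]
  ring

/-! ### chain rule -/

theorem int_sq {f : E m → ℝ} (hf : Continuous f) (hs : HasCompactSupport f) :
    Integrable (fun x => f x ^ 2) volume := by
  have h : Integrable (fun x => f x * f x) volume :=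
    (hf.mul hf).integrable_of_hasCompactSupport hs.mul_right
  refine h.congr (Eventually.of_forall fun x => ?_)
  show f x * f x = f x ^ 2
  ring

theorem lin2 {f g : E m → ℝ} (a b : ℝ) (hf : Integrable f) (hg : Integrable g) :
    Integrable (fun x => a * f x + b * g x) ∧
    ∫ x, (a * f x + b * g x) = a * (∫ x, f x) + b * ∫ x, g x := by
  have h1 : Integrable (fun x => a * f x) := hf.const_mul a
  have h2 : Integrable (fun x => b * g x) := hg.const_mul b
  refine ⟨h1.add h2, ?_⟩
  rw [integral_add h1 h2, integral_const_mul, integral_const_mul]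

theorem chain (v G : E m → ℝ) (a : E m) (hv : MemLp v 2 volume) (hG : MemLp G 2 volume)
    (hder : ∀ ρ : E m → ℝ, ContDiff ℝ (⊤ : ℕ∞) ρ → HasCompactSupport ρ → ∀ z,
      fderiv ℝ (ρ ⋆[ContinuousLinearMap.lsmul ℝ ℝ, volume] v) z a =
        (ρ ⋆[ContinuousLinearMap.lsmul ℝ ℝ, volume] G) z)
    (Φ Φd : ℝ → ℝ) (L K : ℝ) (hL : 0 ≤ L) (hΦ : ∀ t, HasDerivAt Φ (Φd t) t)
    (hΦc : Continuous Φd) (h1 : ∀ t, |Φd t| ≤ 1) (hΦL : ∀ s t, |Φd s - Φd t| ≤ L * |s - t|)
    (hK : ∀ t, |Φ t| ≤ K)
    (ζ : E m → ℝ) (hζ : ContDiff ℝ (⊤ : ℕ∞) ζ) (hζc : HasCompactSupport ζ) :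
    ∫ x, Φ (v x) * fderiv ℝ ζ x a = -∫ x, Φd (v x) * G x * ζ x := by
  have hζ1 : ContDiff ℝ 1 ζ := hζ.of_le (by exact_mod_cast le_top)
  set D : E m → ℝ := fun x => fderiv ℝ ζ x a with hD
  have hDc : Continuous D := fderiv_cont hζ1 a
  have hDs : HasCompactSupport D := hζc.fderiv_apply (𝕜 := ℝ) a
  have hΦcont : Continuous Φ := continuous_iff_continuousAt.2 fun t => (hΦ t).continuousAt
  have hLip : ∀ s t, |Φ s - Φ t| ≤ |s - t| := by
    intro s t
    have := Convex.norm_image_sub_le_of_norm_hasDerivWithin_le (f := Φ) (f' := Φd) (C := 1)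
      (s := univ) (x := t) (y := s) (fun x _ => (hΦ x).hasDerivWithinAt)
      (fun x _ => by simpa using h1 x) convex_univ (mem_univ _) (mem_univ _)
    simpa using this
  obtain ⟨M, hM⟩ := hζ.continuous.bounded_above_of_compact_support hζc
  have hM0 : 0 ≤ M := (norm_nonneg _).trans (hM 0)
  have vm : AEStronglyMeasurable v volume := hv.aestronglyMeasurable
  have Gm : AEStronglyMeasurable G volume := hG.aestronglyMeasurable
  have iD2 : Integrable (fun x => D x ^ 2) := int_sq hDc hDs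
  have iζ2 : Integrable (fun x => ζ x ^ 2) := int_sq hζ.continuous hζc
  have iG2 : Integrable (fun x => G x ^ 2) := hG.integrable_sq
  have iD : Integrable D := hDc.integrable_of_hasCompactSupport hDs
  have iζ : Integrable ζ := hζ.continuous.integrable_of_hasCompactSupport hζc
  have iGζ : Integrable (fun x => G x * ζ x) := by
    refine Integrable.mono' ((iG2.add iζ2).const_mul (1 / 2))
      (Gm.mul hζ.continuous.aestronglyMeasurable) (Eventually.of_forall fun x => ?_)
    simp only [Pi.add_apply, Real.norm_eq_abs, abs_mul]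
    nlinarith [sq_nonneg (|G x| - |ζ x|), sq_abs (G x), sq_abs (ζ x)]
  have J1 : Integrable (fun x => Φ (v x) * D x) := by
    refine iD.bdd_mul (c := K) ?_ (Eventually.of_forall fun x => by simpa using hK (v x))
    exact hΦcont.comp_aestronglyMeasurable vm
  have J2 : Integrable (fun x => Φd (v x) * G x * ζ x) := by
    have : Integrable (fun x => Φd (v x) * (G x * ζ x)) :=
      iGζ.bdd_mul (c := 1) (hΦc.comp_aestronglyMeasurable vm)
        (Eventually.of_forall fun x => by simpa using h1 (v x))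
    refine this.congr (Eventually.of_forall fun x => ?_)
    show Φd (v x) * (G x * ζ x) = _
    ring
  set Ct : ℝ := (1 / 2) * (1 + ∫ x, D x ^ 2) + (1 / 2) * (1 + ∫ x, ζ x ^ 2) +
    (L * M) * ((1 / 2) * (1 + ∫ x, G x ^ 2)) with hCt
  have key : ∀ η > 0, |∫ x, Φ (v x) * D x + Φd (v x) * G x * ζ x| ≤ Ct * η := by
    intro η hη
    have hη2 : 0 < η ^ 2 := by positivity
    obtain ⟨δ1, hδ1, hm1⟩ := mol v hv (η ^ 2) hη2
    obtain ⟨δ2, hδ2, hm2⟩ := mol G hG (η ^ 2) hη2
    set δ := min δ1 δ2 with hδdef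
    have hδ : 0 < δ := lt_min hδ1 hδ2
    let φ : ContDiffBump (0 : E m) := ⟨δ / 4, δ / 2, by positivity, by linarith⟩
    have hφ : φ.rOut = δ / 2 := rfl
    obtain ⟨iv, lv⟩ := hm1 φ (by rw [hφ]; linarith [min_le_left δ1 δ2])
    obtain ⟨iG, lG⟩ := hm2 φ (by rw [hφ]; linarith [min_le_right δ1 δ2])
    have hρ : ContDiff ℝ (⊤ : ℕ∞) (φ.normed volume) := φ.contDiff_normed
    have hρc : HasCompactSupport (φ.normed volume) := φ.hasCompactSupport_normed
    set ρ : E m → ℝ := φ.normed volume with hρd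
    set w : E m → ℝ := ρ ⋆[ContinuousLinearMap.lsmul ℝ ℝ, volume] v with hw
    set H : E m → ℝ := ρ ⋆[ContinuousLinearMap.lsmul ℝ ℝ, volume] G with hH
    have hvl : LocallyIntegrable v volume := hv.locallyIntegrable (by norm_num)
    have hws : ContDiff ℝ (⊤ : ℕ∞) w := hρc.contDiff_convolution_left _ hρ hvl
    have hw1 : ContDiff ℝ 1 w := hws.of_le (by exact_mod_cast le_top)
    have hwd : ∀ z, fderiv ℝ w z a = H z := hder ρ hρ hρc
    have hHc : Continuous H := by
      have := fderiv_cont hw1 a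
      simpa only [hwd] using this
    have hΦw : ∀ x, HasFDerivAt (fun x => Φ (w x)) (Φd (w x) • fderiv ℝ w x) x := fun x =>
      (hΦ (w x)).comp_hasFDerivAt x ((hw1.differentiable one_ne_zero) x).hasFDerivAt
    have hib : ∫ x, Φ (w x) * D x = -∫ x, Φd (w x) * H x * ζ x := by
      have e : ∀ x, fderiv ℝ (fun x => Φ (w x)) x a = Φd (w x) * H x := by
        intro x
        rw [(hΦw x).fderiv, ← hwd x]
        rfl
      have := integral_mul_fderiv_eq_neg_fderiv_mul_of_integrable (μ := (volume : Measure (E m)))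
        (f := fun x => Φ (w x)) (g := ζ) (v := a) ?_ ?_ ?_
        (fun x _ => (hΦw x).differentiableAt) (fun x _ => (hζ1.differentiable one_ne_zero) x)
      · simpa only [e] using this
      · simp only [e]
        exact (((hΦc.comp hw1.continuous).mul hHc).mul
          hζ.continuous).integrable_of_hasCompactSupport hζc.mul_left
      · exact ((hΦcont.comp hw1.continuous).mul hDc).integrable_of_hasCompactSupport hDs.mul_left
      · exact ((hΦcont.comp hw1.continuous).mul
          hζ.continuous).integrable_of_hasCompactSupport hζc.mul_left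
    have K1 : Integrable (fun x => Φ (w x) * D x) :=
      ((hΦcont.comp hw1.continuous).mul hDc).integrable_of_hasCompactSupport hDs.mul_left
    have K2 : Integrable (fun x => Φd (w x) * H x * ζ x) :=
      (((hΦc.comp hw1.continuous).mul hHc).mul
          hζ.continuous).integrable_of_hasCompactSupport hζc.mul_left
    have hz : ∫ x, (Φ (w x) * D x + Φd (w x) * H x * ζ x) = 0 := by
      rw [integral_add K1 K2, hib]
      ring
    have hsub : ∫ x, (Φ (v x) * D x + Φd (v x) * G x * ζ x) =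
        ∫ x, ((Φ (v x) * D x + Φd (v x) * G x * ζ x) - (Φ (w x) * D x + Φd (w x) * H x * ζ x)) := by
      have q1 : Integrable (fun x => Φ (v x) * D x + Φd (v x) * G x * ζ x) := J1.add J2
      have q2 : Integrable (fun x => Φ (w x) * D x + Φd (w x) * H x * ζ x) := K1.add K2
      rw [integral_sub q1 q2, hz, sub_zero]
    rw [hsub]
    set B : E m → ℝ := fun x => ((1 / (2 * η)) * (w x - v x) ^ 2 + (η / 2) * D x ^ 2) +
      ((1 / (2 * η)) * (H x - G x) ^ 2 + (η / 2) * ζ x ^ 2) +
      (L * M) * ((1 / (2 * η)) * (w x - v x) ^ 2 + (η / 2) * G x ^ 2) with hB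
    have am : ∀ p q : ℝ, |p| * |q| ≤ (1 / (2 * η)) * p ^ 2 + (η / 2) * q ^ 2 := by
      intro p q
      have h2 : 0 ≤ (|p| - η * |q|) ^ 2 / (2 * η) := by positivity
      have h3 : (|p| - η * |q|) ^ 2 / (2 * η) =
          (1 / (2 * η)) * |p| ^ 2 + (η / 2) * |q| ^ 2 - |p| * |q| := by
        field_simp
        ring
      rw [h3, sq_abs, sq_abs] at h2
      linarith
    have iB : Integrable B :=
      (((iv.const_mul _).add (iD2.const_mul _)).add ((iG.const_mul _).add (iζ2.const_mul _))).add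
        (((iv.const_mul _).add (iG2.const_mul _)).const_mul _)
    have hbd : ∀ x, |(Φ (v x) * D x + Φd (v x) * G x * ζ x) -
        (Φ (w x) * D x + Φd (w x) * H x * ζ x)| ≤ B x := by
      intro x
      have e : (Φ (v x) * D x + Φd (v x) * G x * ζ x) - (Φ (w x) * D x + Φd (w x) * H x * ζ x) =
          (Φ (v x) - Φ (w x)) * D x + Φd (w x) * (G x - H x) * ζ x +
          (Φd (v x) - Φd (w x)) * G x * ζ x := by ring
      rw [e]
      have t1 : |(Φ (v x) - Φ (w x)) * D x| ≤ (1 / (2 * η)) * (w x - v x) ^ 2 +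
          (η / 2) * D x ^ 2 := by
        rw [abs_mul]
        calc |Φ (v x) - Φ (w x)| * |D x| ≤ |w x - v x| * |D x| := by
              rw [abs_sub_comm (w x) (v x)]
              exact mul_le_mul_of_nonneg_right (hLip _ _) (abs_nonneg _)
          _ ≤ _ := am _ _
      have t2 : |Φd (w x) * (G x - H x) * ζ x| ≤ (1 / (2 * η)) * (H x - G x) ^ 2 +
          (η / 2) * ζ x ^ 2 := by
        rw [abs_mul, abs_mul]
        calc |Φd (w x)| * |G x - H x| * |ζ x| ≤ 1 * |H x - G x| * |ζ x| := by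
              rw [abs_sub_comm (H x) (G x)]
              gcongr
              exact h1 _
          _ = |H x - G x| * |ζ x| := by ring
          _ ≤ _ := am _ _
      have t3 : |(Φd (v x) - Φd (w x)) * G x * ζ x| ≤
          (L * M) * ((1 / (2 * η)) * (w x - v x) ^ 2 + (η / 2) * G x ^ 2) := by
        rw [abs_mul, abs_mul]
        have hζx : |ζ x| ≤ M := by simpa using hM x
        calc |Φd (v x) - Φd (w x)| * |G x| * |ζ x| ≤ (L * |w x - v x|) * |G x| * M := by
              rw [abs_sub_comm (w x) (v x)]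
              gcongr
              exact hΦL _ _
          _ = (L * M) * (|w x - v x| * |G x|) := by ring
          _ ≤ _ := mul_le_mul_of_nonneg_left (am _ _) (mul_nonneg hL hM0)
      have a1 := abs_add_le ((Φ (v x) - Φ (w x)) * D x + Φd (w x) * (G x - H x) * ζ x)
        ((Φd (v x) - Φd (w x)) * G x * ζ x)
      have a2 := abs_add_le ((Φ (v x) - Φ (w x)) * D x) (Φd (w x) * (G x - H x) * ζ x)
      simp only [hB]
      linarith
    refine (norm_integral_le_of_norm_le (f := fun x => (Φ (v x) * D x + Φd (v x) * G x * ζ x) -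
        (Φ (w x) * D x + Φd (w x) * H x * ζ x)) iB (Eventually.of_forall fun x => hbd x)).trans ?_
    have eB : ∫ x, B x = ((1 / (2 * η)) * (∫ x, (w x - v x) ^ 2) + (η / 2) * ∫ x, D x ^ 2) +
      ((1 / (2 * η)) * (∫ x, (H x - G x) ^ 2) + (η / 2) * ∫ x, ζ x ^ 2) +
      (L * M) * ((1 / (2 * η)) * (∫ x, (w x - v x) ^ 2) + (η / 2) * ∫ x, G x ^ 2) := by
      obtain ⟨l1, r1⟩ := lin2 (1 / (2 * η)) (η / 2) iv iD2
      obtain ⟨l2, r2⟩ := lin2 (1 / (2 * η)) (η / 2) iG iζ2
      obtain ⟨l3, r3⟩ := lin2 (1 / (2 * η)) (η / 2) iv iG2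
      obtain ⟨l4, r4⟩ := lin2 1 1 l1 l2
      obtain ⟨-, r5⟩ := lin2 1 (L * M) l4 l3
      simp only [one_mul] at r4 r5
      rw [r1, r2] at r4
      rw [r3, r4] at r5
      simp only [hB]
      exact r5
    rw [eB]
    have q1 : (1 / (2 * η)) * (∫ x, (w x - v x) ^ 2) ≤ η / 2 := by
      calc (1 / (2 * η)) * (∫ x, (w x - v x) ^ 2) ≤ (1 / (2 * η)) * η ^ 2 :=
            mul_le_mul_of_nonneg_left lv (by positivity)
        _ = η / 2 := by field_simp
    have q2 : (1 / (2 * η)) * (∫ x, (H x - G x) ^ 2) ≤ η / 2 := by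
      calc (1 / (2 * η)) * (∫ x, (H x - G x) ^ 2) ≤ (1 / (2 * η)) * η ^ 2 :=
            mul_le_mul_of_nonneg_left lG (by positivity)
        _ = η / 2 := by field_simp
    have q3 : (L * M) * ((1 / (2 * η)) * (∫ x, (w x - v x) ^ 2) + (η / 2) * ∫ x, G x ^ 2) ≤
        (L * M) * (η / 2 + (η / 2) * ∫ x, G x ^ 2) :=
      mul_le_mul_of_nonneg_left (by linarith) (mul_nonneg hL hM0)
    rw [hCt]
    linarith
  have hCt0 : 0 ≤ Ct := by
    have := key 1 one_pos
    linarith [abs_nonneg (∫ x, Φ (v x) * D x + Φd (v x) * G x * ζ x)]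
  have hzero : ∫ x, (Φ (v x) * D x + Φd (v x) * G x * ζ x) = 0 := by
    by_contra hne
    have hpos : 0 < |∫ x, Φ (v x) * D x + Φd (v x) * G x * ζ x| := abs_pos.2 hne
    have := key (|∫ x, Φ (v x) * D x + Φd (v x) * G x * ζ x| / (2 * (Ct + 1))) (by positivity)
    set A := |∫ x, Φ (v x) * D x + Φd (v x) * G x * ζ x| with hA
    have h3 : Ct * (A / (2 * (Ct + 1))) ≤ A / 2 := by
      rw [mul_div_assoc', div_le_div_iff₀ (by positivity) (by norm_num)]
      nlinarith
    linarith
  rw [integral_add J1 J2] at hzero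
  linarith

/-! ### the functions `ε arctan (t / ε)` -/

theorem atn (ε : ℝ) (hε : 0 < ε) :
    (∀ t, HasDerivAt (fun t => ε * Real.arctan (t / ε)) (1 / (1 + (t / ε) ^ 2)) t) ∧
    Continuous (fun t : ℝ => 1 / (1 + (t / ε) ^ 2)) ∧
    (∀ t : ℝ, |1 / (1 + (t / ε) ^ 2)| ≤ 1) ∧
    (∀ s t : ℝ, |1 / (1 + (s / ε) ^ 2) - 1 / (1 + (t / ε) ^ 2)| ≤ (1 / ε) * |s - t|) ∧
    (∀ t, |ε * Real.arctan (t / ε)| ≤ ε * 2) := by
  have hp : ∀ t : ℝ, 0 < 1 + (t / ε) ^ 2 := fun t => by positivity
  refine ⟨fun t => ?_, ?_, fun t => ?_, fun s t => ?_, fun t => ?_⟩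
  · have h1 : HasDerivAt (fun t : ℝ => t / ε) (1 / ε) t := (hasDerivAt_id t).div_const ε
    have h2 := (h1.arctan).const_mul ε
    refine h2.congr_deriv ?_
    field_simp
  · refine continuous_const.div (by fun_prop) fun t => (hp t).ne'
  · rw [abs_of_pos (by have := hp t; positivity), div_le_one (hp t)]
    have : 0 ≤ (t / ε) ^ 2 := sq_nonneg _
    linarith
  · set a := s / ε with ha
    set b := t / ε with hb
    have hab : a - b = (s - t) / ε := by rw [ha, hb]; ring
    have e1 : (1 / ε) * |s - t| = |a - b| := by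
      rw [hab, abs_div, abs_of_pos hε]; ring
    rw [e1]
    have e2 : 1 / (1 + a ^ 2) - 1 / (1 + b ^ 2) =
        (b - a) * ((a + b) / ((1 + a ^ 2) * (1 + b ^ 2))) := by
      have h1 := hp s
      have h2 := hp t
      rw [← ha] at h1
      rw [← hb] at h2
      field_simp
      ring
    rw [e2, abs_mul, abs_sub_comm b a]
    refine mul_le_of_le_one_right (abs_nonneg _) ?_
    rw [abs_div, abs_of_pos (a := (1 + a ^ 2) * (1 + b ^ 2)) (by positivity),
      div_le_one (by positivity)]
    rw [abs_le]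
    constructor <;> nlinarith [sq_nonneg (a + 1), sq_nonneg (a - 1), sq_nonneg (b + 1),
      sq_nonneg (b - 1), mul_nonneg (sq_nonneg a) (sq_nonneg b), sq_nonneg a, sq_nonneg b]
  · rw [abs_mul, abs_of_pos hε]
    refine mul_le_mul_of_nonneg_left ?_ hε.le
    have h1 := Real.arctan_lt_pi_div_two (t / ε)
    have h2 := Real.neg_pi_div_two_lt_arctan (t / ε)
    have h3 := Real.pi_lt_four
    rw [abs_le]
    constructor <;> linarith

end ZER_

open ZER_ in
theorem ZER_proof (hUNQ : Stmt_UNQ) : Stmt_ZER := by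
  intro m U u g hU hu j
  classical
  set c : ℝ → ℝ := fun t => if t = 0 then 1 else 0 with hc
  have hcm : Measurable c := Measurable.ite (measurableSet_singleton 0) measurable_const
    measurable_const
  have hc1 : ∀ t, |c t| ≤ 1 := by
    intro t
    by_cases ht : t = 0 <;> simp [hc, ht]
  have hcu : AEStronglyMeasurable (fun x => c (u x)) (volume.restrict U) :=
    (hcm.comp_aemeasurable hu.f2.aestronglyMeasurable.aemeasurable).aestronglyMeasurable
  have hgc : MemLp (fun x => c (u x) * g j x) 2 (volume.restrict U) := by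
    refine MemLp.of_le_mul (c := 1) (hu.g2 j) (hcu.mul (hu.g2 j).1)
      (Eventually.of_forall fun x => ?_)
    rw [norm_mul]
    exact mul_le_mul_of_nonneg_right (hc1 _) (norm_nonneg _)
  have hloc : LocallyIntegrableOn (fun x => c (u x) * g j x) U :=
    locallyIntegrableOn_of_locallyIntegrable_restrict (hgc.locallyIntegrable (by norm_num))
  have hmain : ∀ ζ, TF U ζ → ∫ x, (c (u x) * g j x) * ζ x = 0 := by
    intro ζ hζ
    obtain ⟨hζs, hζc, hζU⟩ := hζ
    obtain ⟨χ, hχ, hχc, hχU, hχ1, hχd⟩ := exists_cut U (tsupport ζ) hU hζU hζc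
    have hχ1' : ContDiff ℝ 1 χ := hχ.of_le (by exact_mod_cast le_top)
    have hζ1 : ContDiff ℝ 1 ζ := hζs.of_le (by exact_mod_cast le_top)
    have hχdc : Continuous fun w => fderiv ℝ χ w (bs j) := fderiv_cont hχ1' _
    have hχds : HasCompactSupport fun w => fderiv ℝ χ w (bs j) := hχc.fderiv_apply (𝕜 := ℝ) _
    have hχdU : tsupport (fun w => fderiv ℝ χ w (bs j)) ⊆ U :=
      (tsupport_fderiv_apply_subset ℝ _).trans hχU
    set v : E m → ℝ := fun w => u w * χ w with hv
    set G : E m → ℝ := fun w => g j w * χ w + u w * fderiv ℝ χ w (bs j) with hGd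
    have hvM : MemLp v 2 volume := mem_mul hU hu.f2 hχ.continuous hχc hχU
    have hGM : MemLp G 2 volume :=
      (mem_mul hU (hu.g2 j) hχ.continuous hχc hχU).add (mem_mul hU hu.f2 hχdc hχds hχdU)
    have hvm : AEStronglyMeasurable v volume := hvM.1
    have hG2 := hGM.integrable_sq
    have hζ0 : ∀ x ∉ tsupport ζ, ζ x = 0 := fun x hx => image_eq_zero_of_notMem_tsupport hx
    have hvu : ∀ x ∈ tsupport ζ, v x = u x := fun x hx => by simp [hv, hχ1 x hx]
    have hGg : ∀ x ∈ tsupport ζ, G x = g j x := fun x hx => by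
      simp [hGd, hχ1 x hx, hχd x hx]
    set D : E m → ℝ := fun x => fderiv ℝ ζ x (bs j) with hD
    have hDc : Continuous D := fderiv_cont hζ1 _
    have hDs : HasCompactSupport D := hζc.fderiv_apply (𝕜 := ℝ) _
    have iD : Integrable D := hDc.integrable_of_hasCompactSupport hDs
    have iζ2 : Integrable (fun x => ζ x ^ 2) := int_sq hζs.continuous hζc
    have iGζ : Integrable (fun x => G x * ζ x) := by
      refine Integrable.mono' ((hG2.add iζ2).const_mul (1 / 2))
        (hGM.1.mul hζs.continuous.aestronglyMeasurable) (Eventually.of_forall fun x => ?_)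
      simp only [Pi.add_apply, Real.norm_eq_abs, abs_mul]
      nlinarith [sq_nonneg (|G x| - |ζ x|), sq_abs (G x), sq_abs (ζ x)]
    have hchain : ∀ n : ℕ, ∫ x, ((1 / ((n : ℝ) + 1)) * Real.arctan (v x / (1 / ((n : ℝ) + 1)))) * D x
        = -∫ x, (1 / (1 + (v x / (1 / ((n : ℝ) + 1))) ^ 2)) * G x * ζ x := by
      intro n
      have hε : (0 : ℝ) < 1 / ((n : ℝ) + 1) := by positivity
      obtain ⟨a1, a2, a3, a4, a5⟩ := atn (1 / ((n : ℝ) + 1)) hε
      exact chain v G (bs j) hvM hGM
        (fun ρ hρ hρc z => conv_der hU hu j hχ hχc hχU ρ hρ hρc z)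
        _ _ (1 / (1 / ((n : ℝ) + 1))) _ (by positivity) a1 a2 a3 a4 a5 ζ hζs hζc
    have hlim1 : Tendsto (fun n : ℕ => ∫ x, ((1 / ((n : ℝ) + 1)) *
        Real.arctan (v x / (1 / ((n : ℝ) + 1)))) * D x) atTop (𝓝 0) := by
      have hb : ∀ n : ℕ, |∫ x, ((1 / ((n : ℝ) + 1)) *
          Real.arctan (v x / (1 / ((n : ℝ) + 1)))) * D x| ≤
          (1 / ((n : ℝ) + 1)) * (2 * ∫ x, |D x|) := by
        intro n
        have hε : (0 : ℝ) < 1 / ((n : ℝ) + 1) := by positivity
        obtain ⟨-, -, -, -, a5⟩ := atn (1 / ((n : ℝ) + 1)) hε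
        have := norm_integral_le_of_norm_le (f := fun x => ((1 / ((n : ℝ) + 1)) *
          Real.arctan (v x / (1 / ((n : ℝ) + 1)))) * D x)
          (g := fun x => (1 / ((n : ℝ) + 1)) * 2 * |D x|) (iD.abs.const_mul _)
          (Eventually.of_forall fun x => by
            rw [norm_mul]
            exact mul_le_mul_of_nonneg_right (a5 _) (abs_nonneg _))
        rw [integral_const_mul] at this
        calc _ ≤ _ := this
          _ = _ := by ring
      rw [tendsto_zero_iff_abs_tendsto_zero]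
      have h0 : Tendsto (fun n : ℕ => (1 / ((n : ℝ) + 1)) * (2 * ∫ x, |D x|)) atTop (𝓝 0) := by
        have := (tendsto_one_div_add_atTop_nhds_zero_nat (𝕜 := ℝ)).mul_const (2 * ∫ x, |D x|)
        simpa using this
      exact squeeze_zero (fun n => abs_nonneg _) hb h0
    have hlim2 : Tendsto (fun n : ℕ => ∫ x, (1 / (1 + (v x / (1 / ((n : ℝ) + 1))) ^ 2)) * G x * ζ x)
        atTop (𝓝 (∫ x, c (v x) * G x * ζ x)) := by
      refine tendsto_integral_of_dominated_convergence (fun x => |G x * ζ x|) ?_ iGζ.abs ?_ ?_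
      · intro n
        have hε : (0 : ℝ) < 1 / ((n : ℝ) + 1) := by positivity
        obtain ⟨-, a2, -, -, -⟩ := atn (1 / ((n : ℝ) + 1)) hε
        exact ((a2.comp_aestronglyMeasurable hvm).mul hGM.1).mul
          hζs.continuous.aestronglyMeasurable
      · intro n
        refine Eventually.of_forall fun x => ?_
        have hε : (0 : ℝ) < 1 / ((n : ℝ) + 1) := by positivity
        obtain ⟨-, -, a3, -, -⟩ := atn (1 / ((n : ℝ) + 1)) hε
        rw [mul_assoc, norm_mul]
        calc _ ≤ 1 * ‖G x * ζ x‖ := mul_le_mul_of_nonneg_right (a3 _) (norm_nonneg _)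
          _ = _ := by simp
      · refine Eventually.of_forall fun x => ?_
        refine Tendsto.mul_const _ (Tendsto.mul_const _ ?_)
        by_cases hx : v x = 0
        · simp [hx, hc]
        · have e : ∀ n : ℕ, (1 / (1 + (v x / (1 / ((n : ℝ) + 1))) ^ 2)) =
              (1 + (v x * ((n : ℝ) + 1)) ^ 2)⁻¹ := by
            intro n
            rw [one_div, div_div_eq_mul_div, div_one]
          simp only [e, hc, if_neg hx]
          refine tendsto_inv_atTop_zero.comp ?_
          refine tendsto_atTop_add_const_left _ _ ?_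
          have h4 : Tendsto (fun n : ℕ => (n : ℝ) + 1) atTop atTop :=
            tendsto_atTop_add_const_right _ _ tendsto_natCast_atTop_atTop
          have h5 : Tendsto (fun n : ℕ => (v x) ^ 2 * ((n : ℝ) + 1) ^ 2) atTop atTop :=
            Tendsto.const_mul_atTop (by positivity) ((tendsto_pow_atTop (by norm_num)).comp h4)
          refine h5.congr fun n => ?_
          ring
    have hz : ∫ x, c (v x) * G x * ζ x = 0 := by
      have h1 : Tendsto (fun n : ℕ => -∫ x, (1 / (1 + (v x / (1 / ((n : ℝ) + 1))) ^ 2)) *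
          G x * ζ x) atTop (𝓝 (-∫ x, c (v x) * G x * ζ x)) := hlim2.neg
      have h2 : Tendsto (fun n : ℕ => -∫ x, (1 / (1 + (v x / (1 / ((n : ℝ) + 1))) ^ 2)) *
          G x * ζ x) atTop (𝓝 0) := by
        refine hlim1.congr fun n => ?_
        exact hchain n
      have := tendsto_nhds_unique h1 h2
      linarith
    rw [← hz]
    refine integral_congr_ae (Eventually.of_forall fun x => ?_)
    by_cases hx : x ∈ tsupport ζ
    · show c (u x) * g j x * ζ x = c (v x) * G x * ζ x
      rw [hvu x hx, hGg x hx]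
    · show c (u x) * g j x * ζ x = c (v x) * G x * ζ x
      rw [hζ0 x hx, mul_zero, mul_zero]
  have hae := hUNQ m U _ hU hloc hmain
  filter_upwards [hae] with x hx h0
  have : c (u x) = 1 := by simp [hc, h0]
  rw [this, one_mul] at hx
  exact hx

end Pool.Agent.CAL
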