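import Pool.Agent.CAL.Stmts
import Pool.Agent.CAL.GGF
import Pool.Agent.CAL.GGM
import Pool.Agent.CAL.GGS
import Pool.Agent.CAL.DQA
import Pool.Agent.CAL.DQB
import Pool.Agent.CAL.WDX
import Pool.Agent.CAL.SOB
import Pool.Agent.CAL.UNQ
import Pool.Agent.CAL.VEC
import Pool.Agent.CAL.IOV
import Pool.Agent.CAL.IOT
import Pool.Agent.CAL.LO2
import Pool.Agent.CAL.LO1
import Pool.Agent.CAL.PRD
import Pool.Agent.CAL.ZER
import Pool.Agent.CAL.NULL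
import Pool.Agent.CAL.NLF
import Pool.Agent.CAL.PTA
import Pool.Agent.CAL.TAN
import Pool.Agent.CAL.INE
import Pool.Agent.CAL.EQN
import Pool.Agent.CAL.TNI
import Pool.Agent.CAL.HTV
import Pool.Agent.CAL.CST
import Pool.Agent.CAL.REP
import Pool.Agent.CAL.IBB
import Pool.Agent.CAL.LBP
import Pool.Agent.CAL.GLU
import Pool.Agent.CAL.VVW
import Pool.Agent.CAL.UPP
import Pool.Agent.CAL.PAI
import Pool.Agent.CAL.TWO
import Pool.Agent.CAL.CPG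
import Pool.Agent.CAL.SPL
import Pool.Agent.CAL.MIN
import Pool.Agent.CAL.SNG
import Pool.Agent.CAL.CLM
import Pool.Agent.CAL.CAL

/-!
Squad CAL: assembly.
-/

set_option autoImplicit false

namespace Pool.Agent.CAL

theorem T_GGF : Stmt_GGF := Pool.Agent.CAL.ggf_proof
theorem T_GGM : Stmt_GGM := Pool.Agent.CAL.ggm_proof T_GGF
theorem T_GGS : Stmt_GGS := Pool.Agent.CAL.ggs_proof T_GGF
theorem T_DQA : Stmt_DQA := Pool.Agent.CAL.dqa_proof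
theorem T_DQB : Stmt_DQB := Pool.Agent.CAL.dqb_proof
theorem T_WDX : Stmt_WDX := Pool.Agent.CAL.wdx_proof
theorem T_SOB : Stmt_SOB := Pool.Agent.CAL.sob_proof T_GGM T_GGS T_DQA T_DQB T_WDX
theorem T_UNQ : Stmt_UNQ := Pool.Agent.CAL.unq_proof
theorem T_VEC : Stmt_VEC := Pool.Agent.CAL.vec_proof T_SOB T_UNQ
theorem T_IOV : Stmt_IOV := Pool.Agent.CAL.iov_proof
theorem T_IOT : Stmt_IOT := Pool.Agent.CAL.iot_proof T_GGF T_IOV
theorem T_LO2 : Stmt_LO2 := Pool.Agent.CAL.lo2_proof T_VEC T_IOT T_UNQ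
theorem T_LO1 : Stmt_LO1 := Pool.Agent.CAL.lo1_proof T_VEC T_GGF T_UNQ
theorem T_PRD : Stmt_PRD := Pool.Agent.CAL.prd_proof
theorem T_ZER : Stmt_ZER := Pool.Agent.CAL.ZER_proof T_UNQ
theorem T_NUL : Stmt_NUL := Pool.Agent.CAL.nul_proof T_UNQ
theorem T_NLF : Stmt_NLF := Pool.Agent.CAL.nlf_proof
theorem T_PTA : Stmt_PTA := Pool.Agent.CAL.pta_proof T_NLF
theorem T_TAN : Stmt_TAN := Pool.Agent.CAL.tan_proof T_PRD T_UNQ T_ZER
theorem T_INE : Stmt_INE := Pool.Agent.CAL.ine_proof T_PTA T_TAN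
theorem T_EQN : Stmt_EQN := Pool.Agent.CAL.eqn_proof T_IOV T_UNQ T_PRD T_ZER T_NLF T_PTA T_TAN
theorem T_TNI : Stmt_TNI := Pool.Agent.CAL.tni_proof T_NUL T_NLF
theorem T_HTV : Stmt_HTV := Pool.Agent.CAL.htv_proof
theorem T_CST : Stmt_CST := Pool.Agent.CAL.cst_proof
theorem T_REP : Stmt_REP := Pool.Agent.CAL.rep_proof T_CST
theorem T_IBB : Stmt_IBB := Pool.Agent.CAL.ibb_proof
theorem T_LBP : Stmt_LBP := Pool.Agent.CAL.lbp_proof
theorem T_GLU : Stmt_GLU := Pool.Agent.CAL.glu_proof T_REP T_IBB T_LBP T_HTV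
theorem T_VVW : Stmt_VVW := Pool.Agent.CAL.vvw_proof
theorem T_UPP : Stmt_UPP := Pool.Agent.CAL.upp_proof T_DQB T_GGF T_VVW
theorem T_PAI : Stmt_PAI := Pool.Agent.CAL.pai_proof T_UPP T_VVW T_GGF T_GGM
theorem T_TWO : Stmt_TWO := Pool.Agent.CAL.two_proof T_DQA T_DQB T_GGF T_GGM T_LO2
theorem T_CPG : Stmt_CPG := Pool.Agent.CAL.cpg_proof T_TWO T_VVW T_IOT T_IOV T_GGF T_GGM T_GLU
theorem T_SPL : Stmt_SPL := Pool.Agent.CAL.spl_proof
theorem T_MIN : Stmt_MIN := Pool.Agent.CAL.min_proof T_LO2 T_LO1 T_INE T_EQN T_TNI T_VVW T_UPP T_PAI T_CPG T_TWO T_SPL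
theorem T_SNG : Stmt_SNG := Pool.Agent.CAL.sng_proof
theorem T_CLM : Stmt_CLM := Pool.Agent.CAL.clm_proof
theorem T_CAL : Stmt_CAL := Pool.Agent.CAL.cal_proof T_MIN T_PAI T_SPL T_SNG T_HTV

end Pool.Agent.CAL
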