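import Pool.Agent.CAL.Stmts

/-!
# Squad CAL: module NUL (null Lagrangians depend only on the boundary values)
-/

set_option autoImplicit false

namespace Pool.Agent.CAL

open MeasureTheory Set Metric Filter Topology
open scoped ENNReal
open scoped Convolution ContDiff
open Pool.Agent.COB

namespace NUL_

variable {m : ℕ}

theorem exists_cut (U C : Set (E m)) (hU : IsOpen U) (hCU : C ⊆ U) (hC : IsCompact C) :
    ∃ ψ : E m → ℝ, ContDiff ℝ (⊤ : ℕ∞) ψ ∧ HasCompactSupport ψ ∧ tsupport ψ ⊆ U ∧
      (∀ z ∈ C, ψ z = 1) ∧ (∀ z ∈ C, fderiv ℝ ψ z = 0) := by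
  obtain ⟨K, hK, hCK, hKU⟩ := exists_compact_between hC hU hCU
  obtain ⟨f, h1, h0, -⟩ := exists_contMDiffMap_one_nhds_of_subset_interior
    (modelWithCornersSelf ℝ (E m)) (n := (⊤ : ℕ∞)) hC.isClosed hCK
  have hsup : tsupport f ⊆ K := by
    apply closure_minimal _ hK.isClosed
    intro x hx
    by_contra hxK
    exact hx (h0 x hxK)
  refine ⟨f, f.contMDiff.contDiff, ?_, hsup.trans hKU, fun z hz => ?_, fun z hz => ?_⟩
  · exact IsCompact.of_isClosed_subset hK (isClosed_tsupport _) hsup
  · exact h1.self_of_nhdsSet z hz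
  · have h2 : ∀ᶠ x in 𝓝 z, f x = 1 := h1.filter_mono (nhds_le_nhdsSet hz)
    have h3 : (f : E m → ℝ) =ᶠ[𝓝 z] fun _ => (1 : ℝ) := h2
    rw [h3.fderiv_eq]
    simp

/-! ### mollification in `L²` -/

lemma sq_eLpNorm (u : E m → ℝ) : eLpNorm u 2 volume ^ (2 : ℝ) = ∫⁻ z, ‖u z‖ₑ ^ (2 : ℝ) := by
  have := eLpNorm_nnreal_pow_eq_lintegral (f := u) (μ := (volume : Measure (E m))) (p := 2)
    (by norm_num)
  simpa using this

/-- continuity of translations in L2 -/
lemma trans_small (g : E m → ℝ) (hg : MemLp g 2 volume) (ε : ℝ≥0∞) (hε : 0 < ε) :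
    ∃ δ > 0, ∀ t : E m, ‖t‖ < δ → ∫⁻ z, ‖g (z - t) - g z‖ₑ ^ (2 : ℝ) ≤ ε ^ (2 : ℝ) := by
  have : Fact ((1 : ℝ≥0∞) ≤ 2) := ⟨by norm_num⟩
  set f : Lp ℝ 2 (volume : Measure (E m)) := hg.toLp g with hf
  let τ : E m → C(E m, E m) := fun t => ⟨fun z => z - t, by fun_prop⟩
  have hτ : Continuous τ := ContinuousMap.continuous_of_continuous_uncurry _ (by
    show Continuous fun p : E m × E m => p.2 - p.1
    fun_prop)
  have hm : ∀ t, MeasurePreserving (τ t) volume volume := fun t =>
    measurePreserving_sub_right volume t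
  have hc : Continuous fun t => Lp.compMeasurePreserving (τ t) (hm t) f :=
    continuous_const.compMeasurePreservingLp hτ hm (by norm_num)
  have h0 := hc.tendsto 0
  rw [EMetric.tendsto_nhds] at h0
  obtain ⟨δ, hδ, hδ2⟩ := Metric.eventually_nhds_iff.1 (h0 ε hε)
  refine ⟨δ, hδ, fun t ht => ?_⟩
  have h1 := hδ2 (y := t) (by simpa using ht)
  have e1 : Lp.compMeasurePreserving (τ t) (hm t) f =
      (hg.comp_measurePreserving (hm t)).toLp (g ∘ τ t) := rfl
  have e2 : Lp.compMeasurePreserving (τ 0) (hm 0) f =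
      (hg.comp_measurePreserving (hm 0)).toLp (g ∘ τ 0) := rfl
  rw [e1, e2, Lp.edist_toLp_toLp] at h1
  have e3 : (g ∘ τ t - g ∘ τ 0) = fun z => g (z - t) - g z := by
    funext z
    simp [τ]
  rw [e3] at h1
  rw [← sq_eLpNorm]
  exact ENNReal.rpow_le_rpow h1.le (by norm_num)

lemma jensen (φ : ContDiffBump (0 : E m)) (u : E m → ℝ) (hu : AEStronglyMeasurable u volume) :
    ‖∫ t, φ.normed volume t • u t‖ₑ ^ (2 : ℝ) ≤
      ∫⁻ t, ENNReal.ofReal (φ.normed volume t) * ‖u t‖ₑ ^ (2 : ℝ) := by
  set ρ : E m → ℝ := φ.normed volume with hρ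
  have hρm : Measurable fun t => ENNReal.ofReal (ρ t) :=
    (φ.continuous_normed.measurable).ennreal_ofReal
  have hρn : ∀ t, 0 ≤ ρ t := fun t => φ.nonneg_normed t
  set ν : Measure (E m) := volume.withDensity fun t => ENNReal.ofReal (ρ t) with hν
  have hν1 : ν univ = 1 := by
    rw [hν, withDensity_apply _ MeasurableSet.univ, Measure.restrict_univ,
      ← ofReal_integral_eq_lintegral_ofReal φ.integrable_normed (Eventually.of_forall hρn),
      φ.integral_normed, ENNReal.ofReal_one]
  have : IsProbabilityMeasure ν := ⟨hν1⟩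
  have hac : ν ≪ volume := withDensity_absolutelyContinuous _ _
  have h1 : ‖∫ t, ρ t • u t‖ₑ ≤ ∫⁻ t, ‖u t‖ₑ ∂ν := by
    refine (enorm_integral_le_lintegral_enorm _).trans (le_of_eq ?_)
    rw [hν, lintegral_withDensity_eq_lintegral_mul₀ hρm.aemeasurable hu.enorm]
    refine lintegral_congr fun t => ?_
    simp only [Pi.mul_apply, enorm_smul]
    rw [Real.enorm_of_nonneg (hρn t)]
  have h2 : ∫⁻ t, ‖u t‖ₑ ∂ν ≤ eLpNorm u 2 ν := by
    rw [← eLpNorm_one_eq_lintegral_enorm]
    exact eLpNorm_le_eLpNorm_of_exponent_le (by norm_num) (hu.mono_ac hac)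
  have h3 : eLpNorm u 2 ν ^ (2 : ℝ) = ∫⁻ t, ENNReal.ofReal (ρ t) * ‖u t‖ₑ ^ (2 : ℝ) := by
    have := eLpNorm_nnreal_pow_eq_lintegral (f := u) (μ := ν) (p := 2) (by norm_num)
    have e : eLpNorm u 2 ν ^ (2 : ℝ) = ∫⁻ t, ‖u t‖ₑ ^ (2 : ℝ) ∂ν := by simpa using this
    rw [e, hν, lintegral_withDensity_eq_lintegral_mul₀ hρm.aemeasurable
      (hu.enorm.pow_const _)]
    rfl
  rw [← h3]
  exact ENNReal.rpow_le_rpow (h1.trans h2) (by norm_num)

theorem mol (g : E m → ℝ) (hmem : MemLp g 2 volume) (ε : ℝ) (hε : 0 < ε) :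
    ∃ δ > 0, ∀ φ : ContDiffBump (0 : E m), φ.rOut < δ →
      MemLp (fun z =>
        (φ.normed volume ⋆[ContinuousLinearMap.lsmul ℝ ℝ, volume] g) z - g z) 2 volume ∧
      ∫ z, ((φ.normed volume ⋆[ContinuousLinearMap.lsmul ℝ ℝ, volume] g) z - g z) ^ 2 ≤ ε := by
  have hg : AEStronglyMeasurable g volume := hmem.aestronglyMeasurable
  set η : ℝ≥0∞ := ENNReal.ofReal (Real.sqrt ε) with hη
  have hηpos : 0 < η := ENNReal.ofReal_pos.2 (Real.sqrt_pos.2 hε)
  have hη2 : η ^ (2 : ℝ) = ENNReal.ofReal ε := by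
    rw [hη, ENNReal.ofReal_rpow_of_nonneg (Real.sqrt_nonneg _) (by norm_num)]
    congr 1
    rw [Real.rpow_two, Real.sq_sqrt hε.le]
  obtain ⟨δ, hδ, hδ2⟩ := trans_small g hmem η hηpos
  rw [hη2] at hδ2
  refine ⟨δ, hδ, fun φ hφ => ?_⟩
  have hloc : LocallyIntegrable g volume := hmem.locallyIntegrable (by norm_num)
  set ρ : E m → ℝ := φ.normed volume with hρ
  have hρc : Continuous ρ := φ.continuous_normed
  have hρs : HasCompactSupport ρ := φ.hasCompactSupport_normed
  have hρn : ∀ t, 0 ≤ ρ t := fun t => φ.nonneg_normed t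
  have hρi : Integrable ρ volume := φ.integrable_normed
  have hcont : Continuous (ρ ⋆[ContinuousLinearMap.lsmul ℝ ℝ, volume] g) :=
    hρs.continuous_convolution_left _ hρc hloc
  have hex : ConvolutionExists ρ g (ContinuousLinearMap.lsmul ℝ ℝ) volume :=
    hρs.convolutionExists_left _ hρc hloc
  have hid : ∀ z, (ρ ⋆[ContinuousLinearMap.lsmul ℝ ℝ, volume] g) z - g z =
      ∫ t, ρ t • (g (z - t) - g z) := by
    intro z
    have i1 : Integrable (fun t => ρ t • g (z - t)) volume := by
      have := hex z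
      simpa [ConvolutionExistsAt] using this
    have i2 : Integrable (fun t => ρ t • g z) volume := hρi.smul_const _
    have e : ∀ t, ρ t • (g (z - t) - g z) = ρ t • g (z - t) - ρ t • g z := fun t => smul_sub _ _ _
    simp only [e]
    rw [integral_sub i1 i2, integral_smul_const, φ.integral_normed, one_smul]
    simp [convolution]
  have hmeas : AEStronglyMeasurable (fun z =>
      (ρ ⋆[ContinuousLinearMap.lsmul ℝ ℝ, volume] g) z - g z) volume :=
    hcont.aestronglyMeasurable.sub hg
  have hjm : AEStronglyMeasurable (fun p : E m × E m => g (p.1 - p.2) - g p.1)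
      (volume.prod volume) := by
    refine AEStronglyMeasurable.sub ?_ hg.comp_fst
    exact hg.comp_quasiMeasurePreserving
      (quasiMeasurePreserving_sub_of_right_invariant volume volume)
  have hkey : ∫⁻ z, ‖(ρ ⋆[ContinuousLinearMap.lsmul ℝ ℝ, volume] g) z - g z‖ₑ ^ (2 : ℝ) ≤
      ENNReal.ofReal ε := by
    calc ∫⁻ z, ‖(ρ ⋆[ContinuousLinearMap.lsmul ℝ ℝ, volume] g) z - g z‖ₑ ^ (2 : ℝ)
        ≤ ∫⁻ z, ∫⁻ t, ENNReal.ofReal (ρ t) * ‖g (z - t) - g z‖ₑ ^ (2 : ℝ) := by
          refine lintegral_mono fun z => ?_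
          rw [hid z]
          refine jensen φ (fun t => g (z - t) - g z) ?_
          refine AEStronglyMeasurable.sub ?_ aestronglyMeasurable_const
          exact hg.comp_quasiMeasurePreserving
            (quasiMeasurePreserving_sub_left volume z)
      _ = ∫⁻ t, ∫⁻ z, ENNReal.ofReal (ρ t) * ‖g (z - t) - g z‖ₑ ^ (2 : ℝ) := by
          refine lintegral_lintegral_swap ?_
          refine AEMeasurable.mul ?_ (hjm.enorm.pow_const _)
          exact ((hρc.measurable.ennreal_ofReal).comp measurable_snd).aemeasurable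
      _ = ∫⁻ t, ENNReal.ofReal (ρ t) * ∫⁻ z, ‖g (z - t) - g z‖ₑ ^ (2 : ℝ) := by
          refine lintegral_congr fun t => ?_
          rw [lintegral_const_mul' _ _ ENNReal.ofReal_ne_top]
      _ ≤ ∫⁻ t, ENNReal.ofReal (ρ t) * ENNReal.ofReal ε := by
          refine lintegral_mono fun t => ?_
          by_cases ht : ‖t‖ < δ
          · exact mul_le_mul_right (hδ2 t ht) _
          · have : ρ t = 0 := by
              by_contra h
              have hs : t ∈ Function.support ρ := h
              rw [hρ, φ.support_normed_eq, mem_ball_zero_iff] at hs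
              exact ht (hs.trans hφ)
            rw [this]
            simp
      _ = ENNReal.ofReal ε := by
          rw [lintegral_mul_const' _ _ ENNReal.ofReal_ne_top,
            ← ofReal_integral_eq_lintegral_ofReal hρi (Eventually.of_forall hρn),
            φ.integral_normed, ENNReal.ofReal_one, one_mul]
  have hfin : MemLp (fun z => (ρ ⋆[ContinuousLinearMap.lsmul ℝ ℝ, volume] g) z - g z) 2 volume := by
    refine ⟨hmeas, ?_⟩
    by_contra h
    rw [not_lt, top_le_iff] at h
    have := sq_eLpNorm (fun z => (ρ ⋆[ContinuousLinearMap.lsmul ℝ ℝ, volume] g) z - g z)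
    rw [h] at this
    rw [← this] at hkey
    simp at hkey
  have hint := hfin.integrable_sq
  refine ⟨hfin, ?_⟩
  rw [← ENNReal.ofReal_le_ofReal_iff hε.le,
    ofReal_integral_eq_lintegral_ofReal hint (Eventually.of_forall fun z => sq_nonneg _)]
  refine le_trans (le_of_eq ?_) hkey
  refine lintegral_congr fun z => ?_
  rw [← ofReal_norm, ENNReal.ofReal_rpow_of_nonneg (norm_nonneg _) (by norm_num)]
  congr 1
  rw [Real.rpow_two, Real.norm_eq_abs, sq_abs]

/-! ### test functions -/

variable {U : Set (E m)}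

/-- integrals of L2 functions on `U` against functions supported in `U` -/
lemma intU {f η : E m → ℝ} (hη : ∀ x ∉ U, η x = 0) :
    ∫ x, f x * η x = ∫ x in U, f x * η x := by
  rw [setIntegral_eq_integral_of_forall_compl_eq_zero]
  intro x hx
  rw [hη x hx, mul_zero]

lemma TF_zero {ζ : E m → ℝ} (h : TF U ζ) {x : E m} (hx : x ∉ U) : ζ x = 0 :=
  image_eq_zero_of_notMem_tsupport fun hh => hx (h.2.2 hh)

lemma TF_dzero {ζ : E m → ℝ} (h : TF U ζ) (v : E m) {x : E m} (hx : x ∉ U) :
    fderiv ℝ ζ x v = 0 := by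
  have h1 : x ∉ tsupport ζ := fun hh => hx (h.2.2 hh)
  have h2 := notMem_tsupport_iff_eventuallyEq.1 h1
  rw [h2.fderiv_eq]
  simp

/-- directional derivative of a test function -/
lemma TF_fderiv {ζ : E m → ℝ} (h : TF U ζ) (v : E m) : TF U (fun x => fderiv ℝ ζ x v) := by
  refine ⟨?_, h.2.1.fderiv_apply (𝕜 := ℝ) v, (tsupport_fderiv_apply_subset ℝ v).trans h.2.2⟩
  exact (h.1.fderiv_right (m := (⊤ : ℕ∞)) (by simp)).clm_apply contDiff_const

lemma TF_memLp {ζ : E m → ℝ} (h : TF U ζ) (μ : Measure (E m)) [IsFiniteMeasureOnCompacts μ] :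
    MemLp ζ 2 μ :=
  h.1.continuous.memLp_of_hasCompactSupport h.2.1

/-- second derivatives commute -/
lemma fd_comm {ζ : E m → ℝ} (h : ContDiff ℝ (⊤ : ℕ∞) ζ) (x v w : E m) :
    fderiv ℝ (fun y => fderiv ℝ ζ y v) x w = fderiv ℝ (fun y => fderiv ℝ ζ y w) x v := by
  have hd : DifferentiableAt ℝ (fderiv ℝ ζ) x :=
    ((h.fderiv_right (m := (⊤ : ℕ∞)) (by simp)).differentiable (by simp)) x
  have e : ∀ a b : E m, fderiv ℝ (fun y => fderiv ℝ ζ y a) x b = fderiv ℝ (fderiv ℝ ζ) x b a := by
    intro a b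
    rw [fderiv_clm_apply hd (differentiableAt_const a)]
    simp
  rw [e, e]
  have hs : IsSymmSndFDerivAt ℝ ζ x := by
    refine ContDiffAt.isSymmSndFDerivAt (n := (⊤ : ℕ∞)) h.contDiffAt ?_
    simp only [minSmoothness_of_isRCLikeNormedField]
    exact WithTop.coe_le_coe.2 (le_top : (2 : ℕ∞) ≤ ⊤)
  exact hs w v

/-- smooth second factor -/
lemma smooth {s : E m → ℝ} {gs : Fin m → E m → ℝ} (hs : W12 U s gs)
    {ζ : E m → ℝ} (hζ : TF U ζ) (i j : Fin m) :
    ∫ x, gs i x * fderiv ℝ ζ x (bs j) = ∫ x, gs j x * fderiv ℝ ζ x (bs i) := by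
  have h1 := hs.ibp _ (TF_fderiv hζ (bs j)) i
  have h2 := hs.ibp _ (TF_fderiv hζ (bs i)) j
  have h3 : ∫ x, s x * fderiv ℝ (fun y => fderiv ℝ ζ y (bs j)) x (bs i) =
      ∫ x, s x * fderiv ℝ (fun y => fderiv ℝ ζ y (bs i)) x (bs j) := by
    refine integral_congr_ae (Eventually.of_forall fun x => ?_)
    simp only
    rw [fd_comm hζ.1]
  linarith

/-- the gradient of a compactly supported function -/
lemma grad_off (hUNQ : Stmt_UNQ) (hU : IsOpen U) {t : E m → ℝ} {gt : Fin m → E m → ℝ}
    (ht : W12 U t gt) {K : Set (E m)} (hK : IsCompact K)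
    (h0 : ∀ᵐ x, x ∈ U \ K → t x = 0) (j : Fin m) : ∀ᵐ x, x ∈ U \ K → gt j x = 0 := by
  have hop : IsOpen (U \ K) := hU.sdiff hK.isClosed
  have h1 := hUNQ m (U \ K) (gt j) hop ?_ ?_
  · rw [ae_restrict_iff' hop.measurableSet] at h1
    exact h1
  · have h2 : MemLp (gt j) 2 (volume.restrict (U \ K)) :=
      (ht.g2 j).mono_measure (Measure.restrict_mono sdiff_subset le_rfl)
    have h3 : LocallyIntegrable (gt j) (volume.restrict (U \ K)) :=
      h2.locallyIntegrable (by norm_num)
    exact locallyIntegrableOn_of_locallyIntegrable_restrict h3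
  · intro ζ hζ
    have hζ' : TF U ζ := ⟨hζ.1, hζ.2.1, hζ.2.2.trans sdiff_subset⟩
    have h2 := ht.ibp ζ hζ' j
    have h3 : ∫ x, t x * fderiv ℝ ζ x (bs j) = 0 := by
      rw [show (0 : ℝ) = ∫ _ : E m, (0 : ℝ) by simp]
      refine integral_congr_ae ?_
      filter_upwards [h0] with x hx
      by_cases hxK : x ∈ U \ K
      · rw [hx hxK, zero_mul]
      · rw [TF_dzero hζ _ hxK, mul_zero]
    linarith

lemma fd_swap (ρ : E m → ℝ) (hρ : ContDiff ℝ (⊤ : ℕ∞) ρ) (z w : E m) :
    HasFDerivAt (fun w => ρ (z - w)) (-(fderiv ℝ ρ (z - w))) w := by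
  have hd : Differentiable ℝ ρ := hρ.differentiable (by simp)
  have h1 : HasFDerivAt (fun w : E m => z - w) (-(ContinuousLinearMap.id ℝ (E m))) w :=
    (hasFDerivAt_id w).const_sub z
  have h2 : HasFDerivAt (fun w => ρ (z - w)) ((fderiv ℝ ρ (z - w)).comp
      (-(ContinuousLinearMap.id ℝ (E m)))) w := (hd (z - w)).hasFDerivAt.comp w h1
  have e : (fderiv ℝ ρ (z - w)).comp (-(ContinuousLinearMap.id ℝ (E m))) =
      -(fderiv ℝ ρ (z - w)) := by
    ext v
    simp
  rw [e] at h2
  exact h2

/-- derivative of the mollification of a compactly supported function -/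
lemma conv_grad (hU : IsOpen U) {t : E m → ℝ} {gt : Fin m → E m → ℝ}
    (ht : W12 U t gt) {K : Set (E m)} (hK : IsCompact K) (hKU : K ⊆ U)
    (h0 : ∀ᵐ x, x ∈ U \ K → t x = 0) (j : Fin m) (h0j : ∀ᵐ x, x ∈ U \ K → gt j x = 0)
    (ρ : E m → ℝ) (hρ : ContDiff ℝ (⊤ : ℕ∞) ρ) (hρc : HasCompactSupport ρ) (z : E m) :
    fderiv ℝ (ρ ⋆[ContinuousLinearMap.lsmul ℝ ℝ, volume] K.indicator t) z (bs j) =
      (ρ ⋆[ContinuousLinearMap.lsmul ℝ ℝ, volume] K.indicator (gt j)) z := by
  obtain ⟨χ, hχ, hχc, hχU, hχ1, hχd⟩ := exists_cut U K hU hKU hK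
  have hρ1 : ContDiff ℝ 1 ρ := hρ.of_le (by exact_mod_cast le_top)
  have hloc : ∀ f : E m → ℝ, MemLp f 2 (volume.restrict U) →
      LocallyIntegrable (K.indicator f) volume := by
    intro f hf
    have h1 : MemLp (K.indicator f) 2 volume := by
      rw [memLp_indicator_iff_restrict hK.measurableSet]
      exact hf.mono_measure (Measure.restrict_mono hKU le_rfl)
    exact h1.locallyIntegrable (by norm_num)
  have hui := hloc t ht.f2
  have hder := hρc.hasFDerivAt_convolution_left (ContinuousLinearMap.lsmul ℝ ℝ) hρ1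
    hui (μ := volume) z
  rw [hder.fderiv]
  have hρd : Continuous (fderiv ℝ ρ) := hρ.continuous_fderiv (by simp)
  have e1 : (fderiv ℝ ρ ⋆[ContinuousLinearMap.precompL (E m) (ContinuousLinearMap.lsmul ℝ ℝ),
      volume] K.indicator t) z (bs j) = ∫ s, fderiv ℝ ρ s (bs j) * K.indicator t (z - s) := by
    have hconv : ConvolutionExistsAt (fderiv ℝ ρ) (K.indicator t) z
        (ContinuousLinearMap.precompL (E m) (ContinuousLinearMap.lsmul ℝ ℝ)) volume :=
      (hρc.fderiv ℝ).convolutionExists_left _ hρd hui z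
    rw [convolution, ContinuousLinearMap.integral_apply hconv]
    rfl
  have e2 : ∫ s, fderiv ℝ ρ s (bs j) * K.indicator t (z - s) =
      ∫ w, fderiv ℝ ρ (z - w) (bs j) * K.indicator t w := by
    rw [← integral_sub_left_eq_self (fun s => fderiv ℝ ρ s (bs j) * K.indicator t (z - s)) volume z]
    simp
  have e3 : (ρ ⋆[ContinuousLinearMap.lsmul ℝ ℝ, volume] K.indicator (gt j)) z =
      ∫ w, ρ (z - w) * K.indicator (gt j) w := by
    rw [convolution, ← integral_sub_left_eq_self _ volume z]
    refine integral_congr_ae (Eventually.of_forall fun w => ?_)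
    simp
  rw [e1, e2, e3]
  set η : E m → ℝ := fun w => χ w * ρ (z - w) with hη
  have hrs : ContDiff ℝ (⊤ : ℕ∞) fun w => ρ (z - w) := hρ.comp (contDiff_const.sub contDiff_id)
  have hηT : TF U η := ⟨hχ.mul hrs, hχc.mul_right, (tsupport_mul_subset_left).trans hχU⟩
  have hibp := ht.ibp η hηT j
  have hdη : ∀ w ∈ K, fderiv ℝ η w (bs j) = -(fderiv ℝ ρ (z - w) (bs j)) := by
    intro w hw
    rw [hη, fderiv_fun_mul ((hχ.differentiable (by simp)) w) ((hrs.differentiable (by simp)) w),
      hχd w hw, hχ1 w hw, (fd_swap ρ hρ z w).fderiv]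
    simp
  have a1 : ∫ x, t x * fderiv ℝ η x (bs j) =
      -∫ w, fderiv ℝ ρ (z - w) (bs j) * K.indicator t w := by
    rw [← integral_neg]
    refine integral_congr_ae ?_
    filter_upwards [h0] with w hw
    by_cases h1 : w ∈ K
    · rw [hdη w h1, indicator_of_mem h1]
      ring
    · rw [indicator_of_notMem h1]
      by_cases h2 : w ∈ U
      · rw [hw ⟨h2, h1⟩]
        ring
      · rw [TF_dzero hηT _ h2]
        ring
  have a2 : ∫ x, gt j x * η x = ∫ w, ρ (z - w) * K.indicator (gt j) w := by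
    refine integral_congr_ae ?_
    filter_upwards [h0j] with w hw
    by_cases h1 : w ∈ K
    · rw [indicator_of_mem h1, hη]
      simp only
      rw [hχ1 w h1]
      ring
    · rw [indicator_of_notMem h1]
      by_cases h2 : w ∈ U
      · rw [hw ⟨h2, h1⟩]
        ring
      · rw [TF_zero hηT h2]
        ring
  linarith

/-- the key identity -/
lemma key (hUNQ : Stmt_UNQ) (hU : IsOpen U) {s t : E m → ℝ} {gs gt : Fin m → E m → ℝ}
    (hs : W12 U s gs) (ht : W12 U t gt) {K : Set (E m)} (hK : IsCompact K) (hKU : K ⊆ U)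
    (h0 : ∀ᵐ x, x ∈ U \ K → t x = 0) (i j : Fin m) :
    ∫ x in U, gs i x * gt j x = ∫ x in U, gs j x * gt i x := by
  have hoff := fun j => grad_off hUNQ hU ht hK h0 j
  have hmem : ∀ f : E m → ℝ, MemLp f 2 (volume.restrict U) → MemLp (K.indicator f) 2 volume := by
    intro f hf
    rw [memLp_indicator_iff_restrict hK.measurableSet]
    exact hf.mono_measure (Measure.restrict_mono hKU le_rfl)
  set A : Fin m → ℝ := fun i => Real.sqrt (∫ x in U, (gs i x) ^ 2) with hA
  have hA0 : ∀ i, 0 ≤ A i := fun i => Real.sqrt_nonneg _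
  -- the integrals only see `K`
  have hind : ∀ i j, ∫ x in U, gs i x * gt j x = ∫ x in U, gs i x * K.indicator (gt j) x := by
    intro i j
    refine integral_congr_ae ?_
    rw [EventuallyEq, ae_restrict_iff' hU.measurableSet]
    filter_upwards [hoff j] with x hx hxU
    by_cases h1 : x ∈ K
    · rw [indicator_of_mem h1]
    · rw [indicator_of_notMem h1, hx ⟨hxU, h1⟩]
  have hclose : ∀ ε > 0, |(∫ x in U, gs i x * gt j x) - ∫ x in U, gs j x * gt i x| ≤
      (A i + A j) * ε := by
    intro ε hε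
    have hε2 : 0 < ε ^ 2 := by positivity
    obtain ⟨δ1, hδ1, h1⟩ := mol (K.indicator (gt j)) (hmem _ (ht.g2 j)) (ε ^ 2) hε2
    obtain ⟨δ2, hδ2, h2⟩ := mol (K.indicator (gt i)) (hmem _ (ht.g2 i)) (ε ^ 2) hε2
    obtain ⟨δ3, hδ3, h3⟩ := hK.exists_cthickening_subset_open hU hKU
    set δ := min (min δ1 δ2) δ3 with hδdef
    have hδ : 0 < δ := lt_min (lt_min hδ1 hδ2) hδ3
    let φ : ContDiffBump (0 : E m) := ⟨δ / 4, δ / 2, by positivity, by linarith⟩
    have hφ : φ.rOut = δ / 2 := rfl
    have hφ1 : φ.rOut < δ1 := by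
      rw [hφ]
      linarith [min_le_left (min δ1 δ2) δ3, min_le_left δ1 δ2]
    have hφ2 : φ.rOut < δ2 := by
      rw [hφ]
      linarith [min_le_left (min δ1 δ2) δ3, min_le_right δ1 δ2]
    have hφ3 : φ.rOut ≤ δ3 := by
      rw [hφ]
      linarith [min_le_right (min δ1 δ2) δ3]
    obtain ⟨m1, b1⟩ := h1 φ hφ1
    obtain ⟨m2, b2⟩ := h2 φ hφ2
    have hρ : ContDiff ℝ (⊤ : ℕ∞) (φ.normed volume) := φ.contDiff_normed
    have hρc : HasCompactSupport (φ.normed (volume : Measure (E m))) :=
      φ.hasCompactSupport_normed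
    set T : E m → ℝ := φ.normed volume ⋆[ContinuousLinearMap.lsmul ℝ ℝ, volume] K.indicator t
      with hT
    have hTd : ∀ k z, fderiv ℝ T z (bs k) =
        (φ.normed volume ⋆[ContinuousLinearMap.lsmul ℝ ℝ, volume] K.indicator (gt k)) z :=
      fun k z => conv_grad hU ht hK hKU h0 k (hoff k) _ hρ hρc z
    have hTF : TF U T := by
      have hcs : tsupport T ⊆ cthickening δ3 K := by
        apply closure_minimal _ isClosed_cthickening
        refine (support_convolution_subset _).trans ?_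
        rintro x ⟨a, ha, b, hb, rfl⟩
        rw [φ.support_normed_eq, mem_ball_zero_iff] at ha
        have hbK : b ∈ K := by
          by_contra h
          exact hb (indicator_of_notMem h _)
        refine mem_cthickening_of_dist_le _ b _ _ hbK ?_
        have : dist ((fun x1 x2 => x1 + x2) a b) b = ‖a‖ := by
          simp [dist_eq_norm]
        rw [this]
        linarith
      refine ⟨?_, ?_, hcs.trans h3⟩
      · exact hρc.contDiff_convolution_left _ hρ ((hmem _ ht.f2).locallyIntegrable (by norm_num))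
      · exact IsCompact.of_isClosed_subset hK.cthickening (isClosed_tsupport _) hcs
    have hsm := smooth hs hTF i j
    rw [intU (fun x hx => TF_dzero hTF _ hx), intU (fun x hx => TF_dzero hTF _ hx)] at hsm
    have hcs : ∀ (k l : Fin m), MemLp (fun z =>
        (φ.normed volume ⋆[ContinuousLinearMap.lsmul ℝ ℝ, volume] K.indicator (gt l)) z -
          K.indicator (gt l) z) 2 volume →
        ∫ z, ((φ.normed volume ⋆[ContinuousLinearMap.lsmul ℝ ℝ, volume] K.indicator (gt l)) z -
          K.indicator (gt l) z) ^ 2 ≤ ε ^ 2 →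
        |(∫ x in U, gs k x * fderiv ℝ T x (bs l)) - ∫ x in U, gs k x * gt l x| ≤ A k * ε := by
      intro k l hm hb
      have i1 : Integrable (fun x => gs k x * fderiv ℝ T x (bs l)) (volume.restrict U) :=
        (hs.g2 k).integrable_mul (TF_memLp (TF_fderiv hTF (bs l)) _)
      have i2 : Integrable (fun x => gs k x * K.indicator (gt l) x) (volume.restrict U) :=
        (hs.g2 k).integrable_mul ((hmem _ (ht.g2 l)).restrict _)
      rw [hind k l, ← integral_sub i1 i2]
      have e : ∀ x, gs k x * fderiv ℝ T x (bs l) - gs k x * K.indicator (gt l) x =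
          gs k x * ((φ.normed volume ⋆[ContinuousLinearMap.lsmul ℝ ℝ, volume]
            K.indicator (gt l)) x - K.indicator (gt l) x) := by
        intro x
        rw [hTd]
        ring
      simp only [e]
      have hCS := integral_mul_le_Lp_mul_Lq_of_nonneg (μ := volume.restrict U)
        (p := 2) (q := 2) (f := fun x => |gs k x|)
        (g := fun x => |(φ.normed volume ⋆[ContinuousLinearMap.lsmul ℝ ℝ, volume]
            K.indicator (gt l)) x - K.indicator (gt l) x|)
        (by constructor <;> norm_num) (Eventually.of_forall fun x => abs_nonneg _)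
        (Eventually.of_forall fun x => abs_nonneg _)
        (by simpa using (show MemLp (fun x => |gs k x|) 2 (volume.restrict U) from
          (hs.g2 k).abs))
        (by simpa using (show MemLp (fun x => |(φ.normed volume ⋆[ContinuousLinearMap.lsmul ℝ ℝ,
            volume] K.indicator (gt l)) x - K.indicator (gt l) x|) 2 (volume.restrict U) from
          (hm.restrict U).abs))
      have e1 : |∫ x in U, gs k x * ((φ.normed volume ⋆[ContinuousLinearMap.lsmul ℝ ℝ, volume]
            K.indicator (gt l)) x - K.indicator (gt l) x)| ≤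
          ∫ x in U, |gs k x| * |(φ.normed volume ⋆[ContinuousLinearMap.lsmul ℝ ℝ, volume]
            K.indicator (gt l)) x - K.indicator (gt l) x| := by
        refine (abs_integral_le_integral_abs).trans (le_of_eq ?_)
        refine integral_congr_ae (Eventually.of_forall fun x => ?_)
        simp only [abs_mul]
      refine e1.trans (hCS.trans ?_)
      have e2 : (∫ x in U, |gs k x| ^ (2 : ℝ)) ^ (1 / (2 : ℝ)) = A k := by
        rw [hA]
        simp only
        rw [Real.sqrt_eq_rpow]
        simp [sq_abs]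
      rw [e2]
      refine mul_le_mul_of_nonneg_left ?_ (hA0 k)
      have e3 : (∫ x in U, |(φ.normed volume ⋆[ContinuousLinearMap.lsmul ℝ ℝ, volume]
            K.indicator (gt l)) x - K.indicator (gt l) x| ^ (2 : ℝ)) ≤ ε ^ 2 := by
        refine le_trans (le_of_eq ?_) ((setIntegral_le_integral (s := U) hm.integrable_sq
          (Eventually.of_forall fun x => sq_nonneg _)).trans hb)
        refine integral_congr_ae (Eventually.of_forall fun x => ?_)
        simp [sq_abs]
      calc _ ≤ (ε ^ 2) ^ (1 / (2 : ℝ)) :=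
            Real.rpow_le_rpow (integral_nonneg fun x => by positivity) e3 (by norm_num)
        _ = ε := by
            rw [← Real.sqrt_eq_rpow, Real.sqrt_sq hε.le]
    have c1 := hcs i j m1 b1
    have c2 := hcs j i m2 b2
    rw [hsm] at c1
    rw [abs_le] at c1 c2 ⊢
    constructor <;> linarith [c1.1, c1.2, c2.1, c2.2]
  have hz : |(∫ x in U, gs i x * gt j x) - ∫ x in U, gs j x * gt i x| ≤ 0 := by
    refine le_of_forall_pos_le_add fun ε hε => ?_
    have hp : 0 < A i + A j + 1 := by linarith [hA0 i, hA0 j]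
    have := hclose (ε / (A i + A j + 1)) (by positivity)
    refine this.trans ?_
    rw [zero_add, mul_div_assoc']
    rw [div_le_iff₀ hp]
    nlinarith
  have := abs_nonpos_iff.1 hz
  linarith

end NUL_

open NUL_ in
theorem nul_proof (hUNQ : Stmt_UNQ) : Stmt_NUL := by
  intro m n U c w w' g g' hU hc hw hw' hK
  obtain ⟨K, hKU, hKc, hK⟩ := hK
  -- the difference
  have hv : ∀ a, W12 U (fun x => w a x - w' a x) (fun i x => g a i x - g' a i x) := by
    intro a
    refine ⟨(hw a).f2.sub (hw' a).f2, fun j => ((hw a).g2 j).sub ((hw' a).g2 j), ?_⟩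
    intro ζ hζ j
    have i1 : ∀ (f η : E m → ℝ), MemLp f 2 (volume.restrict U) → TF U η →
        Integrable (fun x => f x * η x) := by
      intro f η hf hη
      have h1 : IntegrableOn (fun x => f x * η x) U :=
        hf.integrable_mul (TF_memLp hη _)
      rw [← integrableOn_univ]
      refine IntegrableOn.of_forall_sdiff_eq_zero h1 MeasurableSet.univ ?_
      rintro x ⟨_, hx⟩
      rw [TF_zero hη hx, mul_zero]
    have e1 : ∫ x, (w a x - w' a x) * fderiv ℝ ζ x (bs j) =
        (∫ x, w a x * fderiv ℝ ζ x (bs j)) - ∫ x, w' a x * fderiv ℝ ζ x (bs j) := by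
      rw [← integral_sub (i1 _ _ (hw a).f2 (TF_fderiv hζ (bs j)))
        (i1 _ _ (hw' a).f2 (TF_fderiv hζ (bs j)))]
      refine integral_congr_ae (Eventually.of_forall fun x => ?_)
      simp only
      ring
    have e2 : ∫ x, (g a j x - g' a j x) * ζ x =
        (∫ x, g a j x * ζ x) - ∫ x, g' a j x * ζ x := by
      rw [← integral_sub (i1 _ _ ((hw a).g2 j) hζ) (i1 _ _ ((hw' a).g2 j) hζ)]
      refine integral_congr_ae (Eventually.of_forall fun x => ?_)
      simp only
      ring
    rw [e1, e2, (hw a).ibp ζ hζ j, (hw' a).ibp ζ hζ j]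
    ring
  have hv0 : ∀ a, ∀ᵐ x, x ∈ U \ K → w a x - w' a x = 0 := by
    intro a
    filter_upwards [hK a] with x hx hxU
    rw [hx hxU, sub_self]
  have iI : ∀ a b i j, IntegrableOn (fun x => g a i x * g b j x) U :=
    fun a b i j => ((hw a).g2 i).integrable_mul ((hw b).g2 j)
  have iI' : ∀ a b i j, IntegrableOn (fun x => g' a i x * g' b j x) U :=
    fun a b i j => ((hw' a).g2 i).integrable_mul ((hw' b).g2 j)
  have iM : ∀ a b i j, IntegrableOn (fun x => g' a i x * g b j x) U :=
    fun a b i j => ((hw' a).g2 i).integrable_mul ((hw b).g2 j)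
  set I : Fin n → Fin n → Fin m → Fin m → ℝ := fun a b i j => ∫ x in U, g a i x * g b j x with hI
  set I' : Fin n → Fin n → Fin m → Fin m → ℝ :=
    fun a b i j => ∫ x in U, g' a i x * g' b j x with hI'
  have hmain : ∀ a b i j, I a b i j - I a b j i = I' a b i j - I' a b j i := by
    intro a b i j
    have k1 := key hUNQ hU (hw b) (hv a) hKc hKU (hv0 a) j i
    have k2 := key hUNQ hU (hw' a) (hv b) hKc hKU (hv0 b) i j
    have e1 : ∀ p q, ∫ x in U, g b p x * (g a q x - g' a q x) =
        I a b q p - ∫ x in U, g' a q x * g b p x := by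
      intro p q
      rw [hI]
      simp only
      rw [← integral_sub (iI a b q p) (iM a b q p)]
      refine integral_congr_ae (Eventually.of_forall fun x => ?_)
      simp only
      ring
    have e2 : ∀ p q, ∫ x in U, g' a p x * (g b q x - g' b q x) =
        (∫ x in U, g' a p x * g b q x) - I' a b p q := by
      intro p q
      rw [hI']
      simp only
      rw [← integral_sub (iM a b p q) (iI' a b p q)]
      refine integral_congr_ae (Eventually.of_forall fun x => ?_)
      simp only
      ring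
    rw [e1, e1] at k1
    rw [e2, e2] at k2
    linarith
  have hsum : ∀ (G : Fin n → Fin m → E m → ℝ), (∀ a b i j, IntegrableOn
      (fun x => G a i x * G b j x) U) →
      ∫ x in U, ∑ i, ∑ j, ∑ a, ∑ b, c i j a b * G a i x * G b j x =
      ∑ i, ∑ j, ∑ a, ∑ b, c i j a b * ∫ x in U, G a i x * G b j x := by
    intro G hG
    have e : ∀ i j a b, IntegrableOn (fun x => c i j a b * G a i x * G b j x) U := by
      intro i j a b
      have := (hG a b i j).const_mul (c i j a b)
      refine this.congr (Eventually.of_forall fun x => ?_)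
      simp only
      ring
    rw [integral_finsetSum _ fun i _ => integrable_finsetSum _ fun j _ =>
      integrable_finsetSum _ fun a _ => integrable_finsetSum _ fun b _ => e i j a b]
    refine Finset.sum_congr rfl fun i _ => ?_
    rw [integral_finsetSum _ fun j _ =>
      integrable_finsetSum _ fun a _ => integrable_finsetSum _ fun b _ => e i j a b]
    refine Finset.sum_congr rfl fun j _ => ?_
    rw [integral_finsetSum _ fun a _ => integrable_finsetSum _ fun b _ => e i j a b]
    refine Finset.sum_congr rfl fun a _ => ?_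
    rw [integral_finsetSum _ fun b _ => e i j a b]
    refine Finset.sum_congr rfl fun b _ => ?_
    rw [← integral_const_mul]
    refine integral_congr_ae (Eventually.of_forall fun x => ?_)
    simp only
    ring
  rw [hsum g iI, hsum g' iI']
  -- antisymmetry
  have hanti : ∀ (J : Fin n → Fin n → Fin m → Fin m → ℝ),
      2 * ∑ i, ∑ j, ∑ a, ∑ b, c i j a b * J a b i j =
      ∑ i, ∑ j, ∑ a, ∑ b, c i j a b * (J a b i j - J a b j i) := by
    intro J
    have e : ∑ i, ∑ j, ∑ a, ∑ b, c i j a b * J a b j i =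
        -∑ i, ∑ j, ∑ a, ∑ b, c i j a b * J a b i j := by
      rw [Finset.sum_comm, ← Finset.sum_neg_distrib]
      refine Finset.sum_congr rfl fun i _ => ?_
      rw [← Finset.sum_neg_distrib]
      refine Finset.sum_congr rfl fun j _ => ?_
      rw [← Finset.sum_neg_distrib]
      refine Finset.sum_congr rfl fun a _ => ?_
      rw [← Finset.sum_neg_distrib]
      refine Finset.sum_congr rfl fun b _ => ?_
      rw [hc j i a b]
      ring
    simp only [mul_sub, Finset.sum_sub_distrib]
    rw [e]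
    ring
  have h1 := hanti I
  have h2 := hanti I'
  simp only [hmain] at h1
  rw [← h2] at h1
  have h3 : ∑ i, ∑ j, ∑ a, ∑ b, c i j a b * I a b i j =
      ∑ i, ∑ j, ∑ a, ∑ b, c i j a b * I' a b i j := by linarith
  exact h3

end Pool.Agent.CAL
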