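import Pool.Agent.CAL.Defs

/-!
Squad CAL: statements of the modules.
-/

set_option autoImplicit false

namespace Pool.Agent.CAL

open MeasureTheory Set Metric Filter Topology
open scoped ENNReal
open Pool.Agent.COB

/-! ### the metric `GG` -/

/-- formula: infimum over permutations, attained -/
def Stmt_GGF : Prop := ∀ (Q n : ℕ) (a b : Fin Q → E n),
  (∀ σ : Equiv.Perm (Fin Q), GG (tup a) (tup b) ≤ Real.sqrt (∑ i, ‖a i - b (σ i)‖ ^ 2)) ∧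
  ∃ σ : Equiv.Perm (Fin Q), GG (tup a) (tup b) = Real.sqrt (∑ i, ‖a i - b (σ i)‖ ^ 2)

/-- metric properties -/
def Stmt_GGM : Prop := ∀ (Q n : ℕ) (S T R : Sym (E n) Q),
  0 ≤ GG S T ∧ GG S S = 0 ∧ GG S T = GG T S ∧ GG S T ≤ GG S R + GG R T

/-- separability -/
def Stmt_GGS : Prop := ∀ (Q n : ℕ), ∃ D : ℕ → Sym (E n) Q, ∀ S : Sym (E n) Q, ∀ ε > 0,
  ∃ i, GG S (D i) < ε

/-! ### difference quotients and Almgren's Sobolev class -/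

/-- a bound on the distributional derivative bounds differences -/
def Stmt_DQA : Prop := ∀ (m : ℕ) (U : Set (E m)) (j : Fin m) (f : E m → ℝ) (h : E m → ℝ≥0∞),
  IsOpen U → MemLp f 2 (volume.restrict U) → Measurable h → ∫⁻ x in U, h x ^ 2 < ⊤ →
  DerivBound U (bs j) f h → ∀ t > 0, ∀ᵐ x, Seg U j t x →
    ENNReal.ofReal |f (x + t • (bs j : E m)) - f x| ≤
      ∫⁻ s in Ioc (0 : ℝ) t, h (x + s • (bs j : E m))

/-- the converse -/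
def Stmt_DQB : Prop := ∀ (m : ℕ) (U : Set (E m)) (j : Fin m) (f : E m → ℝ) (h : E m → ℝ≥0∞),
  IsOpen U → MemLp f 2 (volume.restrict U) → Measurable h → ∫⁻ x in U, h x ^ 2 < ⊤ →
  (∀ t > 0, ∀ᵐ x, Seg U j t x → ENNReal.ofReal |f (x + t • (bs j : E m)) - f x| ≤
      ∫⁻ s in Ioc (0 : ℝ) t, h (x + s • (bs j : E m))) →
  DerivBound U (bs j) f h

/-- weak derivative from a bound on the distributional derivative -/
def Stmt_WDX : Prop := ∀ (m : ℕ) (U : Set (E m)) (j : Fin m) (f : E m → ℝ) (h : E m → ℝ≥0∞),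
  IsOpen U → MemLp f 2 (volume.restrict U) → Measurable h → ∫⁻ x in U, h x ^ 2 < ⊤ →
  DerivBound U (bs j) f h →
  ∃ g : E m → ℝ, MemLp g 2 (volume.restrict U) ∧
    (∀ ζ, TF U ζ → ∫ x, f x * fderiv ℝ ζ x (bs j) = -∫ x, g x * ζ x) ∧
    ∀ᵐ x ∂(volume.restrict U), ENNReal.ofReal |g x| ≤ h x

/-- `1`-Lipschitz functions of a Sobolev map -/
def Stmt_SOB : Prop := ∀ (m n Q : ℕ) (U : Set (E m)) (g : E m → Sym (E n) Q)
    (h : Fin m → E m → ℝ≥0∞) (l : Sym (E n) Q → ℝ),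
  IsOpen U → volume U < ⊤ → MemW U g → Adm U g h → ∫⁻ x in U, ∑ j, h j x ^ 2 < ⊤ →
  (∀ S T, |l S - l T| ≤ GG S T) →
  ∃ G : Fin m → E m → ℝ, W12 U (fun x => l (g x)) G ∧
    ∀ j, ∀ᵐ x ∂(volume.restrict U), ENNReal.ofReal |G j x| ≤ h j x

/-- vector valued version -/
def Stmt_VEC : Prop := ∀ (m n Q N : ℕ) (U : Set (E m)) (g : E m → Sym (E n) Q)
    (h : Fin m → E m → ℝ≥0∞) (l : Fin N → Sym (E n) Q → ℝ),
  IsOpen U → volume U < ⊤ → MemW U g → Adm U g h → ∫⁻ x in U, ∑ j, h j x ^ 2 < ⊤ →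
  (∀ S T, ∑ c, (l c S - l c T) ^ 2 ≤ GG S T ^ 2) →
  ∃ G : Fin N → Fin m → E m → ℝ, (∀ c, W12 U (fun x => l c (g x)) (G c)) ∧
    ∀ j, ∀ᵐ x ∂(volume.restrict U), ENNReal.ofReal (∑ c, G c j x ^ 2) ≤ h j x ^ 2

/-! ### the map `ι` -/

/-- values of the symmetric functions -/
def Stmt_IOV : Prop := ∀ (n : ℕ) (p q : E n), av (tup ![p, q]) = (1 / 2 : ℝ) • (p + q) ∧
  (hd (tup ![p, q]) = (1 / 2 : ℝ) • (p - q) ∨ hd (tup ![p, q]) = -((1 / 2 : ℝ) • (p - q)))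

/-- `ι` is `1`-Lipschitz -/
def Stmt_IOT : Prop := ∀ (n : ℕ) (S T : Sym (E n) 2), ∑ c, (io S c - io T c) ^ 2 ≤ GG S T ^ 2

/-- lower bound for the energy of two valued maps -/
def Stmt_LO2 : Prop := ∀ (m n : ℕ) (U : Set (E m)) (g : E m → Sym (E n) 2),
  IsOpen U → volume U < ⊤ → MemW U g →
  ∃ G : Ix n → Fin m → E m → ℝ, (∀ c, W12 U (fun x => io (g x) c) (G c)) ∧
    ENNReal.ofReal (∫ x in U, ∑ c, ∑ j, G c j x ^ 2) ≤ energy U g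

/-- lower bound for the energy of single valued maps -/
def Stmt_LO1 : Prop := ∀ (m n : ℕ) (U : Set (E m)) (g : E m → Sym (E n) 1),
  IsOpen U → volume U < ⊤ → MemW U g →
  ∃ P : Fin n → Fin m → E m → ℝ, (∀ a, W12 U (fun x => lst (g x) 0 a) (P a)) ∧
    ENNReal.ofReal (∫ x in U, ∑ a, ∑ j, P a j x ^ 2) ≤ energy U g

/-! ### classical Sobolev calculus -/

/-- product rule -/
def Stmt_PRD : Prop := ∀ (m : ℕ) (U : Set (E m)) (u w : E m → ℝ) (gu gw : Fin m → E m → ℝ),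
  IsOpen U → W12 U u gu → W12 U w gw → ∀ ζ, TF U ζ → ∀ j,
    ∫ x, (u x * w x) * fderiv ℝ ζ x (bs j) = -∫ x, (u x * gw j x + gu j x * w x) * ζ x

/-- uniqueness of weak derivatives -/
def Stmt_UNQ : Prop := ∀ (m : ℕ) (U : Set (E m)) (g : E m → ℝ),
  IsOpen U → LocallyIntegrableOn g U → (∀ ζ, TF U ζ → ∫ x, g x * ζ x = 0) →
  ∀ᵐ x ∂(volume.restrict U), g x = 0

/-- the gradient vanishes a.e. on the zero set -/
def Stmt_ZER : Prop := ∀ (m : ℕ) (U : Set (E m)) (u : E m → ℝ) (g : Fin m → E m → ℝ),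
  IsOpen U → W12 U u g → ∀ j, ∀ᵐ x ∂(volume.restrict U), u x = 0 → g j x = 0

/-- null Lagrangians: the integral depends only on the boundary values -/
def Stmt_NUL : Prop := ∀ (m n : ℕ) (U : Set (E m)) (c : Fin m → Fin m → Fin n → Fin n → ℝ)
    (w w' : Fin n → E m → ℝ) (g g' : Fin n → Fin m → E m → ℝ),
  IsOpen U → (∀ i j a b, c i j a b = -c j i a b) → (∀ a, W12 U (w a) (g a)) →
  (∀ a, W12 U (w' a) (g' a)) →
  (∃ K ⊆ U, IsCompact K ∧ ∀ a, ∀ᵐ x, x ∈ U \ K → w a x = w' a x) →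
  ∫ x in U, ∑ i, ∑ j, ∑ a, ∑ b, c i j a b * g a i x * g b j x =
    ∫ x in U, ∑ i, ∑ j, ∑ a, ∑ b, c i j a b * g' a i x * g' b j x

/-- `NN` is a null Lagrangian -/
def Stmt_NLF : Prop := ∀ (d n : ℕ) (A : Fin d → (E n →L[ℝ] E n)), Cl A →
  ∃ c : Fin (d + 1) → Fin (d + 1) → Fin n → Fin n → ℝ, (∀ i j a b, c i j a b = -c j i a b) ∧
    ∀ q : Fin (d + 1) → E n, NN A q = ∑ i, ∑ j, ∑ a, ∑ b, c i j a b * q i a * q j b

/-- pointwise algebra: `M j` = derivative of `B = r ν ⊗ ν` -/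
def Stmt_PTA : Prop := ∀ (d n : ℕ) (A : Fin d → (E n →L[ℝ] E n)) (ν : E n) (r : ℝ)
    (M : Fin (d + 1) → Fin n → Fin n → ℝ) (r' : Fin (d + 1) → ℝ), Cl A → ‖ν‖ = 1 → r ≠ 0 →
  (∀ j a b, M j a b = M j b a) →
  (∀ j a b, ∑ c, (M j a c * (r * ν c * ν b) + (r * ν a * ν c) * M j c b) =
    r' j * (r * ν a * ν b) + r * M j a b) →
  (∀ j, ∑ a, M j a a = r' j) →
  ∃ q : Fin (d + 1) → E n, (∀ j a b, M j a b = ν a * q j b + q j a * ν b - r' j * ν a * ν b) ∧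
    (∀ j, inner ℝ ν (q j) = r' j) ∧
    (∀ j, (∑ a, ∑ b, M j a b ^ 2) + r' j ^ 2 = 2 * ‖q j‖ ^ 2) ∧
    ∑ c, NN A (fun j => WithLp.toLp 2 (fun a => M j a c)) = NN A q

/-- a.e. relations for the gradient of `ι ∘ w` -/
def Stmt_TAN : Prop := ∀ (m n : ℕ) (U : Set (E m)) (w : E m → Sym (E n) 2)
    (G : Ix n → Fin m → E m → ℝ), IsOpen U → (∀ c, W12 U (fun x => io (w x) c) (G c)) →
  ∀ᵐ x ∂(volume.restrict U), ∀ j,
    (∀ a b, bG G b x j a = bG G a x j b) ∧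
    (∀ a b, ∑ c, (bG G c x j a * (hd (w x) c * hd (w x) b / ‖hd (w x)‖) +
        (hd (w x) a * hd (w x) c / ‖hd (w x)‖) * bG G b x j c) =
      G (Sum.inr (Sum.inr ())) j x * (hd (w x) a * hd (w x) b / ‖hd (w x)‖) +
        ‖hd (w x)‖ * bG G b x j a) ∧
    (∑ a, bG G a x j a = G (Sum.inr (Sum.inr ())) j x) ∧
    (hd (w x) = 0 → (∀ a b, bG G b x j a = 0) ∧ G (Sum.inr (Sum.inr ())) j x = 0)

/-- calibration inequality -/
def Stmt_INE : Prop := ∀ (d n : ℕ) (A : Fin d → (E n →L[ℝ] E n)) (U : Set (E (d + 1)))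
    (w : E (d + 1) → Sym (E n) 2) (G : Ix n → Fin (d + 1) → E (d + 1) → ℝ),
  Cl A → IsOpen U → (∀ c, W12 U (fun x => io (w x) c) (G c)) →
  ∀ᵐ x ∂(volume.restrict U), TN A G x ≤ ∑ c, ∑ j, G c j x ^ 2

/-- the calibration density of `⟦p⟧ + ⟦q⟧` -/
def Stmt_EQN : Prop := ∀ (d n : ℕ) (A : Fin d → (E n →L[ℝ] E n)) (U : Set (E (d + 1)))
    (p q : E (d + 1) → E n) (P R : Fin n → Fin (d + 1) → E (d + 1) → ℝ)
    (G : Ix n → Fin (d + 1) → E (d + 1) → ℝ),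
  Cl A → IsOpen U → (∀ a, W12 U (fun x => p x a) (P a)) → (∀ a, W12 U (fun x => q x a) (R a)) →
  (∀ c, W12 U (fun x => io (tup ![p x, q x]) c) (G c)) →
  ∀ᵐ x ∂(volume.restrict U), TN A G x = NN A (vG P x) + NN A (vG R x)

/-- the integral of the calibration density depends only on the boundary values -/
def Stmt_TNI : Prop := ∀ (d n : ℕ) (A : Fin d → (E n →L[ℝ] E n)) (U : Set (E (d + 1)))
    (w w' : E (d + 1) → Sym (E n) 2) (G G' : Ix n → Fin (d + 1) → E (d + 1) → ℝ),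
  Cl A → IsOpen U → (∀ c, W12 U (fun x => io (w x) c) (G c)) →
  (∀ c, W12 U (fun x => io (w' x) c) (G' c)) →
  (∃ K ⊆ U, IsCompact K ∧ ∀ᵐ x, x ∈ U \ K → w x = w' x) →
  IntegrableOn (TN A G) U ∧ IntegrableOn (TN A G') U ∧
  ∫ x in U, TN A G x = ∫ x in U, TN A G' x

/-! ### traces and gluing on the flat box -/

/-- measure: a.e. with respect to `H^d` on the interface gives a.e. horizontal point -/
def Stmt_HTV : Prop := ∀ (d : ℕ) (S : Set (E (d + 1))),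
  volume (hz '' S) ≤ Measure.hausdorffMeasure (d : ℝ) S

/-- a function on a product box with vanishing weak vertical derivative does not depend on the
height (upper box) -/
def Stmt_CST : Prop := ∀ (d : ℕ) (f : E (d + 1) → ℝ), IntegrableOn f (Op d) →
  (∀ ζ, TF (Op d) ζ → ∫ x, f x * fderiv ℝ ζ x (bs (Fin.last d)) = 0) →
  ∃ u : (Fin d → ℝ) → ℝ, IntegrableOn u (Bx d) ∧ ∀ᵐ x, x ∈ Op d → f x = u (hz x)

/-- representation along vertical lines -/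
def Stmt_REP : Prop := ∀ (d : ℕ) (f : E (d + 1) → ℝ) (g : Fin (d + 1) → E (d + 1) → ℝ),
  W12 (Op d) f g → ∃ u : (Fin d → ℝ) → ℝ, IntegrableOn u (Bx d) ∧
    ∀ᵐ x, x ∈ Op d → f x = u (hz x) + ∫ s in (0 : ℝ)..yy x, g (Fin.last d) (mk (hz x) s)

/-- boundary term in the integration by parts -/
def Stmt_IBB : Prop := ∀ (d : ℕ) (f : E (d + 1) → ℝ) (g : Fin (d + 1) → E (d + 1) → ℝ)
    (u : (Fin d → ℝ) → ℝ), W12 (Op d) f g → IntegrableOn u (Bx d) →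
  (∀ᵐ x, x ∈ Op d → f x = u (hz x) + ∫ s in (0 : ℝ)..yy x, g (Fin.last d) (mk (hz x) s)) →
  ∀ ζ, TF (Om d) ζ →
    (∫ x in Op d, f x * fderiv ℝ ζ x (bs (Fin.last d)) =
      -(∫ x in Op d, g (Fin.last d) x * ζ x) - ∫ x' in Bx d, u x' * ζ (mk x' 0)) ∧
    ∀ j : Fin d, ∫ x in Op d, f x * fderiv ℝ ζ x (bs j.castSucc) =
      -∫ x in Op d, g j.castSucc x * ζ x

/-- trace in the sense of averages -/
def Stmt_LBP : Prop := ∀ (d : ℕ) (f : E (d + 1) → ℝ) (g : Fin (d + 1) → E (d + 1) → ℝ)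
    (u : (Fin d → ℝ) → ℝ), W12 (Op d) f g → IntegrableOn u (Bx d) →
  (∀ᵐ x, x ∈ Op d → f x = u (hz x) + ∫ s in (0 : ℝ)..yy x, g (Fin.last d) (mk (hz x) s)) →
  ∀ᵐ x', x' ∈ Bx d → Tendsto (fun r : ℝ =>
    (∫⁻ x in ball (mk x' 0) r ∩ Op d, ENNReal.ofReal |f x - u x'|) /
      ENNReal.ofReal (r ^ (d + 1))) (𝓝[>] 0) (𝓝 0)

/-- gluing across the interface -/
def Stmt_GLU : Prop := ∀ (d : ℕ) (f : E (d + 1) → ℝ) (g g' : Fin (d + 1) → E (d + 1) → ℝ)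
    (c : E (d + 1) → ℝ), W12 (Op d) f g → W12 (Omi d) f g' →
  (∀ᵐ p ∂((Measure.hausdorffMeasure (d : ℝ)).restrict (ga d)),
    Tendsto (fun r : ℝ => (∫⁻ x in ball p r ∩ Op d, ENNReal.ofReal |f x - c p|) /
      ENNReal.ofReal (r ^ (d + 1))) (𝓝[>] 0) (𝓝 0) ∧
    Tendsto (fun r : ℝ => (∫⁻ x in ball p r ∩ Omi d, ENNReal.ofReal |f x - c p|) /
      ENNReal.ofReal (r ^ (d + 1))) (𝓝[>] 0) (𝓝 0)) →
  W12 (Om d) f (fun j x => if 0 < yy x then g j x else g' j x)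

/-! ### the datum -/

/-- the extended datum is Lipschitz; its weak gradient -/
def Stmt_VVW : Prop := ∀ (d n : ℕ) (A : Fin d → (E n →L[ℝ] E n)) (f : (Fin d → ℝ) → E n)
    (v : (Fin d → ℝ) × ℝ → E n) (C : ℝ), Dat A f v C →
  (∃ K : ℝ, ∀ x y : E (d + 1), ‖VV v x - VV v y‖ ≤ K * ‖x - y‖) ∧
  ∃ R : Fin n → Fin (d + 1) → E (d + 1) → ℝ, (∀ a, W12 (Om d) (fun x => VV v x a) (R a)) ∧
    (∀ᵐ x, x ∈ Om d → ∀ a j, R a j x = fderiv ℝ (VV v) x (bs j) a) ∧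
    (∀ᵐ x, x ∈ Op d → dir A (vG R x) = 0)

/-- upper bound for the energy of the pair -/
def Stmt_UPP : Prop := ∀ (d n : ℕ) (A : Fin d → (E n →L[ℝ] E n)) (f : (Fin d → ℝ) → E n)
    (v : (Fin d → ℝ) × ℝ → E n) (C : ℝ) (R : Fin n → Fin (d + 1) → E (d + 1) → ℝ),
  Dat A f v C → (∀ a, W12 (Om d) (fun x => VV v x a) (R a)) →
  energy (Op d) (gp v) ≤ ENNReal.ofReal (∫ x in Op d, ∑ j, ‖vG R x j‖ ^ 2) ∧
  energy (Omi d) (gm d n) = 0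

/-- the pair is a pair, and is continuous up to the interface -/
def Stmt_PAI : Prop := ∀ (d n : ℕ) (A : Fin d → (E n →L[ℝ] E n)) (f : (Fin d → ℝ) → E n)
    (v : (Fin d → ℝ) × ℝ → E n) (C : ℝ), Dat A f v C →
  IsPair (Op d) (Omi d) (ga d) (fun x => f (hz x)) (gp v) (gm d n) ∧
  ContQ (Op d ∪ ga d) (gp v) ∧ ContQ (Omi d ∪ ga d) (gm d n)

/-- the glued two valued map of a competitor is Sobolev -/
def Stmt_CPG : Prop := ∀ (d n : ℕ) (A : Fin d → (E n →L[ℝ] E n)) (f : (Fin d → ℝ) → E n)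
    (v : (Fin d → ℝ) × ℝ → E n) (C : ℝ) (hp : E (d + 1) → Sym (E n) 2)
    (hm : E (d + 1) → Sym (E n) 1), Dat A f v C →
  IsPair (Op d) (Omi d) (ga d) (fun x => f (hz x)) hp hm →
  ∀ (G1 : Ix n → Fin (d + 1) → E (d + 1) → ℝ) (P : Fin n → Fin (d + 1) → E (d + 1) → ℝ),
  (∀ c, W12 (Op d) (fun x => io (hp x) c) (G1 c)) →
  (∀ a, W12 (Omi d) (fun x => lst (hm x) 0 a) (P a)) →
  ∃ G : Ix n → Fin (d + 1) → E (d + 1) → ℝ,
    (∀ c, W12 (Om d) (fun x => io (if 0 < yy x then hp x else tup ![lst (hm x) 0, VV v x]) c)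
      (G c)) ∧
    (∀ c, W12 (Omi d) (fun x => io (tup ![lst (hm x) 0, VV v x]) c) (G c)) ∧
    (∀ c j, ∀ᵐ x, x ∈ Op d → G c j x = G1 c j x)

/-- two valued map made of two Sobolev sheets -/
def Stmt_TWO : Prop := ∀ (m n : ℕ) (U : Set (E m)) (p q : E m → E n)
    (P R : Fin n → Fin m → E m → ℝ), IsOpen U → volume U < ⊤ →
  (∀ a, W12 U (fun x => p x a) (P a)) → (∀ a, W12 U (fun x => q x a) (R a)) →
  ∃ G : Ix n → Fin m → E m → ℝ, ∀ c, W12 U (fun x => io (tup ![p x, q x]) c) (G c)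

/-- minimality -/
def Stmt_MIN : Prop := ∀ (d n : ℕ) (A : Fin d → (E n →L[ℝ] E n)) (f : (Fin d → ℝ) → E n)
    (v : (Fin d → ℝ) × ℝ → E n) (C : ℝ), Cl A → Dat A f v C →
  DirMin (Om d) (Op d) (Omi d) (ga d) (fun x => f (hz x)) (gp v) (gm d n)

/-! ### the singular set -/

/-- points where zeros of `v` accumulate, while `v` does not vanish identically, are singular -/
def Stmt_SNG : Prop := ∀ (d n : ℕ) (v : (Fin d → ℝ) × ℝ → E n) (x : Fin d → ℝ), x ∈ Bx d →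
  (∀ r > 0, ∃ p : (Fin d → ℝ) × ℝ, ‖p.1 - x‖ < r ∧ 0 < p.2 ∧ p.2 < r ∧ v p = 0) →
  (∀ r > 0, ∃ p : (Fin d → ℝ) × ℝ, ‖p.1 - x‖ < r ∧ 0 < p.2 ∧ p.2 < r ∧ v p ≠ 0) →
  mk x 0 ∈ ga d ∧ ¬ RegPt (Op d) (Omi d) (gp v) (gm d n) (mk x 0)

/-- the flat interface splits the box -/
def Stmt_SPL : Prop := ∀ (d : ℕ), IsSplit (Om d) (Op d) (Omi d) (ga d) ∧
  IsConnected (Om d) ∧ volume (Om d) < ⊤ ∧ MeasurableSet (ga d)

/-- Clifford matrices exist -/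
def Stmt_CLM : Prop := ∀ d : ℕ, ∃ A : Fin d → (E (2 ^ d) →L[ℝ] E (2 ^ d)), Cl A

/-- Part III: a datum with a large set of accumulation points of zeros gives a Dir-minimising pair
with a large boundary singular set -/
def Stmt_CAL : Prop := ∀ (d n : ℕ) (A : Fin d → (E n →L[ℝ] E n)) (f : (Fin d → ℝ) → E n)
    (v : (Fin d → ℝ) × ℝ → E n) (C : ℝ) (Z : Set (Fin d → ℝ)), Cl A → Dat A f v C →
  Z ⊆ Bx d → 0 < volume Z →
  (∀ x ∈ Z, ∀ r > 0, ∃ p : (Fin d → ℝ) × ℝ, ‖p.1 - x‖ < r ∧ 0 < p.2 ∧ p.2 < r ∧ v p = 0) →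
  (∀ x ∈ Z, ∀ r > 0, ∃ p : (Fin d → ℝ) × ℝ, ‖p.1 - x‖ < r ∧ 0 < p.2 ∧ p.2 < r ∧ v p ≠ 0) →
  IsSplit (Om d) (Op d) (Omi d) (ga d) ∧ IsC3On (ga d) (fun x => f (hz x)) ∧
  ContQ (Op d ∪ ga d) (gp v) ∧ ContQ (Omi d ∪ ga d) (gm d n) ∧
  DirMin (Om d) (Op d) (Omi d) (ga d) (fun x => f (hz x)) (gp v) (gm d n) ∧
  0 < Measure.hausdorffMeasure (d : ℝ)
    {p | p ∈ ga d ∧ ¬ RegPt (Op d) (Omi d) (gp v) (gm d n) p}

end Pool.Agent.CAL
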