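import Pool.Agent.COB.Thm

/-!
Public definitions: `(Q - 1/2)`-valued Sobolev pairs with interface `(ga, φ)`, traces,
Dir-minimising pairs and regular boundary points (all in the sense of the problem, competitors are
arbitrary Sobolev pairs).  `E m = ℝᵐ`, `Sym V Q` = unordered `Q`-tuples, `GG` = the metric `𝒢`,
`Adm`, `energy` = Almgren's Sobolev class and Dirichlet energy are those of `Pool.Agent.COB`.
-/

namespace Pool.Agent.CAL

open MeasureTheory Set Metric Filter Topology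
open scoped ENNReal
open Pool.Agent.COB

variable {m d Q k : ℕ} {V : Type*} [NormedAddCommGroup V]

/-- `g` belongs to `W^{1,2}(U, 𝒜_Q(V))`: it is measurable, `𝒢(g, Q⟦0⟧)` is in `L²(U)` and the
Dirichlet energy is finite. -/
structure MemW (U : Set (E m)) (g : E m → Sym V Q) : Prop where
  meas : ∀ T : Sym V Q, AEStronglyMeasurable (fun x => GG (g x) T) (volume.restrict U)
  sq : ∫⁻ x in U, ENNReal.ofReal (GG (g x) (Sym.replicate Q 0) ^ 2) < ⊤
  en : energy U g < ⊤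

/-- `τ` is the trace of `g` on the hypersurface `ga` from the side `U`: at `H^(m-1)`-almost every
point `p` of `ga` (here `m = d + 1`) the averages of `𝒢(g, τ(p))` over the half balls
`B_r(p) ∩ U` tend to `0`. -/
def HasTrace (U ga : Set (E (d + 1))) (g τ : E (d + 1) → Sym V Q) : Prop :=
  ∀ᵐ p ∂((Measure.hausdorffMeasure (d : ℝ)).restrict ga),
    Tendsto (fun r : ℝ => (∫⁻ x in ball p r ∩ U, ENNReal.ofReal (GG (g x) (τ p))) /
      ENNReal.ofReal (r ^ (d + 1))) (𝓝[>] 0) (𝓝 0)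

/-- `ga` is a `C³` hypersurface in the open set `Om` which splits it into the disjoint open sets
`Op` and `Omi`: near each point of `ga` the three sets are `{f > 0}`, `{f < 0}` and `{f = 0}`
for a `C³` function `f` with non-zero differential. -/
structure IsSplit (Om Op Omi ga : Set (E m)) : Prop where
  openOm : IsOpen Om
  openOp : IsOpen Op
  openOmi : IsOpen Omi
  union : Om = Op ∪ ga ∪ Omi
  disj1 : Disjoint Op ga
  disj2 : Disjoint Omi ga
  disj3 : Disjoint Op Omi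
  loc : ∀ p ∈ ga, ∃ U : Set (E m), IsOpen U ∧ p ∈ U ∧ ∃ f : E m → ℝ, ContDiffOn ℝ 3 f U ∧
    fderiv ℝ f p ≠ 0 ∧ ∀ x ∈ U, (x ∈ Op ↔ 0 < f x) ∧ (x ∈ Omi ↔ f x < 0) ∧ (x ∈ ga ↔ f x = 0)

/-- `φ` is a `C³` function on the hypersurface `ga`. -/
def IsC3On [NormedSpace ℝ V] (ga : Set (E m)) (φ : E m → V) : Prop :=
  ∀ p ∈ ga, ∃ U : Set (E m), IsOpen U ∧ p ∈ U ∧ ∃ ψ : E m → V, ContDiffOn ℝ 3 ψ U ∧
    ∀ x ∈ U ∩ ga, φ x = ψ x

/-- `(gp, gm)` is a `(Q - 1/2)`-valued function with interface `(ga, φ)`, where `Q = k + 1`: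
`gp ∈ W^{1,2}(Op, 𝒜_Q)`, `gm ∈ W^{1,2}(Omi, 𝒜_{Q-1})` and `gp|ga = gm|ga + ⟦φ⟧`. -/
structure IsPair (Op Omi ga : Set (E (d + 1))) (φ : E (d + 1) → V)
    (gp : E (d + 1) → Sym V (k + 1)) (gm : E (d + 1) → Sym V k) : Prop where
  wp : MemW Op gp
  wm : MemW Omi gm
  bd : ∃ τ : E (d + 1) → Sym V k, HasTrace Omi ga gm τ ∧ HasTrace Op ga gp (fun p => φ p ::ₛ τ p)

/-- The pair is Dir-minimising in `Om`: its energy is not larger than that of any other pair with
the same interface which is equal to it (almost everywhere) off a compact subset of `Om`. -/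
def DirMin (Om Op Omi ga : Set (E (d + 1))) (φ : E (d + 1) → V)
    (gp : E (d + 1) → Sym V (k + 1)) (gm : E (d + 1) → Sym V k) : Prop :=
  IsPair Op Omi ga φ gp gm ∧ ∀ (hp : E (d + 1) → Sym V (k + 1)) (hm : E (d + 1) → Sym V k),
    IsPair Op Omi ga φ hp hm →
    (∃ K ⊆ Om, IsCompact K ∧ (∀ᵐ x, x ∈ Op \ K → hp x = gp x) ∧
      (∀ᵐ x, x ∈ Omi \ K → hm x = gm x)) →
    energy Op gp + energy Omi gm ≤ energy Op hp + energy Omi hm

/-- The point `p` is a regular boundary point: on some ball `B_r(p)` there are maps `u i`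
(`i < k`, on the whole ball) and `w` (on the upper half ball) with (i) `gp = ⟦w⟧ + ∑ ⟦u i⟧` on
`B_r⁺`, `gm = ∑ ⟦u i⟧` on `B_r⁻`; (ii) the graphs of `u i`, `u j` are disjoint or equal; (iii) the
graph of `w` is disjoint from or contained in the graph of `u i`. -/
def RegPt (Op Omi : Set (E m)) (gp : E m → Sym V (k + 1)) (gm : E m → Sym V k)
    (p : E m) : Prop :=
  ∃ r > 0, ∃ (u : Fin k → E m → V) (w : E m → V),
    (∀ x ∈ ball p r ∩ Op, gp x = w x ::ₛ tup (fun i => u i x)) ∧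
    (∀ x ∈ ball p r ∩ Omi, gm x = tup (fun i => u i x)) ∧
    (∀ i j, (∀ x ∈ ball p r, u i x = u j x) ∨ (∀ x ∈ ball p r, u i x ≠ u j x)) ∧
    (∀ i, (∀ x ∈ ball p r ∩ Op, w x = u i x) ∨ (∀ x ∈ ball p r ∩ Op, w x ≠ u i x))

end Pool.Agent.CAL
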